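import Pool.Agent.Lib.MP_74e69a_co.Kuhn

/-! Closed covers of a cube. -/

namespace Pool.Agent.NapKL

open Set Metric

/-- the grid point, clamped to the cube -/
noncomputable def mir_pt {n : ℕ} (N : ℕ) (z : Fin n → ℕ) : Fin n → ℝ :=
  fun j => ((min (z j) (N + 1) : ℕ) : ℝ) / ((N : ℝ) + 1)

theorem mir_mem {n : ℕ} (N : ℕ) (z : Fin n → ℕ) : mir_pt N z ∈ Icc (0 : Fin n → ℝ) 1 := by
  refine ⟨fun j => by unfold mir_pt; positivity, fun j => ?_⟩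
  rw [mir_pt, Pi.one_apply, div_le_one (by positivity), ← Nat.cast_succ]
  exact Nat.cast_le.2 (min_le_right _ _)

theorem mir_dist {n : ℕ} (N : ℕ) {p a : Fin n → ℕ} (h : ∀ j, p j ≤ a j ∧ a j ≤ p j + 1) :
    dist (mir_pt N p) (mir_pt N a) ≤ 1 / ((N : ℝ) + 1) := by
  refine (dist_pi_le_iff (by positivity)).2 fun j => ?_
  have h1 : min (p j) (N + 1) ≤ min (a j) (N + 1) := by have := h j; omega
  have h2 : min (a j) (N + 1) ≤ min (p j) (N + 1) + 1 := by have := h j; omega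
  have h3 : ((min (p j) (N + 1) : ℕ) : ℝ) ≤ (min (a j) (N + 1) : ℕ) := by exact_mod_cast h1
  have h4 : ((min (a j) (N + 1) : ℕ) : ℝ) ≤ (min (p j) (N + 1) : ℕ) + 1 := by exact_mod_cast h2
  rw [Real.dist_eq, mir_pt, mir_pt, ← sub_div, abs_div, abs_of_pos (by positivity : (0 : ℝ) < N + 1)]
  exact div_le_div_of_nonneg_right (abs_le.2 ⟨by linarith, by linarith⟩) (by positivity)

theorem mir_lim {n : ℕ} {S : Set (Fin n → ℝ)} (hS : IsClosed S) {x : ℕ → Fin n → ℝ}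
    (h : ∀ N, ∃ a ∈ S, dist (x N) a ≤ 1 / ((N : ℝ) + 1)) {φ : ℕ → ℕ} (hφ : StrictMono φ)
    {y : Fin n → ℝ} (hy : Filter.Tendsto (x ∘ φ) Filter.atTop (nhds y)) : y ∈ S := by
  choose a h1 h2 using h
  refine hS.mem_of_tendsto (hy.congr_dist (f₂ := a ∘ φ) ?_)
    (Filter.Eventually.of_forall fun k => h1 _)
  exact squeeze_zero (fun _ => dist_nonneg) (fun k => h2 (φ k))
    ((tendsto_one_div_add_atTop_nhds_zero_nat (𝕜 := ℝ)).comp hφ.tendsto_atTop)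

/-- `MP_74e69a_co.kuhn` on the grids `1 / (N + 1)`, compactness -/
theorem cube_cover {n : ℕ} {A B : Fin n → Set (Fin n → ℝ)} (hA : ∀ i, IsClosed (A i))
    (hB : ∀ i, IsClosed (B i)) (hc : ∀ i, ∀ x ∈ Icc (0 : Fin n → ℝ) 1, x ∈ A i ∨ x ∈ B i)
    (h0 : ∀ i, ∀ x ∈ Icc (0 : Fin n → ℝ) 1, x i = 0 → x ∈ A i)
    (h1 : ∀ i, ∀ x ∈ Icc (0 : Fin n → ℝ) 1, x i = 1 → x ∈ B i) :
    ∃ x ∈ Icc (0 : Fin n → ℝ) 1, ∀ i, x ∈ A i ∧ x ∈ B i := by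
  have key : ∀ N : ℕ, ∃ x ∈ Icc (0 : Fin n → ℝ) 1, ∀ i,
      (∃ a ∈ A i, dist x a ≤ 1 / ((N : ℝ) + 1)) ∧ ∃ b ∈ B i, dist x b ≤ 1 / ((N : ℝ) + 1) := by
    intro N
    obtain ⟨p, hp⟩ := Pool.Agent.Lib.MP_74e69a_co.kuhn (fun _ : Fin n => N + 1)
      (fun i z => z i ≠ 0 ∧ mir_pt N z ∈ B i) fun i z _ => ⟨fun e h => h.1 e, fun e =>
        ⟨by omega, h1 i _ (mir_mem N z) (by
          rw [mir_pt, e, min_self, Nat.cast_add, Nat.cast_one, div_self (by positivity)])⟩⟩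
    refine ⟨mir_pt N p, mir_mem N p, fun i => ?_⟩
    obtain ⟨a, b, ha, hb, la, lb⟩ := hp i
    refine ⟨⟨mir_pt N a, ?_, mir_dist N ha⟩, mir_pt N b, lb.2, mir_dist N hb⟩
    by_cases e : a i = 0
    · exact h0 i _ (mir_mem N a) (by simp [mir_pt, e])
    · exact (hc i _ (mir_mem N a)).resolve_right fun h => la ⟨e, h⟩
  choose x hx h using key
  obtain ⟨y, hy, φ, hφ, hl⟩ := isCompact_Icc.tendsto_subseq hx
  exact ⟨y, hy, fun i => ⟨mir_lim (hA i) (fun N => (h N i).1) hφ hl,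
    mir_lim (hB i) (fun N => (h N i).2) hφ hl⟩⟩

/-- the unit cube -/
def cube : Set (ℝ × ℝ × ℝ) := Icc 0 1 ×ˢ Icc 0 1 ×ˢ Icc 0 1

theorem isCompact_cube : IsCompact cube := isCompact_Icc.prod (isCompact_Icc.prod isCompact_Icc)

/-- Third pair of sets: compare the distances to `(N ∩ cube) ∪ {x.1 = 0}` and to
`(Y ∩ cube) ∪ {x.1 = 1}`. -/
theorem cube_link {A₁ B₁ A₂ B₂ Y N : Set (ℝ × ℝ × ℝ)} (a1 : IsClosed A₁) (b1 : IsClosed B₁)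
    (a2 : IsClosed A₂) (b2 : IsClosed B₂) (hY : IsClosed Y) (hN : IsClosed N)
    (c1 : ∀ x ∈ cube, x ∈ A₁ ∨ x ∈ B₁) (c2 : ∀ x ∈ cube, x ∈ A₂ ∨ x ∈ B₂)
    (f1 : ∀ x ∈ cube, x.2.1 = 0 → x ∈ A₁) (g1 : ∀ x ∈ cube, x.2.1 = 1 → x ∈ B₁)
    (f2 : ∀ x ∈ cube, x.2.2 = 0 → x ∈ A₂) (g2 : ∀ x ∈ cube, x.2.2 = 1 → x ∈ B₂)
    (hZ : ∀ x ∈ cube, x ∈ A₁ → x ∈ B₁ → x ∈ A₂ → x ∈ B₂ → x ∈ Y ∨ x ∈ N)
    (hd : ∀ x ∈ cube, x ∈ Y → x ∉ N) (h0 : ∀ x ∈ cube, x.1 = 0 → x ∉ Y)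
    (h1 : ∀ x ∈ cube, x.1 = 1 → x ∉ N) : False := by
  obtain ⟨P, hP⟩ : ∃ P : Set (ℝ × ℝ × ℝ), P = N ∪ {x | x.1 = 0} := ⟨_, rfl⟩
  obtain ⟨Q, hQ⟩ : ∃ Q : Set (ℝ × ℝ × ℝ), Q = Y ∪ {x | x.1 = 1} := ⟨_, rfl⟩
  have cP : IsClosed P := hP ▸ hN.union (isClosed_eq continuous_fst continuous_const)
  have cQ : IsClosed Q := hQ ▸ hY.union (isClosed_eq continuous_fst continuous_const)
  have nP : P.Nonempty := hP ▸ ⟨(0, 0, 0), Or.inr rfl⟩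
  have nQ : Q.Nonempty := hQ ▸ ⟨(1, 0, 0), Or.inr rfl⟩
  obtain ⟨e, he⟩ : ∃ e : (Fin 3 → ℝ) → ℝ × ℝ × ℝ, e = fun v => (v 0, v 1, v 2) := ⟨_, rfl⟩
  have ce : Continuous e := he ▸ by fun_prop
  have me : ∀ v ∈ Icc (0 : Fin 3 → ℝ) 1, e v ∈ cube := fun v hv =>
    he ▸ ⟨⟨hv.1 0, hv.2 0⟩, ⟨hv.1 1, hv.2 1⟩, hv.1 2, hv.2 2⟩
  have a0 : IsClosed {x | infDist x P ≤ infDist x Q} :=
    isClosed_le (continuous_infDist_pt P) (continuous_infDist_pt Q)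
  have b0 : IsClosed {x | infDist x Q ≤ infDist x P} :=
    isClosed_le (continuous_infDist_pt Q) (continuous_infDist_pt P)
  obtain ⟨v, hv, h⟩ := cube_cover (n := 3)
    (A := ![e ⁻¹' {x | infDist x P ≤ infDist x Q}, e ⁻¹' A₁, e ⁻¹' A₂])
    (B := ![e ⁻¹' {x | infDist x Q ≤ infDist x P}, e ⁻¹' B₁, e ⁻¹' B₂])
    (fun i => by
      fin_cases i
      exacts [a0.preimage ce, a1.preimage ce, a2.preimage ce])
    (fun i => by
      fin_cases i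
      exacts [b0.preimage ce, b1.preimage ce, b2.preimage ce])
    (fun i v hv => by
      fin_cases i
      exacts [le_total (infDist (e v) P) _, c1 _ (me v hv), c2 _ (me v hv)])
    (fun i v hv hi => by
      fin_cases i
      · change infDist (e v) P ≤ infDist (e v) Q
        rw [infDist_zero_of_mem (show e v ∈ P from hP ▸ Or.inr (he ▸ hi))]
        exact infDist_nonneg
      · exact f1 _ (me v hv) (he ▸ hi)
      · exact f2 _ (me v hv) (he ▸ hi))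
    (fun i v hv hi => by
      fin_cases i
      · change infDist (e v) Q ≤ infDist (e v) P
        rw [infDist_zero_of_mem (show e v ∈ Q from hQ ▸ Or.inr (he ▸ hi))]
        exact infDist_nonneg
      · exact g1 _ (me v hv) (he ▸ hi)
      · exact g2 _ (me v hv) (he ▸ hi))
  have hx := me v hv
  have k1 : infDist (e v) P = infDist (e v) Q := le_antisymm (h 0).1 (h 0).2
  have k2 : e v ∈ P ↔ e v ∈ Q := by
    rw [cP.mem_iff_infDist_zero nP, cQ.mem_iff_infDist_zero nQ, k1]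
  rw [hP, hQ] at k2
  rcases hZ _ hx (h 1).1 (h 1).2 (h 2).1 (h 2).2 with k | k
  · exact (k2.2 (Or.inl k)).elim (hd _ hx k) fun k' => h0 _ hx k' k
  · exact (k2.1 (Or.inl k)).elim (fun k' => hd _ hx k' k) fun k' => h1 _ hx k' k

end Pool.Agent.NapKL
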