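import Pool.Agent.Lib.MP_b71113_an.OT.CP

/-! A residue functional for two functions without common zero. -/

namespace Pool.Agent.NapKL

open Set Metric Complex MeasureTheory Pool.Agent.NapOT

/-- a cut-off function -/
structure Cut (U : Set ℂ) (ρ : ℂ → ℂ) : Prop where
  cd : ContDiff ℝ 1 ρ
  cs : HasCompactSupport ρ
  sub : tsupport ρ ⊆ U

/-- a solution of `α f + β g = 1` near the support of `ρ` -/
def Pr (ρ f g α β : ℂ → ℂ) : Prop :=
  ∃ V, IsOpen V ∧ tsupport ρ ⊆ V ∧ ContDiffOn ℝ 1 α V ∧ ContDiffOn ℝ 1 β V ∧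
    ∀ w ∈ V, α w * f w + β w * g w = 1

/-- a continuous solution on the collar -/
structure P0 (ρ f g α₀ β₀ : ℂ → ℂ) : Prop where
  ca : ContinuousOn α₀ (tsupport (db ρ))
  cb : ContinuousOn β₀ (tsupport (db ρ))
  eq : ∀ w ∈ tsupport (db ρ), α₀ w * f w + β₀ w * g w = 1

/-- the kernel of the functional -/
noncomputable def ker (ρ α β α₀ β₀ : ℂ → ℂ) (w : ℂ) : ℂ :=
  ρ w * (α w * db β w - β w * db α w) - db ρ w * (α w * β₀ w - α₀ w * β w)

/-- the functional -/
noncomputable def fn (ρ α β α₀ β₀ η : ℂ → ℂ) : ℂ := ∫ w, ker ρ α β α₀ β₀ w * η w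

variable {U : Set ℂ} {ρ f g α β α' β' α₀ β₀ η : ℂ → ℂ}

theorem oka1_mul {u v : ℂ → ℂ} {w : ℂ} (hu : DifferentiableAt ℝ u w)
    (hv : DifferentiableAt ℝ v w) :
    db (fun s => u s * v s) w = u w * db v w + v w * db u w := by
  simp only [db, fderiv_fun_mul hu hv, _root_.add_apply,
    _root_.smul_apply, smul_eq_mul]
  ring

theorem oka1_add {u v : ℂ → ℂ} {w : ℂ} (hu : DifferentiableAt ℝ u w)
    (hv : DifferentiableAt ℝ v w) : db (fun s => u s + v s) w = db u w + db v w := by
  simp only [db, fderiv_fun_add hu hv, _root_.add_apply]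
  ring

theorem oka1_sub {u v : ℂ → ℂ} {w : ℂ} (hu : DifferentiableAt ℝ u w)
    (hv : DifferentiableAt ℝ v w) : db (fun s => u s - v s) w = db u w - db v w := by
  simp only [db, fderiv_fun_sub hu hv, _root_.sub_apply]
  ring

theorem oka1_hol {u : ℂ → ℂ} {w : ℂ} (hu : DifferentiableAt ℂ u w) : db u w = 0 := by
  have e : fderiv ℝ u w = (fderiv ℂ u w).restrictScalars ℝ :=
    (hu.hasFDerivAt.restrictScalars ℝ).fderiv
  have e2 : fderiv ℂ u w I = I * fderiv ℂ u w 1 := by
    rw [← smul_eq_mul, ← map_smul, smul_eq_mul, mul_one]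
  rw [db, e, ContinuousLinearMap.coe_restrictScalars', e2, ← mul_assoc, I_mul_I]
  ring

theorem oka1_congr {u v : ℂ → ℂ} {w : ℂ} (e : u =ᶠ[nhds w] v) : db u w = db v w := by
  rw [db, db, e.fderiv_eq]

theorem oka1_out {u : ℂ → ℂ} {w : ℂ} (hw : w ∉ tsupport u) : db u w = 0 := by
  rw [oka1_congr (notMem_tsupport_iff_eventuallyEq.1 hw)]
  exact oka1_hol (differentiableAt_const (0 : ℂ))

theorem oka1_cont {u : ℂ → ℂ} (hu : ContDiff ℝ 1 u) : Continuous (db u) := by
  have hD : Continuous (fderiv ℝ u) := hu.continuous_fderiv (by simp)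
  unfold db
  fun_prop

theorem oka1_contOn {u : ℂ → ℂ} {V : Set ℂ} (hV : IsOpen V) (hu : ContDiffOn ℝ 1 u V) :
    ContinuousOn (db u) V := by
  have hD : ContinuousOn (fderiv ℝ u) V := hu.continuousOn_fderiv_of_isOpen hV le_rfl
  unfold db
  fun_prop

theorem oka1_int {F : ℂ → ℂ} {K : Set ℂ} (hK : IsCompact K) (hF : ContinuousOn F K)
    (h0 : ∀ w, w ∉ K → F w = 0) : Integrable F :=
  (integrableOn_iff_integrable_of_support_subset fun w hw => by
    by_contra hn
    exact hw (h0 w hn)).1 (hF.integrableOn_compact hK)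

theorem oka1_cd (h : Cut U ρ) {V : Set ℂ} (hV : IsOpen V) (hs : tsupport ρ ⊆ V)
    {κ : ℂ → ℂ} (hκ : ContDiffOn ℝ 1 κ V) : ContDiff ℝ 1 fun w => ρ w * κ w := by
  refine contDiff_iff_contDiffAt.2 fun w => ?_
  by_cases hw : w ∈ tsupport ρ
  · exact h.cd.contDiffAt.mul (hκ.contDiffAt (hV.mem_nhds (hs hw)))
  · have e : (fun w => ρ w * κ w) =ᶠ[nhds w] fun _ => 0 :=
      (notMem_tsupport_iff_eventuallyEq.1 hw).mono fun s hs => by
        have e0 : ρ s = 0 := hs
        simp only [e0, zero_mul]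
    exact contDiffAt_const.congr_of_eventuallyEq e

theorem oka1_out_mul {κ : ℂ → ℂ} {w : ℂ} (hw : w ∉ tsupport ρ) :
    db (fun s => ρ s * κ s) w = 0 :=
  oka1_out fun hn => hw (tsupport_mul_subset_left hn)

theorem oka1_cdhol (hU : IsOpen U) {u : ℂ → ℂ} (hu : DifferentiableOn ℂ u U) :
    ContDiffOn ℝ 1 u U :=
  (hu.contDiffOn hU).restrict_scalars ℝ

theorem oka1_rel {V : Set ℂ} (hV : IsOpen V) (ha : ContDiffOn ℝ 1 α V) (hb : ContDiffOn ℝ 1 β V)
    (he : ∀ w ∈ V, α w * f w + β w * g w = 1) {w : ℂ} (hw : w ∈ V)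
    (hf : DifferentiableAt ℂ f w) (hg : DifferentiableAt ℂ g w) :
    f w * db α w + g w * db β w = 0 := by
  have da : DifferentiableAt ℝ α w := (ha.contDiffAt (hV.mem_nhds hw)).differentiableAt (by simp)
  have db' : DifferentiableAt ℝ β w := (hb.contDiffAt (hV.mem_nhds hw)).differentiableAt (by simp)
  have df : DifferentiableAt ℝ f w := hf.restrictScalars ℝ
  have dg : DifferentiableAt ℝ g w := hg.restrictScalars ℝ
  have e : (fun s => α s * f s + β s * g s) =ᶠ[nhds w] fun _ => 1 :=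
    Filter.eventually_of_mem (hV.mem_nhds hw) he
  have e1 := oka1_congr e
  rw [oka1_hol (differentiableAt_const (1 : ℂ)),
    oka1_add (u := fun s => α s * f s) (v := fun s => β s * g s) (da.mul df) (db'.mul dg),
    oka1_mul da df, oka1_mul db' dg, oka1_hol hf, oka1_hol hg] at e1
  linear_combination e1

/-- `cp_smooth` for `s ↦ (0 - s) * h s` at `0` -/
theorem int_db {h : ℂ → ℂ} (hh : ContDiff ℝ 1 h) (hc : HasCompactSupport h) :
    ∫ s, db h s = 0 := by
  have c1 : ContDiff ℝ 1 fun s : ℂ => (0 - s) * h s := (contDiff_const.sub contDiff_id).mul hh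
  have c2 : HasCompactSupport fun s : ℂ => (0 - s) * h s := hc.mul_left
  have e := cp_smooth c1 c2 0
  rw [CT, sub_self, zero_mul] at e
  have hπ : ((Real.pi : ℂ))⁻¹ ≠ 0 := inv_ne_zero (ofReal_ne_zero.2 Real.pi_ne_zero)
  rw [← (mul_eq_zero.1 e).resolve_left hπ]
  refine integral_congr_ae ?_
  have hae : ∀ᵐ s : ℂ, s ∉ ({0} : Set ℂ) := (Set.countable_singleton (0 : ℂ)).ae_notMem _
  refine hae.mono fun s hs => ?_
  have hs0 : (0 : ℂ) - s ≠ 0 := sub_ne_zero.2 fun e0 => hs e0.symm
  have d1 : DifferentiableAt ℂ (fun s : ℂ => 0 - s) s := by fun_prop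
  change db h s = db (fun s : ℂ => (0 - s) * h s) s / (0 - s)
  rw [oka1_mul (u := fun s : ℂ => 0 - s) (d1.restrictScalars ℝ)
    (hh.differentiable (by simp) s), oka1_hol d1, mul_zero, add_zero, mul_div_cancel_left₀ _ hs0]

theorem db_mul {u v : ℂ → ℂ} {w : ℂ} (hu : DifferentiableAt ℝ u w) (hv : DifferentiableAt ℝ v w) :
    db (fun s => u s * v s) w = u w * db v w + v w * db u w := by
  exact oka1_mul hu hv

theorem db_hol {u : ℂ → ℂ} {w : ℂ} (hu : DifferentiableAt ℂ u w) : db u w = 0 := by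
  exact oka1_hol hu

theorem tsupport_db_subset (ρ : ℂ → ℂ) : tsupport (db ρ) ⊆ tsupport ρ := by
  refine closure_minimal (fun w hw => ?_) (isClosed_tsupport ρ)
  by_contra hn
  exact hw (oka1_out hn)

theorem Cut.cont_db (h : Cut U ρ) : Continuous (db ρ) := by
  exact oka1_cont h.cd

/-- the product of `ρ` with a function that is `C¹` near the support -/
theorem Cut.int_db_mul (h : Cut U ρ) {V : Set ℂ} (hV : IsOpen V) (hs : tsupport ρ ⊆ V)
    {κ : ℂ → ℂ} (hκ : ContDiffOn ℝ 1 κ V) : ∫ s, db (fun w => ρ w * κ w) s = 0 := by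
  exact int_db (oka1_cd h hV hs hκ) h.cs.mul_right

theorem integrable_ker (h : Cut U ρ) (hp : Pr ρ f g α β) (h0 : P0 ρ f g α₀ β₀)
    (hη : ContinuousOn η (tsupport ρ)) : Integrable fun w => ker ρ α β α₀ β₀ w * η w := by
  obtain ⟨V, hV, hs, ha, hb, -⟩ := hp
  have hK : IsCompact (tsupport ρ) := h.cs
  have hK' : IsCompact (tsupport (db ρ)) :=
    hK.of_isClosed_subset (isClosed_tsupport _) (tsupport_db_subset ρ)
  have ca := ha.continuousOn.mono hs
  have cb := hb.continuousOn.mono hs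
  have i1 : Integrable fun w => ρ w * (α w * db β w - β w * db α w) * η w :=
    oka1_int hK ((h.cd.continuous.continuousOn.mul ((ca.mul ((oka1_contOn hV hb).mono hs)).sub
      (cb.mul ((oka1_contOn hV ha).mono hs)))).mul hη) fun w hw => by
        rw [image_eq_zero_of_notMem_tsupport hw, zero_mul, zero_mul]
  have i2 : Integrable fun w => db ρ w * (α w * β₀ w - α₀ w * β w) * η w :=
    oka1_int hK' ((h.cont_db.continuousOn.mul (((ca.mono (tsupport_db_subset ρ)).mul h0.cb).sub
      (h0.ca.mul (cb.mono (tsupport_db_subset ρ))))).mul (hη.mono (tsupport_db_subset ρ)))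
        fun w hw => by rw [image_eq_zero_of_notMem_tsupport hw, zero_mul, zero_mul]
  refine (i1.sub i2).congr (Filter.Eventually.of_forall fun w => ?_)
  simp only [ker, Pi.sub_apply]
  ring

/-- With `κ = α' β - α β'`: `α' = α + κ g`, `β' = β - κ f` on `V ∩ V' ∩ U`, and the kernels differ
by `db (ρ κ)`; `db (ρ κ η) = db (ρ κ) η`. -/
theorem fn_indep (hU : IsOpen U) (h : Cut U ρ) (hf : DifferentiableOn ℂ f U)
    (hg : DifferentiableOn ℂ g U) (hη : DifferentiableOn ℂ η U) (hp : Pr ρ f g α β)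
    (hp' : Pr ρ f g α' β') (h0 : P0 ρ f g α₀ β₀) :
    fn ρ α β α₀ β₀ η = fn ρ α' β' α₀ β₀ η := by
  have i1 := integrable_ker h hp h0 (hη.continuousOn.mono h.sub)
  have i2 := integrable_ker h hp' h0 (hη.continuousOn.mono h.sub)
  obtain ⟨V, hV, hs, ha, hb, he⟩ := hp
  obtain ⟨V', hV', hs', ha', hb', he'⟩ := hp'
  have hW : IsOpen (V ∩ V' ∩ U) := (hV.inter hV').inter hU
  have hsW : tsupport ρ ⊆ V ∩ V' ∩ U := subset_inter (subset_inter hs hs') h.sub
  have s1 : V ∩ V' ∩ U ⊆ V := fun w hw => hw.1.1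
  have s2 : V ∩ V' ∩ U ⊆ V' := fun w hw => hw.1.2
  have s3 : V ∩ V' ∩ U ⊆ U := fun w hw => hw.2
  have hκ : ContDiffOn ℝ 1 (fun w => (α' w * β w - α w * β' w) * η w) (V ∩ V' ∩ U) :=
    (((ha'.mono s2).mul (hb.mono s1)).sub ((ha.mono s1).mul (hb'.mono s2))).mul
      ((oka1_cdhol hU hη).mono s3)
  have e := h.int_db_mul hW hsW hκ
  rw [fn, fn, ← sub_eq_zero, ← integral_sub i1 i2, ← e]
  refine integral_congr_ae (Filter.Eventually.of_forall fun w => ?_)
  change ker ρ α β α₀ β₀ w * η w - ker ρ α' β' α₀ β₀ w * η w =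
    db (fun w => ρ w * ((α' w * β w - α w * β' w) * η w)) w
  by_cases hw : w ∈ tsupport ρ
  · have n1 := hV.mem_nhds (hs hw)
    have n2 := hV'.mem_nhds (hs' hw)
    have n3 := hU.mem_nhds (h.sub hw)
    have da : DifferentiableAt ℝ α w := (ha.contDiffAt n1).differentiableAt (by simp)
    have dβ : DifferentiableAt ℝ β w := (hb.contDiffAt n1).differentiableAt (by simp)
    have da' : DifferentiableAt ℝ α' w := (ha'.contDiffAt n2).differentiableAt (by simp)
    have dβ' : DifferentiableAt ℝ β' w := (hb'.contDiffAt n2).differentiableAt (by simp)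
    have dη : DifferentiableAt ℂ η w := hη.differentiableAt n3
    have dρ : DifferentiableAt ℝ ρ w := h.cd.differentiable (by simp) w
    have dκ : DifferentiableAt ℝ (fun w => α' w * β w - α w * β' w) w :=
      (da'.mul dβ).sub (da.mul dβ')
    have r1 := oka1_rel hV ha hb he (hs hw) (hf.differentiableAt n3) (hg.differentiableAt n3)
    have r2 := oka1_rel hV' ha' hb' he' (hs' hw) (hf.differentiableAt n3) (hg.differentiableAt n3)
    have q1 := he w (hs hw)
    have q2 := he' w (hs' hw)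
    have e1 : α w - α' w = -((α' w * β w - α w * β' w) * g w) := by
      linear_combination α' w * q1 - α w * q2
    have e2 : β' w - β w = -((α' w * β w - α w * β' w) * f w) := by
      linear_combination β w * q2 - β' w * q1
    have e3 : db ρ w * (α₀ w * f w + β₀ w * g w) = db ρ w := by
      by_cases hw' : w ∈ tsupport (db ρ)
      · rw [h0.eq w hw', mul_one]
      · rw [image_eq_zero_of_notMem_tsupport hw', zero_mul]
    rw [oka1_mul (v := fun w => (α' w * β w - α w * β' w) * η w) dρ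
        (dκ.mul (dη.restrictScalars ℝ)),
      oka1_mul (u := fun w => α' w * β w - α w * β' w) dκ (dη.restrictScalars ℝ), oka1_hol dη,
      oka1_sub (u := fun w => α' w * β w) (v := fun w => α w * β' w) (da'.mul dβ) (da.mul dβ'),
      oka1_mul da' dβ, oka1_mul da dβ']
    simp only [ker]
    linear_combination (ρ w * η w * (db β w + db β' w) - db ρ w * η w * β₀ w) * e1 +
      (ρ w * η w * (db α w + db α' w) - db ρ w * η w * α₀ w) * e2 -
      ρ w * η w * (α' w * β w - α w * β' w) * (r1 + r2) +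
      η w * (α' w * β w - α w * β' w) * e3
  · rw [oka1_out_mul hw]
    simp only [ker, image_eq_zero_of_notMem_tsupport hw, oka1_out hw, zero_mul, sub_self]

/-- The integrand is `db ρ (a α₀ + b β₀) - db (ρ (a α + b β))`. -/
theorem fn_eval (hU : IsOpen U) (h : Cut U ρ) (hf : DifferentiableOn ℂ f U)
    (hg : DifferentiableOn ℂ g U) {a b : ℂ → ℂ} (ha : DifferentiableOn ℂ a U)
    (hb : DifferentiableOn ℂ b U) (hp : Pr ρ f g α β) (h0 : P0 ρ f g α₀ β₀) :
    fn ρ α β α₀ β₀ (fun w => g w * a w - f w * b w) =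
      ∫ w, db ρ w * (a w * α₀ w + b w * β₀ w) := by
  have i1 := integrable_ker (η := fun w => g w * a w - f w * b w) h hp h0
    (((hg.mul ha).sub (hf.mul hb)).continuousOn.mono h.sub)
  obtain ⟨V, hV, hs, hα, hβ, he⟩ := hp
  have hW : IsOpen (V ∩ U) := hV.inter hU
  have hsW : tsupport ρ ⊆ V ∩ U := subset_inter hs h.sub
  have hκ : ContDiffOn ℝ 1 (fun w => a w * α w + b w * β w) (V ∩ U) :=
    (((oka1_cdhol hU ha).mono inter_subset_right).mul (hα.mono inter_subset_left)).add
      (((oka1_cdhol hU hb).mono inter_subset_right).mul (hβ.mono inter_subset_left))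
  have e := h.int_db_mul hW hsW hκ
  have i2 : Integrable (db fun w => ρ w * (a w * α w + b w * β w)) :=
    oka1_int h.cs (oka1_cont (oka1_cd h hW hsW hκ)).continuousOn fun w hw => oka1_out_mul hw
  rw [fn, ← add_zero (∫ w, ker ρ α β α₀ β₀ w * (g w * a w - f w * b w)), ← e,
    ← integral_add i1 i2]
  refine integral_congr_ae (Filter.Eventually.of_forall fun w => ?_)
  change ker ρ α β α₀ β₀ w * (g w * a w - f w * b w) +
    db (fun w => ρ w * (a w * α w + b w * β w)) w = db ρ w * (a w * α₀ w + b w * β₀ w)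
  by_cases hw : w ∈ tsupport ρ
  · have n1 := hV.mem_nhds (hs hw)
    have n3 := hU.mem_nhds (h.sub hw)
    have dα : DifferentiableAt ℝ α w := (hα.contDiffAt n1).differentiableAt (by simp)
    have dβ : DifferentiableAt ℝ β w := (hβ.contDiffAt n1).differentiableAt (by simp)
    have da : DifferentiableAt ℂ a w := ha.differentiableAt n3
    have db' : DifferentiableAt ℂ b w := hb.differentiableAt n3
    have dρ : DifferentiableAt ℝ ρ w := h.cd.differentiable (by simp) w
    have d1 : DifferentiableAt ℝ (fun w => a w * α w) w := (da.restrictScalars ℝ).mul dα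
    have d2 : DifferentiableAt ℝ (fun w => b w * β w) w := (db'.restrictScalars ℝ).mul dβ
    have r1 := oka1_rel hV hα hβ he (hs hw) (hf.differentiableAt n3) (hg.differentiableAt n3)
    have q1 := he w (hs hw)
    have e3 : db ρ w * (α₀ w * f w + β₀ w * g w) = db ρ w := by
      by_cases hw' : w ∈ tsupport (db ρ)
      · rw [h0.eq w hw', mul_one]
      · rw [image_eq_zero_of_notMem_tsupport hw', zero_mul]
    rw [oka1_mul (v := fun w => a w * α w + b w * β w) dρ (d1.add d2), oka1_add d1 d2,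
      oka1_mul (da.restrictScalars ℝ) dα, oka1_mul (db'.restrictScalars ℝ) dβ, oka1_hol da,
      oka1_hol db']
    simp only [ker]
    linear_combination ρ w * (a w * α w + b w * β w) * r1 -
      (ρ w * (a w * db α w + b w * db β w) - db ρ w * (a w * α₀ w + b w * β₀ w)) * q1 -
      (a w * α w + b w * β w) * e3
  · rw [oka1_out_mul hw]
    simp only [ker, image_eq_zero_of_notMem_tsupport hw, oka1_out hw, zero_mul, sub_self, add_zero]

end Pool.Agent.NapKL
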