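import Pool.Agent.Lib.MP_b71113_an.KL.Ser0

/-! Automorphisms of the disc. -/

namespace Pool.Agent.NapKL

open Set Metric Complex ComplexConjugate

variable {φ : ℂ → ℂ} {a w ω : ℂ} {r : ℝ}

theorem mob_den (ha : ‖a‖ < 1) (hw : ‖w‖ ≤ 1) : 1 + conj a * w ≠ 0 := by
  intro h
  have h1 : ‖conj a * w‖ = 1 := by rw [eq_neg_of_add_eq_zero_right h, norm_neg, norm_one]
  rw [norm_mul, Complex.norm_conj] at h1
  nlinarith [norm_nonneg a, norm_nonneg w]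

theorem mob_zero (a : ℂ) : mob a 0 = a := by simp [mob]

theorem mob_key (a w : ℂ) :
    ‖1 + conj a * w‖ ^ 2 - ‖w + a‖ ^ 2 = (1 - ‖a‖ ^ 2) * (1 - ‖w‖ ^ 2) := by
  simp only [Complex.sq_norm, normSq_apply, add_re, add_im, mul_re, mul_im, conj_re, conj_im,
    one_re, one_im]
  ring

theorem norm_mob_le (ha : ‖a‖ < 1) (hw : ‖w‖ ≤ 1) : ‖mob a w‖ ≤ 1 := by
  rw [mob, norm_div, div_le_one (norm_pos_iff.2 (mob_den ha hw)),
    ← sq_le_sq₀ (norm_nonneg _) (norm_nonneg _), ← sub_nonneg, mob_key]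
  exact mul_nonneg (by nlinarith [norm_nonneg a]) (by nlinarith [norm_nonneg w])

theorem norm_mob_eq (ha : ‖a‖ < 1) (hw : ‖w‖ ≤ 1) : ‖mob a w‖ = 1 ↔ ‖w‖ = 1 := by
  have h1 : (1 - ‖a‖ ^ 2 : ℝ) ≠ 0 := by nlinarith [norm_nonneg a]
  rw [mob, norm_div, div_eq_one_iff_eq (norm_ne_zero_iff.2 (mob_den ha hw)),
    ← sq_eq_sq₀ (norm_nonneg _) (norm_nonneg _), eq_comm, ← sub_eq_zero, mob_key,
    mul_eq_zero_iff_left h1, sub_eq_zero, eq_comm]
  exact pow_eq_one_iff_of_nonneg (norm_nonneg w) two_ne_zero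

theorem norm_mob_lt (ha : ‖a‖ < 1) (hw : ‖w‖ < 1) : ‖mob a w‖ < 1 := by
  exact (norm_mob_le ha hw.le).lt_of_ne fun h => hw.ne ((norm_mob_eq ha hw.le).1 h)

theorem mob_neg_mob (ha : ‖a‖ < 1) (hw : ‖w‖ ≤ 1) : mob (-a) (mob a w) = w := by
  have h1 := mob_den ha hw
  have h2 := mob_den (a := -a) (by rwa [norm_neg]) (norm_mob_le ha hw)
  have h3 : mob a w * (1 + conj a * w) = w + a := div_mul_cancel₀ _ h1
  rw [mob, div_eq_iff h2, map_neg]
  linear_combination h3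

theorem mob_mob_neg (ha : ‖a‖ < 1) (hw : ‖w‖ ≤ 1) : mob a (mob (-a) w) = w := by
  simpa only [neg_neg] using mob_neg_mob (a := -a) (by rwa [norm_neg]) hw

theorem mob_sub (ha : ‖a‖ < 1) {u v : ℂ} (hu : ‖u‖ ≤ 1) (hv : ‖v‖ ≤ 1) :
    mob a u - mob a v =
      ((1 - ‖a‖ ^ 2 : ℝ) : ℂ) * (u - v) / ((1 + conj a * u) * (1 + conj a * v)) := by
  have h1 := mob_den ha hu
  have h2 := mob_den ha hv
  push_cast
  rw [mob, mob, ← Complex.mul_conj', div_sub_div _ _ h1 h2]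
  congr 1
  ring

theorem mob_rot (a v : ℂ) {u : ℂ} (hu : ‖u‖ = 1) : mob a (u * v) = u * mob (conj u * a) v := by
  have h1 : u * conj u = 1 := by rw [Complex.mul_conj', hu]; simp
  rw [mob, mob, ← mul_div_assoc, map_mul, Complex.conj_conj]
  congr 1
  · linear_combination (-a) * h1
  · ring

theorem mob_cont (hr : r < 1) :
    ContinuousOn (fun p : ℂ × ℂ => mob p.1 p.2) (closedBall 0 r ×ˢ closedBall 0 1) := by
  refine ContinuousOn.div (by fun_prop) (by fun_prop) fun p hp => ?_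
  exact mob_den ((mem_closedBall_zero_iff.1 hp.1).trans_lt hr) (mem_closedBall_zero_iff.1 hp.2)

theorem mob_contOn (ha : ‖a‖ < 1) : ContinuousOn (mob a) (closedBall 0 1) := by
  refine ContinuousOn.div (by fun_prop) (by fun_prop) fun p hp => ?_
  exact mob_den ha (mem_closedBall_zero_iff.1 hp)

theorem HC.mob (h : HC φ) (ha : ‖a‖ < 1) : HC fun w => φ (mob a w) := by
  refine DiffContOnCl.comp (t := ball 0 1) h ⟨?_, ?_⟩ fun w hw =>
    mem_ball_zero_iff.2 (norm_mob_lt ha (mem_ball_zero_iff.1 hw))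
  · refine DifferentiableOn.div (by fun_prop) (by fun_prop) fun p hp => ?_
    exact mob_den ha (mem_ball_zero_iff.1 hp).le
  · rw [closure_ball _ one_ne_zero]
    exact mob_contOn ha

theorem HC.mob_cont (h : HC φ) (hr : r < 1) :
    ContinuousOn (fun p : ℂ × ℂ => φ (NapKL.mob p.1 p.2)) (closedBall 0 r ×ˢ closedBall 0 1) := by
  have h1 := h.continuousOn
  rw [closure_ball _ one_ne_zero] at h1
  exact h1.comp (NapKL.mob_cont hr) fun p hp => mem_closedBall_zero_iff.2 (norm_mob_le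
    ((mem_closedBall_zero_iff.1 hp.1).trans_lt hr) (mem_closedBall_zero_iff.1 hp.2))

/-- uniform continuity on a compact set -/
theorem HC.mob_equi (h : HC φ) (hr : r < 1) {ε : ℝ} (hε : 0 < ε) : ∃ η > 0, ∀ a : ℂ, ‖a‖ ≤ r →
    ∀ u v : ℂ, ‖u‖ ≤ 1 → ‖v‖ ≤ 1 → ‖u - v‖ ≤ η →
      ‖φ (NapKL.mob a u) - φ (NapKL.mob a v)‖ ≤ ε := by
  obtain ⟨η, h1, h2⟩ := Metric.uniformContinuousOn_iff_le.1
    (((isCompact_closedBall 0 r).prod (isCompact_closedBall 0 1)).uniformContinuousOn_of_continuous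
      (h.mob_cont hr)) ε hε
  refine ⟨η, h1, fun a ha u v hu hv huv => ?_⟩
  have h3 := h2 (a, u) ⟨mem_closedBall_zero_iff.2 ha, mem_closedBall_zero_iff.2 hu⟩
    (a, v) ⟨mem_closedBall_zero_iff.2 ha, mem_closedBall_zero_iff.2 hv⟩
    (by rw [Prod.dist_eq, dist_self, dist_eq_norm]; exact max_le h1.le huv)
  rwa [dist_eq_norm] at h3

theorem mob_norm_mul (hω : ‖ω‖ = 1) (h0 : 0 ≤ r) : ‖(r : ℂ) * ω‖ = r := by
  rw [norm_mul, hω, mul_one, Complex.norm_of_nonneg h0]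

theorem mob_fix (hω : ‖ω‖ = 1) (h0 : 0 ≤ r) (h1 : r < 1) :
    mob (r * ω) ω = ω ∧ mob (r * ω) (-ω) = -ω := by
  have h2 : conj ω * ω = 1 := by rw [Complex.conj_mul', hω]; simp
  have h3 := mob_norm_mul hω h0
  constructor
  · rw [mob, div_eq_iff (mob_den (h3.trans_lt h1) hω.le), map_mul, conj_ofReal]
    linear_combination (-(r * ω)) * h2
  · rw [mob, div_eq_iff (mob_den (h3.trans_lt h1) (by rw [norm_neg, hω])), map_mul, conj_ofReal]
    linear_combination (-(r * ω)) * h2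

theorem mob_form (hω : ‖ω‖ = 1) (h0 : 0 ≤ r) (h1 : r < 1) (hw : ‖w‖ ≤ 1) :
    ‖mob (r * ω) w - ω‖ * ‖1 + conj (r * ω) * w‖ = (1 - r) * ‖w - ω‖ := by
  have h2 : conj ω * ω = 1 := by rw [Complex.conj_mul', hω]; simp
  have h3 := mob_den ((mob_norm_mul hω h0).trans_lt h1) hw
  have e : (mob (r * ω) w - ω) * (1 + conj (r * ω) * w) = ((1 - r : ℝ) : ℂ) * (w - ω) := by
    rw [sub_mul, mob, div_mul_cancel₀ _ h3, map_mul, conj_ofReal]
    push_cast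
    linear_combination (-(r * w)) * h2
  rw [← norm_mul, e, norm_mul, Complex.norm_of_nonneg (by linarith)]

theorem mob_low (hω : ‖ω‖ = 1) (h0 : 0 ≤ r) (hw : ‖w‖ ≤ 1) :
    1 - r ≤ ‖1 + conj (r * ω) * w‖ := by
  have h1 := norm_sub_le (1 + conj (r * ω) * w) (conj (r * ω) * w)
  rw [add_sub_cancel_right, norm_one, norm_mul, Complex.norm_conj, mob_norm_mul hω h0] at h1
  nlinarith

/-- `mob (r ω) w - ω = (1 - r) (w - ω) / (1 + r conj ω w)` and `‖ω + w‖ ≤ 2 ‖ω + r w‖` -/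
theorem mob_cap (hω : ‖ω‖ = 1) (h0 : 0 ≤ r) (h1 : r < 1) (hw : ‖w‖ ≤ 1) {ε : ℝ} (hε : 0 < ε)
    (h : ε ≤ ‖w + ω‖) : ‖mob (r * ω) w - ω‖ ≤ 4 * (1 - r) / ε := by
  have h2 := mob_form hω h0 h1 hw
  have h3 := mob_low hω h0 hw
  have h4 : ‖w - ω‖ ≤ 2 := (norm_sub_le _ _).trans (by linarith)
  have h5 : conj ω * ω = 1 := by rw [Complex.conj_mul', hω]; simp
  have h6 : ‖w + ω‖ ≤ ‖1 + conj (r * ω) * w‖ + (1 - r) := by
    have e : w + ω = ω * (1 + conj (r * ω) * w) + ((1 - r : ℝ) : ℂ) * w := by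
      rw [map_mul, conj_ofReal]
      push_cast
      linear_combination (-(r * w)) * h5
    rw [e]
    refine (norm_add_le _ _).trans (add_le_add (by rw [norm_mul, hω, one_mul]) ?_)
    rw [norm_mul, Complex.norm_of_nonneg (by linarith)]
    exact mul_le_of_le_one_right (by linarith) hw
  rw [le_div_iff₀ hε]
  calc ‖mob (r * ω) w - ω‖ * ε ≤ ‖mob (r * ω) w - ω‖ * (2 * ‖1 + conj (r * ω) * w‖) :=
        mul_le_mul_of_nonneg_left (by linarith) (norm_nonneg _)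
    _ = 2 * ((1 - r) * ‖w - ω‖) := by rw [← h2]; ring
    _ ≤ 4 * (1 - r) := by nlinarith

/-- `mob_sub` twice; `‖A - conj A‖ ≤ 2 ‖1 - A‖`; with `N u = ‖1 + r conj ω u‖`:
`N 1 ≤ max (N A) (N (conj A))` (compare squares), `1 - r ≤ N (conj A)`, and
`N u = (1 - r ^ 2) / ‖ω - r mob (r ω) u‖ ≤ 4 (1 - r) / κ` for `u = A, conj A`. -/
theorem mob_mid (hω : ‖ω‖ = 1) (hω' : ω.re ≤ 0) (h0 : 0 ≤ r) (h1 : r < 1) {A : ℂ} (hA : ‖A‖ = 1)
    {κ : ℝ} (hκ : 0 < κ) (ha : κ ≤ ‖mob (r * ω) A - ω‖) (hb : κ ≤ ‖mob (r * ω) (conj A) - ω‖) :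
    κ * ‖mob (r * ω) A - mob (r * ω) (conj A)‖ / 8 ≤ ‖mob (r * ω) 1 - mob (r * ω) A‖ := by
  have hn := (mob_norm_mul hω h0).trans_lt h1
  have hA' : ‖conj A‖ = 1 := by rw [Complex.norm_conj, hA]
  have key : ∀ u : ℂ, ‖u‖ = 1 → κ ≤ ‖mob (r * ω) u - ω‖ →
      κ * ‖1 + conj (r * ω) * u‖ ≤ 2 * (1 - r) := fun u hu h => by
    have h4 : ‖u - ω‖ ≤ 2 := (norm_sub_le _ _).trans (by linarith)
    calc κ * ‖1 + conj (r * ω) * u‖ ≤ ‖mob (r * ω) u - ω‖ * ‖1 + conj (r * ω) * u‖ :=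
          mul_le_mul_of_nonneg_right h (norm_nonneg _)
      _ = (1 - r) * ‖u - ω‖ := mob_form hω h0 h1 hu.le
      _ ≤ 2 * (1 - r) := by nlinarith
  have sq : ∀ u : ℂ, ‖u‖ = 1 → ‖1 + conj (r * ω) * u‖ ^ 2 =
      1 + 2 * (r * (ω.re * u.re + ω.im * u.im)) + r ^ 2 := fun u hu => by
    have e := mob_key (r * ω) u
    have e1 : ‖u + r * ω‖ ^ 2 = ‖u‖ ^ 2 + 2 * (r * (ω.re * u.re + ω.im * u.im)) +
        r ^ 2 * ‖ω‖ ^ 2 := by
      simp only [Complex.sq_norm, normSq_apply, add_re, add_im, re_ofReal_mul, im_ofReal_mul]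
      ring
    rw [hu, hω] at e1
    rw [hu] at e
    linarith
  have k1 := key A hA ha
  have k2 := key _ hA' hb
  have s0 := sq 1 norm_one
  have s1 := sq A hA
  have s2 := sq _ hA'
  have hre : A.re ≤ 1 := (Complex.re_le_norm A).trans hA.le
  have k0 : κ * ‖1 + conj (r * ω) * 1‖ ≤ 2 * (1 - r) := by
    have h5 : 2 * ‖1 + conj (r * ω) * 1‖ ^ 2 ≤
        ‖1 + conj (r * ω) * A‖ ^ 2 + ‖1 + conj (r * ω) * conj A‖ ^ 2 := by
      rw [s0, s1, s2]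
      simp only [one_re, one_im, conj_re, conj_im]
      nlinarith [mul_nonneg h0 (mul_nonneg (neg_nonneg.2 hω') (sub_nonneg.2 hre))]
    rcases le_total ‖1 + conj (r * ω) * A‖ ‖1 + conj (r * ω) * conj A‖ with h6 | h6
    · refine (mul_le_mul_of_nonneg_left ?_ hκ.le).trans k2
      rw [← sq_le_sq₀ (norm_nonneg _) (norm_nonneg _)] at h6 ⊢
      linarith
    · refine (mul_le_mul_of_nonneg_left ?_ hκ.le).trans k1
      rw [← sq_le_sq₀ (norm_nonneg _) (norm_nonneg _)] at h6 ⊢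
      linarith
  have k3 := mob_low hω h0 hA'.le
  have k4 : ‖A - conj A‖ ≤ 2 * ‖1 - A‖ := by
    have e : A - conj A = conj (1 - A) - (1 - A) := by rw [map_sub, map_one]; ring
    rw [e]
    refine (norm_sub_le _ _).trans ?_
    rw [Complex.norm_conj]
    linarith
  have p0 := norm_pos_iff.2 (mob_den hn norm_one.le)
  have p1 := norm_pos_iff.2 (mob_den hn hA.le)
  have p2 := norm_pos_iff.2 (mob_den hn hA'.le)
  rw [mob_sub hn hA.le hA'.le, mob_sub hn norm_one.le hA.le, norm_div, norm_div,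
    norm_mul _ (A - conj A), norm_mul _ (1 - A), norm_mul (1 + _), norm_mul (1 + _)]
  generalize ‖1 + conj (r * ω) * 1‖ = x at *
  generalize ‖1 + conj (r * ω) * A‖ = y at *
  generalize ‖1 + conj (r * ω) * conj A‖ = z at *
  have hc := norm_nonneg ((1 - ‖(r : ℂ) * ω‖ ^ 2 : ℝ) : ℂ)
  generalize ‖((1 - ‖(r : ℂ) * ω‖ ^ 2 : ℝ) : ℂ)‖ = c at *
  have k5 : κ * x * ‖A - conj A‖ ≤ 2 * z * (2 * ‖1 - A‖) :=
    mul_le_mul (by linarith) k4 (norm_nonneg _) (by linarith)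
  rw [← mul_div_assoc, div_div, div_le_div_iff₀ (by positivity) (by positivity)]
  have k6 := mul_le_mul_of_nonneg_left k5 (mul_nonneg hc p1.le)
  have k7 : 0 ≤ c * y * z * ‖1 - A‖ := by positivity
  nlinarith

end Pool.Agent.NapKL
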