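import Pool.Agent.Lib.MP_b71113_an.KL.Ser2
import Pool.Agent.Lib.MP_b71113_an.KL.Mob

/-! Connected subsets of the circle; unimodal boundary values. -/

namespace Pool.Agent.NapKL

open Set Metric Complex ComplexConjugate

variable {φ : ℂ → ℂ} {c q : ℝ}

theorem norm_ee (t : ℝ) : ‖ee t‖ = 1 := norm_exp_ofReal_mul_I t

theorem ee_add (s t : ℝ) : ee (s + t) = ee s * ee t := by
  simp [ee, add_mul, exp_add]

theorem ee_zero : ee 0 = 1 := by simp [ee]

theorem ee_pi : ee Real.pi = -1 := by simp [ee]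

theorem conj_ee (t : ℝ) : conj (ee t) = ee (-t) := by
  simp [ee, ← exp_conj]

theorem ee_re (t : ℝ) : (ee t).re = Real.cos t := exp_ofReal_mul_I_re t

theorem ee_im (t : ℝ) : (ee t).im = Real.sin t := exp_ofReal_mul_I_im t

theorem ee_arg {w : ℂ} (hw : ‖w‖ = 1) : ee (arg w) = w := by
  have := norm_mul_exp_arg_mul_I w
  rwa [hw, ofReal_one, one_mul] at this

theorem alt_cos {x δ : ℝ} (h0 : 0 ≤ δ) (h1 : δ < x) (h2 : x < 2 * Real.pi - δ) :
    Real.cos x < Real.cos δ := by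
  rcases le_total x Real.pi with h | h
  · exact Real.cos_lt_cos_of_nonneg_of_le_pi h0 h h1
  · rw [← Real.cos_two_pi_sub x]
    exact Real.cos_lt_cos_of_nonneg_of_le_pi h0 (by linarith) (by linarith)

theorem alt_eq {z : ℂ} (hz : ‖z‖ = 1) {δ : ℝ} (h : z.re = Real.cos δ) :
    z = ee δ ∨ z = ee (-δ) := by
  have h1 : z.re ^ 2 + z.im ^ 2 = 1 := by
    have := Complex.sq_norm z
    rw [hz, normSq_apply] at this
    nlinarith
  have h2 : z.im ^ 2 = Real.sin δ ^ 2 := by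
    rw [h] at h1
    nlinarith [Real.sin_sq_add_cos_sq δ]
  rcases sq_eq_sq_iff_eq_or_eq_neg.1 h2 with h3 | h3
  · exact Or.inl (Complex.ext (by rw [ee_re, h]) (by rw [ee_im, h3]))
  · exact Or.inr (Complex.ext (by rw [ee_re, h, Real.cos_neg]) (by rw [ee_im, h3, Real.sin_neg]))

theorem alt_two_pi (t : ℝ) : ee (t + 2 * Real.pi) = ee t := by
  rw [two_mul, ee_add, ee_add, ee_pi]
  ring

theorem alt_refl (t : ℝ) : ee (Real.pi - t) = -conj (ee t) := by
  rw [sub_eq_add_neg, ee_add, ee_pi, conj_ee]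
  ring

theorem alt_unit {u : ℂ} (hu : ‖u‖ = 1) : conj u * u = 1 := by
  rw [conj_mul', hu]
  simp

/-- The affine function `w ↦ ((w - ee t₂) * conj (ee t₄ - ee t₂)).im` vanishes on the circle only
at `ee t₂`, `ee t₄` and has opposite signs at `ee t₁`, `ee t₃` (or: if both points are missed,
`w ↦ arg (-w / ee t₄)` is continuous on `S` and its image is an interval). -/
theorem alt {S : Set ℂ} (hS : IsPreconnected S) (h1 : ∀ w ∈ S, ‖w‖ = 1) {t₁ t₂ t₃ t₄ : ℝ}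
    (h12 : t₁ < t₂) (h23 : t₂ < t₃) (h34 : t₃ < t₄) (h41 : t₄ < t₁ + 2 * Real.pi)
    (m1 : ee t₁ ∈ S) (m3 : ee t₃ ∈ S) : ee t₂ ∈ S ∨ ee t₄ ∈ S := by
  have hf : ∀ t : ℝ, (ee t * ee (-((t₂ + t₄) / 2))).re = Real.cos (t - (t₂ + t₄) / 2) := fun t => by
    rw [← ee_add, ee_re, sub_eq_add_neg]
  have hc : ContinuousOn (fun w : ℂ => (w * ee (-((t₂ + t₄) / 2))).re) S := by fun_prop
  have a1 : (ee t₁ * ee (-((t₂ + t₄) / 2))).re ≤ Real.cos ((t₄ - t₂) / 2) := by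
    rw [hf, ← Real.cos_neg]
    exact (alt_cos (by linarith) (by linarith) (by linarith)).le
  have a3 : Real.cos ((t₄ - t₂) / 2) ≤ (ee t₃ * ee (-((t₂ + t₄) / 2))).re := by
    rw [hf, ← Real.cos_abs (t₃ - _)]
    refine Real.cos_le_cos_of_nonneg_of_le_pi (abs_nonneg _) (by linarith) (abs_le.2 ⟨?_, ?_⟩) <;>
      linarith
  obtain ⟨w, hw, e⟩ := hS.intermediate_value m1 m3 hc ⟨a1, a3⟩
  have hw' : w = w * ee (-((t₂ + t₄) / 2)) * ee ((t₂ + t₄) / 2) := by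
    rw [mul_assoc, ← ee_add, neg_add_cancel, ee_zero, mul_one]
  rcases alt_eq (by rw [norm_mul, h1 w hw, norm_ee, mul_one]) e with h | h
  · rw [h, ← ee_add, show (t₄ - t₂) / 2 + (t₂ + t₄) / 2 = t₄ by ring] at hw'
    exact Or.inr (hw' ▸ hw)
  · rw [h, ← ee_add, show -((t₄ - t₂) / 2) + (t₂ + t₄) / 2 = t₂ by ring] at hw'
    exact Or.inl (hw' ▸ hw)

theorem Uni.neg (h : Uni c φ) : Uni c fun v => -φ v := by
  refine ⟨h.hc.neg, h.pos, fun w hw => ?_, fun s => ?_, fun s => ?_⟩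
  · rw [neg_im, abs_neg]
    exact h.le w hw
  · simp only [neg_im, le_neg (a := s)]
    exact h.lo (-s)
  · simp only [neg_im, neg_le (b := s)]
    exact h.up (-s)

theorem alt_pre {P : ℂ → Prop} (hP : IsPreconnected {w : ℂ | ‖w‖ = 1 ∧ P w}) {e e' : ℂ → ℂ}
    (he : ∀ w, ‖w‖ = 1 → ‖e w‖ = 1) (he' : ∀ w, ‖w‖ = 1 → ‖e' w‖ = 1)
    (l : ∀ w, ‖w‖ = 1 → e' (e w) = w) (r : ∀ w, ‖w‖ = 1 → e (e' w) = w)
    (hc : ContinuousOn e' (closedBall 0 1)) : IsPreconnected {w : ℂ | ‖w‖ = 1 ∧ P (e w)} := by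
  have e1 : {w : ℂ | ‖w‖ = 1 ∧ P (e w)} = e' '' {w : ℂ | ‖w‖ = 1 ∧ P w} := by
    ext w
    constructor
    · rintro ⟨h1, h2⟩
      exact ⟨e w, ⟨he w h1, h2⟩, l w h1⟩
    · rintro ⟨v, ⟨h1, h2⟩, rfl⟩
      exact ⟨he' v h1, by rwa [r v h1]⟩
  rw [e1]
  exact hP.image _ (hc.mono fun w hw => mem_closedBall_zero_iff.2 hw.1.le)

theorem alt_uni (h : Uni c φ) {ψ e e' : ℂ → ℂ} (hψ : HC ψ) (hi : ∀ w, (ψ w).im = (φ (e w)).im)
    (he : ∀ w, ‖w‖ = 1 → ‖e w‖ = 1) (he' : ∀ w, ‖w‖ = 1 → ‖e' w‖ = 1)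
    (l : ∀ w, ‖w‖ = 1 → e' (e w) = w) (r : ∀ w, ‖w‖ = 1 → e (e' w) = w)
    (hc : ContinuousOn e' (closedBall 0 1)) : Uni c ψ := by
  refine ⟨hψ, h.pos, fun w hw => ?_, fun s => ?_, fun s => ?_⟩
  · rw [hi]
    exact h.le _ (he w hw)
  · simp only [hi]
    exact alt_pre (P := fun w => s ≤ (φ w).im) (h.up s) he he' l r hc
  · simp only [hi]
    exact alt_pre (P := fun w => (φ w).im ≤ s) (h.lo s) he he' l r hc

theorem Uni.rot (h : Uni c φ) {u : ℂ} (hu : ‖u‖ = 1) : Uni c fun v => φ (u * v) := by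
  have h1 := alt_unit hu
  refine alt_uni h (e := fun v => u * v) (e' := fun v => conj u * v) (h.hc.rot hu) (fun _ => rfl)
    (fun w hw => by rw [norm_mul, hu, hw, mul_one])
    (fun w hw => by rw [norm_mul, norm_conj, hu, hw, mul_one])
    (fun w _ => by rw [← mul_assoc, h1, one_mul])
    (fun w _ => by rw [← mul_assoc, mul_comm u, h1, one_mul]) (by fun_prop)

theorem Uni.flip (h : Uni c φ) : Uni c fun v => -conj (φ (conj v)) := by
  exact alt_uni h (e := conj) (e' := conj) h.hc.sharp.neg (fun _ => by simp)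
    (fun w hw => by rw [norm_conj, hw]) (fun w hw => by rw [norm_conj, hw])
    (fun w _ => conj_conj w) (fun w _ => conj_conj w) continuous_conj.continuousOn

theorem Uni.mob (h : Uni c φ) {a : ℂ} (ha : ‖a‖ < 1) : Uni c fun v => φ (mob a v) := by
  have ha' : ‖-a‖ < 1 := by rwa [norm_neg]
  exact alt_uni h (e := NapKL.mob a) (e' := NapKL.mob (-a)) (h.hc.mob ha) (fun _ => rfl)
    (fun w hw => (norm_mob_eq ha hw.le).2 hw) (fun w hw => (norm_mob_eq ha' hw.le).2 hw)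
    (fun w hw => mob_neg_mob ha hw.le) (fun w hw => mob_mob_neg ha hw.le) (mob_contOn ha')

theorem alt_hp (h : Uni c φ) {w : ℂ} (hw : ‖w‖ = 1) (hr : 0 ≤ w.re) (ht : (φ w).im = c)
    (hb : (φ (-conj w)).im = -c) {v : ℂ} (hv : ‖v‖ = 1) (hv' : 0 ≤ v.re) :
    (φ (-conj v)).im ≤ (φ v).im := by
  by_contra hlt
  rw [not_le] at hlt
  have key : ∀ z : ℂ, 0 ≤ z.re → (φ (-conj z)).im ≠ (φ z).im → |arg z| < Real.pi / 2 := by
    intro z h1 h2
    refine abs_arg_lt_pi_div_two_iff.2 (Or.inl (lt_of_le_of_ne h1 fun h3 => h2 ?_))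
    have : -conj z = z := Complex.ext (by simp [← h3]) (by simp)
    rw [this]
  have hp := h.pos
  obtain ⟨a1, a2⟩ := abs_lt.1 (key w hr (by rw [ht, hb]; linarith))
  obtain ⟨b1, b2⟩ := abs_lt.1 (key v hv' hlt.ne')
  have hv1 : ‖-conj v‖ = 1 := by rw [norm_neg, norm_conj, hv]
  have l1 := abs_le.1 (h.le _ hv1)
  have l2 := abs_le.1 (h.le _ hv)
  have m1 : ee (arg w) ∈ {z : ℂ | ‖z‖ = 1 ∧ (φ (-conj v)).im ≤ (φ z).im} := by
    rw [ee_arg hw]
    exact ⟨hw, ht ▸ l1.2⟩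
  have m2 : ee (Real.pi - arg v) ∈ {z : ℂ | ‖z‖ = 1 ∧ (φ (-conj v)).im ≤ (φ z).im} := by
    rw [alt_refl, ee_arg hv]
    exact ⟨hv1, le_rfl⟩
  have n1 : ee (arg v) ∉ {z : ℂ | ‖z‖ = 1 ∧ (φ (-conj v)).im ≤ (φ z).im} := by
    rw [ee_arg hv]
    exact fun h1 => absurd h1.2 (not_le.2 hlt)
  have n2 : ee (Real.pi - arg w) ∉ {z : ℂ | ‖z‖ = 1 ∧ (φ (-conj v)).im ≤ (φ z).im} := by
    rw [alt_refl, ee_arg hw]
    intro h1
    have h2 := h1.2
    rw [hb] at h2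
    linarith [l2.1]
  rcases lt_trichotomy (arg w) (arg v) with h1 | h1 | h1
  · exact (alt (h.up _) (fun _ hz => hz.1) h1 (by linarith) (by linarith) (by linarith)
      m1 m2).elim n1 n2
  · exact n1 (h1 ▸ m1)
  · refine (alt (t₂ := Real.pi - arg w) (t₄ := arg v + 2 * Real.pi) (h.up _) (fun _ hz => hz.1)
      (by linarith) (by linarith) (by linarith) (by linarith) m1 m2).elim n2 ?_
    rwa [alt_two_pi]

/-- Choose a unit `u` with `u ^ 2 = -s s'` and `0 ≤ (s / u).re`; then `s = u w`,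
`s' = u (-conj w)`; `DD_refl` for `φ (u * ·)`, its hypothesis by `alt` for a set in `h.up`. -/
theorem Uni.order (h : Uni c φ) (hq : q ∈ Ioo (0 : ℝ) 1) {s s' : ℂ} (hs : ‖s‖ = 1)
    (hs' : ‖s'‖ = 1) (ht : (φ s).im = c) (hb : (φ s').im = -c) : DD q φ s' ≤ DD q φ s := by
  obtain ⟨u, hu, h2, hr⟩ : ∃ u : ℂ, ‖u‖ = 1 ∧ u * u = -(s * s') ∧ 0 ≤ (conj u * s).re := by
    have h1 : ee (arg (-(s * s')) / 2) * ee (arg (-(s * s')) / 2) = -(s * s') := by
      rw [← ee_add, add_halves, ee_arg (by rw [norm_neg, norm_mul, hs, hs', mul_one])]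
    rcases le_total 0 (conj (ee (arg (-(s * s')) / 2)) * s).re with h3 | h3
    · exact ⟨_, norm_ee _, h1, h3⟩
    · refine ⟨-ee (arg (-(s * s')) / 2), by rw [norm_neg, norm_ee], by rw [neg_mul_neg, h1], ?_⟩
      rw [map_neg, neg_mul, neg_re]
      linarith
  have hw : ‖conj u * s‖ = 1 := by rw [norm_mul, norm_conj, hu, hs, mul_one]
  have e1 : u * (conj u * s) = s := by rw [← mul_assoc, mul_comm u, alt_unit hu, one_mul]
  have e2 : u * -conj (conj u * s) = s' := by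
    rw [map_mul, conj_conj]
    linear_combination (-conj s) * h2 + s' * alt_unit hs
  have h3 := DD_refl (h.hc.rot hu) hq (fun v hv hv' => alt_hp (h.rot hu) hw hr
    (by simp only [e1, ht]) (by simp only [e2, hb]) hv hv') hw hr
  simpa only [DD, GG_rot q φ hu, e1, e2] using h3

theorem alt_anti (h : Uni c φ) (h0 : (φ 0).im = 0) (ht : (φ 1).im = c) : (φ (-1)).im ≠ c := by
  intro hb
  have hp := h.pos
  have hπ := Real.pi_pos
  have k1 : ∀ θ : ℝ, 0 < θ → θ < Real.pi → c ≤ (φ (ee θ)).im ∨ c ≤ (φ (-ee θ)).im := by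
    intro θ h1 h2
    have := alt (t₁ := 0) (t₂ := θ) (t₃ := Real.pi) (t₄ := θ + Real.pi) (h.up c)
      (fun _ hz => hz.1) h1 h2 (by linarith) (by linarith)
      (by rw [ee_zero]; exact ⟨norm_one, ht.ge⟩) (by rw [ee_pi]; exact ⟨by simp, hb.ge⟩)
    rw [ee_add, ee_pi, mul_neg_one] at this
    exact this.imp (fun h => h.2) fun h => h.2
  have k2 : ∀ u : ℂ, ‖u‖ = 1 → c ≤ (φ u).im ∨ c ≤ (φ (-u)).im := by
    intro u hu
    rw [← ee_arg hu]
    rcases lt_trichotomy (arg u) 0 with h1 | h1 | h1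
    · have := k1 (arg u + Real.pi) (by linarith [neg_pi_lt_arg u]) (by linarith)
      rw [ee_add, ee_pi, mul_neg_one, neg_neg] at this
      exact this.symm
    · rw [h1, ee_zero]
      exact Or.inl ht.ge
    · rcases (arg_le_pi u).eq_or_lt with h2 | h2
      · rw [h2, ee_pi]
        exact Or.inl hb.ge
      · exact k1 _ h1 h2
  have hg : HC fun v => φ v + φ (-1 * v) := h.hc.add (h.hc.rot (by simp))
  have k3 : ∀ v : ℂ, ‖v‖ ≤ 1 → 0 ≤ (φ v + φ (-1 * v)).im := fun v hv => by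
    refine hg.le_im (fun u hu => ?_) hv
    have l1 := abs_le.1 (h.le u hu)
    have l2 := abs_le.1 (h.le (-u) (by rw [norm_neg, hu]))
    rw [add_im, neg_one_mul]
    rcases k2 u hu with h1 | h1 <;> linarith [l1.1, l2.1]
  have hF : HC fun v => exp (I * (φ v + φ (-1 * v))) :=
    differentiable_exp.comp_diffContOnCl (hg.cmul I)
  have hn : ∀ v, ‖exp (I * (φ v + φ (-1 * v)))‖ = Real.exp (-(φ v + φ (-1 * v)).im) := fun v => by
    rw [norm_exp]
    simp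
  have hz : (φ 0 + φ (-1 * 0)).im = 0 := by rw [mul_zero, add_im, h0, add_zero]
  have k4 := eqOn_closedBall_of_isMaxOn_norm hF (fun v hv => by
    change ‖exp _‖ ≤ ‖exp _‖
    rw [hn, hn, hz]
    exact Real.exp_le_exp.2 (by linarith [k3 v (mem_ball_zero_iff.1 hv).le]))
    (show (1 : ℂ) ∈ closedBall 0 1 by simp)
  have k5 := congrArg norm k4
  simp only [Function.const_apply] at k5
  rw [hn, hn, hz, Real.exp_eq_exp, mul_one, add_im, ht, hb] at k5
  linarith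

/-- Otherwise one of `u`, `-u` is a maximum point for every unit `u` (`alt`), so
`g v = φ v + φ (-v)` has nonnegative imaginary part on the circle, zero at the centre, hence
`exp (I g)` is constant (`Complex.eqOn_closedBall_of_isMaxOn_norm`), but `(g s).im = 2 c`. -/
theorem Uni.not_antipodal (h : Uni c φ) (h0 : (φ 0).im = 0) {s : ℂ} (hs : ‖s‖ = 1)
    (ht : (φ s).im = c) : (φ (-s)).im ≠ c := by
  have := alt_anti (h.rot hs) (by simpa using h0) (by simpa using ht)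
  simpa using this

end Pool.Agent.NapKL
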