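import Pool.Agent.Lib.MP_b71113_an.KL.Base

/-! Discs over a rectangle: inverse map, symmetries, boundary arcs. -/

namespace Pool.Agent.NapKL

open Set Metric Complex ComplexConjugate

variable {c₁ c₂ : ℝ} {φ₁ φ₂ : ℂ → ℂ}

theorem Disc.swap (h : Disc c₁ c₂ φ₁ φ₂) : Disc c₂ c₁ φ₂ φ₁ := by
  have hb : BijOn (fun p : ℂ => (⟨p.im, p.re⟩ : ℂ)) (rect c₁ c₂) (rect c₂ c₁) :=
    ⟨fun p hp => ⟨hp.2, hp.1⟩,
      fun p _ q _ e => Complex.ext (congrArg Complex.im e) (congrArg Complex.re e),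
      fun p hp => ⟨⟨p.im, p.re⟩, ⟨hp.2, hp.1⟩, rfl⟩⟩
  exact ⟨h.p2, h.p1, h.h2, h.h1, hb.comp h.bij, fun w hw => (h.bd w hw).trans or_comm, h.z2, h.z1⟩

theorem Disc.neg (h : Disc c₁ c₂ φ₁ φ₂) : Disc c₁ c₂ φ₁ fun w => -φ₂ w := by
  have hm : ∀ p ∈ rect c₁ c₂, (⟨p.re, -p.im⟩ : ℂ) ∈ rect c₁ c₂ :=
    fun p hp => ⟨hp.1, (abs_neg p.im).trans_le hp.2⟩
  have hb : BijOn (fun p : ℂ => (⟨p.re, -p.im⟩ : ℂ)) (rect c₁ c₂) (rect c₁ c₂) :=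
    ⟨hm, fun p _ q _ e => Complex.ext (congrArg Complex.re e :)
      (neg_injective (congrArg Complex.im e :)),
      fun p hp => ⟨_, hm p hp, Complex.ext rfl (neg_neg _)⟩⟩
  refine ⟨h.p1, h.p2, h.h1, h.h2.neg, hb.comp h.bij, fun w hw => ?_, h.z1, ?_⟩
  · rw [neg_im, abs_neg]
    exact h.bd w hw
  · rw [neg_im, h.z2, neg_zero]

theorem dsc_cont (h : Disc c₁ c₂ φ₁ φ₂) :
    ContinuousOn (fun w => (⟨(φ₁ w).im, (φ₂ w).im⟩ : ℂ)) (closedBall 0 1) :=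
  equivRealProdCLM.symm.continuous.comp_continuousOn
    ((continuous_im.comp_continuousOn h.h1.continuousOn_ball).prodMk
      (continuous_im.comp_continuousOn h.h2.continuousOn_ball))

/-- a continuous bijection from a compact set has a continuous inverse -/
theorem Disc.inv (h : Disc c₁ c₂ φ₁ φ₂) : ∃ k : ℂ → ℂ, ContinuousOn k (rect c₁ c₂) ∧
    ∀ p ∈ rect c₁ c₂, ‖k p‖ ≤ 1 ∧ (φ₁ (k p)).im = p.re ∧ (φ₂ (k p)).im = p.im := by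
  have hi := h.bij.invOn_invFunOn
  have hm := h.bij.surjOn.mapsTo_invFunOn
  refine ⟨_, continuousOn_iff_isClosed.2 fun t ht => ⟨_, (((isCompact_closedBall 0 1).inter_right
    ht).image_of_continuousOn ((dsc_cont h).mono inter_subset_left)).isClosed, ?_⟩,
    fun p hp => ⟨mem_closedBall_zero_iff.1 (hm hp), (congrArg Complex.re (hi.2 hp) :),
      (congrArg Complex.im (hi.2 hp) :)⟩⟩
  ext p
  refine and_congr_left fun hp => ⟨fun h1 => ⟨_, ⟨hm hp, h1⟩, hi.2 hp⟩, ?_⟩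
  rintro ⟨w, hw, rfl⟩
  rw [mem_preimage, hi.1 hw.1]
  exact hw.2

theorem dsc_pre (h : Disc c₁ c₂ φ₁ φ₂) {B : Set ℂ} (hB : B ⊆ rect c₁ c₂) (hc : IsPreconnected B) :
    IsPreconnected (closedBall 0 1 ∩ (fun w => (⟨(φ₁ w).im, (φ₂ w).im⟩ : ℂ)) ⁻¹' B) := by
  obtain ⟨k, k1, k2⟩ := h.inv
  have hk : ∀ p ∈ rect c₁ c₂, (⟨(φ₁ (k p)).im, (φ₂ (k p)).im⟩ : ℂ) = p :=
    fun p hp => Complex.ext (k2 p hp).2.1 (k2 p hp).2.2
  convert hc.image k (k1.mono hB) using 1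
  ext w
  constructor
  · rintro ⟨h1, h2⟩
    exact ⟨_, h2, h.bij.injOn (mem_closedBall_zero_iff.2 (k2 _ (hB h2)).1) h1 (hk _ (hB h2))⟩
  · rintro ⟨p, hp, rfl⟩
    refine ⟨mem_closedBall_zero_iff.2 (k2 p (hB hp)).1, ?_⟩
    rw [mem_preimage, hk p (hB hp)]
    exact hp

/-- a box -/
def dscBox (a b c d : ℝ) : Set ℂ := {p | (a ≤ p.re ∧ p.re ≤ b) ∧ c ≤ p.im ∧ p.im ≤ d}

theorem dsc_box_cn (a b c d : ℝ) : IsPreconnected (dscBox a b c d) :=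
  (((convex_halfSpace_re_ge a).inter (convex_halfSpace_re_le b)).inter
    ((convex_halfSpace_im_ge c).inter (convex_halfSpace_im_le d))).isPreconnected

theorem dsc_box_cl (a b c d : ℝ) : IsClosed (dscBox a b c d) :=
  ((isClosed_le continuous_const continuous_re).inter
    (isClosed_le continuous_re continuous_const)).inter
    ((isClosed_le continuous_const continuous_im).inter
      (isClosed_le continuous_im continuous_const))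

theorem dsc_bd (p1 : 0 < c₁) (p2 : 0 < c₂) (s : ℝ) :
    IsPreconnected {p : ℂ | p ∈ rect c₁ c₂ ∧ (|p.re| = c₁ ∨ |p.im| = c₂) ∧ s ≤ p.im} := by
  refine isPreconnected_of_forall ⟨-c₁, c₂⟩ fun y ⟨⟨y1, y2⟩, y3, y4⟩ => ?_
  rw [abs_le] at y1 y2
  have V : ∀ a, |a| = c₁ → dscBox a a y.im c₂ ⊆
      {p : ℂ | p ∈ rect c₁ c₂ ∧ (|p.re| = c₁ ∨ |p.im| = c₂) ∧ s ≤ p.im} := by
    rintro a ha p ⟨⟨h1, h2⟩, h3, h4⟩
    have e : |p.re| = c₁ := by rw [le_antisymm h2 h1, ha]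
    exact ⟨⟨e.le, abs_le.2 ⟨y2.1.trans h3, h4⟩⟩, Or.inl e, y4.trans h3⟩
  have H : ∀ a, |a| = c₂ → s ≤ a → dscBox (-c₁) c₁ a a ⊆
      {p : ℂ | p ∈ rect c₁ c₂ ∧ (|p.re| = c₁ ∨ |p.im| = c₂) ∧ s ≤ p.im} := by
    rintro a ha hs p ⟨h1, h3, h4⟩
    have e : |p.im| = c₂ := by rw [le_antisymm h4 h3, ha]
    exact ⟨⟨abs_le.2 h1, e.le⟩, Or.inr e, hs.trans h3⟩
  have a1 := abs_of_pos p1
  have a2 := abs_of_pos p2
  have l1 : -c₁ ≤ c₁ := by linarith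
  rcases y3 with e | e
  · refine ⟨_, union_subset (H _ a2 (y4.trans y2.2)) (V _ e),
      Or.inl ⟨⟨le_rfl, l1⟩, le_rfl, le_rfl⟩, Or.inr ⟨⟨le_rfl, le_rfl⟩, le_rfl, y2.2⟩,
      (dsc_box_cn _ _ _ _).union ⟨y.re, c₂⟩ ⟨y1, le_rfl, le_rfl⟩
        ⟨⟨le_rfl, le_rfl⟩, y2.2, le_rfl⟩ (dsc_box_cn _ _ _ _)⟩
  · refine ⟨_, union_subset (V _ ((abs_neg _).trans a1)) (H _ e y4),
      Or.inl ⟨⟨le_rfl, le_rfl⟩, y2.2, le_rfl⟩, Or.inr ⟨y1, le_rfl, le_rfl⟩,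
      (dsc_box_cn _ _ _ _).union ⟨-c₁, y.im⟩ ⟨⟨le_rfl, le_rfl⟩, le_rfl, y2.2⟩
        ⟨⟨le_rfl, l1⟩, le_rfl, le_rfl⟩ (dsc_box_cn _ _ _ _)⟩

theorem dsc_up (h : Disc c₁ c₂ φ₁ φ₂) (s : ℝ) :
    IsPreconnected {w : ℂ | ‖w‖ = 1 ∧ s ≤ (φ₂ w).im} := by
  convert dsc_pre h (fun _ hp => hp.1) (dsc_bd h.p1 h.p2 s) using 1
  ext w
  constructor
  · rintro ⟨h1, h2⟩
    have h3 := mem_closedBall_zero_iff.2 h1.le
    exact ⟨h3, h.bij.mapsTo h3, (h.bd w h1.le).1 h1, h2⟩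
  · rintro ⟨h1, -, h2, h3⟩
    exact ⟨(h.bd w (mem_closedBall_zero_iff.1 h1)).2 h2, h3⟩

/-- The level sets are images under the inverse map of the parts `{s ≤ im}` of the boundary of the
rectangle: empty, or a union of at most four segments. The sets `lo` come from `Disc.neg`. -/
theorem Disc.uni (h : Disc c₁ c₂ φ₁ φ₂) : Uni c₂ φ₂ := by
  refine ⟨h.h2, h.p2, fun w hw => (h.bij.mapsTo (mem_closedBall_zero_iff.2 hw.le)).2, dsc_up h,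
    fun s => ?_⟩
  simpa only [neg_im, neg_le_neg_iff] using dsc_up h.neg (-s)

theorem dsc_arc (h : Disc c₁ c₂ φ₁ φ₂) {σ : ℝ} (hσ : |σ| = c₁) :
    ∃ (a : ℂ) (S : Set ℂ), Arc c₂ φ₂ a S ∧ (φ₁ a).im = σ := by
  have p2 := h.p2
  have l2 : -c₂ ≤ c₂ := by linarith
  have hbd : ∀ p ∈ dscBox σ σ (-c₂) c₂ ∪ dscBox (-c₁) c₁ (-c₂) (-c₂),
      p ∈ rect c₁ c₂ ∧ (|p.re| = c₁ ∨ |p.im| = c₂) := by
    rintro p (⟨⟨h1, h2⟩, h3⟩ | ⟨h1, h2, h3⟩)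
    · have e : |p.re| = c₁ := by rw [le_antisymm h2 h1, hσ]
      exact ⟨⟨e.le, abs_le.2 h3⟩, Or.inl e⟩
    · have e : |p.im| = c₂ := by rw [le_antisymm h3 h2, abs_neg, abs_of_pos p2]
      exact ⟨⟨abs_le.2 h1, e.le⟩, Or.inr e⟩
  obtain ⟨a, a1, a2⟩ := h.bij.surjOn (show (⟨σ, c₂⟩ : ℂ) ∈ rect c₁ c₂ from
    ⟨hσ.le, (abs_of_pos p2).le⟩)
  have a3 : (φ₁ a).im = σ := congrArg Complex.re a2
  have a4 : (φ₂ a).im = c₂ := congrArg Complex.im a2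
  refine ⟨a, _, ⟨(dsc_cont h).preimage_isClosed_of_isClosed isClosed_closedBall
    ((dsc_box_cl _ _ _ _).union (dsc_box_cl _ _ _ _)), dsc_pre h (fun p hp => (hbd p hp).1)
    ((dsc_box_cn _ _ _ _).union ⟨σ, -c₂⟩ ⟨⟨le_rfl, le_rfl⟩, le_rfl, l2⟩
      ⟨abs_le.1 hσ.le, le_rfl, le_rfl⟩ (dsc_box_cn _ _ _ _)),
    fun w hw => (h.bd w (mem_closedBall_zero_iff.1 hw.1)).2 (hbd _ hw.2).2,
    ⟨a1, Or.inl ⟨⟨a3.ge, a3.le⟩, l2.trans a4.ge, a4.le⟩⟩, fun w hw => ⟨fun e => ?_, ?_⟩,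
    fun w h1 h2 => ?_⟩, a3⟩
  · rcases hw with ⟨h1, ⟨⟨h2, h3⟩, -⟩ | ⟨-, -, h2⟩⟩
    · exact h.bij.injOn h1 a1 ((Complex.ext (le_antisymm h3 h2) e).trans a2.symm)
    · have h3 : (φ₂ w).im ≤ -c₂ := h2
      linarith
  · rintro rfl
    exact a4
  · have h3 := mem_closedBall_zero_iff.2 h1.le
    exact ⟨h3, Or.inr ⟨abs_le.1 (h.bij.mapsTo h3).1, h2.ge, h2.le⟩⟩

/-- images of the left and bottom side, and of the right and bottom side -/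
theorem Disc.arcs (h : Disc c₁ c₂ φ₁ φ₂) :
    ∃ (a e : ℂ) (S S' : Set ℂ), Arc c₂ φ₂ a S ∧ Arc c₂ φ₂ e S' ∧ a ≠ e := by
  have p1 := h.p1
  obtain ⟨a, S, h1, h2⟩ := dsc_arc h ((abs_neg _).trans (abs_of_pos p1))
  obtain ⟨e, S', h3, h4⟩ := dsc_arc h (abs_of_pos p1)
  refine ⟨a, e, S, S', h1, h3, ?_⟩
  rintro rfl
  linarith

end Pool.Agent.NapKL
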