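import Pool.Agent.Lib.MP_b71113_an.KL.Oka3
import Pool.Agent.Lib.MP_b71113_an.Osgood

/-! The continuity principle for the polynomial hull. -/

namespace Pool.Agent.NapKL

open Set Metric Complex MeasureTheory Filter Topology Pool.Agent.NapOT

variable {U : Set ℂ} {K : Set (ℂ × ℂ)} {ρ θ : ℂ → ℂ} {γ : ℂ → ℂ × ℂ} {r₁ r₂ : ℝ}

theorem oka4_cpt (hρ : Cut U ρ) : IsCompact (tsupport (db ρ)) :=
  hρ.cs.isCompact.of_isClosed_subset (isClosed_tsupport _) (tsupport_db_subset ρ)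

theorem oka4_im {z z' : ℂ} {e : ℝ} (h : ‖z' - z‖ ≤ e) : |z.im| - e ≤ |z'.im| := by
  have h1 := (abs_im_le_norm (z' - z)).trans h
  have h2 := abs_sub_abs_le_abs_sub z.im z'.im
  rw [sub_im, abs_sub_comm] at h1
  linarith

/-- the collar condition holds with a margin for all nearby curves -/
theorem oka4_col (hρ : Cut U ρ) (hγ : ContinuousOn γ U) (hc : Col r₁ r₂ ρ θ γ) :
    ∃ e > 0, ∀ γ' : ℂ → ℂ × ℂ, (∀ w ∈ U, ‖γ' w - γ w‖ ≤ e) → Col (r₁ + e) (r₂ + e) ρ θ γ' := by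
  have hT : tsupport (db ρ) ⊆ U := (tsupport_db_subset ρ).trans hρ.sub
  obtain ⟨a₂, h2, k2⟩ := ((oka4_cpt hρ).inter_right (isClosed_tsupport θ)).exists_forall_le'
    (f := fun w => |(γ w).2.im|)
    (continuous_im.comp_continuousOn (hγ.mono (inter_subset_left.trans hT)).snd).abs
    fun w hw => (hc w hw.1).1 hw.2
  obtain ⟨a₁, h1, k1⟩ :=
    ((oka4_cpt hρ).inter_right (isClosed_tsupport fun u => 1 - θ u)).exists_forall_le'
    (f := fun w => |(γ w).1.im|)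
    (continuous_im.comp_continuousOn (hγ.mono (inter_subset_left.trans hT)).fst).abs
    fun w hw => (hc w hw.1).2 hw.2
  have m0 : 0 < min (a₁ - r₁) (a₂ - r₂) := lt_min (sub_pos.2 h1) (sub_pos.2 h2)
  have m1 := min_le_left (a₁ - r₁) (a₂ - r₂)
  have m2 := min_le_right (a₁ - r₁) (a₂ - r₂)
  refine ⟨min (a₁ - r₁) (a₂ - r₂) / 3, by positivity, fun γ' h w hw => ⟨fun k => ?_, fun k => ?_⟩⟩
  · have := oka4_im (z := (γ w).2) (z' := (γ' w).2) ((norm_snd_le (γ' w - γ w)).trans (h w (hT hw)))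
    have := k2 w ⟨hw, k⟩
    linarith
  · have := oka4_im (z := (γ w).1) (z' := (γ' w).1) ((norm_fst_le (γ' w - γ w)).trans (h w (hT hw)))
    have := k1 w ⟨hw, k⟩
    linarith

theorem oka4_mono {e : ℝ} (he : 0 < e) (hc : Col (r₁ + e) (r₂ + e) ρ θ γ) : Col r₁ r₂ ρ θ γ :=
  fun w hw => ⟨fun k => by linarith [(hc w hw).1 k], fun k => by linarith [(hc w hw).2 k]⟩

theorem oka4_div {χ : ℂ → ℂ} {w z s : ℂ} {r e M : ℝ} (he : 0 < e) (hs : |s.im| ≤ r)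
    (h : w ∈ tsupport χ → r + e < |z.im|) (hM : ‖χ w‖ ≤ M) : ‖χ w / (z - s)‖ ≤ M / e := by
  have h0 : 0 ≤ M := (norm_nonneg _).trans hM
  by_cases k : w ∈ tsupport χ
  · have h1 := oka4_im (z := z) (z' := s) le_rfl
    rw [norm_sub_rev] at h1
    rw [norm_div]
    exact div_le_div₀ h0 hM he (by linarith [h k])
  · rw [image_eq_zero_of_notMem_tsupport k, zero_div, norm_zero]
    positivity

theorem oka4_ab {e M : ℝ} (he : 0 < e) (hc : Col (r₁ + e) (r₂ + e) ρ θ γ) {s : ℂ × ℂ}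
    (hs : s ∈ strip r₁ r₂) {w : ℂ} (hw : w ∈ tsupport (db ρ)) (h1 : ‖θ w‖ ≤ M)
    (h2 : ‖1 - θ w‖ ≤ M) : ‖a0 θ γ s w‖ ≤ M / e ∧ ‖b0 θ γ s w‖ ≤ M / e :=
  ⟨oka4_div (χ := fun u => 1 - θ u) he hs.1 (hc w hw).2 h2, oka4_div he hs.2 (hc w hw).1 h1⟩

theorem oka4_bump {C : Set ℂ} (hC : IsCompact C) (hU : IsOpen U) (hCU : C ⊆ U) :
    ∃ ρ : ℂ → ℂ, Cut U ρ ∧ ∀ w ∈ C, ρ =ᶠ[𝓝 w] fun _ => 1 := by
  obtain ⟨C', hC', h1, h2⟩ := exists_compact_between hC hU hCU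
  obtain ⟨ψ, hψ, hc, hs, h3, -⟩ := Lib.MP_b71113_an.exists_bump hC' hU h2
  refine ⟨fun w => (ψ w : ℂ), ⟨ofRealCLM.contDiff.comp (hψ.of_le (by simp)),
    hc.comp_left (g := fun x : ℝ => (x : ℂ)) ofReal_zero,
    (tsupport_comp_subset (g := fun x : ℝ => (x : ℂ)) ofReal_zero ψ).trans hs⟩, fun w hw => ?_⟩
  filter_upwards [mem_interior_iff_mem_nhds.1 (h1 hw)] with u hu
  rw [h3 u hu, ofReal_one]

theorem oka4_int {T : Set ℂ} (hT : IsCompact T) {F : ℂ → ℂ} (hF : ContinuousOn F T)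
    (h0 : ∀ w ∉ T, F w = 0) : Integrable F :=
  (integrableOn_iff_integrable_of_support_subset fun w hw => by_contra fun k => hw (h0 w k)).1
    (hF.integrableOn_compact hT)

theorem oka4_norm {T : Set ℂ} (hT : IsCompact T) {F : ℂ → ℂ} {c : ℝ} (hF : ∀ w ∈ T, ‖F w‖ ≤ c)
    (h0 : ∀ w ∉ T, F w = 0) : ‖∫ w, F w‖ ≤ c * volume.real T := by
  rw [← setIntegral_eq_integral_of_forall_compl_eq_zero h0]
  exact norm_setIntegral_le_of_norm_le_const hT.measure_lt_top hF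

theorem oka4_ker0 (α β α₀ β₀ : ℂ → ℂ) {w : ℂ} (hw : w ∉ tsupport ρ) : ker ρ α β α₀ β₀ w = 0 := by
  rw [ker, image_eq_zero_of_notMem_tsupport hw,
    image_eq_zero_of_notMem_tsupport fun k => hw (tsupport_db_subset ρ k)]
  ring

theorem oka4_cd (hU : IsOpen U) (hγ : DifferentiableOn ℂ γ U) : ContDiffOn ℝ 1 γ U :=
  (hγ.contDiffOn hU).restrict_scalars ℝ

theorem oka4_dbc (hU : IsOpen U) {u : ℂ → ℂ} (hu : ContDiffOn ℝ 1 u U) : ContinuousOn (db u) U := by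
  have h := hu.continuousOn_fderiv_of_isOpen hU le_rfl
  exact ((h.clm_apply continuousOn_const).add
    (continuousOn_const.mul (h.clm_apply continuousOn_const))).div_const 2

theorem oka4_dbs (u : ℂ → ℂ) (c w : ℂ) : db (fun z => u z - c) w = db u w := by
  simp only [db, fderiv_sub_const]

theorem oka4_low {z z' : ℂ × ℂ} {d : ℝ} (hd : 0 < d) (h : d ≤ ‖z‖) (h' : ‖z' - z‖ ≤ d / 4) :
    d ^ 2 / 2 ≤ ‖(starRingEnd ℂ) z.1 * z'.1 + (starRingEnd ℂ) z.2 * z'.2‖ := by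
  have e : (starRingEnd ℂ) z.1 * z'.1 + (starRingEnd ℂ) z.2 * z'.2 =
      ((‖z.1‖ ^ 2 + ‖z.2‖ ^ 2 : ℝ) : ℂ) -
        -((starRingEnd ℂ) z.1 * (z' - z).1 + (starRingEnd ℂ) z.2 * (z' - z).2) := by
    rw [ofReal_add, ofReal_pow, ofReal_pow, ← conj_mul', ← conj_mul', Prod.fst_sub, Prod.snd_sub]
    ring
  have h1 : ‖-((starRingEnd ℂ) z.1 * (z' - z).1 + (starRingEnd ℂ) z.2 * (z' - z).2)‖ ≤
      ‖z‖ * (d / 4) + ‖z‖ * (d / 4) := by
    rw [norm_neg]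
    refine (norm_add_le _ _).trans (add_le_add ?_ ?_)
    · rw [norm_mul, RCLike.norm_conj]
      exact mul_le_mul (norm_fst_le z) ((norm_fst_le _).trans h') (norm_nonneg _) (norm_nonneg _)
    · rw [norm_mul, RCLike.norm_conj]
      exact mul_le_mul (norm_snd_le z) ((norm_snd_le _).trans h') (norm_nonneg _) (norm_nonneg _)
  have h2 : ‖z‖ ^ 2 ≤ ‖z.1‖ ^ 2 + ‖z.2‖ ^ 2 := by
    rw [Prod.norm_def]
    rcases max_choice ‖z.1‖ ‖z.2‖ with k | k <;> rw [k] <;> nlinarith [sq_nonneg ‖z.1‖, sq_nonneg ‖z.2‖]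
  rw [e]
  refine le_trans ?_ (norm_sub_norm_le _ _)
  rw [norm_real, Real.norm_of_nonneg (by positivity)]
  nlinarith

/-- For `s₀ ∈ K` the functions `f₀ = γ.1 - s₀.1`, `g₀ = γ.2 - s₀.2` have no common zero on a compact
neighbourhood `T ⊆ U` of `tsupport ρ`; take a smooth `χ` with `g₀ ≠ 0` on `T ∩ tsupport χ` and
`f₀ ≠ 0` on `T ∩ tsupport (1 - χ)` (`exists_bump`); `α = (1 - χ) / f`, `β = χ / g` on the
interior of `T`; `α db β - β db α = db χ / (f g)`. This works for `s` near `s₀` and `γ'` near `γ`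
with uniform lower bounds; finitely many `s₀` suffice (`IsCompact.induction_on`). Alternative
without a cover: `α = conj f / N`, `β = conj g / N`, `N = |f|² + |g|²`, with Cauchy estimates for
the derivatives of `γ' - γ` on `tsupport ρ`. -/
theorem oka4_bound (hK : IsCompact K) (hs : K ⊆ strip r₁ r₂) (hU : IsOpen U) (hρ : Cut U ρ)
    (hγ : DifferentiableOn ℂ γ U) (h : ∀ w ∈ U, γ w ∉ K) (hθ : Continuous θ)
    (hc : Col r₁ r₂ ρ θ γ) : ∃ C ε : ℝ, 0 < ε ∧ ∀ γ' : ℂ → ℂ × ℂ, DifferentiableOn ℂ γ' U →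
      (∀ w ∈ U, ‖γ' w - γ w‖ ≤ ε) → ∀ s ∈ K, ∃ α β : ℂ → ℂ,
        Pr ρ (fun w => (γ' w).1 - s.1) (fun w => (γ' w).2 - s.2) α β ∧
        ∀ w, ‖ker ρ α β (a0 θ γ' s) (b0 θ γ' s) w‖ ≤ C := by
  have hT := hρ.cs.isCompact
  have hγc := hγ.continuousOn
  have c1 : ContDiffOn ℝ 1 (fun w => (starRingEnd ℂ) (γ w).1) U :=
    conjCLE.contDiff.comp_contDiffOn (oka4_cd hU hγ).fst
  have c2 : ContDiffOn ℝ 1 (fun w => (starRingEnd ℂ) (γ w).2) U :=
    conjCLE.contDiff.comp_contDiffOn (oka4_cd hU hγ).snd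
  have c3 : ContinuousOn (fun p : ℂ × (ℂ × ℂ) => γ p.1 - p.2) (tsupport ρ ×ˢ K) :=
    (hγc.comp continuousOn_fst fun p hp => hρ.sub hp.1).sub continuousOn_snd
  obtain ⟨e, he, hcol⟩ := oka4_col hρ hγc hc
  obtain ⟨d, hd, hlow⟩ := (hT.prod hK).exists_forall_le' c3.norm (a := 0) fun p hp =>
    norm_pos_iff.2 fun k => h p.1 (hρ.sub hp.1) (sub_eq_zero.1 k ▸ hp.2)
  obtain ⟨M, hM⟩ := (hT.prod hK).exists_bound_of_continuousOn
    (f := fun p : ℂ × (ℂ × ℂ) => (ρ p.1, db ρ p.1, θ p.1, 1 - θ p.1,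
      db (fun w => (starRingEnd ℂ) (γ w).1) p.1, db (fun w => (starRingEnd ℂ) (γ w).2) p.1,
      γ p.1 - p.2))
    ((hρ.cd.continuous.comp continuous_fst).continuousOn.prodMk
      ((hρ.cont_db.comp continuous_fst).continuousOn.prodMk
      ((hθ.comp continuous_fst).continuousOn.prodMk
      ((continuous_const.sub (hθ.comp continuous_fst)).continuousOn.prodMk
      (((oka4_dbc hU c1).comp continuousOn_fst fun p hp => hρ.sub hp.1).prodMk
      (((oka4_dbc hU c2).comp continuousOn_fst fun p hp => hρ.sub hp.1).prodMk c3))))))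
  refine ⟨max 0 (M * ((2 / d ^ 2) ^ 2 * (M * M + M * M)) +
    M * (M * (2 / d ^ 2) * (M / e) + M / e * (M * (2 / d ^ 2)))), min e (d / 4), by positivity,
    fun γ' hγ' hn s hsK => ?_⟩
  set u : ℂ → ℂ := fun w => (starRingEnd ℂ) (γ w).1 - (starRingEnd ℂ) s.1 with hu
  set v : ℂ → ℂ := fun w => (starRingEnd ℂ) (γ w).2 - (starRingEnd ℂ) s.2 with hv
  set D : ℂ → ℂ := fun w => u w * ((γ' w).1 - s.1) + v w * ((γ' w).2 - s.2) with hD
  have cu : ContDiffOn ℝ 1 u U := c1.sub contDiffOn_const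
  have cv : ContDiffOn ℝ 1 v U := c2.sub contDiffOn_const
  have cD : ContDiffOn ℝ 1 D U := (cu.mul ((oka4_cd hU hγ').fst.sub contDiffOn_const)).add
    (cv.mul ((oka4_cd hU hγ').snd.sub contDiffOn_const))
  have hV : IsOpen (U ∩ D ⁻¹' {0}ᶜ) := cD.continuousOn.isOpen_inter_preimage hU isOpen_compl_singleton
  have cE : ContDiffOn ℝ 1 (fun w => (D w)⁻¹) (U ∩ D ⁻¹' {0}ᶜ) :=
    (cD.mono inter_subset_left).inv fun w hw => hw.2
  have lD : ∀ w ∈ tsupport ρ, d ^ 2 / 2 ≤ ‖D w‖ := fun w hw => by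
    have := oka4_low (z := γ w - s) (z' := γ' w - s) hd (hlow (w, s) ⟨hw, hsK⟩)
      (by rw [sub_sub_sub_cancel_right]; exact (hn w (hρ.sub hw)).trans (min_le_right _ _))
    simpa only [Prod.fst_sub, Prod.snd_sub, map_sub] using this
  have sV : tsupport ρ ⊆ U ∩ D ⁻¹' {0}ᶜ := fun w hw =>
    ⟨hρ.sub hw, norm_pos_iff.1 (lt_of_lt_of_le (by positivity) (lD w hw))⟩
  refine ⟨fun w => u w * (D w)⁻¹, fun w => v w * (D w)⁻¹, ⟨_, hV, sV,
    (cu.mono inter_subset_left).mul cE, (cv.mono inter_subset_left).mul cE, fun w hw => ?_⟩,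
    fun w => ?_⟩
  · have : D w ≠ 0 := hw.2
    calc _ = D w * (D w)⁻¹ := by simp only [hD]; ring
      _ = 1 := mul_inv_cancel₀ this
  by_cases hw : w ∈ tsupport ρ
  swap
  · rw [oka4_ker0 _ _ _ _ hw, norm_zero]
    exact le_max_left _ _
  refine le_trans ?_ (le_max_right _ _)
  have b := hM (w, s) ⟨hw, hsK⟩
  simp only [norm_prod_le_iff] at b
  obtain ⟨b1, b2, b3, b4, b5, b6, b7, b8⟩ := b
  have M0 : 0 ≤ M := (norm_nonneg _).trans b1
  have bu : ‖u w‖ ≤ M := by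
    simp only [hu]
    rwa [← map_sub, RCLike.norm_conj]
  have bv : ‖v w‖ ≤ M := by
    simp only [hv]
    rwa [← map_sub, RCLike.norm_conj]
  have bE : ‖(D w)⁻¹‖ ≤ 2 / d ^ 2 := by
    rw [norm_inv, ← inv_div]
    exact inv_anti₀ (by positivity) (lD w hw)
  have du := (cu.contDiffAt (hU.mem_nhds (hρ.sub hw))).differentiableAt (by simp)
  have dv := (cv.contDiffAt (hU.mem_nhds (hρ.sub hw))).differentiableAt (by simp)
  have dE := (cE.contDiffAt (hV.mem_nhds (sV hw))).differentiableAt (by simp)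
  have e1 : u w * (D w)⁻¹ * db (fun w => v w * (D w)⁻¹) w -
      v w * (D w)⁻¹ * db (fun w => u w * (D w)⁻¹) w =
      (D w)⁻¹ ^ 2 * (u w * db (fun w => (starRingEnd ℂ) (γ w).2) w -
        v w * db (fun w => (starRingEnd ℂ) (γ w).1) w) := by
    rw [db_mul dv dE, db_mul du dE, hu, hv, oka4_dbs, oka4_dbs]
    ring
  have ba : ‖u w * (D w)⁻¹‖ ≤ M * (2 / d ^ 2) := norm_mul_le_of_le bu bE
  have bb : ‖v w * (D w)⁻¹‖ ≤ M * (2 / d ^ 2) := norm_mul_le_of_le bv bE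
  rw [ker, e1]
  refine (norm_sub_le _ _).trans (add_le_add (norm_mul_le_of_le b1 (norm_mul_le_of_le ?_
    ((norm_sub_le _ _).trans (add_le_add (norm_mul_le_of_le bu b6) (norm_mul_le_of_le bv b5))))) ?_)
  · rw [norm_pow]
    exact pow_le_pow_left₀ (norm_nonneg _) bE 2
  by_cases hw' : w ∈ tsupport (db ρ)
  · obtain ⟨k1, k2⟩ := oka4_ab he (hcol γ' fun z hz => (hn z hz).trans (min_le_left _ _)) (hs hsK)
      hw' b3 b4
    exact norm_mul_le_of_le b2 ((norm_sub_le _ _).trans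
      (add_le_add (norm_mul_le_of_le ba k2) (norm_mul_le_of_le k1 bb)))
  · rw [image_eq_zero_of_notMem_tsupport hw', zero_mul, norm_zero]
    positivity

/-- cut-off functions; the collar condition is stable -/
theorem oka4_cut (hU : IsOpen U) {C : Set ℂ} (hC : IsCompact C) (hCU : C ⊆ U)
    (hγ : ContinuousOn γ U) (h : ∀ w ∈ U \ C, r₁ < |(γ w).1.im| ∨ r₂ < |(γ w).2.im|) :
    ∃ (ρ θ : ℂ → ℂ) (ε : ℝ), Cut U ρ ∧ (∀ w ∈ C, ρ w = 1 ∧ w ∉ tsupport (db ρ)) ∧ Continuous θ ∧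
      0 < ε ∧ ∀ γ' : ℂ → ℂ × ℂ, (∀ w ∈ U, ‖γ' w - γ w‖ ≤ ε) → Col r₁ r₂ ρ θ γ' := by
  obtain ⟨ρ, hρ, h1⟩ := oka4_bump hC hU hCU
  have hT : tsupport (db ρ) ⊆ U := (tsupport_db_subset ρ).trans hρ.sub
  have h2 : ∀ w ∈ C, w ∉ tsupport (db ρ) := fun w hw => by
    rw [notMem_tsupport_iff_eventuallyEq]
    filter_upwards [(h1 w hw).eventuallyEq_nhds] with u hu
    simp [db, hu.fderiv_eq]
  have hA : IsCompact (tsupport (db ρ) ∩ (fun w => |(γ w).1.im|) ⁻¹' Iic r₁) :=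
    (oka4_cpt hρ).of_isClosed_subset
      ((continuous_im.comp_continuousOn (hγ.mono hT).fst).abs.preimage_isClosed_of_isClosed
        (isClosed_tsupport _) isClosed_Iic) inter_subset_left
  have hO : IsOpen (U ∩ (fun w => |(γ w).2.im|) ⁻¹' Ioi r₂) :=
    (continuous_im.comp_continuousOn hγ.snd).abs.isOpen_inter_preimage hU isOpen_Ioi
  obtain ⟨θ, hθ, h3⟩ := oka4_bump hA hO fun w hw =>
    ⟨hT hw.1, (h w ⟨hT hw.1, fun k => h2 w k hw.1⟩).resolve_left (not_lt.2 hw.2)⟩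
  have hc : Col r₁ r₂ ρ θ γ := fun w hw => ⟨fun k => (hθ.sub k).2, fun k => by
    by_contra k'
    refine (notMem_tsupport_iff_eventuallyEq.2 ?_) k
    filter_upwards [h3 w ⟨hw, not_lt.1 k'⟩] with u hu
    simp [hu]⟩
  obtain ⟨e, he, h4⟩ := oka4_col hρ hγ hc
  exact ⟨ρ, θ, e, hρ, fun w hw => ⟨(h1 w hw).eq_of_nhds, h2 w hw⟩, hθ.cd.continuous, he,
    fun γ' hn => oka4_mono he (h4 γ' hn)⟩

/-- Let `x = γ w₀ ∈ PH K`; then `w₀ ∈ C` (`PH_subset_strip`). `a = dslope γ.1 w₀`,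
`b = dslope γ.2 w₀`, `η n = g n a - f n b` tends to zero uniformly on `tsupport ρ`. By `oka3_ap`,
`Ap.le`, `fn_indep`, `oka4_bound` the value of `fn` at `x` tends to zero; by `fn_eval` it tends to
`∫ db ρ / (w - w₀) = -π` (`cp_smooth`). -/
theorem oka (hK : IsCompact K) (hs : K ⊆ strip r₁ r₂) (hU : IsOpen U) {C : Set ℂ}
    (hC : IsCompact C) (hCU : C ⊆ U) (hγ : DifferentiableOn ℂ γ U) (hK' : ∀ w ∈ U, γ w ∉ K)
    (h : ∀ w ∈ U \ C, r₁ < |(γ w).1.im| ∨ r₂ < |(γ w).2.im|)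
    (hn : ∀ ε > 0, ∃ γ' : ℂ → ℂ × ℂ, DifferentiableOn ℂ γ' U ∧ (∀ w ∈ U, ‖γ' w - γ w‖ ≤ ε) ∧
      ∀ w ∈ U, γ' w ∉ PH K) : ∀ w ∈ U, γ w ∉ PH K := by
  intro w₀ hw₀ hx
  have hxs := PH_subset_strip hK hs hx
  have hwC : w₀ ∈ C := by
    by_contra k
    rcases h w₀ ⟨hw₀, k⟩ with k | k
    exacts [not_lt.2 hxs.1 k, not_lt.2 hxs.2 k]
  have hγc := hγ.continuousOn
  obtain ⟨ρ, θ, ε₀, hρ, h1, hθ, hε₀, hcol⟩ := oka4_cut hU hC hCU hγc h
  have hc : Col r₁ r₂ ρ θ γ := hcol γ fun w _ => by simp [hε₀.le]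
  obtain ⟨e, he, hce⟩ := oka4_col hρ hγc hc
  obtain ⟨B, ε₁, hε₁, hB⟩ := oka4_bound hK hs hU hρ hγ hK' hθ hc
  have hT := hρ.cs.isCompact
  have hT' := oka4_cpt hρ
  have sT := tsupport_db_subset ρ
  obtain ⟨a, ha, ea⟩ : ∃ a : ℂ → ℂ, DifferentiableOn ℂ a U ∧
      ∀ w, (w - w₀) * a w = (γ w).1 - (γ w₀).1 :=
    ⟨dslope (fun w => (γ w).1) w₀, (differentiableOn_dslope (hU.mem_nhds hw₀)).2 hγ.fst,
      sub_smul_dslope _ _⟩
  obtain ⟨b, hb, eb⟩ : ∃ b : ℂ → ℂ, DifferentiableOn ℂ b U ∧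
      ∀ w, (w - w₀) * b w = (γ w).2 - (γ w₀).2 :=
    ⟨dslope (fun w => (γ w).2) w₀, (differentiableOn_dslope (hU.mem_nhds hw₀)).2 hγ.snd,
      sub_smul_dslope _ _⟩
  have ca := ha.continuousOn.mono hρ.sub
  have cb := hb.continuousOn.mono hρ.sub
  obtain ⟨M, hM⟩ := hT.exists_bound_of_continuousOn
    (f := fun w => (a w, b w, θ w, 1 - θ w, db ρ w))
    (ca.prodMk (cb.prodMk (hθ.continuousOn.prodMk
      ((continuous_const.sub hθ).continuousOn.prodMk hρ.cont_db.continuousOn))))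
  simp only [norm_prod_le_iff] at hM
  have ne : ∀ w ∈ tsupport (db ρ), w₀ - w ≠ 0 := fun w hw k =>
    (h1 w₀ hwC).2 (sub_eq_zero.1 k ▸ hw)
  have cN : ContinuousOn (fun w => (w₀ - w)⁻¹) (tsupport (db ρ)) :=
    (continuous_const.sub continuous_id).continuousOn.inv₀ ne
  obtain ⟨N, hN⟩ := hT'.exists_bound_of_continuousOn cN
  have hJ : ∫ w, db ρ w * (w₀ - w)⁻¹ = (Real.pi : ℂ) := by
    have := cp_smooth hρ.cd hρ.cs w₀
    rw [(h1 w₀ hwC).1, CT, inv_mul_eq_one₀ (ofReal_ne_zero.2 Real.pi_ne_zero)] at this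
    simpa only [div_eq_mul_inv] using this.symm
  have z0 : ∀ (F : ℂ → ℂ), ∀ w ∉ tsupport (db ρ), db ρ w * F w = 0 := fun F w hw => by
    rw [image_eq_zero_of_notMem_tsupport hw, zero_mul]
  have key : ∀ ε > 0, ε ≤ e → ε ≤ ε₁ → Real.pi ≤ ε * (B * (M + M) * volume.real (tsupport ρ) +
      M * (N * (M / e + M / e)) * volume.real (tsupport (db ρ))) := by
    intro ε hε l1 l2
    obtain ⟨γ', hγ', n1, n2⟩ := hn ε hε
    have hc1 := hce γ' fun w hw => (n1 w hw).trans l1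
    have hc2 := oka4_mono he hc1
    have n3 : ∀ w ∈ tsupport ρ, ‖(γ' w).1 - (γ w).1‖ ≤ ε := fun w hw =>
      (norm_fst_le (γ' w - γ w)).trans (n1 w (hρ.sub hw))
    have n4 : ∀ w ∈ tsupport ρ, ‖(γ' w).2 - (γ w).2‖ ≤ ε := fun w hw =>
      (norm_snd_le (γ' w - γ w)).trans (n1 w (hρ.sub hw))
    have hf : ∀ s : ℂ × ℂ, DifferentiableOn ℂ (fun w => (γ' w).1 - s.1) U := fun s =>
      hγ'.fst.sub_const _
    have hg : ∀ s : ℂ × ℂ, DifferentiableOn ℂ (fun w => (γ' w).2 - s.2) U := fun s =>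
      hγ'.snd.sub_const _
    have p0 := fun s => hc2.p0 hθ (hγ'.continuousOn.mono hρ.sub) (s := s)
    have hη : DifferentiableOn ℂ
        (fun w => ((γ' w).2 - (γ w₀).2) * a w - ((γ' w).1 - (γ w₀).1) * b w) U :=
      ((hg _).mul ha).sub ((hf _).mul hb)
    obtain ⟨α, β, hp, hap⟩ := oka3_ap hK hs hU hρ hγ' (fun w hw => n2 w (hρ.sub hw)) hθ hc2
    have hI := (hap _ (hη.continuousOn.mono hρ.sub)).le hx
      (M := B * (ε * M + ε * M) * volume.real (tsupport ρ)) fun s hsK => by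
        obtain ⟨α', β', hp', hk⟩ := hB γ' hγ' (fun w hw => (n1 w hw).trans l2) s hsK
        rw [fn_indep hU hρ (hf s) (hg s) hη (hp s (subset_PH K hsK)) hp' (p0 s (hs hsK))]
        refine oka4_norm hT (fun w hw => norm_mul_le_of_le (hk w) ?_) fun w hw => ?_
        · have : ((γ' w).2 - (γ w₀).2) * a w - ((γ' w).1 - (γ w₀).1) * b w =
              ((γ' w).2 - (γ w).2) * a w - ((γ' w).1 - (γ w).1) * b w := by
            linear_combination b w * ea w - a w * eb w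
          exact (congrArg norm this).le.trans ((norm_sub_le _ _).trans (add_le_add
            (norm_mul_le_of_le (n4 w hw) (hM w hw).1) (norm_mul_le_of_le (n3 w hw) (hM w hw).2.1)))
        · rw [oka4_ker0 _ _ _ _ hw, zero_mul]
    have q := p0 _ hxs
    rw [fn_eval hU hρ (hf _) (hg _) ha hb (hp _ hx) q] at hI
    have i1 := oka4_int hT' (hρ.cont_db.continuousOn.mul
      (((ca.mono sT).mul q.ca).add ((cb.mono sT).mul q.cb))) (z0 _)
    have i2 := oka4_int hT' (hρ.cont_db.continuousOn.mul cN) (z0 _)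
    have hS := oka4_norm hT' (F := fun w => db ρ w * (a w * a0 θ γ' (γ w₀) w +
        b w * b0 θ γ' (γ w₀) w) + db ρ w * (w₀ - w)⁻¹)
      (c := M * (N * (ε * (M / e) + ε * (M / e)))) (fun w hw => by
        have k := hM w (sT hw)
        obtain ⟨k1, k2⟩ := oka4_ab he hc1 hxs hw k.2.2.1 k.2.2.2.1
        have : db ρ w * (a w * a0 θ γ' (γ w₀) w + b w * b0 θ γ' (γ w₀) w) +
            db ρ w * (w₀ - w)⁻¹ = db ρ w * ((w₀ - w)⁻¹ * (((γ' w).1 - (γ w).1) * a0 θ γ' (γ w₀) w +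
              ((γ' w).2 - (γ w).2) * b0 θ γ' (γ w₀) w)) := by
          linear_combination db ρ w * (w₀ - w)⁻¹ * (-q.eq w hw - a0 θ γ' (γ w₀) w * ea w -
            b0 θ γ' (γ w₀) w * eb w) - db ρ w * (a w * a0 θ γ' (γ w₀) w +
              b w * b0 θ γ' (γ w₀) w) * mul_inv_cancel₀ (ne w hw)
        rw [this]
        exact norm_mul_le_of_le k.2.2.2.2 (norm_mul_le_of_le (hN w hw) ((norm_add_le _ _).trans
          (add_le_add (norm_mul_le_of_le (n3 w (sT hw)) k1) (norm_mul_le_of_le (n4 w (sT hw)) k2)))))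
      fun w hw => by simp only [image_eq_zero_of_notMem_tsupport hw, zero_mul, add_zero]
    erw [integral_add i1 i2] at hS
    erw [hJ] at hS
    have k := norm_sub_le ((∫ w, db ρ w * (a w * a0 θ γ' (γ w₀) w + b w * b0 θ γ' (γ w₀) w)) +
      (Real.pi : ℂ)) (∫ w, db ρ w * (a w * a0 θ γ' (γ w₀) w + b w * b0 θ γ' (γ w₀) w))
    rw [add_sub_cancel_left, norm_real, Real.norm_of_nonneg Real.pi_pos.le] at k
    refine k.trans ((add_le_add hS hI).trans (le_of_eq ?_))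
    ring
  generalize B * (M + M) * volume.real (tsupport ρ) +
      M * (N * (M / e + M / e)) * volume.real (tsupport (db ρ)) = L at key
  have k := key (min (min e ε₁) (1 / (|L| + 1))) (by positivity)
    ((min_le_left _ _).trans (min_le_left _ _)) ((min_le_left _ _).trans (min_le_right _ _))
  have k1 : min (min e ε₁) (1 / (|L| + 1)) * L ≤ 1 / (|L| + 1) * (|L| + 1) :=
    (mul_le_mul_of_nonneg_left (le_abs_self L) (by positivity)).trans
      (mul_le_mul (min_le_right _ _) (by linarith) (abs_nonneg _) (by positivity))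
  rw [one_div_mul_cancel (by positivity)] at k1
  linarith [Real.pi_gt_three]

end Pool.Agent.NapKL
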