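import Pool.Agent.Lib.MP_b71113_an.KL.Max
import Pool.Agent.Lib.MP_b71113_an.KL.Mob

/-! Thin annuli. -/

namespace Pool.Agent.NapKL

open Set Metric Complex ComplexConjugate

variable {φ : ℂ → ℂ}

/-- Cauchy estimate for `exp (P / m')`, `m' > m`, or Borel-Caratheodory -/
theorem norm_deriv_le_of_re {P : ℂ → ℂ} {x : ℂ} {m : ℝ}
    (hP : DifferentiableOn ℂ P (ball x 1)) (h : ∀ u ∈ ball x 1, |(P u).re| ≤ m) :
    ‖deriv P x‖ ≤ 20 * m := by
  have hx := h x (mem_ball_self one_pos)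
  have hm : 0 ≤ m := (abs_nonneg _).trans hx
  refine le_of_forall_pos_le_add fun ε hε => ?_
  obtain ⟨s, hs⟩ : ∃ s : ℝ, s = 2 * m + ε / 6 := ⟨_, rfl⟩
  have hs0 : 0 < s := by linarith
  have hb : closedBall x (1 / 2) ⊆ ball x 1 := closedBall_subset_ball (by norm_num)
  have h1 := norm_deriv_le_of_forall_mem_sphere_norm_le (c := x) (R := 1 / 2) (C := 3)
    (f := fun u => exp ((P u - P x) / s)) (by norm_num)
    ((((hP.sub_const _).div_const _).cexp).diffContOnCl_ball hb) fun z hz => by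
      have h2 := h z (hb (sphere_subset_closedBall hz))
      rw [norm_exp, div_ofReal_re, sub_re]
      refine (Real.exp_le_exp.2 ((div_le_one hs0).2 ?_)).trans Real.exp_one_lt_three.le
      linarith [(abs_le.1 h2).2, (abs_le.1 hx).1]
  have h2 := ((((hP.differentiableAt (ball_mem_nhds x one_pos)).hasDerivAt.sub_const
    (P x)).div_const (s : ℂ)).cexp).deriv
  rw [h2, sub_self, zero_div, exp_zero, one_mul, norm_div, norm_real, Real.norm_of_nonneg hs0.le,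
    div_le_iff₀ hs0] at h1
  linarith

theorem thin_at {H : ℂ → ℂ} (hH : DifferentiableOn ℂ H {u | |u.re| < 2}) {u : ℂ}
    (hu : |u.re| < 2) : HasDerivAt H (deriv H u) u :=
  (hH.differentiableAt ((isOpen_lt (by fun_prop) continuous_const).mem_nhds hu)).hasDerivAt

theorem thin_im {H : ℂ → ℂ} {m : ℝ} (hH : DifferentiableOn ℂ H {u | |u.re| < 2})
    (h : ∀ u : ℂ, |u.re| < 2 → ∀ κ ∈ Icc (0 : ℝ) 1, |(H (u + κ * I) - H u).re| ≤ m) {x : ℂ}
    (hx : |x.re| ≤ 1) : |(deriv H x).im| ≤ 21 * m := by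
  have hb : ∀ u ∈ ball x 1, |u.re| < 2 := fun u hu => by
    have h1 := (abs_re_le_norm (u - x)).trans_lt (mem_ball_iff_norm.1 hu)
    rw [sub_re, abs_lt] at h1
    rw [abs_le] at hx
    rw [abs_lt]
    constructor <;> linarith [h1.1, h1.2, hx.1, hx.2]
  have hs : ∀ (κ : ℝ) (u : ℂ), |u.re| < 2 → |(u + κ * I).re| < 2 := fun κ u hu => by simpa using hu
  have hx2 := hb x (mem_ball_self one_pos)
  have h1 : ∀ κ ∈ Icc (0 : ℝ) 1, ‖deriv H (x + κ * I) - deriv H x‖ ≤ 20 * m := fun κ hκ => by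
    have h2 : ∀ u : ℂ, |u.re| < 2 → HasDerivAt (fun u => H (u + κ * I) - H u)
        (deriv H (u + κ * I) - deriv H u) u := fun u hu =>
      ((thin_at hH (hs κ u hu)).comp_add_const u (κ * I)).sub (thin_at hH hu)
    rw [← (h2 x hx2).deriv]
    exact norm_deriv_le_of_re
      (fun u hu => (h2 u (hb u hu)).differentiableAt.differentiableWithinAt)
      fun u hu => h u (hb u hu) κ hκ
  have h2 := norm_image_sub_le_of_norm_deriv_le_segment_01' (C := 20 * m)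
    (f := fun κ : ℝ => H (x + κ * I) - κ * (deriv H x * I))
    (f' := fun κ : ℝ => deriv H (x + κ * I) * I - deriv H x * I) (fun κ _ => by
      have h3 : HasDerivAt (fun z : ℂ => x + z * I) I κ := by
        simpa using ((hasDerivAt_id (κ : ℂ)).mul_const I).const_add x
      have h4 := ((thin_at hH (hs κ x hx2)).comp (κ : ℂ) h3).sub
        (hasDerivAt_mul_const (deriv H x * I))
      exact h4.comp_ofReal.hasDerivWithinAt) fun κ hκ => by
      rw [← sub_mul, norm_mul, norm_I, mul_one]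
      exact h1 κ (Ico_subset_Icc_self hκ)
  have h3 := (abs_re_le_norm _).trans h2
  have h4 := h x hx2 1 ⟨zero_le_one, le_rfl⟩
  simp only [ofReal_one, one_mul, ofReal_zero, zero_mul, add_zero, sub_zero, sub_re, mul_re, I_re,
    I_im, mul_zero, mul_one, zero_sub, abs_le] at h3 h4 ⊢
  constructor <;> linarith [h3.1, h3.2, h4.1, h4.2]

/-- `H` on the strip `|re| < 2`. For `P u = H (u + κ I) - H u` one gets
`‖H' (x + κ I) - H' x‖ ≤ 20 m`, then `‖H (x + I) - H x - I H' x‖ ≤ 20 m`, so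
`|(H' x).im| ≤ 21 m` for real `x ∈ [-1, 0]`. -/
theorem im_sub_le {H : ℂ → ℂ} {m : ℝ} (hH : DifferentiableOn ℂ H {u | |u.re| < 2})
    (h : ∀ u : ℂ, |u.re| < 2 → ∀ κ ∈ Icc (0 : ℝ) 1, |(H (u + κ * I) - H u).re| ≤ m) {x : ℝ}
    (hx : x ∈ Icc (-1 : ℝ) 0) : |(H x).im - (H 0).im| ≤ 21 * m := by
  have hx1 : |x| ≤ 1 := abs_le.2 ⟨hx.1, hx.2.trans zero_le_one⟩
  have hb : ∀ t ∈ Icc (0 : ℝ) 1, |((t : ℂ) * x).re| ≤ 1 := fun t ht => by
    rw [← ofReal_mul, ofReal_re, abs_mul]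
    exact mul_le_one₀ (abs_le.2 ⟨by linarith [ht.1], ht.2⟩) (abs_nonneg _) hx1
  have h2 := norm_image_sub_le_of_norm_deriv_le_segment_01' (C := 21 * m)
    (f := fun t : ℝ => (H (t * x)).im) (f' := fun t : ℝ => (deriv H (t * x) * x).im)
    (fun t ht => by
      have h4 := (thin_at hH ((hb t ht).trans_lt one_lt_two)).comp (t : ℂ)
        (hasDerivAt_mul_const (x : ℂ))
      exact (imCLM.hasFDerivAt.comp_hasDerivAt t h4.comp_ofReal).hasDerivWithinAt) fun t ht => by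
      rw [im_mul_ofReal, Real.norm_eq_abs, abs_mul]
      exact (mul_le_of_le_one_right (abs_nonneg _) hx1).trans
        (thin_im hH h (hb t (Ico_subset_Icc_self ht)))
  simpa using h2

/-- `H u = GG q φ (ζ exp (L u))`, `q = exp (-2 L)`; `GG_rot`, `GG_sub`, `abs_re_GG_le` -/
theorem thin0 (h : HC φ) {L ε : ℝ} (hL : 0 < L)
    (hε : ∀ u v : ℂ, ‖u‖ ≤ 1 → ‖v‖ ≤ 1 → ‖u - v‖ ≤ L → ‖φ u - φ v‖ ≤ ε) {ζ : ℂ} (hζ : ‖ζ‖ = 1)
    {ρ : ℝ} (hρ : ρ ∈ Icc (Real.exp (-L)) 1) :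
    |(ann (Real.exp (-(2 * L))) φ (ρ * ζ)).im - (ann (Real.exp (-(2 * L))) φ ζ).im| ≤ 43 * ε := by
  obtain ⟨q, hq⟩ : ∃ q, q = Real.exp (-(2 * L)) := ⟨_, rfl⟩
  have hq1 : q ∈ Ioo (0 : ℝ) 1 :=
    hq ▸ ⟨Real.exp_pos _, Real.exp_lt_one_iff.2 (by linarith)⟩
  have hρ0 : 0 < ρ := (Real.exp_pos _).trans_le hρ.1
  have ho : ∀ u : ℂ, |u.re| < 2 → exp (L * u) * ζ ∈ oring q q⁻¹ := fun u hu => by
    rw [abs_lt] at hu
    rw [oring, mem_ofPred, norm_mul, hζ, mul_one, norm_exp, re_ofReal_mul, hq, ← Real.exp_neg,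
      Real.exp_lt_exp, Real.exp_lt_exp]
    constructor <;> nlinarith [hu.1, hu.2]
  have h1 := im_sub_le (H := fun u => GG q φ (exp (L * u) * ζ)) (m := 2 * ε)
    ((GG_diff h hq1).comp (by fun_prop) ho) (x := Real.log ρ / L) (fun u hu κ hκ => by
      have hn : ‖exp (I * (L * κ : ℝ))‖ = 1 := norm_exp_I_mul_ofReal _
      have hw : exp (L * u) * ζ ∈ ring q q⁻¹ := ⟨(ho u hu).1.le, (ho u hu).2.le⟩
      have e1 : exp (L * (u + κ * I)) * ζ = exp (I * (L * κ : ℝ)) * (exp (L * u) * ζ) := by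
        rw [← mul_assoc, ← exp_add]
        push_cast
        ring_nf
      rw [e1, ← GG_rot q φ hn, ← GG_sub (h.rot hn) h hq1 hw]
      refine abs_re_GG_le ((h.rot hn).sub h) hq1 (fun v hv => (abs_re_le_norm _).trans
        (hε _ _ (by rwa [norm_mul, hn, one_mul]) hv ?_)) hw
      rw [← sub_one_mul, norm_mul]
      refine (mul_le_of_le_one_right (norm_nonneg _) hv).trans
        (Real.norm_exp_I_mul_ofReal_sub_one_le.trans ?_)
      rw [Real.norm_of_nonneg (mul_nonneg hL.le hκ.1)]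
      exact mul_le_of_le_one_right hL.le hκ.2)
    ⟨(le_div_iff₀ hL).2 (by rw [neg_one_mul]; exact (Real.le_log_iff_exp_le hρ0).2 hρ.1),
      div_nonpos_of_nonpos_of_nonneg (Real.log_nonpos hρ0.le hρ.2) hL.le⟩
  have e2 : exp (L * (Real.log ρ / L : ℝ)) = ρ := by
    rw [← ofReal_mul, mul_div_cancel₀ _ hL.ne', ← ofReal_exp, Real.exp_log hρ0]
  rw [e2, mul_zero, exp_zero, one_mul] at h1
  have h2 := (abs_im_le_norm _).trans (hε (ρ * ζ) ζ
    (by rw [norm_mul, hζ, mul_one, norm_real, Real.norm_of_nonneg hρ0.le]; exact hρ.2) hζ.le (by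
      rw [← sub_one_mul, norm_mul, hζ, mul_one, ← ofReal_one, ← ofReal_sub, norm_real,
        Real.norm_eq_abs, abs_le]
      constructor <;> linarith [hρ.1, hρ.2, Real.add_one_le_exp (-L)]))
  rw [← hq, ann, ann, add_im, add_im]
  rw [sub_im] at h2
  rw [abs_le] at h1 h2 ⊢
  constructor <;> linarith [h1.1, h1.2, h2.1, h2.2]

theorem thin (h : HC φ) {r d : ℝ} (hr : r < 1) (hd : 0 < d) : ∃ q₁ ∈ Ioo (0 : ℝ) 1,
    ∀ q ∈ Ico q₁ 1, ∀ a : ℂ, ‖a‖ ≤ r → ∀ ζ : ℂ, ‖ζ‖ = 1 → ∀ ρ ∈ Icc (√q) 1,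
      |(ann q (fun v => φ (mob a v)) (ρ * ζ)).im - (ann q (fun v => φ (mob a v)) ζ).im| ≤ d := by
  obtain ⟨η, hη, h1⟩ := h.mob_equi hr (ε := d / 43) (by positivity)
  refine ⟨Real.exp (-(2 * η)), ⟨Real.exp_pos _, Real.exp_lt_one_iff.2 (by linarith)⟩,
    fun q hq a ha ζ hζ ρ hρ => ?_⟩
  have hq0 : 0 < q := (Real.exp_pos _).trans_le hq.1
  have h2 := Real.log_neg hq0 hq.2
  have h3 := (Real.le_log_iff_exp_le hq0).2 hq.1
  have e1 : Real.exp (-(2 * (-Real.log q / 2))) = q := by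
    rw [show -(2 * (-Real.log q / 2)) = Real.log q by ring, Real.exp_log hq0]
  have e2 : Real.exp (-(-Real.log q / 2)) = √q := by
    rw [← neg_div, neg_neg, Real.exp_half, Real.exp_log hq0]
  have h4 := thin0 (h.mob (ha.trans_lt hr)) (L := -Real.log q / 2) (ε := d / 43) (by linarith)
    (fun u v hu hv huv => h1 a ha u v hu hv (huv.trans (by linarith))) hζ (e2 ▸ hρ)
  rw [e1] at h4
  linarith

end Pool.Agent.NapKL
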