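import Pool.Agent.Lib.MP_b71113_an.KL.Side2
import Pool.Agent.Lib.MP_b71113_an.KL.Dsc
import Pool.Agent.Lib.MP_b71113_an.KL.Thin
import Pool.Agent.Lib.MP_b71113_an.KL.Oka4

/-! The family of annuli. -/

namespace Pool.Agent.NapKL

open Set Metric Complex ComplexConjugate Filter Topology

/-- the correction is at most `d` on the bottom side -/
def Fine (c d : ℝ) (φ : ℂ → ℂ) (q : ℝ) (a : ℂ) : Prop :=
  ∀ b : ℂ, ‖b‖ = 1 → (φ (mob a b)).im = -c → DD q (fun v => φ (mob a v)) b ≤ d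

/-- the annulus with modulus `q` and centre `a` -/
noncomputable def gam (φ₁ φ₂ : ℂ → ℂ) (q : ℝ) (a w : ℂ) : ℂ × ℂ :=
  (ann q (fun v => φ₁ (mob a v)) w, ann q (fun v => φ₂ (mob a v)) w)

/-- all four sides are fine -/
def Valid (c₁ c₂ d : ℝ) (φ₁ φ₂ : ℂ → ℂ) (q : ℝ) (a : ℂ) : Prop :=
  Fine c₁ d (fun v => -φ₁ v) q a ∧ Fine c₁ d φ₁ q a ∧ Fine c₂ d (fun v => -φ₂ v) q a ∧
    Fine c₂ d φ₂ q a

variable {c d c₁ c₂ q r q₀ q₁ : ℝ} {φ φ₁ φ₂ : ℂ → ℂ} {a w : ℂ}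

theorem ring_sub (hq : q ∈ Ioo (0 : ℝ) 1) : ring q 1 ⊆ ring q q⁻¹ :=
  fun _ hw => ⟨hw.1, hw.2.trans ((one_le_inv₀ hq.1).2 hq.2.le)⟩

theorem circle_mem (hq : q ∈ Ioo (0 : ℝ) 1) (hw : ‖w‖ = 1) : w ∈ ring q 1 :=
  ⟨by rw [hw]; exact hq.2.le, hw.le⟩

theorem DD_neg (q : ℝ) (φ : ℂ → ℂ) (w : ℂ) : DD q (fun v => -φ v) w = -DD q φ w := by
  rw [DD, GG_neg, neg_im, DD]

theorem fine_or (h : Uni c φ) (hd : 0 ≤ d) (hq : q ∈ Ioo (0 : ℝ) 1) (ha : ‖a‖ < 1) :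
    Fine c d (fun v => -φ v) q a ∨ Fine c d φ q a := by
  by_contra hn
  simp only [Fine, not_or, not_forall, not_le] at hn
  obtain ⟨⟨s, hs, h1, h2⟩, b, hb, h3, h4⟩ := hn
  rw [DD_neg q (fun v => φ (mob a v))] at h2
  have := (h.mob ha).order hq hs hb (by simpa using h1) h3
  linarith

section param

variable {X : Type} [TopologicalSpace X] {P : Set X} {Q : X → ℝ} {A W : X → ℂ}

theorem mob_param (hr : r < 1) (hA : ContinuousOn A P) (ha : ∀ x ∈ P, ‖A x‖ ≤ r)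
    (hW : ContinuousOn W P) (hw : ∀ x ∈ P, ‖W x‖ ≤ 1) :
    ContinuousOn (fun x => mob (A x) (W x)) P :=
  (mob_cont hr).comp (hA.prodMk hW) fun x hx =>
    ⟨mem_closedBall_zero_iff.2 (ha x hx), mem_closedBall_zero_iff.2 (hw x hx)⟩

theorem GG_mob (h : HC φ) (hr : r < 1) (h0 : 0 < q₀) (h1 : q₁ < 1) (hA : ContinuousOn A P)
    (ha : ∀ x ∈ P, ‖A x‖ ≤ r) (hQ : ContinuousOn Q P) (hq : ∀ x ∈ P, Q x ∈ Icc q₀ q₁)
    (hW : ContinuousOn W P) (hw : ∀ x ∈ P, W x ∈ ring (Q x) 1) :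
    ContinuousOn (fun x => GG (Q x) (fun v => φ (mob (A x) v)) (W x)) P := by
  obtain ⟨M, -, hM⟩ := h.bound
  refine GG_param (Φ := fun x v => φ (mob (A x) v)) (M := M) h0 h1 ?_
    (fun x hx => h.mob ((ha x hx).trans_lt hr))
    (fun x hx w hw => hM _ (norm_mob_le ((ha x hx).trans_lt hr) hw)) hQ hq hW
    fun x hx => ring_sub ⟨h0.trans_le (hq x hx).1, (hq x hx).2.trans_lt h1⟩ (hw x hx)
  exact (h.mob_cont hr).comp (f := fun p : X × ℂ => (A p.1, p.2))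
    ((hA.comp continuousOn_fst fun p hp => hp.1).prodMk continuousOn_snd)
    fun p hp => ⟨mem_closedBall_zero_iff.2 (ha _ hp.1), hp.2⟩

theorem ann_mob (h : HC φ) (hr : r < 1) (h0 : 0 < q₀) (h1 : q₁ < 1) (hA : ContinuousOn A P)
    (ha : ∀ x ∈ P, ‖A x‖ ≤ r) (hQ : ContinuousOn Q P) (hq : ∀ x ∈ P, Q x ∈ Icc q₀ q₁)
    (hW : ContinuousOn W P) (hw : ∀ x ∈ P, W x ∈ ring (Q x) 1) :
    ContinuousOn (fun x => ann (Q x) (fun v => φ (mob (A x) v)) (W x)) P :=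
  (h.cont.comp (mob_param hr hA ha hW fun x hx => (hw x hx).2) fun x hx =>
    mem_closedBall_zero_iff.2 (norm_mob_le ((ha x hx).trans_lt hr) (hw x hx).2)).add
    (GG_mob h hr h0 h1 hA ha hQ hq hW hw)

theorem isClosed_fine (h : HC φ) (hP : IsClosed P) (hr : r < 1) (h0 : 0 < q₀) (h1 : q₁ < 1)
    (hA : ContinuousOn A P) (ha : ∀ x ∈ P, ‖A x‖ ≤ r) (hQ : ContinuousOn Q P)
    (hq : ∀ x ∈ P, Q x ∈ Icc q₀ q₁) : IsClosed {x ∈ P | Fine c d φ (Q x) (A x)} := by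
  have e : {x ∈ P | Fine c d φ (Q x) (A x)} = P ∩ ⋂ s ∈ {s : ℂ | ‖s‖ = 1 ∧ (φ s).im = -c},
      {x ∈ P | DD (Q x) (fun v => φ (mob (A x) v)) (mob (-A x) s) ≤ d} := by
    ext x
    simp only [mem_inter_iff, mem_iInter, mem_ofPred_eq]
    refine and_congr_right fun hx => ⟨fun hf s hs => ⟨hx, hf _ ?_ ?_⟩, fun hf b hb hb' => ?_⟩
    · exact (norm_mob_eq (by simpa using (ha x hx).trans_lt hr) hs.1.le).2 hs.1
    · rw [mob_mob_neg ((ha x hx).trans_lt hr) hs.1.le, hs.2]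
    · have := (hf _ ⟨(norm_mob_eq ((ha x hx).trans_lt hr) hb.le).2 hb, hb'⟩).2
      rwa [mob_neg_mob ((ha x hx).trans_lt hr) hb.le] at this
  rw [e]
  refine hP.inter (isClosed_biInter fun s hs => ?_)
  refine ContinuousOn.preimage_isClosed_of_isClosed (t := Iic d) ?_ hP isClosed_Iic
  refine continuous_im.comp_continuousOn (GG_mob h hr h0 h1 hA ha hQ hq
    (mob_param hr hA.neg (by simpa using ha) continuousOn_const fun _ _ => hs.1.le) fun x hx => ?_)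
  exact circle_mem ⟨h0.trans_le (hq x hx).1, (hq x hx).2.trans_lt h1⟩
    ((norm_mob_eq (by simpa using (ha x hx).trans_lt hr) hs.1.le).2 hs.1)

end param

theorem out_one (h1 : Fine c d (fun v => -φ v) q a) (h2 : Fine c d φ q a) (hc : 0 < c)
    (hw : ‖w‖ = 1) (h : |(φ (mob a w)).im| = c) :
    c - d ≤ |(ann q (fun v => φ (mob a v)) w).im| := by
  have e : (ann q (fun v => φ (mob a v)) w).im =
      (φ (mob a w)).im + DD q (fun v => φ (mob a v)) w := by rw [ann, add_im, DD]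
  rcases (abs_eq hc.le).1 h with h | h
  · have := h1 w hw (by simp [h])
    rw [DD_neg q (fun v => φ (mob a v))] at this
    exact le_abs.2 (Or.inl (by linarith))
  · exact le_abs.2 (Or.inr (by linarith [h2 w hw h]))

theorem Valid.outer (h : Disc c₁ c₂ φ₁ φ₂) (hv : Valid c₁ c₂ d φ₁ φ₂ q a) (ha : ‖a‖ < 1)
    (hw : ‖w‖ = 1) : c₁ - d ≤ |(gam φ₁ φ₂ q a w).1.im| ∨ c₂ - d ≤ |(gam φ₁ φ₂ q a w).2.im| :=
  ((h.bd _ (norm_mob_le ha hw.le)).1 ((norm_mob_eq ha hw.le).2 hw)).imp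
    (out_one hv.1 hv.2.1 h.p1 hw) (out_one hv.2.2.1 hv.2.2.2 h.p2 hw)

theorem norm_flip (hq : 0 < q) (w : ℂ) : ‖-(q : ℂ) / conj w‖ = q / ‖w‖ := by
  rw [norm_div, norm_neg, norm_conj, norm_real, Real.norm_of_nonneg hq.le]

theorem abs_im_flip (h : HC φ) (hq : q ∈ Ioo (0 : ℝ) 1) (hw : w ∈ ring q 1) :
    |(ann q φ (-(q : ℂ) / conj w)).im| = |(ann q φ w).im| := by
  rw [ann_sym h hq hw, conj_im, abs_neg]

theorem Valid.inner (h : Disc c₁ c₂ φ₁ φ₂) (hv : Valid c₁ c₂ d φ₁ φ₂ q a) (ha : ‖a‖ < 1)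
    (hq : q ∈ Ioo (0 : ℝ) 1) (hw : ‖w‖ = q) :
    c₁ - d ≤ |(gam φ₁ φ₂ q a w).1.im| ∨ c₂ - d ≤ |(gam φ₁ φ₂ q a w).2.im| := by
  have hw' : w ∈ ring q 1 := ⟨hw.ge, by rw [hw]; exact hq.2.le⟩
  have := hv.outer h ha (w := -(q : ℂ) / conj w) (by rw [norm_flip hq.1, hw, div_self hq.1.ne'])
  simp only [gam] at this ⊢
  rwa [abs_im_flip (h.h1.mob ha) hq hw', abs_im_flip (h.h2.mob ha) hq hw'] at this

/-- valid thin annuli are far out -/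
theorem thin_out (h : Disc c₁ c₂ φ₁ φ₂) (hr : r < 1) (hd : 0 < d) : ∃ q₁ ∈ Ioo (0 : ℝ) 1,
    ∀ q ∈ Ico q₁ 1, ∀ a : ℂ, ‖a‖ ≤ r → Valid c₁ c₂ d φ₁ φ₂ q a → ∀ w ∈ ring q 1,
      c₁ - 2 * d ≤ |(gam φ₁ φ₂ q a w).1.im| ∨ c₂ - 2 * d ≤ |(gam φ₁ φ₂ q a w).2.im| := by
  obtain ⟨s, hs, H1⟩ := thin h.h1 hr hd
  obtain ⟨t, ht, H2⟩ := thin h.h2 hr hd
  refine ⟨max s t, ⟨lt_max_of_lt_left hs.1, max_lt hs.2 ht.2⟩, fun q hq a ha hv => ?_⟩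
  have hq' : q ∈ Ioo (0 : ℝ) 1 := ⟨hs.1.trans_le ((le_max_left _ _).trans hq.1), hq.2⟩
  have ha' := ha.trans_lt hr
  have key : ∀ w : ℂ, √q ≤ ‖w‖ → ‖w‖ ≤ 1 →
      c₁ - 2 * d ≤ |(gam φ₁ φ₂ q a w).1.im| ∨ c₂ - 2 * d ≤ |(gam φ₁ φ₂ q a w).2.im| := by
    intro w h1 h2
    have h0 : 0 < ‖w‖ := (Real.sqrt_pos.2 hq'.1).trans_le h1
    have h3 : ((‖w‖ : ℝ) : ℂ) ≠ 0 := by exact_mod_cast h0.ne'
    have hz : ‖w / ‖w‖‖ = 1 := by rw [norm_div, norm_real, norm_norm, div_self h0.ne']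
    have a1 := H1 q ⟨(le_max_left _ _).trans hq.1, hq.2⟩ a ha _ hz _ ⟨h1, h2⟩
    have a2 := H2 q ⟨(le_max_right _ _).trans hq.1, hq.2⟩ a ha _ hz _ ⟨h1, h2⟩
    rw [mul_div_cancel₀ _ h3] at a1 a2
    refine (hv.outer h ha' hz).imp (fun b => ?_) fun b => ?_
    · have := abs_sub_abs_le_abs_sub (gam φ₁ φ₂ q a (w / ‖w‖)).1.im (gam φ₁ φ₂ q a w).1.im
      rw [abs_sub_comm] at a1
      simp only [gam] at this b ⊢
      linarith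
    · have := abs_sub_abs_le_abs_sub (gam φ₁ φ₂ q a (w / ‖w‖)).2.im (gam φ₁ φ₂ q a w).2.im
      rw [abs_sub_comm] at a2
      simp only [gam] at this b ⊢
      linarith
  intro w hw
  rcases le_total √q ‖w‖ with h1 | h1
  · exact key w h1 hw.2
  · have h0 : 0 < ‖w‖ := hq'.1.trans_le hw.1
    have := key (-(q : ℂ) / conj w) ?_ ?_
    · simp only [gam] at this ⊢
      rwa [abs_im_flip (h.h1.mob ha') hq' hw, abs_im_flip (h.h2.mob ha') hq' hw] at this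
    · rw [norm_flip hq'.1, le_div_iff₀ h0]
      nlinarith [Real.mul_self_sqrt hq'.1.le, Real.sqrt_nonneg q]
    · rw [norm_flip hq'.1, div_le_one h0]
      exact hw.1

theorem small_one {M : ℝ} (h : HC φ) (hM : ∀ w, ‖w‖ ≤ 1 → ‖φ w‖ ≤ M) (ha : ‖a‖ < 1) (h0 : 0 < q)
    (h1 : q ≤ 1 / 2) (hf : Fine c d φ q a) {s : ℂ} (hs : ‖s‖ = 1) (hb : (φ s).im = -c) :
    -(φ a).im ≤ d + 8 * M * q := by
  have hb' : ‖mob (-a) s‖ = 1 := (norm_mob_eq (by simpa using ha) hs.le).2 hs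
  have a1 := hf _ hb' (by rw [mob_mob_neg ha hs.le, hb])
  have a2 := GG_small (h.mob ha) (fun w hw => hM _ (norm_mob_le ha hw)) h0 h1
    (ring_sub ⟨h0, by linarith⟩ (circle_mem ⟨h0, by linarith⟩ hb'))
  have a3 := (neg_le_abs _).trans ((abs_im_le_norm _).trans a2)
  simp only [hb', mob_zero, add_im, mul_im, I_re, ofReal_im, I_im, ofReal_re, inv_one] at a3
  rw [DD] at a1
  linarith

/-- for small moduli the annulus is close to the disc -/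
theorem small_near (h : HC φ) {s s' : ℂ} (hs : ‖s‖ = 1) (hb : (φ s).im = -c) (hs' : ‖s'‖ = 1)
    (hb' : (φ s').im = c) (hr : r < 1) (hd : 0 < d) : ∃ t ∈ Ioo (0 : ℝ) (1 / 2), ∀ ρ ∈ Ioc 0 t,
      ∀ a : ℂ, ‖a‖ ≤ r → Fine c d (fun v => -φ v) (ρ ^ 2) a → Fine c d φ (ρ ^ 2) a →
        ∀ u w : ℂ, ‖u‖ ≤ 1 → w ∈ ring ρ 1 → ‖w - u‖ ≤ 2 * ρ →
          ‖ann (ρ ^ 2) (fun v => φ (mob a v)) w - φ (mob a u)‖ ≤ 3 * d := by
  obtain ⟨M, hM0, hM⟩ := h.bound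
  obtain ⟨η, hη, H⟩ := h.mob_equi hr hd
  have hM1 : 0 < 16 * M + 1 := by linarith
  refine ⟨min (1 / 4) (min (η / 2) (d / (16 * M + 1))), ⟨by positivity,
    (min_le_left _ _).trans_lt (by norm_num)⟩, fun ρ hρ a ha f1 f2 u w hu hw hwu => ?_⟩
  have r1 : ρ ≤ 1 / 4 := hρ.2.trans (min_le_left _ _)
  have r2 : ρ ≤ η / 2 := hρ.2.trans ((min_le_right _ _).trans (min_le_left _ _))
  have r3 : ρ * (16 * M + 1) ≤ d :=
    (le_div_iff₀ hM1).1 (hρ.2.trans ((min_le_right _ _).trans (min_le_right _ _)))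
  have r0 := hρ.1
  have ha' := ha.trans_lt hr
  have q0 : 0 < ρ ^ 2 := by positivity
  have q1 : ρ ^ 2 ≤ 1 / 2 := by nlinarith
  have q2 : ρ ^ 2 ≤ ρ := by nlinarith
  have b1 := small_one h hM ha' q0 q1 f2 hs hb
  have b2 := small_one (φ := fun v => -φ v) h.neg (by simpa using hM) ha' q0 q1 f1 hs'
    (by simp [hb'])
  rw [neg_im, neg_neg] at b2
  have b3 := GG_small (h.mob ha') (fun w hw => hM _ (norm_mob_le ha' hw)) q0 q1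
    (ring_sub ⟨q0, by linarith⟩ ⟨q2.trans hw.1, hw.2⟩)
  have b4 := H a ha w u hw.2 hu (by linarith)
  have b5 : ‖w‖⁻¹ ≤ ρ⁻¹ := inv_anti₀ r0 hw.1
  have b6 : ‖I * ((φ a).im : ℂ)‖ ≤ d + 8 * M * ρ ^ 2 := by
    rw [norm_mul, norm_I, one_mul, norm_real, Real.norm_eq_abs]
    exact abs_le.2 ⟨by linarith, b2⟩
  rw [mob_zero] at b3
  have b7 : 4 * M * ρ ^ 2 * (‖w‖ + ‖w‖⁻¹) ≤ 4 * M * ρ ^ 2 + 4 * M * ρ := by
    have : 4 * M * ρ ^ 2 * (1 + ρ⁻¹) = 4 * M * ρ ^ 2 + 4 * M * ρ := by field_simp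
    rw [← this]
    exact mul_le_mul_of_nonneg_left (add_le_add hw.2 b5) (by positivity)
  have e : ann (ρ ^ 2) (fun v => φ (mob a v)) w - φ (mob a u) = (φ (mob a w) - φ (mob a u)) +
      ((GG (ρ ^ 2) (fun v => φ (mob a v)) w + I * ((φ a).im : ℂ)) - I * ((φ a).im : ℂ)) := by
    rw [ann]; ring
  rw [e]
  refine (norm_add_le _ _).trans ?_
  have b8 := norm_sub_le (GG (ρ ^ 2) (fun v => φ (mob a v)) w + I * ((φ a).im : ℂ))
    (I * ((φ a).im : ℂ))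
  nlinarith [mul_le_mul_of_nonneg_left q2 hM0]

end Pool.Agent.NapKL
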