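import Pool.Agent.Lib.MP_b71113_an.KL.Asm1
import Pool.Agent.Lib.MP_b71113_an.KL.Mir

/-! A disc over a rectangle does not meet the polynomial hull. -/

namespace Pool.Agent.NapKL

open Set Metric Complex ComplexConjugate Filter Topology

variable {d c₁ c₂ r r₁ r₂ q₀ q₁ : ℝ} {φ₁ φ₂ : ℂ → ℂ} {K : Set (ℂ × ℂ)} {E : Set ℂ}

section param

variable {X : Type} [MetricSpace X] {P : Set X} {Q : X → ℝ} {A : X → ℂ}

theorem isClosed_valid (h : Disc c₁ c₂ φ₁ φ₂) (hP : IsClosed P) (hr : r < 1) (h0 : 0 < q₀)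
    (h1 : q₁ < 1) (hA : ContinuousOn A P) (ha : ∀ x ∈ P, ‖A x‖ ≤ r) (hQ : ContinuousOn Q P)
    (hq : ∀ x ∈ P, Q x ∈ Icc q₀ q₁) : IsClosed {x ∈ P | Valid c₁ c₂ d φ₁ φ₂ (Q x) (A x)} := by
  have a1 := isClosed_fine (c := c₁) (d := d) (φ := fun v => -φ₁ v) h.h1.neg hP hr h0 h1 hA ha hQ hq
  have a2 := isClosed_fine (c := c₁) (d := d) h.h1 hP hr h0 h1 hA ha hQ hq
  have a3 := isClosed_fine (c := c₂) (d := d) (φ := fun v => -φ₂ v) h.h2.neg hP hr h0 h1 hA ha hQ hq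
  have a4 := isClosed_fine (c := c₂) (d := d) h.h2 hP hr h0 h1 hA ha hQ hq
  convert a1.inter (a2.inter (a3.inter a4)) using 1
  ext x
  simp only [Valid, mem_ofPred_eq, mem_inter_iff]
  tauto

theorem isCompact_dom (hP : IsCompact P) (hQ : ContinuousOn Q P) :
    IsCompact {p : X × ℂ | p.1 ∈ P ∧ p.2 ∈ ring (Q p.1) 1} := by
  have hc : IsCompact (P ×ˢ closedBall (0 : ℂ) 1) := hP.prod (isCompact_closedBall _ _)
  have e : {p : X × ℂ | p.1 ∈ P ∧ p.2 ∈ ring (Q p.1) 1} =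
      (P ×ˢ closedBall (0 : ℂ) 1) ∩ (fun p : X × ℂ => Q p.1 - ‖p.2‖) ⁻¹' Iic 0 := by
    ext p
    simp only [ring, mem_ofPred_eq, mem_inter_iff, mem_prod, mem_closedBall_zero_iff, mem_preimage,
      mem_Iic, sub_nonpos]
    tauto
  rw [e]
  refine hc.of_isClosed_subset (ContinuousOn.preimage_isClosed_of_isClosed ?_ hc.isClosed
    isClosed_Iic) inter_subset_left
  exact (hQ.comp continuousOn_fst fun p hp => hp.1).sub (by fun_prop)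

theorem gam_cont (h : Disc c₁ c₂ φ₁ φ₂) (hr : r < 1) (h0 : 0 < q₀) (h1 : q₁ < 1)
    (hA : ContinuousOn A P) (ha : ∀ x ∈ P, ‖A x‖ ≤ r) (hQ : ContinuousOn Q P)
    (hq : ∀ x ∈ P, Q x ∈ Icc q₀ q₁) :
    ContinuousOn (fun p : X × ℂ => gam φ₁ φ₂ (Q p.1) (A p.1) p.2)
      {p : X × ℂ | p.1 ∈ P ∧ p.2 ∈ ring (Q p.1) 1} := by
  have a1 : ContinuousOn (fun p : X × ℂ => A p.1) {p : X × ℂ | p.1 ∈ P ∧ p.2 ∈ ring (Q p.1) 1} :=
    hA.comp continuousOn_fst fun p hp => hp.1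
  have a2 : ContinuousOn (fun p : X × ℂ => Q p.1) {p : X × ℂ | p.1 ∈ P ∧ p.2 ∈ ring (Q p.1) 1} :=
    hQ.comp continuousOn_fst fun p hp => hp.1
  exact (ann_mob h.h1 hr h0 h1 a1 (fun p hp => ha _ hp.1) a2 (fun p hp => hq _ hp.1)
    continuousOn_snd fun p hp => hp.2).prodMk (ann_mob h.h2 hr h0 h1 a1 (fun p hp => ha _ hp.1) a2
      (fun p hp => hq _ hp.1) continuousOn_snd fun p hp => hp.2)

theorem isClosed_meets (h : Disc c₁ c₂ φ₁ φ₂) (hP : IsCompact P) (hr : r < 1) (h0 : 0 < q₀)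
    (h1 : q₁ < 1) (hA : ContinuousOn A P) (ha : ∀ x ∈ P, ‖A x‖ ≤ r) (hQ : ContinuousOn Q P)
    (hq : ∀ x ∈ P, Q x ∈ Icc q₀ q₁) (K : Set (ℂ × ℂ)) :
    IsClosed {x ∈ P | ∃ w ∈ ring (Q x) 1, gam φ₁ φ₂ (Q x) (A x) w ∈ PH K} := by
  have hc := isCompact_dom hP hQ
  have a1 := hc.of_isClosed_subset ((gam_cont h hr h0 h1 hA ha hQ hq).preimage_isClosed_of_isClosed
    hc.isClosed (isClosed_PH K)) inter_subset_left
  convert (a1.image continuous_fst).isClosed using 1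
  ext x
  exact ⟨fun ⟨b1, w, b2, b3⟩ => ⟨(x, w), ⟨⟨b1, b2⟩, b3⟩, rfl⟩,
    fun ⟨p, ⟨⟨b1, b2⟩, b3⟩, b4⟩ => b4 ▸ ⟨b1, p.2, b2, b3⟩⟩

theorem exists_oring {C : Set ℂ} (hC : IsCompact C) {q : ℝ} (h : C ⊆ oring q 1) :
    ∃ a b, q < a ∧ b < 1 ∧ C ⊆ oring a b := by
  rcases C.eq_empty_or_nonempty with rfl | hne
  · exact ⟨q + 1, 0, by linarith, one_pos, empty_subset _⟩
  obtain ⟨u, hu, h1⟩ := hC.exists_isMinOn hne continuous_norm.continuousOn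
  obtain ⟨v, hv, h2⟩ := hC.exists_isMaxOn hne continuous_norm.continuousOn
  have a1 := (h hu).1
  have a2 := (h hv).2
  refine ⟨(q + ‖u‖) / 2, (1 + ‖v‖) / 2, by linarith, by linarith, fun w hw => ⟨?_, ?_⟩⟩
  · have : ‖u‖ ≤ ‖w‖ := h1 hw
    linarith
  · have : ‖w‖ ≤ ‖v‖ := h2 hw
    linarith

theorem isClosed_misses (h : Disc c₁ c₂ φ₁ φ₂) (hE : IsClosed E) (hE' : Convex ℝ E)
    (hre : ∀ u, ‖u‖ ≤ 1 → (⟨(φ₁ u).re, (φ₂ u).re⟩ : ℂ) ∈ E) (hK : IsCompact K)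
    (hKE : ∀ s ∈ K, (⟨s.1.re, s.2.re⟩ : ℂ) ∉ E) (hs : K ⊆ strip r₁ r₂) (d1 : r₁ < c₁ - d)
    (d2 : r₂ < c₂ - d) (hP : IsCompact P) (hr : r < 1) (h0 : 0 < q₀) (h1 : q₁ < 1)
    (hA : ContinuousOn A P) (ha : ∀ x ∈ P, ‖A x‖ ≤ r) (hQ : ContinuousOn Q P)
    (hq : ∀ x ∈ P, Q x ∈ Icc q₀ q₁) (hv : ∀ x ∈ P, Valid c₁ c₂ d φ₁ φ₂ (Q x) (A x)) :
    IsClosed {x ∈ P | ∀ w ∈ ring (Q x) 1, gam φ₁ φ₂ (Q x) (A x) w ∉ PH K} := by
  refine isClosed_of_closure_subset fun x hx => ?_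
  have hxP : x ∈ P := hP.isClosed.closure_subset (closure_mono (fun y hy => hy.1) hx)
  have hq' : ∀ y ∈ P, Q y ∈ Ioo (0 : ℝ) 1 := fun y hy =>
    ⟨h0.trans_le (hq y hy).1, (hq y hy).2.trans_lt h1⟩
  have ha' : ∀ y ∈ P, ‖A y‖ < 1 := fun y hy => (ha y hy).trans_lt hr
  have hd : ∀ y ∈ P, DifferentiableOn ℂ (gam φ₁ φ₂ (Q y) (A y)) (oring (Q y) 1) := fun y hy =>
    (ann_diff (h.h1.mob (ha' y hy)) (hq' y hy)).prodMk (ann_diff (h.h2.mob (ha' y hy)) (hq' y hy))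
  have hc : ContinuousOn (gam φ₁ φ₂ (Q x) (A x)) (ring (Q x) 1) :=
    (ann_cont (h.h1.mob (ha' x hxP)) (hq' x hxP)).prodMk
      (ann_cont (h.h2.mob (ha' x hxP)) (hq' x hxP))
  have hring : IsCompact (ring (Q x) 1) := (isCompact_closedBall (0 : ℂ) 1).of_isClosed_subset
    ((isClosed_le continuous_const continuous_norm).inter
      (isClosed_le continuous_norm continuous_const)) fun w hw => mem_closedBall_zero_iff.2 hw.2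
  have hst : IsClosed (strip r₁ r₂) :=
    (isClosed_le (f := fun z : ℂ × ℂ => |z.1.im|) (by fun_prop) continuous_const).inter
      (isClosed_le (f := fun z : ℂ × ℂ => |z.2.im|) (by fun_prop) continuous_const)
  have hC := hring.of_isClosed_subset (hc.preimage_isClosed_of_isClosed hring.isClosed hst)
    inter_subset_left
  obtain ⟨a, b, b1, b2, b3⟩ := exists_oring (q := Q x) hC fun w hw => by
    refine ⟨lt_of_le_of_ne hw.1.1 fun e => ?_, lt_of_le_of_ne hw.1.2 fun e => ?_⟩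
    · rcases (hv x hxP).inner h (ha' x hxP) (hq' x hxP) e.symm with g | g
      · linarith [hw.2.1]
      · linarith [hw.2.2]
    · rcases (hv x hxP).outer h (ha' x hxP) e with g | g
      · linarith [hw.2.1]
      · linarith [hw.2.2]
  have hsub : ∀ t, t < a → oring a b ⊆ oring t 1 := fun t ht w hw =>
    ⟨ht.trans hw.1, hw.2.trans b2⟩
  have hsub' : ∀ t, t < a → oring a b ⊆ ring t 1 := fun t ht w hw =>
    ⟨(hsub t ht hw).1.le, (hsub t ht hw).2.le⟩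
  have hU : IsOpen (oring a b) :=
    (isOpen_lt continuous_const continuous_norm).inter (isOpen_lt continuous_norm continuous_const)
  have key := oka hK hs hU hC b3 ((hd x hxP).mono (hsub _ b1))
    (fun w hw hw' => hKE _ hw' (ann_mem hE hE' (h.h1.mob (ha' x hxP)) (h.h2.mob (ha' x hxP))
      (hq' x hxP) (fun u hu => hre _ (norm_mob_le (ha' x hxP) hu.le)) (hsub' _ b1 hw)))
    (fun w hw => by
      by_contra hn
      simp only [not_or, not_lt] at hn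
      exact hw.2 ⟨hsub' _ b1 hw.1, hn⟩)
    fun ε hε => by
      obtain ⟨δ, hδ, H⟩ := Metric.uniformContinuousOn_iff.1
        ((isCompact_dom hP hQ).uniformContinuousOn_of_continuous
          (gam_cont h hr h0 h1 hA ha hQ hq)) ε hε
      obtain ⟨δ', hδ', H'⟩ := Metric.continuousWithinAt_iff.1 (hQ x hxP) (a - Q x) (by linarith)
      obtain ⟨y, hy, hxy⟩ := Metric.mem_closure_iff.1 hx (min δ δ') (lt_min hδ hδ')
      rw [dist_comm] at hxy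
      have e1 : Q y < a := by
        have := H' hy.1 (hxy.trans_le (min_le_right _ _))
        rw [Real.dist_eq] at this
        linarith [le_abs_self (Q y - Q x)]
      refine ⟨gam φ₁ φ₂ (Q y) (A y), (hd y hy.1).mono (hsub _ e1), fun w hw => ?_,
        fun w hw => hy.2 w (hsub' _ e1 hw)⟩
      rw [← dist_eq_norm]
      refine (H (y, w) ⟨hy.1, hsub' _ e1 hw⟩ (x, w) ⟨hxP, hsub' _ b1 hw⟩ ?_).le
      rw [Prod.dist_eq, dist_self]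
      exact max_lt (hxy.trans_le (min_le_left _ _)) hδ
  exact ⟨hxP, fun w hw hw' => key w (b3 ⟨hw, PH_subset_strip hK hs hw'⟩) hw'⟩

end param

theorem Disc.side (h : Disc c₁ c₂ φ₁ φ₂) (hd : 0 < d) : ∃ r₀ ∈ Ioo (0 : ℝ) 1, ∀ r ∈ Ico r₀ 1,
    ∀ ω : ℂ, ‖ω‖ ≤ 1 → (φ₂ ω).im = c₂ → ∀ q ∈ Ioo (0 : ℝ) 1, Fine c₂ d φ₂ q (r * ω) := by
  obtain ⟨a, e, S, S', h1, h2, h3⟩ := h.arcs
  obtain ⟨r₀, h4, H⟩ := NapKL.side h.uni h.z2 h1 h2 h3 hd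
  exact ⟨r₀, h4, fun r hr ω hω hc q hq => H r hr ω
    ((h.bd ω hω).2 (Or.inr (by rw [hc, abs_of_pos h.p2]))) hc q hq⟩

theorem Disc.top (h : Disc c₁ c₂ φ₁ φ₂) : ∃ s, ‖s‖ = 1 ∧ (φ₂ s).im = c₂ := by
  obtain ⟨a, e, S, S', h1, -, -⟩ := h.arcs
  exact ⟨a, h1.sub a h1.mem, (h1.top a h1.mem).2 rfl⟩

theorem exists_thick (hE : IsClosed E) (hK : IsCompact K)
    (hKE : ∀ s ∈ K, (⟨s.1.re, s.2.re⟩ : ℂ) ∉ E) (hs : K ⊆ strip r₁ r₂) (h1 : r₁ < c₁)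
    (h2 : r₂ < c₂) : ∃ d > 0, r₁ + 3 * d < c₁ - 2 * d ∧ r₂ + 3 * d < c₂ - 2 * d ∧
      (∀ s ∈ cthickening (3 * d) K, (⟨s.1.re, s.2.re⟩ : ℂ) ∉ E) ∧
      cthickening (3 * d) K ⊆ strip (r₁ + 3 * d) (r₂ + 3 * d) := by
  have hc : Continuous fun s : ℂ × ℂ => (⟨s.1.re, s.2.re⟩ : ℂ) := by
    have e : (fun s : ℂ × ℂ => (⟨s.1.re, s.2.re⟩ : ℂ)) =
        fun s : ℂ × ℂ => (s.1.re : ℂ) + (s.2.re : ℂ) * I := by
      funext s
      exact Complex.ext (by simp) (by simp)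
    rw [e]
    fun_prop
  obtain ⟨δ, hδ, H⟩ := hK.exists_cthickening_subset_open (hE.isOpen_compl.preimage hc) hKE
  have hm : 0 < min (δ / 3) (min ((c₁ - r₁) / 6) ((c₂ - r₂) / 6)) :=
    lt_min (by linarith) (lt_min (by linarith) (by linarith))
  have a1 := min_le_left (δ / 3) (min ((c₁ - r₁) / 6) ((c₂ - r₂) / 6))
  have a2 := (min_le_right (δ / 3) _).trans (min_le_left ((c₁ - r₁) / 6) ((c₂ - r₂) / 6))
  have a3 := (min_le_right (δ / 3) _).trans (min_le_right ((c₁ - r₁) / 6) ((c₂ - r₂) / 6))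
  generalize min (δ / 3) (min ((c₁ - r₁) / 6) ((c₂ - r₂) / 6)) = d at hm a1 a2 a3
  refine ⟨d, hm, by linarith, by linarith,
    fun s hs' => H (cthickening_mono (by linarith) K hs'), fun s hs' => ?_⟩
  rw [hK.cthickening_eq_biUnion_closedBall (by linarith)] at hs'
  obtain ⟨y, hy, hsy⟩ := mem_iUnion₂.1 hs'
  rw [mem_closedBall_iff_norm] at hsy
  have b1 := (abs_im_le_norm _).trans ((norm_fst_le (s - y)).trans hsy)
  have b2 := (abs_im_le_norm _).trans ((norm_snd_le (s - y)).trans hsy)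
  rw [Prod.fst_sub, sub_im] at b1
  rw [Prod.snd_sub, sub_im] at b2
  exact ⟨by linarith [abs_sub_abs_le_abs_sub s.1.im y.1.im, (hs hy).1],
    by linarith [abs_sub_abs_le_abs_sub s.2.im y.2.im, (hs hy).2]⟩

theorem key (h : Disc c₁ c₂ φ₁ φ₂) (hE : IsClosed E) (hE' : Convex ℝ E)
    (hre : ∀ u, ‖u‖ ≤ 1 → (⟨(φ₁ u).re, (φ₂ u).re⟩ : ℂ) ∈ E) (hK : IsCompact K)
    (hKE : ∀ s ∈ K, (⟨s.1.re, s.2.re⟩ : ℂ) ∉ E) (hs : K ⊆ strip r₁ r₂) (h1 : r₁ < c₁)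
    (h2 : r₂ < c₂) {w : ℂ} (hw : ‖w‖ ≤ 1) : (φ₁ w, φ₂ w) ∉ PH K := by
  intro hx₀
  obtain ⟨d, hd, d1, d2, hKE', hs'⟩ := exists_thick hE hK hKE hs h1 h2
  have hK' : IsCompact (cthickening (3 * d) K) := hK.cthickening
  obtain ⟨k, hk, hk'⟩ := h.inv
  obtain ⟨ρ₁, e1, S1⟩ := h.swap.neg.side hd
  obtain ⟨ρ₂, e2, S2⟩ := h.swap.side hd
  obtain ⟨ρ₃, e3, S3⟩ := h.neg.side hd
  obtain ⟨ρ₄, e4, S4⟩ := h.side hd
  obtain ⟨r, hr, hr0, m1, m2, m3, m4⟩ : ∃ r : ℝ, r < 1 ∧ 0 < r ∧ ρ₁ ≤ r ∧ ρ₂ ≤ r ∧ ρ₃ ≤ r ∧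
      ρ₄ ≤ r := ⟨max (max ρ₁ ρ₂) (max ρ₃ ρ₄), max_lt (max_lt e1.2 e2.2) (max_lt e3.2 e4.2),
    lt_max_of_lt_left (lt_max_of_lt_left e1.1), le_max_of_le_left (le_max_left _ _),
    le_max_of_le_left (le_max_right _ _), le_max_of_le_right (le_max_left _ _),
    le_max_of_le_right (le_max_right _ _)⟩
  obtain ⟨q₁, hq₁, T⟩ := thin_out h hr hd
  obtain ⟨s1, t1, u1⟩ := h.swap.neg.top
  obtain ⟨s2, t2, u2⟩ := h.swap.top
  obtain ⟨s3, t3, u3⟩ := h.neg.top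
  obtain ⟨s4, t4, u4⟩ := h.top
  obtain ⟨t, ht, N1⟩ := small_near h.h1 t1 (by simpa [neg_eq_iff_eq_neg] using u1) t2 u2 hr hd
  obtain ⟨t', ht', N2⟩ := small_near h.h2 t3 (by simpa [neg_eq_iff_eq_neg] using u3) t4 u4 hr hd
  obtain ⟨ρ, hρ0, hρ1, hρ2, hρ3⟩ : ∃ ρ : ℝ, 0 < ρ ∧ ρ ≤ t ∧ ρ ≤ t' ∧ ρ ≤ q₁ :=
    ⟨min t (min t' q₁), lt_min ht.1 (lt_min ht'.1 hq₁.1), min_le_left _ _,
      (min_le_right _ _).trans (min_le_left _ _), (min_le_right _ _).trans (min_le_right _ _)⟩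
  have hρ4 : ρ ^ 2 ≤ ρ := by nlinarith [ht.2]
  have q0 : 0 < ρ ^ 2 := by positivity
  let Q : ℝ × ℝ × ℝ → ℝ := fun x => ρ ^ 2 + x.1 * (q₁ - ρ ^ 2)
  let pt : ℝ × ℝ × ℝ → ℂ := fun x => (c₁ * (2 * x.2.1 - 1) : ℝ) + (c₂ * (2 * x.2.2 - 1) : ℝ) * I
  let A : ℝ × ℝ × ℝ → ℂ := fun x => r * k (pt x)
  have pre : ∀ x, (pt x).re = c₁ * (2 * x.2.1 - 1) := fun x => by simp [pt]
  have pim : ∀ x, (pt x).im = c₂ * (2 * x.2.2 - 1) := fun x => by simp [pt]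
  have hpt : ∀ x ∈ cube, pt x ∈ rect c₁ c₂ := fun x hx => by
    obtain ⟨-, ⟨a1, a2⟩, a3, a4⟩ := hx
    refine ⟨?_, ?_⟩
    · rw [pre]
      exact abs_le.2 ⟨by nlinarith [h.p1], by nlinarith [h.p1]⟩
    · rw [pim]
      exact abs_le.2 ⟨by nlinarith [h.p2], by nlinarith [h.p2]⟩
  have hQ : ContinuousOn Q cube := by fun_prop
  have hA : ContinuousOn A cube :=
    continuousOn_const.mul (hk.comp (by fun_prop : Continuous pt).continuousOn hpt)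
  have ha : ∀ x ∈ cube, ‖A x‖ ≤ r := fun x hx => by
    rw [norm_mul, norm_real, Real.norm_of_nonneg hr0.le]
    exact mul_le_of_le_one_right hr0.le (hk' _ (hpt x hx)).1
  have hq : ∀ x ∈ cube, Q x ∈ Icc (ρ ^ 2) q₁ := fun x hx => by
    obtain ⟨⟨a1, a2⟩, -⟩ := hx
    exact ⟨by simp only [Q]; nlinarith, by simp only [Q]; nlinarith⟩
  have hq' : ∀ x ∈ cube, Q x ∈ Ioo (0 : ℝ) 1 := fun x hx =>
    ⟨q0.trans_le (hq x hx).1, (hq x hx).2.trans_lt hq₁.2⟩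
  have hcl := isCompact_cube.isClosed
  have hV := isCompact_cube.of_isClosed_subset
    (isClosed_valid (d := d) h hcl hr q0 hq₁.2 hA ha hQ hq) fun x hx => hx.1
  refine cube_link
    (isClosed_fine (c := c₁) (d := d) (φ := fun v => -φ₁ v) h.h1.neg hcl hr q0 hq₁.2 hA ha hQ hq)
    (isClosed_fine (c := c₁) (d := d) h.h1 hcl hr q0 hq₁.2 hA ha hQ hq)
    (isClosed_fine (c := c₂) (d := d) (φ := fun v => -φ₂ v) h.h2.neg hcl hr q0 hq₁.2 hA ha hQ hq)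
    (isClosed_fine (c := c₂) (d := d) h.h2 hcl hr q0 hq₁.2 hA ha hQ hq)
    (isClosed_misses h hE hE' hre hK' hKE' hs' (d := d) (by linarith) (by linarith) hV hr q0 hq₁.2
      (hA.mono fun x hx => hx.1) (fun x hx => ha x hx.1) (hQ.mono fun x hx => hx.1)
      (fun x hx => hq x hx.1) fun x hx => hx.2)
    (isClosed_meets h hV hr q0 hq₁.2 (hA.mono fun x hx => hx.1) (fun x hx => ha x hx.1)
      (hQ.mono fun x hx => hx.1) (fun x hx => hq x hx.1) (cthickening (3 * d) K))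
    (fun x hx => (fine_or h.swap.uni hd.le (hq' x hx) ((ha x hx).trans_lt hr)).imp
      (fun a => ⟨hx, a⟩) fun a => ⟨hx, a⟩)
    (fun x hx => (fine_or h.uni hd.le (hq' x hx) ((ha x hx).trans_lt hr)).imp
      (fun a => ⟨hx, a⟩) fun a => ⟨hx, a⟩)
    (fun x hx e => ⟨hx, S1 r ⟨m1, hr⟩ _ (hk' _ (hpt x hx)).1 ?_ _ (hq' x hx)⟩)
    (fun x hx e => ⟨hx, S2 r ⟨m2, hr⟩ _ (hk' _ (hpt x hx)).1 ?_ _ (hq' x hx)⟩)
    (fun x hx e => ⟨hx, S3 r ⟨m3, hr⟩ _ (hk' _ (hpt x hx)).1 ?_ _ (hq' x hx)⟩)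
    (fun x hx e => ⟨hx, S4 r ⟨m4, hr⟩ _ (hk' _ (hpt x hx)).1 ?_ _ (hq' x hx)⟩)
    (fun x hx a1 a2 a3 a4 => ?_) (fun x _ a1 a2 => ?_) (fun x hx e a1 => ?_) fun x hx e a1 => ?_
  · rw [neg_im, (hk' _ (hpt x hx)).2.1, pre, e]; ring
  · rw [(hk' _ (hpt x hx)).2.1, pre, e]; ring
  · rw [neg_im, (hk' _ (hpt x hx)).2.2, pim, e]; ring
  · rw [(hk' _ (hpt x hx)).2.2, pim, e]; ring
  · by_cases hn : ∃ w ∈ ring (Q x) 1, gam φ₁ φ₂ (Q x) (A x) w ∈ PH (cthickening (3 * d) K)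
    · exact Or.inr ⟨⟨hx, a1.2, a2.2, a3.2, a4.2⟩, hn⟩
    · exact Or.inl ⟨⟨hx, a1.2, a2.2, a3.2, a4.2⟩, fun w b1 b2 => hn ⟨w, b1, b2⟩⟩
  · obtain ⟨w, b1, b2⟩ := a2.2
    exact a1.2 w b1 b2
  · obtain ⟨⟨-, v⟩, hy⟩ := a1
    have eq : Q x = ρ ^ 2 := by simp only [Q, e]; ring
    rw [eq] at v hy
    have ha' := (ha x hx).trans_lt hr
    have hu : ‖mob (-A x) w‖ ≤ 1 := norm_mob_le (by simpa using ha') hw
    obtain ⟨w', b1, b2⟩ : ∃ w' ∈ ring ρ 1, ‖w' - mob (-A x) w‖ ≤ 2 * ρ := by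
      rcases le_total ρ ‖mob (-A x) w‖ with b | b
      · exact ⟨_, ⟨b, hu⟩, by rw [sub_self, norm_zero]; linarith⟩
      · have e' : ‖(ρ : ℂ)‖ = ρ := by rw [norm_real, Real.norm_of_nonneg hρ0.le]
        exact ⟨ρ, ⟨e'.ge, by rw [e']; linarith [ht.2]⟩,
          (norm_sub_le _ _).trans (by rw [e']; linarith)⟩
    have c1 := N1 ρ ⟨hρ0, hρ1⟩ _ (ha x hx) v.1 v.2.1 _ _ hu b1 b2
    have c2 := N2 ρ ⟨hρ0, hρ2⟩ _ (ha x hx) v.2.2.1 v.2.2.2 _ _ hu b1 b2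
    rw [mob_mob_neg ha' hw] at c1 c2
    exact hy w' ⟨hρ4.trans b1.1, b1.2⟩ (PH_thick hx₀ (norm_prod_le_iff.2 ⟨c1, c2⟩))
  · obtain ⟨⟨-, v⟩, w', b1, b2⟩ := a1
    have eq : Q x = q₁ := by simp only [Q, e]; ring
    rw [eq] at v b1 b2
    have b3 := PH_subset_strip hK' hs' b2
    rcases T q₁ ⟨le_rfl, hq₁.2⟩ _ (ha x hx) v w' b1 with b | b
    · linarith [b3.1]
    · linarith [b3.2]

end Pool.Agent.NapKL
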