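import Mathlib

/-! Definitions for the annulus argument. -/

namespace Pool.Agent.NapKL

open Set Metric Complex ComplexConjugate

/-- polynomial functions on `ℂ × ℂ` -/
def Poly : Subalgebra ℂ (ℂ × ℂ → ℂ) := Algebra.adjoin ℂ {Prod.fst, Prod.snd}

/-- the polynomial hull -/
def PH (K : Set (ℂ × ℂ)) : Set (ℂ × ℂ) :=
  {x | ∀ P ∈ Poly, ∀ M : ℝ, (∀ s ∈ K, ‖P s‖ ≤ M) → ‖P x‖ ≤ M}

/-- holomorphic in the unit disc, continuous on its closure -/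
abbrev HC (φ : ℂ → ℂ) : Prop := DiffContOnCl ℂ φ (ball 0 1)

/-- a closed annulus -/
def ring (a b : ℝ) : Set ℂ := {w | a ≤ ‖w‖ ∧ ‖w‖ ≤ b}

/-- an open annulus -/
def oring (a b : ℝ) : Set ℂ := {w | a < ‖w‖ ∧ ‖w‖ < b}

/-- a term of the series of images -/
noncomputable def tm (q : ℝ) (φ : ℂ → ℂ) (w : ℂ) (n : ℕ) : ℂ :=
  (-1) ^ (n + 1) * ((φ ((-(q : ℂ)) ^ (n + 1) * w) - φ 0) -
    conj (φ ((-(q : ℂ)) ^ (n + 1) / conj w) - φ 0))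

/-- the correction -/
noncomputable def GG (q : ℝ) (φ : ℂ → ℂ) (w : ℂ) : ℂ := -I * ((φ 0).im : ℂ) + ∑' n, tm q φ w n

/-- the function on the annulus -/
noncomputable def ann (q : ℝ) (φ : ℂ → ℂ) (w : ℂ) : ℂ := φ w + GG q φ w

/-- the imaginary part of the correction -/
noncomputable def DD (q : ℝ) (φ : ℂ → ℂ) (w : ℂ) : ℝ := (GG q φ w).im

/-- an automorphism of the disc -/
noncomputable def mob (a w : ℂ) : ℂ := (w + a) / (1 + conj a * w)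

/-- the point of the unit circle with argument `t` -/
noncomputable def ee (t : ℝ) : ℂ := exp (t * I)

/-- the closed rectangle -/
def rect (c₁ c₂ : ℝ) : Set ℂ := {p | |p.re| ≤ c₁ ∧ |p.im| ≤ c₂}

/-- the open rectangle -/
def orect (c₁ c₂ : ℝ) : Set ℂ := {p | |p.re| < c₁ ∧ |p.im| < c₂}

/-- the tube over a rectangle -/
def strip (r₁ r₂ : ℝ) : Set (ℂ × ℂ) := {z | |z.1.im| ≤ r₁ ∧ |z.2.im| ≤ r₂}

/-- the imaginary part is unimodal on the unit circle -/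
structure Uni (c : ℝ) (φ : ℂ → ℂ) : Prop where
  hc : HC φ
  pos : 0 < c
  le : ∀ w, ‖w‖ = 1 → |(φ w).im| ≤ c
  up : ∀ s : ℝ, IsPreconnected {w : ℂ | ‖w‖ = 1 ∧ s ≤ (φ w).im}
  lo : ∀ s : ℝ, IsPreconnected {w : ℂ | ‖w‖ = 1 ∧ (φ w).im ≤ s}

/-- an arc from an end point `a` of the top side that contains the bottom side -/
structure Arc (c : ℝ) (φ : ℂ → ℂ) (a : ℂ) (S : Set ℂ) : Prop where
  cl : IsClosed S
  cn : IsPreconnected S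
  sub : ∀ w ∈ S, ‖w‖ = 1
  mem : a ∈ S
  top : ∀ w ∈ S, (φ w).im = c ↔ w = a
  bot : ∀ w, ‖w‖ = 1 → (φ w).im = -c → w ∈ S

/-- a holomorphic disc that is a graph over a rectangle of imaginary parts -/
structure Disc (c₁ c₂ : ℝ) (φ₁ φ₂ : ℂ → ℂ) : Prop where
  p1 : 0 < c₁
  p2 : 0 < c₂
  h1 : HC φ₁
  h2 : HC φ₂
  bij : BijOn (fun w => (⟨(φ₁ w).im, (φ₂ w).im⟩ : ℂ)) (closedBall 0 1) (rect c₁ c₂)
  bd : ∀ w, ‖w‖ ≤ 1 → (‖w‖ = 1 ↔ |(φ₁ w).im| = c₁ ∨ |(φ₂ w).im| = c₂)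
  z1 : (φ₁ 0).im = 0
  z2 : (φ₂ 0).im = 0

/-- a conformal map `ψ` onto a domain that `h` maps homeomorphically onto a rectangle -/
structure Par (c₁ c₂ : ℝ) (S : Set ℂ) (h ψ k : ℂ → ℂ) : Prop where
  p1 : 0 < c₁
  p2 : 0 < c₂
  cS : IsCompact S
  hc : ContinuousOn h S
  hi : InjOn h S
  dψ : DifferentiableOn ℂ ψ (ball 0 1)
  mψ : MapsTo ψ (ball 0 1) S
  mh : ∀ w ∈ ball (0 : ℂ) 1, h (ψ w) ∈ orect c₁ c₂
  kc : ContinuousOn k (orect c₁ c₂)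
  km : MapsTo k (orect c₁ c₂) (ball 0 1)
  kl : ∀ w ∈ ball (0 : ℂ) 1, k (h (ψ w)) = w
  kr : ∀ p ∈ orect c₁ c₂, h (ψ (k p)) = p

end Pool.Agent.NapKL
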