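import Pool.Agent.Lib.MP_b71113_an.KL.Car2
import Pool.Agent.Lib.MP_b71113_an.KL.Alt

/-! The boundary correspondence is bijective. -/

namespace Pool.Agent.NapKL

open Set Metric Complex Filter Topology

variable {c₁ c₂ : ℝ} {S : Set ℂ} {h ψ ψ' k : ℂ → ℂ}

/-- The product of `φ (ee (2 π j / n) * w) - c` over `j < n` vanishes on the circle for large `n`,
so in the disc; one factor vanishes identically (identity theorem). -/
theorem HC.const_of_arc {φ : ℂ → ℂ} (hφ : HC φ) {t₁ t₂ : ℝ} (ht : t₁ < t₂) {c : ℂ}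
    (hc : ∀ t ∈ Ioo t₁ t₂, φ (ee t) = c) : ∀ w ∈ ball (0 : ℂ) 1, φ w = c := by
  have hδ : 0 < (t₂ - t₁) / 2 := by linarith
  set δ := (t₂ - t₁) / 2 with hδ'
  let I : Finset ℤ := Finset.Icc (⌊(t₁ - Real.pi) / δ⌋ + 1) (⌊(t₁ + Real.pi) / δ⌋ + 1)
  have hf : ∀ j : ℤ, HC fun w => φ (ee (j * δ) * w) - c := by
    intro j
    refine DiffContOnCl.sub_const (hφ.comp (g := fun w => ee (j * δ) * w)
      (Differentiable.diffContOnCl (by fun_prop)) fun w hw => ?_) c
    simpa [norm_ee] using hw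
  have hF : HC fun w => ∏ j ∈ I, (φ (ee (j * δ) * w) - c) :=
    ⟨DifferentiableOn.fun_finsetProd fun j _ => (hf j).1,
      continuousOn_finsetProd _ fun j _ => (hf j).2⟩
  have h0 : EqOn (fun w => ∏ j ∈ I, (φ (ee (j * δ) * w) - c)) (fun _ => 0) (ball 0 1) := by
    refine Complex.eqOn_of_eqOn_frontier isBounded_ball hF diffContOnCl_const fun w hw => ?_
    rw [frontier_ball _ one_ne_zero, mem_sphere_zero_iff_norm] at hw
    have h1 := neg_pi_lt_arg w
    have h2 := arg_le_pi w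
    refine Finset.prod_eq_zero (i := ⌊(t₁ - arg w) / δ⌋ + 1) ?_ ?_
    · refine Finset.mem_Icc.2 ⟨?_, ?_⟩
      · gcongr
      · gcongr
        linarith
    · have h3 := Int.floor_le ((t₁ - arg w) / δ)
      have h4 := Int.lt_floor_add_one ((t₁ - arg w) / δ)
      rw [le_div_iff₀ hδ] at h3
      rw [div_lt_iff₀ hδ] at h4
      rw [sub_eq_zero]
      conv_lhs => rw [← ee_arg hw, ← ee_add]
      refine hc _ ⟨?_, ?_⟩
      · rw [ee_arg hw]
        push_cast
        linarith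
      · rw [ee_arg hw]
        push_cast
        linarith
  have ha : AnalyticOnNhd ℂ φ (ball 0 1) := hφ.differentiableOn.analyticOnNhd isOpen_ball
  have hz : (0 : ℂ) ∈ ball (0 : ℂ) 1 := mem_ball_self one_pos
  refine ha.eqOn_of_preconnected_of_frequently_eq analyticOnNhd_const
    (convex_ball _ _).isPreconnected hz ?_
  rw [Filter.Frequently, eventually_nhdsWithin_iff, Metric.eventually_nhds_iff]
  rintro ⟨r, hr, h1⟩
  have h2 : 0 < min r 1 / 2 := by positivity
  have h3 : min r 1 / 2 < r := by linarith [min_le_left r 1]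
  have h4 : min r 1 / 2 < 1 := by linarith [min_le_right r 1]
  have h5 : ‖((min r 1 / 2 : ℝ) : ℂ)‖ = min r 1 / 2 := by
    rw [norm_real, Real.norm_of_nonneg h2.le]
  obtain ⟨j, -, hj⟩ := Finset.prod_eq_zero_iff.1
    (h0 (x := ((min r 1 / 2 : ℝ) : ℂ)) (by rwa [mem_ball_zero_iff, h5]))
  have h6 : ‖ee (j * δ) * ((min r 1 / 2 : ℝ) : ℂ)‖ = min r 1 / 2 := by
    rw [norm_mul, norm_ee, one_mul, h5]
  refine h1 (y := ee (j * δ) * ((min r 1 / 2 : ℝ) : ℂ)) (by rwa [dist_zero_right, h6]) ?_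
    (sub_eq_zero.1 hj)
  intro h7
  rw [mem_singleton_iff.1 h7, norm_zero] at h6
  exact h2.ne h6

/-- a decreasing sequence of compact connected sets has a connected intersection -/
theorem isPreconnected_iInter {C : ℕ → Set ℂ} (hc : ∀ n, IsCompact (C n))
    (hp : ∀ n, IsPreconnected (C n)) (ha : Antitone C) : IsPreconnected (⋂ n, C n) := by
  have hcl : ∀ n, IsClosed (C n) := fun n => (hc n).isClosed
  rw [isPreconnected_iff_subset_of_fully_disjoint_closed (isClosed_iInter hcl)]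
  intro u v hu hv hs hd
  obtain ⟨U, V, hU, hV, huU, hvV, hUV⟩ := normal_separation hu hv hd
  obtain ⟨n, hn⟩ := exists_subset_nhds_of_isCompact' (V := C) (U := U ∪ V)
    ha.directed_ge hc hcl fun x hx =>
      (hU.union hV).mem_nhds (union_subset_union huU hvV (hs hx))
  rcases (hp n).subset_or_subset hU hV hUV hn with h1 | h1
  · refine Or.inl fun x hx => (hs hx).resolve_right fun h2 => ?_
    exact hUV.le_bot ⟨h1 (mem_iInter.1 hx n), hvV h2⟩
  · refine Or.inr fun x hx => (hs hx).resolve_left fun h2 => ?_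
    exact hUV.le_bot ⟨huU h2, h1 (mem_iInter.1 hx n)⟩

theorem bdy_convex : Convex ℝ (orect c₁ c₂) := by
  have e : orect c₁ c₂ = reLm ⁻¹' Ioo (-c₁) c₁ ∩ imLm ⁻¹' Ioo (-c₂) c₂ := by
    ext p
    simp [orect, abs_lt]
  rw [e]
  exact ((convex_Ioo _ _).linear_preimage _).inter ((convex_Ioo _ _).linear_preimage _)

theorem bdy_open : IsOpen (orect c₁ c₂) :=
  IsOpen.inter (isOpen_lt continuous_re.abs continuous_const)
    (isOpen_lt continuous_im.abs continuous_const)

theorem bdy_closed : IsClosed (rect c₁ c₂) :=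
  IsClosed.inter (isClosed_le continuous_re.abs continuous_const)
    (isClosed_le continuous_im.abs continuous_const)

theorem bdy_mapsTo {f : ℂ → ℂ} {T : Set ℂ} (hf : ContinuousOn f (closedBall 0 1))
    (hT : IsClosed T) (hm : MapsTo f (ball 0 1) T) : MapsTo f (closedBall 0 1) T := by
  rw [← closure_ball _ one_ne_zero] at hf ⊢
  exact hT.closure_eq ▸ hm.closure_of_continuousOn hf

theorem bdy_S (H : Par c₁ c₂ S h ψ k) (hc : ContinuousOn ψ' (closedBall 0 1))
    (he : EqOn ψ' ψ (ball 0 1)) : MapsTo ψ' (closedBall 0 1) S :=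
  bdy_mapsTo hc H.cS.isClosed fun w hw => by
    rw [he hw]
    exact H.mψ hw

theorem bdy_cont (H : Par c₁ c₂ S h ψ k) (hc : ContinuousOn ψ' (closedBall 0 1))
    (he : EqOn ψ' ψ (ball 0 1)) : ContinuousOn (fun w => h (ψ' w)) (closedBall 0 1) :=
  H.hc.comp hc (bdy_S H hc he)

theorem bdy_k (H : Par c₁ c₂ S h ψ k) (hc : ContinuousOn ψ' (closedBall 0 1))
    (he : EqOn ψ' ψ (ball 0 1)) {w : ℂ} (hw : w ∈ closedBall (0 : ℂ) 1)
    (hp : h (ψ' w) ∈ orect c₁ c₂) : k (h (ψ' w)) = w := by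
  have h1 : (𝓝[ball (0 : ℂ) 1] w).NeBot := by
    rwa [← mem_closure_iff_nhdsWithin_neBot, closure_ball _ one_ne_zero]
  have h2 : Tendsto (fun v => k (h (ψ' v))) (𝓝[ball (0 : ℂ) 1] w) (𝓝 (k (h (ψ' w)))) :=
    (H.kc.continuousAt (bdy_open.mem_nhds hp)).tendsto.comp
      ((bdy_cont H hc he w hw).mono ball_subset_closedBall)
  refine tendsto_nhds_unique h2 ?_
  refine (tendsto_nhdsWithin_of_tendsto_nhds tendsto_id).congr' ?_
  filter_upwards [self_mem_nhdsWithin] with v hv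
  rw [he hv, H.kl v hv]
  rfl

theorem bdy_dense (p1 : 0 < c₁) (p2 : 0 < c₂) : rect c₁ c₂ ⊆ closure (orect c₁ c₂) := by
  intro p hp
  have h1 : Tendsto (fun t : ℝ => (t : ℂ) * p) (𝓝[<] 1) (𝓝 p) := by
    have h2 : Continuous fun t : ℝ => (t : ℂ) * p := by fun_prop
    have h3 := h2.tendsto 1
    rw [ofReal_one, one_mul] at h3
    exact tendsto_nhdsWithin_of_tendsto_nhds h3
  refine mem_closure_of_tendsto h1 ?_
  filter_upwards [Ioo_mem_nhdsLT (zero_lt_one' ℝ)] with t ht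
  refine ⟨?_, ?_⟩
  · rw [re_ofReal_mul, abs_mul, abs_of_pos ht.1]
    nlinarith [hp.1, ht.1, ht.2]
  · rw [im_ofReal_mul, abs_mul, abs_of_pos ht.1]
    nlinarith [hp.2, ht.1, ht.2]

/-- the fibre is the intersection of the closures of `k '' (ball p (1 / (n + 1)) ∩ orect)` -/
theorem Par.fibre (H : Par c₁ c₂ S h ψ k) (hc : ContinuousOn ψ' (closedBall 0 1))
    (he : EqOn ψ' ψ (ball 0 1)) (p : ℂ) :
    IsPreconnected {w : ℂ | ‖w‖ ≤ 1 ∧ h (ψ' w) = p} := by
  have hy := bdy_cont H hc he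
  have hsub : ∀ n : ℕ, closure (k '' (ball p (1 / (n + 1)) ∩ orect c₁ c₂)) ⊆
      closedBall 0 1 ∩ (fun w => h (ψ' w)) ⁻¹' closedBall p (1 / (n + 1)) := by
    intro n
    refine closure_minimal ?_ (hy.preimage_isClosed_of_isClosed isClosed_closedBall
      isClosed_closedBall)
    rintro _ ⟨q, hq, rfl⟩
    refine ⟨ball_subset_closedBall (H.km hq.2), ?_⟩
    rw [mem_preimage, he (H.km hq.2), H.kr q hq.2]
    exact ball_subset_closedBall hq.1
  have e : {w : ℂ | ‖w‖ ≤ 1 ∧ h (ψ' w) = p} =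
      ⋂ n : ℕ, closure (k '' (ball p (1 / (n + 1)) ∩ orect c₁ c₂)) := by
    ext w
    rw [mem_iInter]
    constructor
    · rintro ⟨h1, h2⟩ n
      have hw : w ∈ closedBall (0 : ℂ) 1 := mem_closedBall_zero_iff.2 h1
      have h3 : ∀ᶠ v in 𝓝[closedBall (0 : ℂ) 1] w, h (ψ' v) ∈ ball p (1 / (n + 1)) :=
        hy w hw (by simp only [h2]; exact ball_mem_nhds _ Nat.one_div_pos_of_nat)
      rw [eventually_nhdsWithin_iff] at h3
      rw [← closure_ball _ one_ne_zero, mem_closure_iff_frequently] at hw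
      rw [mem_closure_iff_frequently]
      refine (hw.and_eventually h3).mono fun v hv => ?_
      have h4 := hv.2 (ball_subset_closedBall hv.1)
      rw [he hv.1] at h4
      exact ⟨h (ψ v), ⟨h4, H.mh v hv.1⟩, H.kl v hv.1⟩
    · intro h1
      refine ⟨mem_closedBall_zero_iff.1 (hsub 0 (h1 0)).1, ?_⟩
      refine eq_of_forall_dist_le fun ε hε => ?_
      obtain ⟨n, hn⟩ := exists_nat_one_div_lt hε
      exact (mem_closedBall.1 (hsub n (h1 n)).2).trans hn.le
  rw [e]
  refine isPreconnected_iInter (fun n => ?_) (fun n => ?_) fun m n hmn => ?_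
  · exact (isCompact_closedBall 0 1).of_isClosed_subset isClosed_closure
      ((hsub n).trans inter_subset_left)
  · exact (((convex_ball _ _).inter bdy_convex).isPreconnected.image _
      (H.kc.mono inter_subset_right)).closure
  · refine closure_mono (image_mono (inter_subset_inter_left _ (ball_subset_ball ?_)))
    exact Nat.one_div_le_one_div hmn

theorem bdy_arc (H : Par c₁ c₂ S h ψ k) (hc : ContinuousOn ψ' (closedBall 0 1))
    (he : EqOn ψ' ψ (ball 0 1)) {p : ℂ} {a b : ℝ} (hab : a < b) :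
    ∃ t ∈ Ioo a b, h (ψ' (ee t)) ≠ p := by
  by_contra h0
  push Not at h0
  have hm : ∀ t, ee t ∈ closedBall (0 : ℂ) 1 := fun t => mem_closedBall_zero_iff.2 (norm_ee t).le
  have hmid : (a + b) / 2 ∈ Ioo a b := ⟨by linarith, by linarith⟩
  have h1 : HC ψ' := ⟨H.dψ.congr he, by rwa [closure_ball _ one_ne_zero]⟩
  have h2 := h1.const_of_arc hab (c := ψ' (ee ((a + b) / 2))) fun t ht =>
    H.hi (bdy_S H hc he (hm _)) (bdy_S H hc he (hm _)) ((h0 t ht).trans (h0 _ hmid).symm)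
  have hz : (0 : ℂ) ∈ ball (0 : ℂ) 1 := mem_ball_self one_pos
  have hh : (1 / 2 : ℂ) ∈ ball (0 : ℂ) 1 := by
    rw [mem_ball_zero_iff]
    norm_num
  have h3 := H.kl _ hz
  have h4 := H.kl _ hh
  rw [← he hz, h2 _ hz] at h3
  rw [← he hh, h2 _ hh, h3] at h4
  norm_num at h4

/-- Points of the circle go to the boundary (`Par.proper`). Two points `ee t₁ ≠ ee t₃` in one
fibre: if both open arcs between them contain a point outside the fibre, `alt` is violated; so
`h ∘ ψ'`, hence `ψ'`, is constant on an arc, against `H.kl`. Onto: the image is compact and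
contains the open rectangle. -/
theorem Par.bij (H : Par c₁ c₂ S h ψ k) (hc : ContinuousOn ψ' (closedBall 0 1))
    (he : EqOn ψ' ψ (ball 0 1)) : MapsTo ψ' (closedBall 0 1) S ∧
      BijOn (fun w => h (ψ' w)) (closedBall 0 1) (rect c₁ c₂) ∧
      ∀ w, ‖w‖ ≤ 1 → (‖w‖ = 1 ↔ h (ψ' w) ∉ orect c₁ c₂) := by
  have hy := bdy_cont H hc he
  have hbd : ∀ w, ‖w‖ ≤ 1 → (‖w‖ = 1 ↔ h (ψ' w) ∉ orect c₁ c₂) := by
    intro w hw
    constructor
    · intro h1 h2
      have h3 := H.km h2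
      rw [bdy_k H hc he (mem_closedBall_zero_iff.2 hw) h2, mem_ball_zero_iff] at h3
      exact h3.ne h1
    · intro h1
      by_contra h2
      have h3 : w ∈ ball (0 : ℂ) 1 := mem_ball_zero_iff.2 (lt_of_le_of_ne hw h2)
      rw [he h3] at h1
      exact h1 (H.mh w h3)
  have key : ∀ w w' : ℂ, ‖w‖ = 1 → ‖w'‖ = 1 → h (ψ' w) = h (ψ' w') → ¬arg w < arg w' := by
    intro w w' hw hw' e hlt
    have h1 := neg_pi_lt_arg w
    have h2 := arg_le_pi w'
    obtain ⟨t₂, ht₂, h3⟩ := bdy_arc H hc he (p := h (ψ' w)) hlt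
    obtain ⟨t₄, ht₄, h4⟩ := bdy_arc H hc he (p := h (ψ' w))
      (show arg w' < arg w + 2 * Real.pi by linarith)
    have h5 := alt (H.fibre hc he (h (ψ' w))) (fun v hv => (hbd v hv.1).2 (by
      rw [hv.2]; exact (hbd w hw.le).1 hw)) ht₂.1 ht₂.2 ht₄.1 ht₄.2
      (by rw [ee_arg hw]; exact ⟨hw.le, rfl⟩) (by rw [ee_arg hw']; exact ⟨hw'.le, e.symm⟩)
    exact h5.elim (fun h6 => h3 h6.2) fun h6 => h4 h6.2
  refine ⟨bdy_S H hc he, ⟨bdy_mapsTo hy bdy_closed fun w hw => ?_, fun w hw w' hw' e => ?_, ?_⟩, hbd⟩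
  · have h1 := H.mh w hw
    rw [← he hw] at h1
    exact ⟨h1.1.le, h1.2.le⟩
  · have e' : h (ψ' w) = h (ψ' w') := e
    by_cases h1 : h (ψ' w) ∈ orect c₁ c₂
    · rw [← bdy_k H hc he hw h1, e', bdy_k H hc he hw' (e' ▸ h1)]
    · have h2 := (hbd w (mem_closedBall_zero_iff.1 hw)).2 h1
      have h3 := (hbd w' (mem_closedBall_zero_iff.1 hw')).2 (e' ▸ h1)
      have h4 := le_antisymm (not_lt.1 (key w' w h3 h2 e'.symm)) (not_lt.1 (key w w' h2 h3 e'))
      rw [← ee_arg h2, h4, ee_arg h3]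
  · refine (bdy_dense H.p1 H.p2).trans (closure_minimal (fun q hq => ?_)
      ((isCompact_closedBall 0 1).image_of_continuousOn hy).isClosed)
    refine ⟨k q, ball_subset_closedBall (H.km hq), ?_⟩
    show h (ψ' (k q)) = q
    rw [he (H.km hq), H.kr q hq]

end Pool.Agent.NapKL
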