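import Pool.Agent.Lib.MP_b71113_an.KL.Base

/-! The length-area estimate. -/

namespace Pool.Agent.NapKL

open Set Metric Complex MeasureTheory

variable {ψ : ℂ → ℂ}

theorem car1_det (a : ℂ) : (a • (1 : ℂ →L[ℝ] ℂ)).det = ‖a‖ ^ 2 := by
  have h : ((a • (1 : ℂ →L[ℝ] ℂ) : ℂ →L[ℝ] ℂ) : ℂ →ₗ[ℝ] ℂ) = Algebra.lmul ℝ ℂ a := by
    refine LinearMap.ext fun z => ?_
    simp
  rw [ContinuousLinearMap.det, h, ← Algebra.norm_apply, Algebra.norm_complex_apply,
    Complex.normSq_eq_norm_sq]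

/-- `lintegral_abs_det_fderiv_eq_addHaar_image`; the real determinant of multiplication by
`a` is `‖a‖ ^ 2` -/
theorem lintegral_deriv_lt_top (hψ : DifferentiableOn ℂ ψ (ball 0 1)) (hi : InjOn ψ (ball 0 1))
    (hb : Bornology.IsBounded (ψ '' ball 0 1)) :
    ∫⁻ w in ball (0 : ℂ) 1, ENNReal.ofReal (‖deriv ψ w‖ ^ 2) < ⊤ := by
  have h := lintegral_abs_det_fderiv_eq_addHaar_image (volume : Measure ℂ)
    (f' := fun w => deriv ψ w • (1 : ℂ →L[ℝ] ℂ)) measurableSet_ball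
    (fun w hw => (hψ.differentiableAt
      (isOpen_ball.mem_nhds hw)).hasDerivAt.complexToReal_fderiv.hasFDerivWithinAt) hi
  simp only [car1_det, abs_pow, abs_norm] at h
  rw [h]
  exact hb.measure_lt_top

theorem car1_cs {f : ℝ → ℝ} {a b : ℝ} (hab : a ≤ b) (hf : ContinuousOn f (uIcc a b)) :
    (∫ t in a..b, f t) ^ 2 ≤ (b - a) * ∫ t in a..b, f t ^ 2 := by
  rcases hab.eq_or_lt with rfl | hlt
  · simp
  have hL : 0 < b - a := sub_pos.2 hlt
  set A := ∫ t in a..b, f t with hA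
  set B := ∫ t in a..b, f t ^ 2 with hB
  have i1 : IntervalIntegrable f volume a b := hf.intervalIntegrable
  have i2 : IntervalIntegrable (fun t => f t ^ 2) volume a b := (hf.pow 2).intervalIntegrable
  have h0 : 0 ≤ ∫ t in a..b, (f t - A / (b - a)) ^ 2 :=
    intervalIntegral.integral_nonneg hab fun t _ => sq_nonneg _
  have h1 : ∫ t in a..b, (f t - A / (b - a)) ^ 2 =
      B - 2 * (A / (b - a)) * A + (b - a) * (A / (b - a)) ^ 2 := by
    have e : (fun t => (f t - A / (b - a)) ^ 2) =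
        fun t => (f t ^ 2 - 2 * (A / (b - a)) * f t) + (A / (b - a)) ^ 2 := by
      funext t
      ring
    rw [e, intervalIntegral.integral_add (i2.sub (i1.const_mul _)) intervalIntegrable_const,
      intervalIntegral.integral_sub i2 (i1.const_mul _), intervalIntegral.integral_const_mul,
      intervalIntegral.integral_const, smul_eq_mul]
  rw [h1] at h0
  have h2 : B - 2 * (A / (b - a)) * A + (b - a) * (A / (b - a)) ^ 2 = B - A ^ 2 / (b - a) := by
    field_simp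
    ring
  rw [h2, sub_nonneg, div_le_iff₀ hL] at h0
  linarith

theorem car1_mem {ζ : ℂ} (hζ : ‖ζ‖ = 1) {r : ℝ} (hr : 0 < r) (θ : ℝ) :
    ζ * (1 - r * exp (θ * I)) ∈ ball (0 : ℂ) 1 ↔ r < 2 * Real.cos θ := by
  rw [mem_ball_zero_iff, norm_mul, hζ, one_mul, ← sq_lt_one_iff₀ (norm_nonneg _),
    ← Complex.normSq_eq_norm_sq, Complex.normSq_apply]
  have h1 : (1 - (r : ℂ) * exp (θ * I)).re = 1 - r * Real.cos θ := by
    simp [Complex.exp_ofReal_mul_I_re, Complex.exp_ofReal_mul_I_im]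
  have h2 : (1 - (r : ℂ) * exp (θ * I)).im = -(r * Real.sin θ) := by
    simp [Complex.exp_ofReal_mul_I_re, Complex.exp_ofReal_mul_I_im]
  rw [h1, h2]
  have h3 := Real.sin_sq_add_cos_sq θ
  have h4 : (1 - r * Real.cos θ) * (1 - r * Real.cos θ) +
      -(r * Real.sin θ) * -(r * Real.sin θ) = 1 + r * (r - 2 * Real.cos θ) := by
    linear_combination r ^ 2 * h3
  rw [h4]
  constructor
  · intro h
    by_contra hc
    have := mul_nonneg hr.le (sub_nonneg.2 (not_lt.1 hc))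
    linarith
  · intro h
    have := mul_neg_of_pos_of_neg hr (sub_neg.2 h)
    linarith

theorem car1_angle {ζ : ℂ} (hζ : ‖ζ‖ = 1) {r : ℝ} (hr : 0 < r) {u : ℂ}
    (hu : u ∈ ball (0 : ℂ) 1) (hu' : ‖u - ζ‖ = r) :
    ∃ α : ℝ, |α| < Real.pi ∧ r < 2 * Real.cos α ∧ u = ζ * (1 - r * exp (α * I)) := by
  have hζ0 : ζ ≠ 0 := by
    intro h
    rw [h, norm_zero] at hζ
    exact zero_ne_one hζ
  set w : ℂ := (ζ - u) / ζ with hw
  have hn : ‖w‖ = r := by
    rw [hw, norm_div, hζ, div_one, norm_sub_rev, hu']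
  have e : u = ζ * (1 - r * exp (arg w * I)) := by
    rw [← hn, Complex.norm_mul_exp_arg_mul_I, hw]
    field_simp
    ring
  have hc : r < 2 * Real.cos (arg w) := by
    rw [← car1_mem hζ hr, ← e]
    exact hu
  refine ⟨arg w, ?_, hc, e⟩
  rcases (Complex.abs_arg_le_pi w).eq_or_lt with h | h
  · rw [← Real.cos_abs, h, Real.cos_pi] at hc
    linarith
  · exact h

theorem car1_osc (hψ : DifferentiableOn ℂ ψ (ball 0 1)) {ζ : ℂ} (hζ : ‖ζ‖ = 1) {r : ℝ}
    (hr : 0 < r) {α β : ℝ} (hαβ : α ≤ β) (hα : |α| < Real.pi) (hβ : |β| < Real.pi)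
    (hα' : r < 2 * Real.cos α) (hβ' : r < 2 * Real.cos β) :
    ENNReal.ofReal (‖ψ (ζ * (1 - r * exp (β * I))) - ψ (ζ * (1 - r * exp (α * I)))‖ ^ 2) ≤
      ENNReal.ofReal (2 * Real.pi * r ^ 2) *
      ∫⁻ θ in Ioo (-Real.pi) Real.pi, (ball (0 : ℂ) 1).indicator
        (fun w => ENNReal.ofReal (‖deriv ψ w‖ ^ 2)) (ζ * (1 - r * exp (θ * I))) := by
  set γ : ℝ → ℂ := fun θ => ζ * (1 - r * exp (θ * I)) with hγ
  have hm : ∀ θ ∈ uIcc α β, γ θ ∈ ball (0 : ℂ) 1 := by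
    intro θ hθ
    rw [uIcc_of_le hαβ] at hθ
    rw [hγ, car1_mem hζ hr]
    rcases le_total 0 θ with h | h
    · have h1 : Real.cos β ≤ Real.cos θ :=
        Real.cos_le_cos_of_nonneg_of_le_pi h ((le_abs_self β).trans hβ.le) hθ.2
      linarith
    · have h1 : Real.cos (-α) ≤ Real.cos (-θ) :=
        Real.cos_le_cos_of_nonneg_of_le_pi (neg_nonneg.2 h) ((neg_le_abs α).trans hα.le)
          (neg_le_neg hθ.1)
      rw [Real.cos_neg, Real.cos_neg] at h1
      linarith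
  have hγc : Continuous γ := by
    rw [hγ]
    fun_prop
  have hdc : ContinuousOn (deriv ψ) (ball 0 1) := (hψ.deriv isOpen_ball).continuousOn
  have hc1 : ContinuousOn (fun θ => deriv ψ (γ θ)) (uIcc α β) := hdc.comp hγc.continuousOn hm
  have hd : ∀ θ ∈ uIcc α β, HasDerivAt (fun θ => ψ (γ θ))
      (deriv ψ (γ θ) * (ζ * (-(r * (exp (θ * I) * I))))) θ := by
    intro θ hθ
    have h1 : HasDerivAt (fun z : ℂ => ζ * (1 - r * exp (z * I)))
        (ζ * (-(r * (exp (θ * I) * I)))) (θ : ℂ) := by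
      have h2 : HasDerivAt (fun z : ℂ => exp (z * I)) (exp (θ * I) * I) (θ : ℂ) := by
        simpa using ((hasDerivAt_id (θ : ℂ)).mul_const I).cexp
      exact ((h2.const_mul (r : ℂ)).const_sub 1).const_mul ζ
    have h3 := (hψ.differentiableAt (isOpen_ball.mem_nhds (hm θ hθ))).hasDerivAt
    exact (HasDerivAt.comp (θ : ℂ) (h₂ := ψ) h3 h1).comp_ofReal
  have hc2 : ContinuousOn (fun θ : ℝ => deriv ψ (γ θ) * (ζ * (-(r * (exp (θ * I) * I)))))
      (uIcc α β) := hc1.mul (Continuous.continuousOn (by fun_prop))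
  have hI := intervalIntegral.integral_eq_sub_of_hasDerivAt hd hc2.intervalIntegrable
  have hn : ‖ψ (γ β) - ψ (γ α)‖ ≤ r * ∫ θ in α..β, ‖deriv ψ (γ θ)‖ := by
    rw [← hI, ← intervalIntegral.integral_const_mul]
    refine (intervalIntegral.norm_integral_le_integral_norm hαβ).trans (le_of_eq ?_)
    congr 1
    funext θ
    rw [norm_mul, norm_mul, hζ, norm_neg, norm_mul, norm_mul, Complex.norm_exp_ofReal_mul_I,
      Complex.norm_I, Complex.norm_real, Real.norm_eq_abs, abs_of_pos hr]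
    ring
  have hcs := car1_cs hαβ hc1.norm
  have hB : 0 ≤ ∫ θ in α..β, ‖deriv ψ (γ θ)‖ ^ 2 :=
    intervalIntegral.integral_nonneg hαβ fun t _ => sq_nonneg _
  have hlen : β - α ≤ 2 * Real.pi := by
    have h1 := (abs_lt.1 hα).1
    have h2 := (abs_lt.1 hβ).2
    linarith
  have hsq : ‖ψ (γ β) - ψ (γ α)‖ ^ 2 ≤
      (2 * Real.pi * r ^ 2) * ∫ θ in α..β, ‖deriv ψ (γ θ)‖ ^ 2 := by
    calc ‖ψ (γ β) - ψ (γ α)‖ ^ 2 ≤ (r * ∫ θ in α..β, ‖deriv ψ (γ θ)‖) ^ 2 :=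
          pow_le_pow_left₀ (norm_nonneg _) hn 2
      _ = r ^ 2 * (∫ θ in α..β, ‖deriv ψ (γ θ)‖) ^ 2 := mul_pow _ _ _
      _ ≤ r ^ 2 * ((2 * Real.pi) * ∫ θ in α..β, ‖deriv ψ (γ θ)‖ ^ 2) :=
          mul_le_mul_of_nonneg_left (hcs.trans (mul_le_mul_of_nonneg_right hlen hB)) (sq_nonneg _)
      _ = _ := by ring
  refine (ENNReal.ofReal_le_ofReal hsq).trans ?_
  rw [ENNReal.ofReal_mul (by positivity)]
  refine mul_le_mul_right ?_ _
  have hi2 : IntervalIntegrable (fun θ => ‖deriv ψ (γ θ)‖ ^ 2) volume α β :=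
    (hc1.norm.pow 2).intervalIntegrable
  rw [intervalIntegral.integral_of_le hαβ,
    ofReal_integral_eq_lintegral_ofReal hi2.1 (ae_of_all _ fun _ => sq_nonneg _)]
  have hsub : Ioc α β ⊆ Ioo (-Real.pi) Real.pi := fun θ hθ =>
    ⟨(abs_lt.1 hα).1.trans hθ.1, hθ.2.trans_lt (abs_lt.1 hβ).2⟩
  refine le_trans (le_of_eq ?_) (lintegral_mono_set hsub)
  refine setLIntegral_congr_fun measurableSet_Ioc fun θ hθ => ?_
  have hθ' : θ ∈ uIcc α β := by
    rw [uIcc_of_le hαβ]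
    exact ⟨hθ.1.le, hθ.2⟩
  exact (indicator_of_mem (hm θ hθ') (fun w => ENNReal.ofReal (‖deriv ψ w‖ ^ 2))).symm

/-- The points of the disc at distance `r` from `ζ` are `ζ (1 - r exp (I θ))` with
`r < 2 cos θ`, `|θ| < π`, an interval of angles; the oscillation on this arc is at most the
integral of `r ‖ψ'‖`; Cauchy-Schwarz. -/
theorem osc_sq_le (hψ : DifferentiableOn ℂ ψ (ball 0 1)) {ζ : ℂ} (hζ : ‖ζ‖ = 1) {r : ℝ}
    (hr : 0 < r) {u v : ℂ} (hu : u ∈ ball (0 : ℂ) 1) (hv : v ∈ ball (0 : ℂ) 1)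
    (hu' : ‖u - ζ‖ = r) (hv' : ‖v - ζ‖ = r) :
    ENNReal.ofReal (‖ψ u - ψ v‖ ^ 2) ≤ ENNReal.ofReal (2 * Real.pi * r ^ 2) *
      ∫⁻ θ in Ioo (-Real.pi) Real.pi, (ball (0 : ℂ) 1).indicator
        (fun w => ENNReal.ofReal (‖deriv ψ w‖ ^ 2)) (ζ * (1 - r * exp (θ * I))) := by
  obtain ⟨α, a1, a2, rfl⟩ := car1_angle hζ hr hu hu'
  obtain ⟨β, b1, b2, rfl⟩ := car1_angle hζ hr hv hv'
  rcases le_total α β with h | h
  · rw [norm_sub_rev]
    exact car1_osc hψ hζ hr h a1 b1 a2 b2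
  · exact car1_osc hψ hζ hr h b1 a1 b2 a2

theorem car1_polar {F : ℂ → ENNReal} (hF : Measurable F) {ζ : ℂ} (hζ : ‖ζ‖ = 1) :
    ∫⁻ r in Ioi (0 : ℝ), ENNReal.ofReal r *
      ∫⁻ θ in Ioo (-Real.pi) Real.pi, F (ζ * (1 - r * exp (θ * I))) = ∫⁻ w, F w := by
  let a : Circle := ⟨ζ, mem_sphere_zero_iff_norm.2 hζ⟩
  have h1 : MeasurePreserving (fun w : ℂ => ζ * (1 - w)) volume volume :=
    (rotation a).measurePreserving.comp (Measure.measurePreserving_sub_left volume (1 : ℂ))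
  rw [← h1.lintegral_comp hF, ← Complex.lintegral_comp_polarCoord_symm, polarCoord_target,
    Measure.volume_eq_prod]
  have e : (fun p : ℝ × ℝ => ENNReal.ofReal p.1 • F (ζ * (1 - Complex.polarCoord.symm p))) =
      fun p : ℝ × ℝ => ENNReal.ofReal p.1 * F (ζ * (1 - p.1 * exp (p.2 * I))) := by
    funext p
    rw [Complex.polarCoord_symm_apply, Complex.exp_mul_I, Complex.ofReal_cos, Complex.ofReal_sin,
      smul_eq_mul]
  rw [e, setLIntegral_prod]
  · refine lintegral_congr fun r => ?_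
    exact (lintegral_const_mul' _ _ ENNReal.ofReal_ne_top).symm
  · refine Measurable.aemeasurable ?_
    exact (ENNReal.measurable_ofReal.comp measurable_fst).mul
      (hF.comp (Continuous.measurable (by fun_prop)))

/-- Polar coordinates around `ζ` (`Complex.lintegral_comp_polarCoord_symm`): otherwise
`ε ^ 2 log (ρ / δ) / (2 π)` is at most the Dirichlet integral. -/
theorem crosscut (hψ : DifferentiableOn ℂ ψ (ball 0 1)) (hi : InjOn ψ (ball 0 1))
    (hb : Bornology.IsBounded (ψ '' ball 0 1)) {ε ρ : ℝ} (hε : 0 < ε) (hρ : 0 < ρ) :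
    ∃ δ > 0, ∀ ζ : ℂ, ‖ζ‖ = 1 → ∃ r ∈ Ioo δ ρ, ∀ u ∈ ball (0 : ℂ) 1, ∀ v ∈ ball (0 : ℂ) 1,
      ‖u - ζ‖ = r → ‖v - ζ‖ = r → ‖ψ u - ψ v‖ ≤ ε := by
  have hA := lintegral_deriv_lt_top hψ hi hb
  set A := ∫⁻ w in ball (0 : ℂ) 1, ENNReal.ofReal (‖deriv ψ w‖ ^ 2) with hAdef
  set F : ℂ → ENNReal := (ball (0 : ℂ) 1).indicator
    (fun w => ENNReal.ofReal (‖deriv ψ w‖ ^ 2)) with hFdef
  have hF : Measurable F :=
    (ENNReal.measurable_ofReal.comp ((measurable_deriv ψ).norm.pow_const 2)).indicator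
      measurableSet_ball
  have hFA : ∫⁻ w, F w = A := lintegral_indicator measurableSet_ball _
  have hπ := Real.pi_pos
  set c : ℝ := ε ^ 2 / (2 * Real.pi) with hc
  have hc0 : 0 < c := by positivity
  set M : ℝ := (A.toReal + 1) / c with hM
  have hM0 : 0 < M := by positivity
  set δ : ℝ := ρ * Real.exp (-M) with hδ
  have hδ0 : 0 < δ := by positivity
  have hδρ : δ ≤ ρ := mul_le_of_le_one_right hρ.le (Real.exp_le_one_iff.2 (by linarith))
  refine ⟨δ, hδ0, fun ζ hζ => ?_⟩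
  by_contra hcon
  push Not at hcon
  have h1 : ∀ r ∈ Ioo δ ρ, ENNReal.ofReal (c * r⁻¹) ≤ ENNReal.ofReal r *
      ∫⁻ θ in Ioo (-Real.pi) Real.pi, F (ζ * (1 - r * exp (θ * I))) := by
    intro r hr
    have hr0 : 0 < r := hδ0.trans hr.1
    obtain ⟨u, hu, v, hv, hu', hv', h⟩ := hcon r hr
    have h2 := osc_sq_le hψ hζ hr0 hu hv hu' hv'
    have h3 : ENNReal.ofReal (ε ^ 2) ≤ ENNReal.ofReal (‖ψ u - ψ v‖ ^ 2) :=
      ENNReal.ofReal_le_ofReal (pow_le_pow_left₀ hε.le h.le 2)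
    have h4 := mul_le_mul_right (h3.trans h2) (ENNReal.ofReal ((2 * Real.pi * r)⁻¹))
    rw [← mul_assoc, ← ENNReal.ofReal_mul (by positivity),
      ← ENNReal.ofReal_mul (by positivity)] at h4
    have e1 : (2 * Real.pi * r)⁻¹ * ε ^ 2 = c * r⁻¹ := by
      rw [hc]
      field_simp
    have e2 : (2 * Real.pi * r)⁻¹ * (2 * Real.pi * r ^ 2) = r := by
      field_simp
    rw [e1, e2] at h4
    exact h4
  have h2 : ∫⁻ r in Ioo δ ρ, ENNReal.ofReal (c * r⁻¹) ≤ A := by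
    rw [← hFA, ← car1_polar hF hζ]
    refine le_trans (setLIntegral_mono' measurableSet_Ioo h1) (lintegral_mono_set ?_)
    exact fun r hr => hδ0.trans hr.1
  have hint : IntervalIntegrable (fun r : ℝ => c * r⁻¹) volume δ ρ := by
    refine ContinuousOn.intervalIntegrable (continuousOn_const.mul (continuousOn_inv₀.mono ?_))
    intro r hr
    rw [uIcc_of_le hδρ] at hr
    exact (hδ0.trans_le hr.1).ne'
  have h3 : ∫ r in δ..ρ, c * r⁻¹ = A.toReal + 1 := by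
    rw [intervalIntegral.integral_const_mul, integral_inv_of_pos hδ0 hρ]
    have e : ρ / δ = Real.exp M := by
      rw [hδ, Real.exp_neg]
      field_simp
    rw [e, Real.log_exp, hM]
    field_simp
  rw [intervalIntegral.integral_of_le hδρ, integral_Ioc_eq_integral_Ioo] at h3
  have h4 : ENNReal.ofReal (A.toReal + 1) ≤ A := by
    rw [← h3, ofReal_integral_eq_lintegral_ofReal (hint.1.mono_set Ioo_subset_Ioc_self)]
    · exact h2
    · refine (ae_restrict_iff' measurableSet_Ioo).2 (ae_of_all _ fun r hr => ?_)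
      have := hδ0.trans hr.1
      positivity
  rw [ENNReal.ofReal_le_iff_le_toReal hA.ne] at h4
  linarith

end Pool.Agent.NapKL
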