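import Pool.Agent.Lib.MP_b71113_an.KL.Car1

/-! Continuous extension of the conformal map. -/

namespace Pool.Agent.NapKL

open Set Metric Complex Filter Topology

variable {c₁ c₂ : ℝ} {S : Set ℂ} {h ψ k : ℂ → ℂ}

theorem car2_norm {p : ℂ} (hp : p ∈ rect c₁ c₂) : ‖p‖ ≤ c₁ + c₂ :=
  (norm_le_abs_re_add_abs_im p).trans (add_le_add hp.1 hp.2)

theorem car2_compact (c₁ c₂ : ℝ) : IsCompact (rect c₁ c₂) :=
  isCompact_of_isClosed_isBounded
    ((isClosed_le continuous_re.abs continuous_const).inter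
      (isClosed_le continuous_im.abs continuous_const))
    ((isBounded_closedBall (x := (0 : ℂ)) (r := c₁ + c₂)).subset fun _ hp =>
      mem_closedBall_zero_iff.2 (car2_norm hp))

theorem car2_smul {p : ℂ} (hp : p ∈ orect c₁ c₂) {s : ℝ} (hs : s ∈ Icc (0 : ℝ) 1) :
    (s : ℂ) * p ∈ orect c₁ c₂ := by
  constructor
  · rw [re_ofReal_mul, abs_mul, abs_of_nonneg hs.1]
    exact (mul_le_of_le_one_left (abs_nonneg _) hs.2).trans_lt hp.1
  · rw [im_ofReal_mul, abs_mul, abs_of_nonneg hs.1]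
    exact (mul_le_of_le_one_left (abs_nonneg _) hs.2).trans_lt hp.2

theorem car2_near {p : ℂ} (hp : p ∈ orect c₁ c₂) {s t : ℝ} (hs : s ∈ Icc (0 : ℝ) 1)
    (h : (s : ℂ) * p ∉ rect (t * c₁) (t * c₂)) : ‖p - s * p‖ ≤ (1 - t) * (c₁ + c₂) := by
  have h1 : t ≤ s := by
    by_contra h2
    have h3 := (not_le.1 h2).le
    refine h ⟨?_, ?_⟩
    · rw [re_ofReal_mul, abs_mul, abs_of_nonneg hs.1]
      exact mul_le_mul h3 hp.1.le (abs_nonneg _) (hs.1.trans h3)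
    · rw [im_ofReal_mul, abs_mul, abs_of_nonneg hs.1]
      exact mul_le_mul h3 hp.2.le (abs_nonneg _) (hs.1.trans h3)
  have e : p - s * p = ((1 - s : ℝ) : ℂ) * p := by
    push_cast
    ring
  rw [e, norm_mul, norm_real, Real.norm_of_nonneg (sub_nonneg.2 hs.2)]
  exact mul_le_mul (by linarith) (car2_norm ⟨hp.1.le, hp.2.le⟩) (norm_nonneg _)
    (by linarith [hs.2])

/-- the image under `k` of a compact subset of the open rectangle is a compact subset of the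
disc -/
theorem Par.proper (H : Par c₁ c₂ S h ψ k) {t : ℝ} (h0 : 0 < t) (h1 : t < 1) :
    ∃ ρ < 1, ∀ w ∈ ball (0 : ℂ) 1, ρ < ‖w‖ → h (ψ w) ∉ rect (t * c₁) (t * c₂) := by
  have hsub : rect (t * c₁) (t * c₂) ⊆ orect c₁ c₂ := fun p hp =>
    ⟨hp.1.trans_lt (mul_lt_of_lt_one_left H.p1 h1), hp.2.trans_lt (mul_lt_of_lt_one_left H.p2 h1)⟩
  obtain ⟨ρ, hρ, hs⟩ := exists_lt_subset_ball
    ((car2_compact _ _).image_of_continuousOn (H.kc.mono hsub)).isClosed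
    (show k '' rect (t * c₁) (t * c₂) ⊆ ball 0 1 by
      rintro _ ⟨p, hp, rfl⟩
      exact H.km (hsub hp))
  refine ⟨ρ, hρ, fun w hw h2 h3 => ?_⟩
  exact absurd (mem_ball_zero_iff.1 (hs ⟨_, h3, H.kl w hw⟩)) (not_lt.2 h2.le)

/-- The shadow of a small set near the boundary is small: if `p`, `p'` lie in the open rectangle
and `s p`, `s' p'` (`s, s' ∈ [0, 1]`) lie in a set of diameter `η` outside `t • rect`, then
`‖p - p'‖ ≤ ε` (`t < s`, so `‖p - s p‖ ≤ (1 - t) (c₁ + c₂)`). -/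
theorem shadow (p1 : 0 < c₁) (p2 : 0 < c₂) {ε : ℝ} (hε : 0 < ε) : ∃ t ∈ Ioo (0 : ℝ) 1, ∃ η > 0,
    ∀ p ∈ orect c₁ c₂, ∀ p' ∈ orect c₁ c₂, ∀ s ∈ Icc (0 : ℝ) 1, ∀ s' ∈ Icc (0 : ℝ) 1,
      (s : ℂ) * p ∉ rect (t * c₁) (t * c₂) → (s' : ℂ) * p' ∉ rect (t * c₁) (t * c₂) →
        ‖(s : ℂ) * p - s' * p'‖ ≤ η → ‖p - p'‖ ≤ ε := by
  have hc : 0 < c₁ + c₂ := add_pos p1 p2
  have h1 : 0 < min (1 / 2) (ε / 3 / (c₁ + c₂)) := by positivity
  have h2 : min (1 / 2) (ε / 3 / (c₁ + c₂)) ≤ 1 / 2 := min_le_left _ _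
  have h3 : min (1 / 2) (ε / 3 / (c₁ + c₂)) * (c₁ + c₂) ≤ ε / 3 :=
    (le_div_iff₀ hc).1 (min_le_right _ _)
  refine ⟨1 - min (1 / 2) (ε / 3 / (c₁ + c₂)), ⟨by linarith, by linarith⟩, ε / 3, by positivity,
    fun p hp p' hp' s hs s' hs' k1 k2 k3 => ?_⟩
  have k4 := car2_near hp hs k1
  have k5 := car2_near hp' hs' k2
  rw [sub_sub_cancel] at k4 k5
  have e : p - p' = (p - s * p) + (s * p - s' * p') - (p' - s' * p') := by ring
  rw [e]
  have k6 := norm_sub_le ((p - s * p) + (s * p - s' * p')) (p' - s' * p')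
  have k7 := norm_add_le (p - s * p) (s * p - s' * p')
  linarith

/-- Let `y = h ∘ ψ`. Take `t`, `η` from `shadow`, `ρ` from `Par.proper`, `ρ' ≤ 1 - ρ` with
`ρ' ≤ 1 - ‖k 0‖`, a crosscut of radius `r ∈ (δ, ρ')` whose image under `y` has diameter at most
`η` (uniform continuity of `h` on `S`). For `w` in the disc with `‖w - ζ‖ < δ` the path
`s ↦ k (s * y w)` joins `k 0` to `w`, so it meets the crosscut (intermediate value theorem). -/
theorem Par.osc (H : Par c₁ c₂ S h ψ k) {ε : ℝ} (hε : 0 < ε) : ∃ δ > 0, ∀ ζ : ℂ, ‖ζ‖ = 1 →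
    ∀ u ∈ ball (0 : ℂ) 1, ∀ v ∈ ball (0 : ℂ) 1, ‖u - ζ‖ < δ → ‖v - ζ‖ < δ →
      ‖h (ψ u) - h (ψ v)‖ ≤ ε := by
  obtain ⟨t, ht, η, hη, hsh⟩ := shadow H.p1 H.p2 hε
  obtain ⟨ρ, hρ, hpr⟩ := H.proper ht.1 ht.2
  obtain ⟨ε₁, hε₁, hu⟩ := uniformContinuousOn_iff_le.1
    (H.cS.uniformContinuousOn_of_continuous H.hc) η hη
  have h0 : (0 : ℂ) ∈ orect c₁ c₂ := ⟨by simpa using H.p1, by simpa using H.p2⟩
  have hk0 := mem_ball_zero_iff.1 (H.km h0)
  obtain ⟨δ, hδ, hcr⟩ := crosscut H.dψ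
    (fun u hu v hv e => by rw [← H.kl u hu, e, H.kl v hv])
    (H.cS.isBounded.subset H.mψ.image_subset) hε₁
    (show 0 < min (1 - ρ) (1 - ‖k 0‖) from lt_min (by linarith) (by linarith))
  refine ⟨δ, hδ, fun ζ hζ u hu' v hv' k1 k2 => ?_⟩
  obtain ⟨r, hr, hr'⟩ := hcr ζ hζ
  have r1 := hr.2.trans_le (min_le_left _ _)
  have r2 := hr.2.trans_le (min_le_right _ _)
  have key : ∀ w ∈ ball (0 : ℂ) 1, ‖w - ζ‖ < δ → ∃ s ∈ Icc (0 : ℝ) 1,
      ‖k (s * h (ψ w)) - ζ‖ = r ∧ (s : ℂ) * h (ψ w) ∉ rect (t * c₁) (t * c₂) := fun w hw hw' => by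
    have hc : ContinuousOn (fun s : ℝ => ‖k (s * h (ψ w)) - ζ‖) (Icc 0 1) :=
      ((H.kc.comp (continuous_ofReal.mul continuous_const).continuousOn
        fun s hs => car2_smul (H.mh w hw) hs).sub continuousOn_const).norm
    obtain ⟨s, hs, e⟩ := intermediate_value_Icc' zero_le_one hc (show r ∈ _ from ⟨by
      simp only [ofReal_one, one_mul, H.kl w hw]
      exact (hw'.trans hr.1).le, by
      simp only [ofReal_zero, zero_mul]
      have := norm_sub_norm_le ζ (k 0)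
      rw [norm_sub_rev]
      linarith⟩)
    refine ⟨s, hs, e, ?_⟩
    have m := car2_smul (H.mh w hw) hs
    rw [← H.kr _ m]
    refine hpr _ (H.km m) ?_
    have := norm_sub_norm_le ζ (k (s * h (ψ w)))
    rw [norm_sub_rev ζ, show ‖k (s * h (ψ w)) - ζ‖ = r from e] at this
    linarith
  obtain ⟨s, hs, e, n⟩ := key u hu' k1
  obtain ⟨s', hs', e', n'⟩ := key v hv' k2
  have m := car2_smul (H.mh u hu') hs
  have m' := car2_smul (H.mh v hv') hs'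
  refine hsh _ (H.mh u hu') _ (H.mh v hv') s hs s' hs' n n' ?_
  have k3 := hu _ (H.mψ (H.km m)) _ (H.mψ (H.km m'))
    (by rw [dist_eq_norm]; exact hr' _ (H.km m) _ (H.km m') e e')
  rwa [dist_eq_norm, H.kr _ m, H.kr _ m'] at k3

theorem car2_inv (cS : IsCompact S) (hc : ContinuousOn h S) (hi : InjOn h S) {ε : ℝ} (hε : 0 < ε) :
    ∃ η > 0, ∀ a ∈ S, ∀ b ∈ S, ‖h a - h b‖ ≤ η → ‖a - b‖ < ε := by
  have h1 : IsCompact ((S ×ˢ S) ∩ {q : ℂ × ℂ | ε ≤ ‖q.1 - q.2‖}) :=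
    (cS.prod cS).inter_right (isClosed_le continuous_const (by fun_prop))
  obtain ⟨η, hη, h2⟩ := h1.exists_forall_le' (f := fun q : ℂ × ℂ => ‖h q.1 - h q.2‖) (a := 0)
    (((hc.comp continuousOn_fst fun q hq => hq.1.1).sub
      (hc.comp continuousOn_snd fun q hq => hq.1.2)).norm) fun q hq =>
      norm_pos_iff.2 (sub_ne_zero.2 fun e => by
        have h3 : ε ≤ ‖q.1 - q.2‖ := hq.2
        rw [hi hq.1.1 hq.1.2 e, sub_self, norm_zero] at h3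
        exact absurd hε (not_lt.2 h3))
  refine ⟨η / 2, half_pos hη, fun a ha b hb h3 => not_le.1 fun h4 => ?_⟩
  have h5 := h2 (a, b) ⟨⟨ha, hb⟩, h4⟩
  linarith

/-- The inverse of `h` on the compact set `S` is uniformly continuous, so `Par.osc` holds for `ψ`;
`ψ` has a limit at every point of the closed disc (Cauchy filter); `continuousOn_extendFrom`. -/
theorem Par.ext (H : Par c₁ c₂ S h ψ k) :
    ∃ ψ' : ℂ → ℂ, ContinuousOn ψ' (closedBall 0 1) ∧ EqOn ψ' ψ (ball 0 1) := by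
  have hcl : closedBall (0 : ℂ) 1 ⊆ closure (ball 0 1) := (closure_ball 0 one_ne_zero).ge
  refine ⟨extendFrom (ball 0 1) ψ, continuousOn_extendFrom hcl fun z hz => ?_,
    extendFrom_extends H.dψ.continuousOn⟩
  rcases (mem_closedBall_zero_iff.1 hz).lt_or_eq with h1 | h1
  · exact ⟨ψ z, H.dψ.continuousOn z (mem_ball_zero_iff.2 h1)⟩
  have : (𝓝[ball 0 1] z).NeBot := mem_closure_iff_nhdsWithin_neBot.1 (hcl hz)
  refine cauchy_map_iff_exists_tendsto.1 (Metric.cauchy_iff.2 ⟨inferInstance, fun ε hε => ?_⟩)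
  obtain ⟨η, hη, h2⟩ := car2_inv H.cS H.hc H.hi hε
  obtain ⟨δ, hδ, h3⟩ := H.osc hη
  refine ⟨ψ '' (ball 0 1 ∩ ball z δ), image_mem_map (inter_mem_nhdsWithin _ (ball_mem_nhds z hδ)),
    ?_⟩
  rintro _ ⟨u, hu, rfl⟩ _ ⟨v, hv, rfl⟩
  rw [dist_eq_norm]
  exact h2 _ (H.mψ hu.1) _ (H.mψ hv.1)
    (h3 z h1 u hu.1 v hv.1 (mem_ball_iff_norm.1 hu.2) (mem_ball_iff_norm.1 hv.2))

end Pool.Agent.NapKL
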