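import Pool.Agent.Lib.MP_b71113_an.KL.Hull
import Pool.Agent.Lib.MP_b71113_an.Osgood

/-! A holomorphic function without zeros on the hull is approximately invertible. -/

namespace Pool.Agent.NapKL

open Set Metric Complex

variable {W K : Set (ℂ × ℂ)} {F : ℂ × ℂ → ℂ}

theorem gel_mem (hc : Convex ℝ W) {x z : ℂ × ℂ} (hx : x ∈ W) (hz : z ∈ W) (t : ℝ) :
    x + ((projIcc (0 : ℝ) 1 zero_le_one t : ℝ) : ℂ) • (z - x) ∈ W := by
  have h := hc.add_smul_sub_mem hx hz (projIcc (0 : ℝ) 1 zero_le_one t).2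
  rwa [Complex.coe_smul]

theorem gel_int (hW : IsOpen W) (hc : Convex ℝ W) (hF : DifferentiableOn ℂ F W) {x : ℂ × ℂ}
    (hx : x ∈ W) (v : ℂ × ℂ) : DifferentiableOn ℂ (fun z => ∫ t in (0 : ℝ)..1,
      fderiv ℂ F (x + ((projIcc (0 : ℝ) 1 zero_le_one t : ℝ) : ℂ) • (z - x)) v) W := by
  have hd := Pool.Agent.Lib.MP_b71113_an.differentiableOn_fderiv_of_isOpen hW hF
  have hv : DifferentiableOn ℂ (fun y => fderiv ℂ F y v) W :=
    hd.clm_apply (differentiableOn_const v)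
  refine Pool.Agent.Lib.MP_b71113_an.differentiableOn_intervalIntegral hW ?_ fun t => ?_
  · refine hv.continuousOn.comp (f := fun p : (ℂ × ℂ) × ℝ =>
      x + ((projIcc (0 : ℝ) 1 zero_le_one p.2 : ℝ) : ℂ) • (p.1 - x)) ?_
      fun p hp => gel_mem hc hx hp.1 p.2
    refine Continuous.continuousOn ?_
    have h1 : Continuous fun p : (ℂ × ℂ) × ℝ => ((projIcc (0 : ℝ) 1 zero_le_one p.2 : ℝ) : ℂ) :=
      continuous_ofReal.comp (continuous_subtype_val.comp (continuous_projIcc.comp continuous_snd))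
    exact continuous_const.add (h1.smul (continuous_fst.sub continuous_const))
  · refine hv.comp (f := fun z : ℂ × ℂ =>
      x + ((projIcc (0 : ℝ) 1 zero_le_one t : ℝ) : ℂ) • (z - x)) ?_ fun z hz => gel_mem hc hx hz t
    fun_prop

/-- `G j z = ∫ t in 0..1, fderiv F (x + t (z - x)) e_j`; `differentiableOn_fderiv_of_isOpen`,
`differentiableOn_intervalIntegral` (clamp `t` to `[0, 1]` with `projIcc`) -/
theorem hefer (hW : IsOpen W) (hc : Convex ℝ W) (hF : DifferentiableOn ℂ F W) {x : ℂ × ℂ}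
    (hx : x ∈ W) : ∃ G₁ G₂ : ℂ × ℂ → ℂ, DifferentiableOn ℂ G₁ W ∧ DifferentiableOn ℂ G₂ W ∧
      ∀ z ∈ W, F z - F x = G₁ z * (z.1 - x.1) + G₂ z * (z.2 - x.2) := by
  refine ⟨_, _, gel_int hW hc hF hx (1, 0), gel_int hW hc hF hx (0, 1), fun z hz => ?_⟩
  have hd := Pool.Agent.Lib.MP_b71113_an.differentiableOn_fderiv_of_isOpen hW hF
  have hm : ∀ t ∈ Icc (0 : ℝ) 1, x + (t : ℂ) • (z - x) ∈ W := fun t ht => by
    have h := hc.add_smul_sub_mem hx hz ht
    rwa [Complex.coe_smul]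
  have hl : Continuous fun t : ℝ => x + (t : ℂ) • (z - x) := by fun_prop
  have hi : ∀ v : ℂ × ℂ, IntervalIntegrable
      (fun t : ℝ => fderiv ℂ F (x + (t : ℂ) • (z - x)) v) MeasureTheory.volume 0 1 := fun v => by
    refine ContinuousOn.intervalIntegrable ?_
    rw [uIcc_of_le zero_le_one]
    exact ((hd.clm_apply (differentiableOn_const v)).continuousOn).comp hl.continuousOn hm
  have he : ∀ v : ℂ × ℂ, ∫ t in (0 : ℝ)..1,
      fderiv ℂ F (x + ((projIcc (0 : ℝ) 1 zero_le_one t : ℝ) : ℂ) • (z - x)) v =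
      ∫ t in (0 : ℝ)..1, fderiv ℂ F (x + (t : ℂ) • (z - x)) v := fun v => by
    refine intervalIntegral.integral_congr fun t ht => ?_
    rw [uIcc_of_le zero_le_one] at ht
    simp only [projIcc_of_mem zero_le_one ht]
  have hD : ∀ t ∈ uIcc (0 : ℝ) 1, HasDerivAt (fun t : ℝ => F (x + (t : ℂ) • (z - x)))
      (fderiv ℂ F (x + (t : ℂ) • (z - x)) (z - x)) t := fun t ht => by
    rw [uIcc_of_le zero_le_one] at ht
    have h1 : HasDerivAt (fun s : ℂ => x + s • (z - x)) (z - x) (t : ℂ) := by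
      simpa using ((hasDerivAt_id (t : ℂ)).smul_const (z - x)).const_add x
    have h2 := HasFDerivAt.comp_hasDerivAt (f := fun s : ℂ => x + s • (z - x)) (t : ℂ)
      (hF.differentiableAt (hW.mem_nhds (hm t ht))).hasFDerivAt h1
    exact h2.comp_ofReal
  have hI := intervalIntegral.integral_eq_sub_of_hasDerivAt hD (hi (z - x))
  simp only [ofReal_one, ofReal_zero, one_smul, zero_smul, add_zero, add_sub_cancel] at hI
  rw [← hI, he, he, ← intervalIntegral.integral_mul_const, ← intervalIntegral.integral_mul_const,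
    ← intervalIntegral.integral_add ((hi _).mul_const _) ((hi _).mul_const _)]
  refine intervalIntegral.integral_congr fun t _ => ?_
  have e : z - x = (z.1 - x.1) • ((1, 0) : ℂ × ℂ) + (z.2 - x.2) • ((0, 1) : ℂ × ℂ) := by
    ext <;> simp
  generalize fderiv ℂ F (x + (t : ℂ) • (z - x)) = L
  rw [e, map_add, map_smul, map_smul, smul_eq_mul, smul_eq_mul, mul_comm, mul_comm (z.2 - x.2)]

/-- the functions that are holomorphic on `W` -/
def gelH (W : Set (ℂ × ℂ)) : Subalgebra ℂ (ℂ × ℂ → ℂ) where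
  carrier := {f | DifferentiableOn ℂ f W}
  mul_mem' := fun ha hb => DifferentiableOn.mul ha hb
  add_mem' := fun ha hb => DifferentiableOn.add ha hb
  algebraMap_mem' := fun c => differentiableOn_const c

/-- restriction to `K` -/
def gelR (h : K ⊆ W) : gelH W →ₐ[ℂ] C(K, ℂ) where
  toFun f := ⟨fun z => f.1 z, (ContinuousOn.mono (DifferentiableOn.continuousOn f.2) h).domRestrict⟩
  map_one' := rfl
  map_mul' _ _ := rfl
  map_zero' := rfl
  map_add' _ _ := rfl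
  commutes' _ := rfl

theorem gel_char {A : Type} [NormedCommRing A] [NormedAlgebra ℂ A] [CompleteSpace A] {a : A}
    (ha : ¬IsUnit a) : ∃ χ : A →ₐ[ℂ] ℂ, χ a = 0 ∧ ∀ b, ‖χ b‖ ≤ ‖b‖ * ‖(1 : A)‖ := by
  obtain ⟨χ, hχ⟩ := WeakDual.CharacterSpace.exists_apply_eq_zero ha
  exact ⟨WeakDual.CharacterSpace.equivAlgHom χ, hχ,
    fun b => AlgHom.norm_apply_le_self_mul_norm_one χ b⟩

theorem gel_eval (h : K ⊆ W) {ψ : gelH W →ₐ[ℂ] ℂ} (hψ : ∀ f, gelR h f = 0 → ψ f = 0)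
    (f A B p q : gelH W) (c : ℂ)
    (e : ∀ s ∈ W, f.1 s - c = A.1 s * (p.1 s - ψ p) + B.1 s * (q.1 s - ψ q)) : ψ f = c := by
  have h0 := hψ (f - algebraMap ℂ _ c -
      (A * (p - algebraMap ℂ _ (ψ p)) + B * (q - algebraMap ℂ _ (ψ q)))) (by
    ext s
    exact sub_eq_zero.2 (e s (h s.2)))
  simp only [map_sub, map_add, map_mul, AlgHom.commutes, Algebra.algebraMap_self, RingHom.id_apply,
    sub_self, mul_zero, add_zero, sub_zero] at h0
  exact sub_eq_zero.1 h0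

/-- Let `𝒜` be the closure in `C(K, ℂ)` of the subalgebra of restrictions of functions holomorphic
on `W`. If `F` is not a unit of `𝒜`, a character `χ` kills it
(`WeakDual.CharacterSpace.exists_apply_eq_zero`); `x = (χ z₁, χ z₂)` satisfies `χ P = P x` for
polynomials, so `x ∈ PH K` (`AlgHom.norm_apply_le_self`), and `χ F = F x` by `hefer`. So `F` is a
unit; approximate the inverse. The empty `K` is trivial. -/
theorem inv_of_hull (hW : IsOpen W) (hc : Convex ℝ W) (hK : IsCompact K) (hKW : PH K ⊆ W)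
    (hF : DifferentiableOn ℂ F W) (h : ∀ x ∈ PH K, F x ≠ 0) :
    ∃ G : ℂ × ℂ → ℂ, DifferentiableOn ℂ G W ∧ ∀ z ∈ K, ‖1 - F z * G z‖ < 1 := by
  rcases K.eq_empty_or_nonempty with rfl | ⟨z₀, hz₀⟩
  · exact ⟨0, differentiableOn_const 0, fun z hz => hz.elim⟩
  have hK' : K ⊆ W := (subset_PH K).trans hKW
  have : CompactSpace K := isCompact_iff_compactSpace.1 hK
  have : Nonempty K := ⟨⟨z₀, hz₀⟩⟩
  let A : Subalgebra ℂ C(K, ℂ) := (gelR hK').range.topologicalClosure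
  have : CompleteSpace A := (Subalgebra.isClosed_topologicalClosure _).completeSpace_coe
  let ρ : gelH W →ₐ[ℂ] A :=
    (gelR hK').codRestrict A fun f => Subalgebra.le_topologicalClosure _ ⟨f, rfl⟩
  by_cases hu : IsUnit (ρ ⟨F, hF⟩)
  · obtain ⟨u, hu⟩ := hu.exists_right_inv
    have hp : 0 < ‖gelR hK' ⟨F, hF⟩‖ + 1 := by positivity
    obtain ⟨_, ⟨G, rfl⟩, hG⟩ := Metric.mem_closure_iff.1 u.2 _ (inv_pos.2 hp)
    refine ⟨G.1, G.2, fun z hz => ?_⟩
    have h1 : F z * u.1 ⟨z, hz⟩ = 1 := congrArg (fun w : A => w.1 ⟨z, hz⟩) hu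
    have h2 : ‖u.1 ⟨z, hz⟩ - G.1 z‖ < (‖gelR hK' ⟨F, hF⟩‖ + 1)⁻¹ := by
      rw [← dist_eq_norm]
      exact (ContinuousMap.dist_apply_le_dist (f := u.1) (g := gelR hK' G) ⟨z, hz⟩).trans_lt hG
    have h3 : ‖F z‖ ≤ ‖gelR hK' ⟨F, hF⟩‖ := (gelR hK' ⟨F, hF⟩).norm_coe_le_norm ⟨z, hz⟩
    rw [← h1, ← mul_sub, norm_mul]
    calc ‖F z‖ * ‖u.1 ⟨z, hz⟩ - G.1 z‖
        ≤ (‖gelR hK' ⟨F, hF⟩‖ + 1) * ‖u.1 ⟨z, hz⟩ - G.1 z‖ :=
          mul_le_mul_of_nonneg_right (by linarith) (norm_nonneg _)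
      _ < (‖gelR hK' ⟨F, hF⟩‖ + 1) * (‖gelR hK' ⟨F, hF⟩‖ + 1)⁻¹ := mul_lt_mul_of_pos_left h2 hp
      _ = 1 := mul_inv_cancel₀ hp.ne'
  · exfalso
    obtain ⟨χ, hχ, hχ'⟩ := gel_char hu
    let ψ : gelH W →ₐ[ℂ] ℂ := χ.comp ρ
    have hb : ∀ f, ‖ψ f‖ ≤ ‖gelR hK' f‖ := fun f => by
      have h1 : ‖ψ f‖ ≤ ‖gelR hK' f‖ * ‖(1 : C(K, ℂ))‖ := hχ' (ρ f)
      rwa [norm_one, mul_one] at h1
    have hψ : ∀ f, gelR hK' f = 0 → ψ f = 0 := fun f hf => by
      have := hb f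
      rwa [hf, norm_zero, norm_le_zero_iff] at this
    let p : gelH W := ⟨Prod.fst, differentiable_fst.differentiableOn⟩
    let q : gelH W := ⟨Prod.snd, differentiable_snd.differentiableOn⟩
    have hx : (ψ p, ψ q) ∈ PH K := by
      intro P hP M hM
      obtain ⟨a, ha, b, hb', e⟩ := Poly.hefer hP (ψ p, ψ q)
      have h1 := gel_eval hK' hψ ⟨P, (Poly.differentiable hP).differentiableOn⟩
        ⟨a, (Poly.differentiable ha).differentiableOn⟩
        ⟨b, (Poly.differentiable hb').differentiableOn⟩ p q (P (ψ p, ψ q)) fun s _ => by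
          change P s - _ = a s * (s.1 - ψ p) + b s * (s.2 - ψ q)
          linear_combination -(e s)
      rw [← h1]
      refine (hb _).trans ((ContinuousMap.norm_le _ ((norm_nonneg _).trans (hM z₀ hz₀))).2 ?_)
      exact fun s => hM s s.2
    obtain ⟨G₁, G₂, h1, h2, e⟩ := hefer hW hc hF (hKW hx)
    have h3 := gel_eval hK' hψ ⟨F, hF⟩ ⟨G₁, h1⟩ ⟨G₂, h2⟩ p q (F (ψ p, ψ q)) e
    exact h _ hx (h3.symm.trans hχ)

end Pool.Agent.NapKL
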