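import Pool.Agent.Lib.MP_b71113_an.KL.Base

/-! The polynomial hull. -/

namespace Pool.Agent.NapKL

open Set Metric Complex ComplexConjugate

variable {K K' : Set (ℂ × ℂ)} {x : ℂ × ℂ} {P : ℂ × ℂ → ℂ}

theorem fst_mem_Poly : (Prod.fst : ℂ × ℂ → ℂ) ∈ Poly := Algebra.subset_adjoin (by simp)

theorem snd_mem_Poly : (Prod.snd : ℂ × ℂ → ℂ) ∈ Poly := Algebra.subset_adjoin (by simp)

theorem const_mem_Poly (c : ℂ) : (fun _ : ℂ × ℂ => c) ∈ Poly := Poly.algebraMap_mem c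

theorem hull_add {A B : ℂ × ℂ → ℂ} (hA : A ∈ Poly) (hB : B ∈ Poly) :
    (fun z => A z + B z) ∈ Poly := add_mem hA hB

theorem hull_mul {A B : ℂ × ℂ → ℂ} (hA : A ∈ Poly) (hB : B ∈ Poly) :
    (fun z => A z * B z) ∈ Poly := mul_mem hA hB

theorem hull_ind {Q : (ℂ × ℂ → ℂ) → Prop} (h : P ∈ Poly) (h1 : Q fun z => z.1) (h2 : Q fun z => z.2)
    (hc : ∀ c : ℂ, Q fun _ => c)
    (ha : ∀ A B, A ∈ Poly → B ∈ Poly → Q A → Q B → Q fun z => A z + B z)
    (hm : ∀ A B, A ∈ Poly → B ∈ Poly → Q A → Q B → Q fun z => A z * B z) : Q P := by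
  induction h using Algebra.adjoin_induction with
  | mem x hx =>
    rcases hx with rfl | rfl
    exacts [h1, h2]
  | algebraMap c => exact hc c
  | add a b h3 h4 h5 h6 => exact ha a b h3 h4 h5 h6
  | mul a b h3 h4 h5 h6 => exact hm a b h3 h4 h5 h6

/-- `Algebra.adjoin_induction` -/
theorem Poly.differentiable (h : P ∈ Poly) : Differentiable ℂ P := by
  exact hull_ind h differentiable_fst differentiable_snd differentiable_const
    (fun _ _ _ _ => Differentiable.fun_add) fun _ _ _ _ => Differentiable.fun_mul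

theorem Poly.comp (h : P ∈ Poly) {Λ : ℂ × ℂ → ℂ × ℂ} (h1 : (fun z => (Λ z).1) ∈ Poly)
    (h2 : (fun z => (Λ z).2) ∈ Poly) : (fun z => P (Λ z)) ∈ Poly := by
  exact hull_ind (Q := fun P => (fun z => P (Λ z)) ∈ Poly) h h1 h2 const_mem_Poly
    (fun _ _ _ _ => hull_add) fun _ _ _ _ => hull_mul

theorem Poly.sharp (h : P ∈ Poly) : (fun z : ℂ × ℂ => conj (P (conj z.1, conj z.2))) ∈ Poly := by
  refine hull_ind (Q := fun P => (fun z : ℂ × ℂ => conj (P (conj z.1, conj z.2))) ∈ Poly) h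
    ?_ ?_ (fun c => const_mem_Poly _) (fun _ _ _ _ h1 h2 => ?_) fun _ _ _ _ h1 h2 => ?_
  · simp only [conj_conj]
    exact fst_mem_Poly
  · simp only [conj_conj]
    exact snd_mem_Poly
  · simp only [map_add]
    exact hull_add h1 h2
  · simp only [map_mul]
    exact hull_mul h1 h2

/-- Hefer decomposition -/
theorem Poly.hefer (h : P ∈ Poly) (z : ℂ × ℂ) : ∃ A ∈ Poly, ∃ B ∈ Poly,
    ∀ s, P z - P s = A s * (z.1 - s.1) + B s * (z.2 - s.2) := by
  refine hull_ind (Q := fun P => ∃ A ∈ Poly, ∃ B ∈ Poly,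
    ∀ s, P z - P s = A s * (z.1 - s.1) + B s * (z.2 - s.2)) h
    ⟨_, const_mem_Poly 1, _, const_mem_Poly 0, fun s => by ring⟩
    ⟨_, const_mem_Poly 0, _, const_mem_Poly 1, fun s => by ring⟩
    (fun c => ⟨_, const_mem_Poly 0, _, const_mem_Poly 0, fun s => by ring⟩) ?_ ?_
  · rintro F G - - ⟨A, hA, B, hB, h1⟩ ⟨C, hC, D, hD, h2⟩
    exact ⟨_, hull_add hA hC, _, hull_add hB hD, fun s => by linear_combination h1 s + h2 s⟩
  · rintro F G hF - ⟨A, hA, B, hB, h1⟩ ⟨C, hC, D, hD, h2⟩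
    exact ⟨_, hull_add (hull_mul hA (const_mem_Poly (G z))) (hull_mul hF hC), _,
      hull_add (hull_mul hB (const_mem_Poly (G z))) (hull_mul hF hD),
      fun s => by linear_combination G z * h1 s + F s * h2 s⟩

theorem subset_PH (K : Set (ℂ × ℂ)) : K ⊆ PH K := fun s hs _ _ _ h => h s hs

theorem PH_mono (h : K ⊆ K') : PH K ⊆ PH K' :=
  fun _ hx P hP M hM => hx P hP M fun s hs => hM s (h hs)

theorem isClosed_PH (K : Set (ℂ × ℂ)) : IsClosed (PH K) := by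
  simp only [PH, ofPred_forall]
  exact isClosed_iInter fun P => isClosed_iInter fun hP => isClosed_iInter fun M =>
    isClosed_iInter fun _ => isClosed_le (Poly.differentiable hP).continuous.norm continuous_const

theorem isCompact_PH (hK : IsCompact K) : IsCompact (PH K) := by
  obtain ⟨R, hR⟩ := hK.isBounded.exists_norm_le
  refine isCompact_of_isClosed_isBounded (isClosed_PH K) (isBounded_iff_forall_norm_le.2
    ⟨R, fun x hx => ?_⟩)
  exact norm_prod_le_iff.2 ⟨hx _ fst_mem_Poly R fun s hs => (norm_fst_le s).trans (hR s hs),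
    hx _ snd_mem_Poly R fun s hs => (norm_snd_le s).trans (hR s hs)⟩

/-- use `P = 1 + ε (a z₁ + b z₂)` and let `ε` tend to zero -/
theorem re_le_of_PH (hK : IsCompact K) (hx : x ∈ PH K) (a b : ℂ) {m : ℝ}
    (h : ∀ s ∈ K, (a * s.1 + b * s.2).re ≤ m) : (a * x.1 + b * x.2).re ≤ m := by
  have hL : (fun s : ℂ × ℂ => a * s.1 + b * s.2) ∈ Poly :=
    hull_add (hull_mul (const_mem_Poly a) fst_mem_Poly) (hull_mul (const_mem_Poly b) snd_mem_Poly)
  obtain ⟨R, hR⟩ := hK.exists_bound_of_continuousOn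
    (Poly.differentiable hL).continuous.continuousOn
  refine le_of_forall_pos_le_add fun δ hδ => ?_
  obtain ⟨ε, h0, h1⟩ : ∃ ε : ℝ, 0 < ε ∧ ε * R ^ 2 ≤ δ :=
    ⟨δ / (R ^ 2 + 1), by positivity, by
      rw [div_mul_eq_mul_div, div_le_iff₀ (by positivity)]
      nlinarith⟩
  have h2 := hx _ (hull_add (const_mem_Poly 1) (hull_mul (const_mem_Poly ε) hL))
    (1 + ε * (m + δ)) fun s hs => by
      have h3 := h s hs
      have h4 := hR s hs
      generalize a * s.1 + b * s.2 = w at h3 h4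
      have h5 : ‖w‖ ^ 2 ≤ R ^ 2 := pow_le_pow_left₀ (norm_nonneg _) h4 2
      have h6 : ‖1 + ε * w‖ ^ 2 = 1 + 2 * ε * w.re + ε ^ 2 * ‖w‖ ^ 2 := by
        rw [Complex.sq_norm, Complex.sq_norm, normSq_apply, normSq_apply]
        simp only [add_re, one_re, add_im, one_im, re_ofReal_mul, im_ofReal_mul]
        ring
      nlinarith [sq_nonneg (‖1 + ε * w‖ - 1), mul_le_mul_of_nonneg_left h5 (sq_nonneg ε),
        mul_le_mul_of_nonneg_left h1 h0.le, mul_le_mul_of_nonneg_left h3 h0.le, mul_pos h0 hδ]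
  have h3 := (re_le_norm _).trans h2
  simp only [add_re _ (_ * _), one_re, re_ofReal_mul] at h3
  exact le_of_mul_le_mul_left (by simpa using h3) h0

theorem PH_subset_strip (hK : IsCompact K) {r₁ r₂ : ℝ} (h : K ⊆ strip r₁ r₂) :
    PH K ⊆ strip r₁ r₂ := by
  intro x hx
  have h1 := re_le_of_PH hK hx (-I) 0 (m := r₁) fun s hs => by simpa using (abs_le.1 (h hs).1).2
  have h2 := re_le_of_PH hK hx I 0 (m := r₁) fun s hs => by
    simpa using neg_le.1 (abs_le.1 (h hs).1).1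
  have h3 := re_le_of_PH hK hx 0 (-I) (m := r₂) fun s hs => by simpa using (abs_le.1 (h hs).2).2
  have h4 := re_le_of_PH hK hx 0 I (m := r₂) fun s hs => by
    simpa using neg_le.1 (abs_le.1 (h hs).2).1
  exact ⟨abs_le.2 ⟨neg_le.1 (by simpa using h2), by simpa using h1⟩,
    abs_le.2 ⟨neg_le.1 (by simpa using h4), by simpa using h3⟩⟩

theorem PH_map (hx : x ∈ PH K) {Λ : ℂ × ℂ → ℂ × ℂ} (h1 : (fun z => (Λ z).1) ∈ Poly)
    (h2 : (fun z => (Λ z).2) ∈ Poly) : Λ x ∈ PH (Λ '' K) := by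
  exact fun P hP M hM => hx _ (Poly.comp hP h1 h2) M fun s hs => hM _ ⟨s, hs, rfl⟩

theorem PH_conj (hx : x ∈ PH K) :
    (conj x.1, conj x.2) ∈ PH ((fun z : ℂ × ℂ => (conj z.1, conj z.2)) '' K) := by
  intro P hP M hM
  have h1 := hx _ (Poly.sharp hP) M fun s hs => by
    rw [norm_conj]
    exact hM _ ⟨s, hs, rfl⟩
  rwa [norm_conj] at h1

theorem PH_thick (hx : x ∈ PH K) {ε : ℝ} {y : ℂ × ℂ} (hy : ‖y - x‖ ≤ ε) :
    y ∈ PH (cthickening ε K) := by
  have h1 := PH_map hx (Λ := fun z => z + (y - x))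
    (hull_add fst_mem_Poly (const_mem_Poly _)) (hull_add snd_mem_Poly (const_mem_Poly _))
  rw [add_sub_cancel] at h1
  refine PH_mono ?_ h1
  rintro _ ⟨s, hs, rfl⟩
  exact mem_cthickening_of_dist_le _ s _ _ hs (by simpa [dist_eq_norm] using hy)

/-- a peak polynomial (normalise, take a power; if the bound `M` is negative then `PH K` is
empty) -/
theorem exists_peak {z : ℂ × ℂ} (hz : z ∉ PH K) :
    ∃ P ∈ Poly, P z = 1 ∧ ∀ s ∈ PH K, ‖P s‖ ≤ 1 / 2 := by
  rcases (PH K).eq_empty_or_nonempty with h0 | ⟨s₀, h0⟩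
  · exact ⟨_, const_mem_Poly 1, rfl, by simp [h0]⟩
  obtain ⟨P, hP, M, hM, h1⟩ : ∃ P ∈ Poly, ∃ M : ℝ, (∀ s ∈ K, ‖P s‖ ≤ M) ∧ M < ‖P z‖ := by
    simpa [PH] using hz
  have h2 : 0 ≤ M := (norm_nonneg _).trans (h0 P hP M hM)
  have h3 : 0 < ‖P z‖ := h2.trans_lt h1
  obtain ⟨n, hn⟩ := exists_pow_lt_of_lt_one one_half_pos ((div_lt_one h3).2 h1)
  refine ⟨(fun s => P s * (P z)⁻¹) ^ n, pow_mem (hull_mul hP (const_mem_Poly _)) n, ?_,
    fun s hs => ?_⟩
  · rw [Pi.pow_apply, mul_inv_cancel₀ (norm_pos_iff.1 h3), one_pow]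
  · rw [Pi.pow_apply, norm_pow, norm_mul, norm_inv, ← div_eq_mul_inv]
    exact (pow_le_pow_left₀ (by positivity) (div_le_div_of_nonneg_right (hs P hP M hM) h3.le)
      n).trans hn.le

end Pool.Agent.NapKL
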