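import Pool.Agent.Lib.MP_b71113_an.KL.Ser1

/-! Maximum principles for the series of images. -/

namespace Pool.Agent.NapKL

open Set Metric Complex ComplexConjugate

variable {φ φ₁ φ₂ : ℂ → ℂ} {q m k : ℝ} {w : ℂ}

theorem max_re {f : ℂ → ℂ} {U : Set ℂ} (hU : Bornology.IsBounded U) (hd : DiffContOnCl ℂ f U)
    (h : ∀ z ∈ frontier U, (f z).re ≤ m) (hw : w ∈ closure U) : (f w).re ≤ m := by
  have h1 := Complex.norm_le_of_forall_mem_frontier_norm_le hU
    (differentiable_exp.comp_diffContOnCl hd) (C := Real.exp m) (fun z hz => by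
      rw [Function.comp_apply, norm_exp]
      exact Real.exp_le_exp.2 (h z hz)) hw
  rwa [Function.comp_apply, norm_exp, Real.exp_le_exp] at h1

theorem max_one_lt (hq : q ∈ Ioo (0 : ℝ) 1) : 1 < q⁻¹ := (one_lt_inv₀ hq.1).2 hq.2

theorem max_ring (hq : q ∈ Ioo (0 : ℝ) 1) (hw : w ∈ ring q 1) : w ∈ ring q q⁻¹ :=
  ⟨hw.1, hw.2.trans (max_one_lt hq).le⟩

/-- `Complex.norm_le_of_forall_mem_frontier_norm_le` for `exp ∘ f` -/
theorem re_le_of_ring {f : ℂ → ℂ} {a b : ℝ} (hd : DifferentiableOn ℂ f (oring a b))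
    (hc : ContinuousOn f (ring a b)) (h : ∀ w ∈ ring a b, ‖w‖ = a ∨ ‖w‖ = b → (f w).re ≤ m)
    (hw : w ∈ ring a b) : (f w).re ≤ m := by
  have ho : IsOpen (oring a b) :=
    (isOpen_lt continuous_const continuous_norm).inter (isOpen_lt continuous_norm continuous_const)
  have hcl : closure (oring a b) ⊆ ring a b :=
    closure_minimal (fun z hz => ⟨hz.1.le, hz.2.le⟩)
      ((isClosed_le continuous_const continuous_norm).inter
        (isClosed_le continuous_norm continuous_const))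
  have key : ∀ z ∈ ring a b, z ∉ oring a b → (f z).re ≤ m := fun z hz hn => by
    refine h z hz ?_
    by_contra h1
    rw [not_or] at h1
    exact hn ⟨lt_of_le_of_ne hz.1 (Ne.symm h1.1), lt_of_le_of_ne hz.2 h1.2⟩
  by_cases h1 : w ∈ oring a b
  · refine max_re ((isBounded_ball (x := 0) (r := b)).subset fun z hz => mem_ball_zero_iff.2 hz.2)
      ⟨hd, hc.mono hcl⟩ (fun z hz => ?_) (subset_closure h1)
    rw [ho.frontier_eq] at hz
    exact key z (hcl hz.1) hz.2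
  · exact key w hw h1

theorem HC.re_le (h : HC φ) (hm : ∀ u, ‖u‖ = 1 → (φ u).re ≤ m) (hw : ‖w‖ ≤ 1) :
    (φ w).re ≤ m := by
  refine max_re isBounded_ball h (fun z hz => hm z ?_) ?_
  · rwa [frontier_ball _ one_ne_zero, mem_sphere_zero_iff_norm] at hz
  · rwa [closure_ball _ one_ne_zero, mem_closedBall_zero_iff]

theorem HC.im_le (h : HC φ) (hm : ∀ u, ‖u‖ = 1 → (φ u).im ≤ m) (hw : ‖w‖ ≤ 1) :
    (φ w).im ≤ m := by
  have h1 := (h.cmul (-I)).re_le (m := m) (fun u hu => by simpa using hm u hu) hw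
  simpa using h1

theorem HC.le_im (h : HC φ) (hm : ∀ u, ‖u‖ = 1 → m ≤ (φ u).im) (hw : ‖w‖ ≤ 1) :
    m ≤ (φ w).im := by
  have h1 := (h.cmul I).re_le (m := -m) (fun u hu => by simpa using hm u hu) hw
  simpa using h1

theorem ann_diff (h : HC φ) (hq : q ∈ Ioo (0 : ℝ) 1) :
    DifferentiableOn ℂ (ann q φ) (oring q 1) :=
  (h.differentiableOn.mono fun _ hz => mem_ball_zero_iff.2 hz.2).add
    ((GG_diff h hq).mono fun _ hz => ⟨hz.1, hz.2.trans (max_one_lt hq)⟩)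

theorem ann_cont (h : HC φ) (hq : q ∈ Ioo (0 : ℝ) 1) : ContinuousOn (ann q φ) (ring q 1) :=
  (h.cont.mono fun _ hz => mem_closedBall_zero_iff.2 hz.2).add
    ((GG_cont h hq).mono fun _ hz => max_ring hq hz)

/-- `re_GG_circle` on the outer circle, `ann_sym` on the inner circle -/
theorem re_ann_le (h : HC φ) (hq : q ∈ Ioo (0 : ℝ) 1) (hm : ∀ u, ‖u‖ = 1 → (φ u).re ≤ m)
    (hw : w ∈ ring q 1) : (ann q φ w).re ≤ m := by
  have outer : ∀ u, ‖u‖ = 1 → (ann q φ u).re ≤ m := fun u hu => by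
    rw [ann, add_re, re_GG_circle q φ hu, add_zero]
    exact hm u hu
  refine re_le_of_ring (ann_diff h hq) (ann_cont h hq) (fun z hz h1 => ?_) hw
  rcases h1 with h1 | h1
  · have h2 := outer (-(q : ℂ) / conj z) (by
      rw [norm_div, norm_neg, norm_conj, h1, norm_real, Real.norm_of_nonneg hq.1.le,
        div_self hq.1.ne'])
    rwa [ann_sym h hq hz, conj_re] at h2
  · exact outer z h1

/-- `re_ann_le` for `φ` and `-φ` if `‖w‖ ≤ 1`, `GG_inv` otherwise -/
theorem abs_re_GG_le (h : HC φ) (hq : q ∈ Ioo (0 : ℝ) 1) (hm : ∀ u, ‖u‖ ≤ 1 → |(φ u).re| ≤ m)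
    (hw : w ∈ ring q q⁻¹) : |(GG q φ w).re| ≤ 2 * m := by
  have inner : ∀ z ∈ ring q 1, |(GG q φ z).re| ≤ 2 * m := fun z hz => by
    have h1 := re_ann_le h hq (fun u hu => (abs_le.1 (hm u hu.le)).2) hz
    have h2 := re_ann_le (φ := fun u => -φ u) (m := m) h.neg hq (fun u hu => by
      have h3 := (abs_le.1 (hm u hu.le)).1
      rw [neg_re]
      linarith) hz
    have h3 := abs_le.1 (hm z hz.2)
    rw [ann, add_re] at h1
    rw [ann, GG_neg, add_re, neg_re, neg_re] at h2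
    exact abs_le.2 ⟨by linarith [h3.2], by linarith [h3.1]⟩
  rcases le_total ‖w‖ 1 with h1 | h1
  · exact inner w ⟨hw.1, h1⟩
  · have h2 := inner (conj w)⁻¹ ⟨by
      rw [norm_inv, norm_conj]
      exact (le_inv_comm₀ hq.1 (one_pos.trans_le h1)).2 hw.2, by
      rw [norm_inv, norm_conj]
      exact inv_le_one_of_one_le₀ h1⟩
    rwa [GG_inv, neg_re, conj_re, abs_neg] at h2

/-- separate by a real linear form `a x + b y` and apply `re_ann_le` to `a φ₁ + b φ₂` -/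
theorem ann_mem {E : Set ℂ} (hE : IsClosed E) (hE' : Convex ℝ E) (h1 : HC φ₁) (h2 : HC φ₂)
    (hq : q ∈ Ioo (0 : ℝ) 1) (hm : ∀ u, ‖u‖ = 1 → (⟨(φ₁ u).re, (φ₂ u).re⟩ : ℂ) ∈ E)
    (hw : w ∈ ring q 1) : (⟨(ann q φ₁ w).re, (ann q φ₂ w).re⟩ : ℂ) ∈ E := by
  by_contra hn
  obtain ⟨f, c, hf, hc⟩ := geometric_hahn_banach_closed_point hE' hE hn
  have hl : ∀ x y : ℝ, f ⟨x, y⟩ = f 1 * x + f I * y := fun x y => by
    have e : (⟨x, y⟩ : ℂ) = x • (1 : ℂ) + y • I := by
      apply Complex.ext <;> simp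
    rw [e, map_add, map_smul, map_smul, smul_eq_mul, smul_eq_mul, mul_comm x, mul_comm y]
  have h3 := re_ann_le (φ := fun u => (f 1 : ℂ) * φ₁ u + (f I : ℂ) * φ₂ u) (m := c)
    ((h1.cmul _).add (h2.cmul _)) hq (fun u hu => by
      have h4 := hf _ (hm u hu)
      rw [hl] at h4
      rw [add_re, re_ofReal_mul, re_ofReal_mul]
      exact h4.le) hw
  rw [ann, GG_add (h1.cmul _) (h2.cmul _) hq (max_ring hq hw), GG_smul, GG_smul] at h3
  rw [hl, ann, ann] at hc
  simp only [add_re, re_ofReal_mul] at h3 hc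
  linarith

end Pool.Agent.NapKL
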