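import Pool.Agent.Lib.MP_b71113_an.KL.Oka1
import Pool.Agent.Lib.MP_b71113_an.KL.Hull

/-! The functional is a limit of polynomials in the parameter. -/

namespace Pool.Agent.NapKL

open Set Metric Complex MeasureTheory Pool.Agent.NapOT

/-- on the collar the curve is outside the strip, in the way prescribed by `θ` -/
def Col (r₁ r₂ : ℝ) (ρ θ : ℂ → ℂ) (γ : ℂ → ℂ × ℂ) : Prop :=
  ∀ w ∈ tsupport (db ρ), (w ∈ tsupport θ → r₂ < |(γ w).2.im|) ∧
    (w ∈ tsupport (fun u => 1 - θ u) → r₁ < |(γ w).1.im|)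

/-- the standard solution on the collar, first component -/
noncomputable def a0 (θ : ℂ → ℂ) (γ : ℂ → ℂ × ℂ) (s : ℂ × ℂ) (w : ℂ) : ℂ :=
  (1 - θ w) / ((γ w).1 - s.1)

/-- the standard solution on the collar, second component -/
noncomputable def b0 (θ : ℂ → ℂ) (γ : ℂ → ℂ × ℂ) (s : ℂ × ℂ) (w : ℂ) : ℂ :=
  θ w / ((γ w).2 - s.2)

/-- uniform limits of polynomials on `X` -/
def Ap (X : Set (ℂ × ℂ)) (F : ℂ × ℂ → ℂ) : Prop :=
  ∀ ε > 0, ∃ P ∈ Poly, ∀ s ∈ X, ‖F s - P s‖ ≤ ε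

variable {U : Set ℂ} {K X : Set (ℂ × ℂ)} {ρ θ : ℂ → ℂ} {γ : ℂ → ℂ × ℂ} {r₁ r₂ : ℝ}
  {F G : ℂ × ℂ → ℂ}

theorem Ap.of_poly (h : F ∈ Poly) (X : Set (ℂ × ℂ)) : Ap X F := by
  exact fun ε hε => ⟨F, h, fun s _ => by simpa using hε.le⟩

theorem Ap.congr (h : Ap X F) (he : ∀ s ∈ X, G s = F s) : Ap X G := by
  intro ε hε
  obtain ⟨P, hP, h1⟩ := h ε hε
  exact ⟨P, hP, fun s hs => by rw [he s hs]; exact h1 s hs⟩

theorem Ap.add (h : Ap X F) (h' : Ap X G) : Ap X fun s => F s + G s := by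
  intro ε hε
  obtain ⟨P, hP, h1⟩ := h (ε / 2) (half_pos hε)
  obtain ⟨Q, hQ, h2⟩ := h' (ε / 2) (half_pos hε)
  refine ⟨P + Q, add_mem hP hQ, fun s hs => ?_⟩
  rw [Pi.add_apply, add_sub_add_comm]
  exact (norm_add_le _ _).trans ((add_le_add (h1 s hs) (h2 s hs)).trans_eq (add_halves ε))

theorem oka2_bdd (hX : IsCompact X) (h : Ap X F) : ∃ A, 0 ≤ A ∧ ∀ s ∈ X, ‖F s‖ ≤ A := by
  obtain ⟨P, hP, h1⟩ := h 1 one_pos
  obtain ⟨M, h2⟩ := hX.exists_bound_of_continuousOn (Poly.differentiable hP).continuous.continuousOn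
  refine ⟨max (M + 1) 0, le_max_right _ _, fun s hs => le_trans ?_ (le_max_left _ _)⟩
  linarith [norm_sub_norm_le (F s) (P s), h1 s hs, h2 s hs]

theorem Ap.mul (hX : IsCompact X) (h : Ap X F) (h' : Ap X G) : Ap X fun s => F s * G s := by
  intro ε hε
  obtain ⟨A, hA, h1⟩ := oka2_bdd hX h
  obtain ⟨B, hB, h2⟩ := oka2_bdd hX h'
  have hd : 0 < A + (B + 1) := by positivity
  obtain ⟨δ, d0, d1, d2⟩ : ∃ δ : ℝ, 0 < δ ∧ δ ≤ 1 ∧ δ * (A + (B + 1)) ≤ ε :=
    ⟨min 1 (ε / (A + (B + 1))), lt_min one_pos (div_pos hε hd), min_le_left _ _,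
      (le_div_iff₀ hd).1 (min_le_right _ _)⟩
  obtain ⟨P, hP, h3⟩ := h δ d0
  obtain ⟨Q, hQ, h4⟩ := h' δ d0
  refine ⟨P * Q, mul_mem hP hQ, fun s hs => ?_⟩
  have e : F s * G s - (P * Q) s = F s * (G s - Q s) + (F s - P s) * Q s := by
    rw [Pi.mul_apply]
    ring
  have h5 : ‖Q s‖ ≤ B + 1 := by
    have := norm_sub_norm_le (Q s) (G s)
    rw [norm_sub_rev] at this
    linarith [h2 s hs, h4 s hs]
  have h6 := mul_le_mul (h1 s hs) (h4 s hs) (norm_nonneg _) hA
  have h7 := mul_le_mul (h3 s hs) h5 (norm_nonneg _) d0.le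
  rw [e]
  refine (norm_add_le _ _).trans ?_
  rw [norm_mul, norm_mul]
  linarith

theorem Ap.sum {ι : Type} (t : Finset ι) {F : ι → ℂ × ℂ → ℂ} (h : ∀ i ∈ t, Ap X (F i)) :
    Ap X fun s => ∑ i ∈ t, F i s := by
  classical
  induction t using Finset.induction_on with
  | empty => exact (Ap.of_poly (const_mem_Poly 0) X).congr fun s _ => by simp
  | insert i t hi ih =>
    exact ((h i (Finset.mem_insert_self i t)).add
      (ih fun j hj => h j (Finset.mem_insert_of_mem hj))).congr fun s _ => Finset.sum_insert hi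

/-- geometric series -/
theorem Ap.inv (h : F ∈ Poly) {l : ℂ} {t : ℝ} (ht : t < 1) (hF : ∀ s ∈ X, ‖1 - l * F s‖ ≤ t) :
    Ap X fun s => (F s)⁻¹ := by
  intro ε hε
  have h1 : max t 0 < 1 := max_lt ht one_pos
  have h2 : 0 < 1 - max t 0 := sub_pos.2 h1
  have h3 : 0 < ‖l‖ + 1 := by positivity
  obtain ⟨n, hn⟩ := exists_pow_lt_of_lt_one (div_pos (mul_pos hε h2) h3) h1
  refine ⟨(fun _ => l) * ∑ k ∈ Finset.range n, (1 - (fun _ => l) * F) ^ k,
    mul_mem (const_mem_Poly l) (sum_mem fun k _ =>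
      pow_mem (sub_mem (one_mem _) (mul_mem (const_mem_Poly l) h)) k), fun s hs => ?_⟩
  have h4 : ‖1 - l * F s‖ ≤ max t 0 := (hF s hs).trans (le_max_left _ _)
  have h5 : 1 - max t 0 ≤ ‖l * F s‖ := by
    have := norm_sub_norm_le (1 : ℂ) (l * F s)
    rw [norm_one] at this
    linarith
  have h6 : l * F s ≠ 0 := norm_pos_iff.1 (h2.trans_le h5)
  have h7 : F s ≠ 0 := right_ne_zero_of_mul h6
  have h8 : l ≠ 0 := left_ne_zero_of_mul h6
  have e := mul_neg_geom_sum (1 - l * F s) n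
  rw [sub_sub_cancel] at e
  have e' : (F s)⁻¹ - l * ∑ k ∈ Finset.range n, (1 - l * F s) ^ k =
      l * (1 - l * F s) ^ n / (l * F s) := by
    rw [eq_div_iff h6]
    have : (F s)⁻¹ * F s = 1 := inv_mul_cancel₀ h7
    linear_combination l * this - l * e
  simp only [Pi.mul_apply, Finset.sum_apply, Pi.pow_apply, Pi.sub_apply, Pi.one_apply]
  rw [e', norm_div, div_le_iff₀ (h2.trans_le h5), norm_mul, norm_pow]
  have h9 := pow_le_pow_left₀ (norm_nonneg _) h4 n
  rw [lt_div_iff₀ h3] at hn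
  have := mul_le_mul (le_add_of_nonneg_right zero_le_one : ‖l‖ ≤ ‖l‖ + 1) h9 (by positivity) h3.le
  have := mul_le_mul_of_nonneg_left h5 hε.le
  linarith

/-- values in a compact subset of an open half plane `0 < (e * ·).re` -/
theorem Ap.inv_half (hX : IsCompact X) (h : F ∈ Poly) {e : ℂ} (hF : ∀ s ∈ X, 0 < (e * F s).re) :
    Ap X fun s => (F s)⁻¹ := by
  have hc : Continuous fun s => e * F s := continuous_const.mul (Poly.differentiable h).continuous
  obtain ⟨c, c0, h1⟩ := hX.exists_forall_le' (continuous_re.comp hc).continuousOn hF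
  obtain ⟨M, h2⟩ := hX.exists_bound_of_continuousOn hc.continuousOn
  have hM : 0 < M ^ 2 + 1 := by positivity
  obtain ⟨δ, d0, d1⟩ : ∃ δ : ℝ, 0 < δ ∧ δ * (M ^ 2 + 1) = c :=
    ⟨c / (M ^ 2 + 1), div_pos c0 hM, div_mul_cancel₀ _ hM.ne'⟩
  obtain ⟨a, a0, h3⟩ := hX.exists_forall_le' (f := fun s => 1 - ‖1 - δ * (e * F s)‖) (a := 0)
    (continuous_const.sub (continuous_const.sub (continuous_const.mul hc)).norm).continuousOn
    fun s hs => by
      have h4 : c ≤ (e * F s).re := h1 s hs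
      have h5 := pow_le_pow_left₀ (norm_nonneg _) (h2 s hs) 2
      generalize e * F s = z at h4 h5
      rw [Complex.sq_norm, normSq_apply] at h5
      rw [sub_pos, ← sq_lt_one_iff₀ (norm_nonneg _), Complex.sq_norm, normSq_apply]
      simp only [sub_re, one_re, re_ofReal_mul, sub_im, one_im, im_ofReal_mul]
      have h6 : δ * (z.re * z.re + z.im * z.im) < 2 * z.re := by nlinarith
      nlinarith
  exact Ap.inv h (l := δ * e) (t := 1 - a) (by linarith) fun s hs => by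
    have := h3 s hs
    rw [mul_assoc]
    linarith

/-- Integrals over a compact set: the map `w ↦ Φ w` into `C(X, ℂ)` is continuous on `T` with values
in the closed subspace of limits of polynomials; Bochner integral (or Riemann sums). -/
theorem Ap.integral (hX : IsCompact X) {T : Set ℂ} (hT : IsCompact T) {Φ : ℂ → ℂ × ℂ → ℂ}
    (hc : ContinuousOn (fun p : ℂ × (ℂ × ℂ) => Φ p.1 p.2) (T ×ˢ X))
    (h : ∀ w ∈ T, Ap X (Φ w)) : Ap X fun s => ∫ w in T, Φ w s := by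
  classical
  have : CompactSpace X := isCompact_iff_compactSpace.1 hX
  by_cases h0 : volume T = 0
  · exact (Ap.of_poly (const_mem_Poly 0) X).congr fun s _ => setIntegral_measure_zero _ h0
  have c1 : ∀ w ∈ T, ContinuousOn (Φ w) X := fun w hw =>
    hc.comp (Continuous.prodMk_right w).continuousOn fun _ hz => ⟨hw, hz⟩
  have c2 := ContinuousMap.continuousOn_mkD_restrict_of_uncurry Φ (0 : C(X, ℂ)) hc
  have c3 := c2.integrableOn_compact (μ := volume) hT
  have cv : Convex ℝ {g : C(X, ℂ) | ∃ P ∈ Poly, ∀ s : X, g s = P s} := by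
    rintro f ⟨P, hP, e1⟩ g ⟨Q, hQ, e2⟩ a b - - -
    exact ⟨(a : ℂ) • P + (b : ℂ) • Q, add_mem (Poly.smul_mem hP _) (Poly.smul_mem hQ _),
      fun s => by simp [e1, e2]⟩
  have m := cv.closure.set_average_mem isClosed_closure h0 hT.measure_lt_top.ne
    ((ae_restrict_mem hT.measurableSet).mono fun w hw => Metric.mem_closure_iff.2 fun ε hε => by
      obtain ⟨P, hP, h1⟩ := h w hw (ε / 2) (half_pos hε)
      refine ⟨⟨fun s => P s, (Poly.differentiable hP).continuous.comp continuous_subtype_val⟩,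
        ⟨P, hP, fun _ => rfl⟩, lt_of_le_of_lt ((ContinuousMap.dist_le (half_pos hε).le).2
          fun s => ?_) (half_lt_self hε)⟩
      rw [ContinuousMap.mkD_apply_of_continuousOn (c1 w hw), dist_eq_norm]
      exact h1 s s.2) c3
  have e := measure_smul_setAverage (μ := volume)
    (fun w => ContinuousMap.mkD (X.domRestrict (Φ w)) (0 : C(X, ℂ))) hT.measure_lt_top.ne
  generalize (⨍ w in T, ContinuousMap.mkD (X.domRestrict (Φ w)) (0 : C(X, ℂ))) = g at m e
  have a1 : Ap X fun s => if hs : s ∈ X then g ⟨s, hs⟩ else 0 := fun ε hε => by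
    obtain ⟨f, ⟨P, hP, h1⟩, h2⟩ := Metric.mem_closure_iff.1 m ε hε
    refine ⟨P, hP, fun s hs => ?_⟩
    beta_reduce
    rw [dif_pos hs, ← h1 ⟨s, hs⟩, ← dist_eq_norm]
    exact (ContinuousMap.dist_apply_le_dist _).trans h2.le
  refine ((Ap.of_poly (const_mem_Poly (volume.real T : ℝ)) X).mul hX a1).congr fun s hs => ?_
  have e1 := (ContinuousMap.evalCLM ℝ (⟨s, hs⟩ : X)).integral_comp_comm c3
  rw [← e] at e1
  rw [dif_pos hs]
  refine Eq.trans (setIntegral_congr_fun hT.measurableSet fun w hw => ?_) e1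
  exact (ContinuousMap.mkD_apply_of_continuousOn (x := ⟨s, hs⟩) (c1 w hw)).symm

theorem Ap.le {x : ℂ × ℂ} (h : Ap (PH K) F) (hx : x ∈ PH K) {M : ℝ} (hM : ∀ s ∈ K, ‖F s‖ ≤ M) :
    ‖F x‖ ≤ M := by
  refine le_of_forall_pos_le_add fun ε hε => ?_
  obtain ⟨P, hP, h1⟩ := h (ε / 2) (half_pos hε)
  have h2 := hx P hP (M + ε / 2) fun s hs => by
    have := norm_sub_norm_le (P s) (F s)
    rw [norm_sub_rev] at this
    linarith [h1 s (subset_PH K hs), hM s hs]
  linarith [norm_sub_norm_le (F x) (P x), h1 x hx]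

theorem oka2_div {T : Set ℂ} {φ d : ℂ → ℂ} (hφ : Continuous φ) (hd : ContinuousOn d T)
    (h : ∀ w ∈ T, w ∈ tsupport φ → d w ≠ 0) :
    ContinuousOn (fun w => φ w / d w) T ∧ ∀ w ∈ T, φ w / d w * d w = φ w := by
  refine ⟨fun w hw => ?_, fun w hw => ?_⟩
  · by_cases h1 : w ∈ tsupport φ
    · exact hφ.continuousWithinAt.div (hd w hw) (h w hw h1)
    · refine ContinuousAt.continuousWithinAt (continuousAt_const (y := (0 : ℂ)).congr ?_)
      filter_upwards [notMem_tsupport_iff_eventuallyEq.1 h1] with u hu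
      rw [hu, Pi.zero_apply, zero_div]
  · by_cases h1 : φ w = 0
    · rw [h1, zero_div, zero_mul]
    · exact div_mul_cancel₀ _ (h w hw (subset_tsupport φ h1))

theorem Col.p0 (h : Col r₁ r₂ ρ θ γ) (hθ : Continuous θ) (hγ : ContinuousOn γ (tsupport ρ))
    {s : ℂ × ℂ} (hs : s ∈ strip r₁ r₂) :
    P0 ρ (fun w => (γ w).1 - s.1) (fun w => (γ w).2 - s.2) (a0 θ γ s) (b0 θ γ s) := by
  have hg := hγ.mono (tsupport_db_subset ρ)
  have h1 := oka2_div (φ := fun u => 1 - θ u) (d := fun w => (γ w).1 - s.1) (by fun_prop)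
    (hg.fst.sub continuousOn_const) fun w hw hw' e => by
      have := (h w hw).2 hw'
      rw [sub_eq_zero.1 e] at this
      exact this.not_ge hs.1
  have h2 := oka2_div (d := fun w => (γ w).2 - s.2) hθ
    (hg.snd.sub continuousOn_const) fun w hw hw' e => by
      have := (h w hw).1 hw'
      rw [sub_eq_zero.1 e] at this
      exact this.not_ge hs.2
  refine ⟨h1.1, h2.1, fun w hw => ?_⟩
  rw [a0, b0, h1.2 w hw, h2.2 w hw, sub_add_cancel]

end Pool.Agent.NapKL
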