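import Pool.Agent.Lib.MP_b71113_an.KL.Oka2

/-! Solutions that depend on the parameter as limits of polynomials. -/

namespace Pool.Agent.NapKL

open Set Metric Complex MeasureTheory Pool.Agent.NapOT

variable {U : Set ℂ} {K : Set (ℂ × ℂ)} {ρ θ : ℂ → ℂ} {γ : ℂ → ℂ × ℂ} {r₁ r₂ : ℝ}

/-- near a point of the curve outside the hull: `exists_peak`, `Poly.hefer`, compactness of
`PH K` -/
theorem oka3_loc (hK : IsCompact K) {w₀ : ℂ} (hγ : ContinuousAt γ w₀) (h : γ w₀ ∉ PH K) :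
    ∃ A ∈ Poly, ∃ B ∈ Poly, ∀ᶠ w in nhds w₀, ∀ s ∈ PH K,
      ‖1 - (A s * ((γ w).1 - s.1) + B s * ((γ w).2 - s.2))‖ ≤ 3 / 4 := by
  obtain ⟨P, hP, hP1, hP2⟩ := exists_peak h
  obtain ⟨A, hA, B, hB, hAB⟩ := Poly.hefer hP (γ w₀)
  obtain ⟨M₁, hM₁⟩ := (isCompact_PH hK).exists_bound_of_continuousOn
    (Poly.differentiable hA).continuous.continuousOn
  obtain ⟨M₂, hM₂⟩ := (isCompact_PH hK).exists_bound_of_continuousOn
    (Poly.differentiable hB).continuous.continuousOn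
  set M : ℝ := |M₁| + |M₂| + 1 with hM
  have hM0 : 0 < M := by positivity
  refine ⟨A, hA, B, hB, ?_⟩
  have hev : ∀ᶠ w in nhds w₀, dist (γ w) (γ w₀) < 1 / (8 * M) :=
    Metric.tendsto_nhds.1 hγ _ (by positivity)
  filter_upwards [hev] with w hw s hs
  rw [dist_eq_norm] at hw
  have e1 : ‖(γ w).1 - (γ w₀).1‖ ≤ 1 / (8 * M) := (norm_fst_le (γ w - γ w₀)).trans hw.le
  have e2 : ‖(γ w).2 - (γ w₀).2‖ ≤ 1 / (8 * M) := (norm_snd_le (γ w - γ w₀)).trans hw.le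
  have a1 : ‖A s‖ ≤ M := by
    have := hM₁ s hs
    have := le_abs_self M₁
    have := abs_nonneg M₂
    linarith
  have a2 : ‖B s‖ ≤ M := by
    have := hM₂ s hs
    have := le_abs_self M₂
    have := abs_nonneg M₁
    linarith
  have hm : M * (1 / (8 * M)) = 1 / 8 := by field_simp
  have b1 : ‖A s * ((γ w).1 - (γ w₀).1)‖ ≤ 1 / 8 := by
    rw [norm_mul, ← hm]
    exact mul_le_mul a1 e1 (norm_nonneg _) hM0.le
  have b2 : ‖B s * ((γ w).2 - (γ w₀).2)‖ ≤ 1 / 8 := by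
    rw [norm_mul, ← hm]
    exact mul_le_mul a2 e2 (norm_nonneg _) hM0.le
  have e : 1 - (A s * ((γ w).1 - s.1) + B s * ((γ w).2 - s.2)) =
      P s - A s * ((γ w).1 - (γ w₀).1) - B s * ((γ w).2 - (γ w₀).2) := by
    have := hAB s
    rw [hP1] at this
    linear_combination this
  rw [e]
  have := norm_sub_le (P s - A s * ((γ w).1 - (γ w₀).1)) (B s * ((γ w).2 - (γ w₀).2))
  have := norm_sub_le (P s) (A s * ((γ w).1 - (γ w₀).1))
  have := hP2 s hs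
  linarith

theorem oka3_sub {X : Set (ℂ × ℂ)} (hX : IsCompact X) {F G : ℂ × ℂ → ℂ} (h : Ap X F)
    (h' : Ap X G) : Ap X fun s => F s - G s :=
  (h.add ((Ap.of_poly (const_mem_Poly (-1)) X).mul hX h')).congr fun s _ => by ring

theorem oka3_db_cont {φ : ℂ → ℂ} (hφ : ContDiff ℝ 1 φ) : Continuous (db φ) := by
  have h1 : Continuous (fderiv ℝ φ) := hφ.continuous_fderiv one_ne_zero
  have h2 : Continuous fun w => fderiv ℝ φ w 1 := h1.clm_apply continuous_const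
  have h3 : Continuous fun w => fderiv ℝ φ w I := h1.clm_apply continuous_const
  unfold db
  fun_prop

theorem oka3_db_sum {ι : Type} [Fintype ι] {u : ι → ℂ → ℂ} {w : ℂ}
    (hu : ∀ i, DifferentiableAt ℝ (u i) w) :
    db (fun v => ∑ i, u i v) w = ∑ i, db (u i) w := by
  unfold db
  rw [fderiv_fun_sum fun i _ => hu i]
  simp only [sum_apply, Finset.mul_sum, ← Finset.sum_add_distrib,
    Finset.sum_div]

theorem oka3_term {φ g : ℂ → ℂ} {V : Set ℂ} (hφ : ContDiff ℝ 1 φ) (hV : IsOpen V)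
    (hs : tsupport φ ⊆ V) (hg : DifferentiableOn ℂ g V) :
    ContDiff ℝ 1 (fun w => φ w * g w) ∧ ∀ w, db (fun w => φ w * g w) w = db φ w * g w := by
  have h0 : ∀ w, w ∉ V → (fun w => φ w * g w) =ᶠ[nhds w] fun _ => 0 := by
    intro w hw
    filter_upwards [notMem_tsupport_iff_eventuallyEq.1 fun h => hw (hs h)] with v hv
    simp [hv]
  refine ⟨contDiff_iff_contDiffAt.2 fun w => ?_, fun w => ?_⟩
  · by_cases hw : w ∈ V
    · exact hφ.contDiffAt.mul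
        (((hg.contDiffOn hV).contDiffAt (hV.mem_nhds hw)).restrict_scalars ℝ)
    · exact contDiffAt_const.congr_of_eventuallyEq (h0 w hw)
  · by_cases hw : w ∈ V
    · have h1 := hg.differentiableAt (hV.mem_nhds hw)
      rw [db_mul (hφ.differentiable one_ne_zero w) (h1.restrictScalars ℝ), db_hol h1]
      ring
    · have h1 : db φ w = 0 :=
        image_eq_zero_of_notMem_tsupport fun h => hw (hs (tsupport_db_subset φ h))
      rw [h1, zero_mul]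
      unfold db
      rw [(h0 w hw).fderiv_eq]
      simp

theorem oka3_cont {ψ : ℂ → ℂ} (hψ : Continuous ψ) {T : Set ℂ} {X : Set (ℂ × ℂ)}
    {G : ℂ × (ℂ × ℂ) → ℂ} (hG : ∀ w ∈ T, w ∈ tsupport ψ → ∀ s ∈ X, ContinuousAt G (w, s)) :
    ContinuousOn (fun p : ℂ × (ℂ × ℂ) => ψ p.1 * G p) (T ×ˢ X) := by
  rintro ⟨w, s⟩ ⟨hw, hs⟩
  refine ContinuousAt.continuousWithinAt ?_
  by_cases h : w ∈ tsupport ψ
  · exact (hψ.comp continuous_fst).continuousAt.mul (hG w hw h s hs)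
  · have h1 : ∀ᶠ p : ℂ × (ℂ × ℂ) in nhds (w, s), ψ p.1 = 0 :=
      (continuous_fst.tendsto (w, s)).eventually (notMem_tsupport_iff_eventuallyEq.1 h)
    refine (continuousAt_const (y := (0 : ℂ))).congr ?_
    filter_upwards [h1] with p hp
    simp [hp]

theorem oka3_apm {ψ : ℂ → ℂ} {X : Set (ℂ × ℂ)} (hX : IsCompact X) {w : ℂ} {G : ℂ × ℂ → ℂ}
    (hG : w ∈ tsupport ψ → Ap X G) : Ap X fun s => ψ w * G s := by
  by_cases h : w ∈ tsupport ψ
  · exact (Ap.of_poly (const_mem_Poly (ψ w)) X).mul hX (hG h)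
  · refine (Ap.of_poly (const_mem_Poly 0) X).congr fun s _ => ?_
    rw [image_eq_zero_of_notMem_tsupport h, zero_mul]

theorem oka3_ne {z : ℂ} (h : ‖1 - z‖ ≤ 3 / 4) : z ≠ 0 := by
  rintro rfl
  norm_num at h

theorem oka3_half {ι : Type} [Fintype ι] {X : Set (ℂ × ℂ)} (hX : IsCompact X) (T : Set ℂ)
    {V : ι → Set ℂ} (hV : ∀ i, IsOpen (V i)) {φ : ι → ℂ → ℂ} (hφ : ∀ i, ContDiff ℝ 1 (φ i))
    (hs : ∀ i, tsupport (φ i) ⊆ V i) {D : ι → ℂ × ℂ → ℂ → ℂ}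
    (h1 : ∀ i, ∀ w ∈ V i, ∀ s ∈ X, ‖1 - D i s w‖ ≤ 3 / 4)
    (h2 : ∀ i s, DifferentiableOn ℂ (D i s) (V i))
    (h3 : ∀ i, ∀ w ∈ V i, ∀ s, ContinuousAt (fun p : ℂ × (ℂ × ℂ) => D i p.2 p.1) (w, s))
    (h4 : ∀ i w, (fun s => D i s w) ∈ Poly) {C : ι → ℂ × ℂ → ℂ} (hC : ∀ i, C i ∈ Poly)
    {α : ℂ × ℂ → ℂ → ℂ} (hα : α = fun s w => ∑ i, φ i w * (C i s * (D i s w)⁻¹)) :
    (∀ s ∈ X, ContDiff ℝ 1 (α s)) ∧
      (ContinuousOn (fun p : ℂ × (ℂ × ℂ) => α p.2 p.1) (T ×ˢ X) ∧ ∀ w ∈ T, Ap X fun s => α s w) ∧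
      (ContinuousOn (fun p : ℂ × (ℂ × ℂ) => db (α p.2) p.1) (T ×ˢ X) ∧
        ∀ w ∈ T, Ap X fun s => db (α s) w) := by
  have hT : ∀ s ∈ X, ∀ i, ContDiff ℝ 1 (fun w => φ i w * (C i s * (D i s w)⁻¹)) ∧
      ∀ w, db (fun w => φ i w * (C i s * (D i s w)⁻¹)) w = db (φ i) w * (C i s * (D i s w)⁻¹) :=
    fun s hs' i => oka3_term (hφ i) (hV i) (hs i)
      (((h2 i s).inv fun w hw => oka3_ne (h1 i w hw s hs')).const_mul _)
  have key : ∀ ψ : ι → ℂ → ℂ, (∀ i, Continuous (ψ i)) → (∀ i, tsupport (ψ i) ⊆ V i) →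
      ContinuousOn (fun p : ℂ × (ℂ × ℂ) => ∑ i, ψ i p.1 * (C i p.2 * (D i p.2 p.1)⁻¹)) (T ×ˢ X) ∧
        ∀ w ∈ T, Ap X fun s => ∑ i, ψ i w * (C i s * (D i s w)⁻¹) := by
    intro ψ hψ hψs
    refine ⟨continuousOn_finsetSum _ fun i _ => ?_, fun w _ => Ap.sum _ fun i _ => ?_⟩
    · refine oka3_cont (G := fun p => C i p.2 * (D i p.2 p.1)⁻¹) (hψ i) fun w _ hw s hs' => ?_
      exact ((Poly.differentiable (hC i)).continuous.comp continuous_snd).continuousAt.mul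
        ((h3 i w (hψs i hw) s).inv₀ (oka3_ne (h1 i w (hψs i hw) s hs')))
    · refine oka3_apm (G := fun s => C i s * (D i s w)⁻¹) hX fun hw => ?_
      refine (Ap.of_poly (hC i) X).mul hX (Ap.inv (l := 1) (t := 3 / 4) (h4 i w) (by norm_num) ?_)
      intro s hs'
      rw [one_mul]
      exact h1 i w (hψs i hw) s hs'
  have hdb : ∀ s ∈ X, ∀ w, db (α s) w = ∑ i, db (φ i) w * (C i s * (D i s w)⁻¹) := by
    intro s hs' w
    rw [hα]
    simp only []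
    rw [oka3_db_sum fun i => (hT s hs' i).1.differentiable one_ne_zero w]
    exact Finset.sum_congr rfl fun i _ => (hT s hs' i).2 w
  have k1 := key φ (fun i => (hφ i).continuous) hs
  have k2 := key (fun i => db (φ i)) (fun i => oka3_db_cont (hφ i))
    fun i => (tsupport_db_subset _).trans (hs i)
  refine ⟨fun s hs' => ?_, by rw [hα]; exact k1, k2.1.congr fun p hp => hdb p.2 hp.2 p.1,
    fun w hw => (k2.2 w hw).congr fun s hs' => hdb s hs' w⟩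
  rw [hα]
  exact ContDiff.sum fun i _ => (hT s hs' i).1

theorem oka3_pou {ι : Type} [Fintype ι] {T : Set ℂ} (hT : IsCompact T) {V : ι → Set ℂ}
    (hV : ∀ i, IsOpen (V i)) (hc : T ⊆ ⋃ i, V i) :
    ∃ (φ : ι → ℂ → ℂ) (W : Set ℂ), IsOpen W ∧ T ⊆ W ∧ (∀ i, ContDiff ℝ 1 (φ i)) ∧
      (∀ i, tsupport (φ i) ⊆ V i) ∧ ∀ w ∈ W, ∑ i, φ i w = 1 := by
  obtain ⟨L, hL, hTL, hLV⟩ := exists_compact_between hT (isOpen_iUnion hV) hc
  obtain ⟨f, hf⟩ := SmoothPartitionOfUnity.exists_isSubordinate (modelWithCornersSelf ℝ ℂ)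
    hL.isClosed V hV hLV
  refine ⟨fun i w => (f i w : ℂ), interior L, isOpen_interior, hTL, fun i => ?_, fun i => ?_,
    fun w hw => ?_⟩
  · have h1 : ContDiff ℝ 1 (f i) := (f i).contMDiff.contDiff.of_le (by simp)
    exact Complex.ofRealCLM.contDiff.comp h1
  · refine Subset.trans (closure_mono fun w hw => ?_) (hf i)
    intro h0
    exact hw (by simp [h0])
  · have h1 := f.sum_eq_one (interior_subset hw)
    rw [finsum_eq_sum_of_fintype] at h1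
    simp only [← Complex.ofReal_sum, h1, Complex.ofReal_one]

/-- Cover `tsupport ρ` by finitely many open sets `V i ⊆ U` as in `oka3_loc`, take smooth `φ i` with
`tsupport (φ i) ⊆ V i` and `∑ φ i = 1` on an open set around `tsupport ρ`; with
`D i = A i f + B i g` put `α s = ∑ φ i A i s / D i`, `β s = ∑ φ i B i s / D i`. Then
`db (α s) = ∑ db (φ i) A i s / D i`. The four families are jointly continuous and limits of
polynomials in `s`. -/
theorem oka3_pair (hK : IsCompact K) (hU : IsOpen U) (hρ : Cut U ρ) (hγ : DifferentiableOn ℂ γ U)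
    (h : ∀ w ∈ tsupport ρ, γ w ∉ PH K) : ∃ α β : ℂ × ℂ → ℂ → ℂ,
      (∀ s ∈ PH K, Pr ρ (fun w => (γ w).1 - s.1) (fun w => (γ w).2 - s.2) (α s) (β s)) ∧
      ∀ Φ ∈ ({α, β, fun s => db (α s), fun s => db (β s)} : Set (ℂ × ℂ → ℂ → ℂ)),
        ContinuousOn (fun p : ℂ × (ℂ × ℂ) => Φ p.2 p.1) (tsupport ρ ×ˢ PH K) ∧
          ∀ w ∈ tsupport ρ, Ap (PH K) fun s => Φ s w := by
  have hloc : ∀ w₀ : tsupport ρ, ∃ A ∈ Poly, ∃ B ∈ Poly, ∃ V, IsOpen V ∧ (w₀ : ℂ) ∈ V ∧ V ⊆ U ∧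
      ∀ w ∈ V, ∀ s ∈ PH K, ‖1 - (A s * ((γ w).1 - s.1) + B s * ((γ w).2 - s.2))‖ ≤ 3 / 4 := by
    rintro ⟨w₀, hw₀⟩
    have hn := hU.mem_nhds (hρ.sub hw₀)
    obtain ⟨A, hA, B, hB, hev⟩ := oka3_loc hK (hγ.continuousOn.continuousAt hn) (h w₀ hw₀)
    obtain ⟨V, hV1, hV2, hV3⟩ := _root_.eventually_nhds_iff.1 (hev.and hn)
    exact ⟨A, hA, B, hB, V, hV2, hV3, fun w hw => (hV1 w hw).2, fun w hw => (hV1 w hw).1⟩
  choose A hA B hB V hVo hVm hVU hVb using hloc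
  have hTc : IsCompact (tsupport ρ) := hρ.cs
  obtain ⟨t, ht⟩ := hTc.elim_finite_subcover V hVo fun w hw => mem_iUnion.2 ⟨⟨w, hw⟩, hVm _⟩
  obtain ⟨φ, W, hWo, hTW, hφ, hφs, hφ1⟩ := oka3_pou (ι := t) hTc (V := fun i => V i)
    (fun i => hVo i) (fun w hw => by
      obtain ⟨i, hi, hw'⟩ := mem_iUnion₂.1 (ht hw)
      exact mem_iUnion.2 ⟨⟨i, hi⟩, hw'⟩)
  let D : t → ℂ × ℂ → ℂ → ℂ := fun i s w => A i s * ((γ w).1 - s.1) + B i s * ((γ w).2 - s.2)
  have h1 : ∀ i : t, ∀ w ∈ V i, ∀ s ∈ PH K, ‖1 - D i s w‖ ≤ 3 / 4 := fun i => hVb i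
  have h2 : ∀ (i : t) s, DifferentiableOn ℂ (D i s) (V i) := fun i s =>
    (((hγ.mono (hVU i)).fst.sub_const _).const_mul _).add
      (((hγ.mono (hVU i)).snd.sub_const _).const_mul _)
  have h3 : ∀ i : t, ∀ w ∈ V i, ∀ s,
      ContinuousAt (fun p : ℂ × (ℂ × ℂ) => D i p.2 p.1) (w, s) := by
    intro i w hw s
    have g1 : ContinuousAt (fun p : ℂ × (ℂ × ℂ) => γ p.1) (w, s) :=
      ContinuousAt.comp (f := Prod.fst) (x := (w, s))
        (hγ.continuousOn.continuousAt (hU.mem_nhds (hVU i hw))) continuousAt_fst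
    have g2 := (Poly.differentiable (hA i)).continuous
    have g3 := (Poly.differentiable (hB i)).continuous
    exact ((g2.comp continuous_snd).continuousAt.mul (g1.fst.sub continuousAt_snd.fst)).add
      ((g3.comp continuous_snd).continuousAt.mul (g1.snd.sub continuousAt_snd.snd))
  have h4 : ∀ (i : t) w, (fun s => D i s w) ∈ Poly := fun i w =>
    Poly.add_mem (Poly.mul_mem (hA i) (Poly.sub_mem (const_mem_Poly (γ w).1) fst_mem_Poly))
      (Poly.mul_mem (hB i) (Poly.sub_mem (const_mem_Poly (γ w).2) snd_mem_Poly))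
  obtain ⟨a1, a2, a3⟩ := oka3_half (isCompact_PH hK) (tsupport ρ) (fun i : t => hVo i) hφ hφs h1 h2
    h3 h4 (fun i : t => hA i) rfl
  obtain ⟨b1, b2, b3⟩ := oka3_half (isCompact_PH hK) (tsupport ρ) (fun i : t => hVo i) hφ hφs h1 h2
    h3 h4 (fun i : t => hB i) rfl
  refine ⟨_, _, fun s hs => ⟨W, hWo, hTW, (a1 s hs).contDiffOn, (b1 s hs).contDiffOn,
    fun w hw => ?_⟩, ?_⟩
  · rw [← hφ1 w hw, Finset.sum_mul, Finset.sum_mul, ← Finset.sum_add_distrib]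
    refine Finset.sum_congr rfl fun i _ => ?_
    by_cases hi : w ∈ V i
    · have hD := oka3_ne (h1 i w hi s hs)
      have e : D i s w = A i s * ((γ w).1 - s.1) + B i s * ((γ w).2 - s.2) := rfl
      have e2 := mul_inv_cancel₀ hD
      linear_combination φ i w * e2 - φ i w * (D i s w)⁻¹ * e
    · rw [image_eq_zero_of_notMem_tsupport fun h0 => hi (hφs i h0)]
      ring
  · rintro Φ (rfl | rfl | rfl | rfl)
    exacts [a2, b2, a3, b3]

theorem oka3_inv {X : Set (ℂ × ℂ)} (hX : IsCompact X) {L : ℂ × ℂ → ℂ} (hL : L ∈ Poly) {r : ℝ}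
    (hr : ∀ s ∈ X, |(L s).im| ≤ r) {z : ℂ} (hz : r < |z.im|) :
    (∀ s ∈ X, z - L s ≠ 0) ∧ Ap X fun s => (z - L s)⁻¹ := by
  have hp : (fun s => z - L s) ∈ Poly := Poly.sub_mem (const_mem_Poly z) hL
  refine ⟨fun s hs h0 => ?_, ?_⟩
  · have h1 := hr s hs
    rw [← sub_eq_zero.1 h0] at h1
    linarith
  · rcases lt_abs.1 hz with h1 | h1
    · refine Ap.inv_half hX hp (e := -I) fun s hs => ?_
      have h2 := (abs_le.1 (hr s hs)).2
      simp
      linarith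
    · refine Ap.inv_half hX hp (e := I) fun s hs => ?_
      have h2 := (abs_le.1 (hr s hs)).1
      simp
      linarith

theorem oka3_int {T : Set ℂ} (hT : IsCompact T) {F : ℂ → ℂ} (hF : ContinuousOn F T)
    (h0 : ∀ w, w ∉ T → F w = 0) : Integrable F ∧ ∫ w, F w = ∫ w in T, F w :=
  ⟨(hF.integrableOn_compact hT).integrable_of_forall_notMem_eq_zero h0,
    (setIntegral_eq_integral_of_forall_compl_eq_zero h0).symm⟩

/-- Split `fn` into an integral over `tsupport ρ` and one over `tsupport (db ρ)`; `Ap.integral`,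
`Ap.inv_half`. -/
theorem oka3_ap (hK : IsCompact K) (hs : K ⊆ strip r₁ r₂) (hU : IsOpen U) (hρ : Cut U ρ)
    (hγ : DifferentiableOn ℂ γ U) (h : ∀ w ∈ tsupport ρ, γ w ∉ PH K) (hθ : Continuous θ)
    (hc : Col r₁ r₂ ρ θ γ) : ∃ α β : ℂ × ℂ → ℂ → ℂ,
      (∀ s ∈ PH K, Pr ρ (fun w => (γ w).1 - s.1) (fun w => (γ w).2 - s.2) (α s) (β s)) ∧
      ∀ η : ℂ → ℂ, ContinuousOn η (tsupport ρ) →
        Ap (PH K) fun s => fn ρ (α s) (β s) (a0 θ γ s) (b0 θ γ s) η := by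
  obtain ⟨α, β, hp, hΦ⟩ := oka3_pair hK hU hρ hγ h
  refine ⟨α, β, hp, fun η hη => ?_⟩
  obtain ⟨ca, pa⟩ := hΦ α (by simp)
  obtain ⟨cb, pb⟩ := hΦ β (by simp)
  obtain ⟨cda, pda⟩ := hΦ (fun s => db (α s)) (by simp)
  obtain ⟨cdb, pdb⟩ := hΦ (fun s => db (β s)) (by simp)
  have hX := isCompact_PH hK
  have hT : IsCompact (tsupport ρ) := hρ.cs
  have hsub := tsupport_db_subset ρ
  have hT' : IsCompact (tsupport (db ρ)) := hT.of_isClosed_subset (isClosed_tsupport _) hsub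
  have hst := PH_subset_strip hK hs
  have hγc : ∀ w ∈ tsupport (db ρ), ∀ s,
      ContinuousAt (fun p : ℂ × (ℂ × ℂ) => γ p.1) (w, s) := fun w hw s =>
    ContinuousAt.comp (f := Prod.fst) (x := (w, s))
      (hγ.continuousOn.continuousAt (hU.mem_nhds (hρ.sub (hsub hw)))) continuousAt_fst
  have ia := fun w (hw : w ∈ tsupport (db ρ)) hw' =>
    oka3_inv hX fst_mem_Poly (fun s hs' => (hst hs').1) ((hc w hw).2 hw')
  have ib := fun w (hw : w ∈ tsupport (db ρ)) hw' =>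
    oka3_inv hX snd_mem_Poly (fun s hs' => (hst hs').2) ((hc w hw).1 hw')
  have ca0 : ContinuousOn (fun p : ℂ × (ℂ × ℂ) => a0 θ γ p.2 p.1) (tsupport (db ρ) ×ˢ PH K) := by
    simp only [a0, div_eq_mul_inv]
    exact oka3_cont (ψ := fun u => 1 - θ u) (G := fun p => ((γ p.1).1 - p.2.1)⁻¹)
      (continuous_const.sub hθ) fun w hw hw' s hs' =>
        ((hγc w hw s).fst.sub continuousAt_snd.fst).inv₀ ((ia w hw hw').1 s hs')
  have cb0 : ContinuousOn (fun p : ℂ × (ℂ × ℂ) => b0 θ γ p.2 p.1) (tsupport (db ρ) ×ˢ PH K) := by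
    simp only [b0, div_eq_mul_inv]
    exact oka3_cont (ψ := θ) (G := fun p => ((γ p.1).2 - p.2.2)⁻¹) hθ fun w hw hw' s hs' =>
      ((hγc w hw s).snd.sub continuousAt_snd.snd).inv₀ ((ib w hw hw').1 s hs')
  have pa0 : ∀ w ∈ tsupport (db ρ), Ap (PH K) fun s => a0 θ γ s w := fun w hw => by
    simp only [a0, div_eq_mul_inv]
    exact oka3_apm (ψ := fun u => 1 - θ u) hX fun hw' => (ia w hw hw').2
  have pb0 : ∀ w ∈ tsupport (db ρ), Ap (PH K) fun s => b0 θ γ s w := fun w hw => by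
    simp only [b0, div_eq_mul_inv]
    exact oka3_apm (ψ := θ) hX fun hw' => (ib w hw hw').2
  have cη : ContinuousOn (fun p : ℂ × (ℂ × ℂ) => η p.1) (tsupport ρ ×ˢ PH K) :=
    hη.comp continuousOn_fst fun p hp => hp.1
  have hm : tsupport (db ρ) ×ˢ PH K ⊆ tsupport ρ ×ˢ PH K := prod_mono hsub Subset.rfl
  let F₁ : ℂ → ℂ × ℂ → ℂ := fun w s => ρ w * (α s w * db (β s) w - β s w * db (α s) w) * η w
  let F₂ : ℂ → ℂ × ℂ → ℂ := fun w s => db ρ w * (α s w * b0 θ γ s w - a0 θ γ s w * β s w) * η w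
  have c1 : ContinuousOn (fun p : ℂ × (ℂ × ℂ) => F₁ p.1 p.2) (tsupport ρ ×ˢ PH K) :=
    (((hρ.cd.continuous.comp continuous_fst).continuousOn).mul
      ((ca.mul cdb).sub (cb.mul cda))).mul cη
  have c2 : ContinuousOn (fun p : ℂ × (ℂ × ℂ) => F₂ p.1 p.2) (tsupport (db ρ) ×ˢ PH K) :=
    (((hρ.cont_db.comp continuous_fst).continuousOn).mul
      (((ca.mono hm).mul cb0).sub (ca0.mul (cb.mono hm)))).mul (cη.mono hm)
  have p1 : ∀ w ∈ tsupport ρ, Ap (PH K) (F₁ w) := fun w hw =>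
    ((Ap.of_poly (const_mem_Poly (ρ w)) _).mul hX
      (oka3_sub hX ((pa w hw).mul hX (pdb w hw)) ((pb w hw).mul hX (pda w hw)))).mul hX
      (Ap.of_poly (const_mem_Poly (η w)) _)
  have p2 : ∀ w ∈ tsupport (db ρ), Ap (PH K) (F₂ w) := fun w hw =>
    ((Ap.of_poly (const_mem_Poly (db ρ w)) _).mul hX
      (oka3_sub hX ((pa w (hsub hw)).mul hX (pb0 w hw)) ((pa0 w hw).mul hX (pb w (hsub hw))))).mul
      hX (Ap.of_poly (const_mem_Poly (η w)) _)
  refine (oka3_sub hX (Ap.integral hX hT c1 p1) (Ap.integral hX hT' c2 p2)).congr fun s hs' => ?_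
  obtain ⟨i1, e1⟩ := oka3_int hT (F := fun w => F₁ w s)
    (c1.comp (f := fun w => (w, s)) (by fun_prop) fun w hw => ⟨hw, hs'⟩)
    fun w hw => by simp only [F₁, image_eq_zero_of_notMem_tsupport hw, zero_mul]
  obtain ⟨i2, e2⟩ := oka3_int hT' (F := fun w => F₂ w s)
    (c2.comp (f := fun w => (w, s)) (by fun_prop) fun w hw => ⟨hw, hs'⟩)
    fun w hw => by simp only [F₂, image_eq_zero_of_notMem_tsupport hw, zero_mul]
  rw [← e1, ← e2, ← integral_sub i1 i2]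
  unfold fn ker
  refine integral_congr_ae (Filter.Eventually.of_forall fun w => ?_)
  simp only [F₁, F₂]
  ring

end Pool.Agent.NapKL
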