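import Pool.Agent.Lib.MP_b71113_an.KL.Base
import Pool.Agent.Lib.MP_b71113_an.OT.Mem
import Pool.Agent.Lib.MP_e9d8ca_an.RMT

/-! The graph of the transport map without atoms as a conformal image of the disc. -/

namespace Pool.Agent.NapKL

open Set Metric Complex ComplexConjugate MeasureTheory Pool.Agent.NapOT

variable {A B : Set ℂ} {p : ℂ → ℂ} {π : Measure ℂ}

theorem plug_hol (hD : Dat A B 0 0) (h : MD A B 0 0 p π) :
    DifferentiableOn ℂ (gr p) {s | p (conj s) ∈ B} := by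
  exact h.hol hD (U := {a | p a ∈ B}) (hD.hB.op.preimage h.mono.lip.continuous)
    fun a ha => ⟨h.mem_closure hD ha, subset_closure ha, Or.inl rfl, Or.inl rfl⟩

theorem plug_compact (hD : Dat A B 0 0) (h : MD A B 0 0 p π) {C : Set ℂ} (hC : IsCompact C)
    (hCB : C ⊆ B) : IsCompact {a | p a ∈ C} := by
  refine (hD.hA.isCompact.add hC).of_isClosed_subset
    (hC.isClosed.preimage h.mono.lip.continuous) fun a ha => ?_
  exact ⟨a - p a, h.mem_closure hD (hCB ha), p a, ha, sub_add_cancel _ _⟩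

/-- Let `p a = p a' = q`, `e = a' - a ≠ 0`. The set `T` of real `t` with `p (a + t e) = q` is closed,
bounded (`plug_compact`), convex (`Mono.convex_fibre`) and contains `0`, `1`; let `t₀` be its
maximum. On the line `s = conj (a + t e)` one has `conj s - 2 q = l s + m` with
`l = e / conj e`. The analytic function `gr p s - (l s + m)` vanishes at `conj (a + t e)` for
`t ∈ [0, t₀]`, so near `conj (a + t₀ e)`, so `t₀ + ε ∈ T`. -/
theorem plug_inj (hD : Dat A B 0 0) (h : MD A B 0 0 p π) : InjOn p {a | p a ∈ B} := by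
  intro a ha a' _ haa
  by_contra hne
  have hF : IsCompact {x | p x = p a} :=
    plug_compact hD h isCompact_singleton (singleton_subset_iff.2 ha)
  obtain ⟨b, hb, hmax⟩ := hF.exists_isMaxOn ⟨a, rfl⟩ (f := fun x => ‖x - a‖) (by fun_prop)
  have hb' : p b = p a := hb
  have he : 0 < ‖b - a‖ := (norm_pos_iff.2 (sub_ne_zero.2 (Ne.symm hne))).trans_le (hmax haa.symm)
  let G : ℂ → ℂ := fun z => gr p (conj a + z * conj (b - a)) - (a + z * (b - a) - 2 * p a)
  have hG : ∀ t : ℝ, G t = 0 ↔ p (a + t * (b - a)) = p a := fun t => by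
    simp only [G, gr, map_add, map_mul, conj_conj, conj_ofReal]
    exact ⟨fun e => by linear_combination (-1 / 2 : ℂ) * e, fun e => by rw [e]; ring⟩
  have hO : IsOpen {s : ℂ | p (conj s) ∈ B} :=
    hD.hB.op.preimage (h.mono.lip.continuous.comp continuous_conj)
  have hA : AnalyticAt ℂ G 1 := by
    have h1 : AnalyticAt ℂ (gr p) (conj a + 1 * conj (b - a)) :=
      (plug_hol hD h).analyticAt (hO.mem_nhds (by simpa [hb'] using ha))
    exact (h1.comp (f := fun z : ℂ => conj a + z * conj (b - a)) (by fun_prop)).sub (by fun_prop)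
  have hc : Filter.Tendsto (fun t : ℝ => (t : ℂ)) (nhds 1) (nhds 1) :=
    continuous_ofReal.tendsto' 1 1 ofReal_one
  have hfr : ∃ᶠ z in nhdsWithin (1 : ℂ) {1}ᶜ, G z = 0 := by
    have h1 : Filter.Tendsto (fun t : ℝ => (t : ℂ)) (nhdsWithin 1 (Iio 1)) (nhdsWithin 1 {1}ᶜ) :=
      tendsto_nhdsWithin_of_tendsto_nhds_of_eventually_within _ (hc.mono_left nhdsWithin_le_nhds)
        (eventually_mem_nhdsWithin.mono fun t ht e => ne_of_lt ht (ofReal_eq_one.1 e))
    refine h1.frequently (Filter.Eventually.frequently ?_)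
    filter_upwards [Ioo_mem_nhdsLT (zero_lt_one' ℝ)] with t ht
    have h2 := h.mono.convex_fibre (p a) (x := a) rfl hb (a := 1 - t) (b := t)
      (by linarith [ht.2]) ht.1.le (by ring)
    rw [hG, ← h2]
    congr 1
    simp only [real_smul, ofReal_sub, ofReal_one]
    ring
  have hev := hc.eventually (hA.frequently_zero_iff_eventually_zero.1 hfr)
  obtain ⟨t, ht1, ht2⟩ := ((hev.filter_mono (nhdsWithin_le_nhds (s := Ioi 1))).and
    self_mem_nhdsWithin).exists
  have h3 : ‖a + t * (b - a) - a‖ ≤ ‖b - a‖ := hmax ((hG t).1 ht1)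
  have ht3 : 1 < t := ht2
  rw [add_sub_cancel_left, norm_mul, norm_real, Real.norm_of_nonneg (by linarith)] at h3
  nlinarith

/-- `hol_dense` and `plug_compact` -/
theorem plug_surj (hD : Dat A B 0 0) (h : MD A B 0 0 p π) {q : ℂ} (hq : q ∈ B) :
    ∃ a, p a = q := by
  obtain ⟨r, hr, hB⟩ := nhds_basis_closedBall.mem_iff.1 (hD.hB.op.mem_nhds hq)
  have hK := ((plug_compact hD h (isCompact_closedBall q r) hB).image
    h.mono.lip.continuous).isClosed
  have hm : q ∈ closure (p '' {a | p a ∈ closedBall q r}) := by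
    refine Metric.mem_closure_iff.2 fun ε hε => ?_
    have hs : ball q (min ε r) ⊆ closedBall q r :=
      (ball_subset_ball (min_le_right _ _)).trans ball_subset_closedBall
    obtain ⟨a, ha, -⟩ := hol_dense hD h isOpen_ball (nonempty_ball.2 (lt_min hε hr)) (hs.trans hB)
    exact ⟨p a, ⟨a, hs ha, rfl⟩, mem_ball'.1 (ball_subset_ball (min_le_left _ _) ha)⟩
  obtain ⟨a, -, ha⟩ := hK.closure_subset hm
  exact ⟨a, ha⟩

/-- `D = {s | I * p (conj s) ∈ orect c₁ c₂}` is open, bounded and homeomorphic to the convex set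
`orect`, so simply connected; `MP_e9d8ca_an.riemann_mapping` with `z₀` the point where
`p (conj z₀) = 0`; `k = f ∘ h⁻¹`. -/
theorem plug_par {d₁ d₂ c₁ c₂ : ℝ} (hD : Dat A (box d₁ d₂) 0 0) (h : MD A (box d₁ d₂) 0 0 p π)
    (p1 : 0 < c₁) (p2 : 0 < c₂) (h1 : c₁ < d₂) (h2 : c₂ < d₁) : ∃ ψ k : ℂ → ℂ,
      Par c₁ c₂ {s | I * p (conj s) ∈ rect c₁ c₂} (fun s => I * p (conj s)) ψ k ∧
      p (conj (ψ 0)) = 0 := by
  set H : ℂ → ℂ := fun s => I * p (conj s) with hH
  set S : Set ℂ := {s | H s ∈ rect c₁ c₂} with hS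
  have hHc : Continuous H := continuous_const.mul (h.mono.lip.continuous.comp continuous_conj)
  have hbox : ∀ w : ℂ, I * w ∈ rect c₁ c₂ → w ∈ box d₁ d₂ := fun w hw => by
    simp only [rect, mem_ofPred_eq, I_mul_re, I_mul_im, abs_neg] at hw
    exact ⟨hw.2.trans_lt h2, hw.1.trans_lt h1⟩
  have hor : orect c₁ c₂ ⊆ rect c₁ c₂ := fun w hw => ⟨hw.1.le, hw.2.le⟩
  have hbody : Body (orect c₁ c₂) := body_box p1 p2
  have hrc : IsCompact (rect c₁ c₂) := by
    have := (body_box p1 p2).isCompact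
    rwa [closure_box p1 p2] at this
  have hSc : IsCompact S :=
    conjCLE.toHomeomorph.isCompact_preimage.2 (plug_compact hD h
      ((Homeomorph.mulLeft₀ I I_ne_zero).isCompact_preimage.2 hrc) hbox)
  have hi : InjOn H S := fun s hs s' hs' e => (starRingEnd ℂ).injective
    (plug_inj hD h (hbox _ hs) (hbox _ hs') (mul_left_cancel₀ I_ne_zero e))
  have hsu : SurjOn H S (rect c₁ c₂) := fun w hw => by
    have e : I * (-I * w) = w := by linear_combination (-w) * I_mul_I
    obtain ⟨a, ha⟩ := plug_surj hD h (hbox (-I * w) (by rwa [e]))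
    have e' : H (conj a) = w := by simp only [hH, conj_conj, ha, e]
    exact ⟨conj a, by rwa [hS, mem_ofPred_eq, e'], e'⟩
  let j := Function.invFunOn H S
  have j1 : ∀ w ∈ rect c₁ c₂, H (j w) = w := hsu.rightInvOn_invFunOn
  have j2 : ∀ s ∈ S, j (H s) = s := hi.leftInvOn_invFunOn
  have j3 : ∀ w ∈ orect c₁ c₂, j w ∈ H ⁻¹' orect c₁ c₂ := fun w hw => by
    rwa [mem_preimage, j1 w (hor hw)]
  have jc : ContinuousOn j (rect c₁ c₂) := by
    refine continuousOn_iff_isClosed.2 fun t ht => ⟨H '' (S ∩ t),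
      ((hSc.inter_right ht).image hHc).isClosed, Set.ext fun w => ⟨?_, ?_⟩⟩
    · rintro ⟨w1, w2⟩
      exact ⟨⟨j w, ⟨hsu.mapsTo_invFunOn w2, w1⟩, j1 w w2⟩, w2⟩
    · rintro ⟨⟨s, ⟨s1, s2⟩, rfl⟩, w2⟩
      exact ⟨by rwa [mem_preimage, j2 s s1], w2⟩
  have hDS : H ⁻¹' orect c₁ c₂ ⊆ S := fun s hs => hor hs
  have hsc : IsSimplyConnected (H ⁻¹' orect c₁ c₂) := by
    let e : (H ⁻¹' orect c₁ c₂) ≃ₜ orect c₁ c₂ :=
      { toFun := fun s => ⟨H s, s.2⟩
        invFun := fun w => ⟨j w, j3 w w.2⟩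
        left_inv := fun s => Subtype.ext (j2 s (hDS s.2))
        right_inv := fun w => Subtype.ext (j1 w (hor w.2))
        continuous_toFun := (hHc.comp continuous_subtype_val).subtype_mk _
        continuous_invFun := (jc.mono hor).domRestrict.subtype_mk _ }
    have := hbody.cv.contractibleSpace hbody.ne
    have := e.contractibleSpace
    exact SimplyConnectedSpace.ofContractible _
  have h0 : (0 : ℂ) ∈ orect c₁ c₂ := by simp [orect, p1, p2]
  obtain ⟨f, g, df, dg, mf, mg, gf, fg, f0⟩ := Pool.Agent.Lib.MP_e9d8ca_an.riemann_mapping _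
    (hbody.op.preimage hHc) hsc
    (fun e => noncompact_univ ℂ (hSc.of_isClosed_subset isClosed_univ (e ▸ hDS))) (j 0) (j3 0 h0)
  refine ⟨g, fun w => f (j w), ⟨p1, p2, hSc, hHc.continuousOn, hi, dg, fun w hw => hDS (mg hw),
    fun w hw => mg hw, df.continuousOn.comp (jc.mono hor) j3, fun w hw => mf (j3 w hw),
    fun w hw => ?_, fun w hw => ?_⟩, ?_⟩
  · rw [j2 _ (hDS (mg hw)), fg w hw]
  · rw [gf _ (j3 w hw), j1 w (hor hw)]
  · rw [← f0, gf _ (j3 0 h0), f0]
    exact (mul_eq_zero.1 (j1 0 (hor h0))).resolve_left I_ne_zero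

end Pool.Agent.NapKL
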