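import Pool.Agent.Lib.MP_b71113_an.KL.Plug1
import Pool.Agent.Lib.MP_b71113_an.KL.Asm2
import Pool.Agent.Lib.MP_b71113_an.KL.Bdy
import Pool.Agent.Lib.MP_b71113_an.KL.Gel
import Pool.Agent.Lib.MP_b71113_an.OT.Zed

/-! The graph of the transport map without atoms does not meet the hull. -/

namespace Pool.Agent.NapKL

open Set Metric Complex ComplexConjugate MeasureTheory Pool.Agent.NapOT

variable {A : Set ℂ} {p : ℂ → ℂ} {π : Measure ℂ} {d₁ d₂ r₁ r₂ : ℝ} {K : Set (ℂ × ℂ)}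

/-- from the coordinates `(ξ, ζ)` to `(z₁, z₂)` -/
noncomputable def lam (z : ℂ × ℂ) : ℂ × ℂ := ((z.1 + z.2) / 2, I * (z.1 - z.2) / 2)

theorem lam_re (z : ℂ × ℂ) : (⟨(lam z).1.re, (lam z).2.re⟩ : ℂ) = (conj z.1 + z.2) / 2 := by
  refine Complex.ext ?_ ?_ <;> (simp [lam]; try ring)

theorem lam_im (z : ℂ × ℂ) :
    (⟨(lam z).1.im, (lam z).2.im⟩ : ℂ) = I * ((conj z.1 - z.2) / 2) := by
  refine Complex.ext ?_ ?_ <;> (simp [lam]; try ring)

theorem lam_poly : (fun z => (lam z).1) ∈ Poly ∧ (fun z => (lam z).2) ∈ Poly := by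
  constructor
  · convert Poly.mul_mem (const_mem_Poly (1 / 2)) (Poly.add_mem fst_mem_Poly snd_mem_Poly) using 1
    funext z
    simp only [lam, Pi.mul_apply, Pi.add_apply]
    ring
  · convert Poly.mul_mem (const_mem_Poly (I / 2)) (Poly.sub_mem fst_mem_Poly snd_mem_Poly) using 1
    funext z
    simp only [lam, Pi.mul_apply, Pi.sub_apply]
    ring

theorem graph_not_hull (hD : Dat A (box d₁ d₂) 0 0) (h : MD A (box d₁ d₂) 0 0 p π)
    (hK : IsCompact K) (hA : ∀ z ∈ K, (conj z.1 + z.2) / 2 ∉ closure A)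
    (hB : ∀ z ∈ K, |((conj z.1 - z.2) / 2).re| ≤ r₁ ∧ |((conj z.1 - z.2) / 2).im| ≤ r₂)
    (h1 : r₁ < d₁) (h2 : r₂ < d₂) {s : ℂ} (hs : p (conj s) ∈ box d₁ d₂) :
    (s, gr p s) ∉ PH K := by
  intro hx
  obtain ⟨c₂, a1, a2⟩ := exists_between (max_lt h1 hs.1)
  obtain ⟨c₁, b1, b2⟩ := exists_between (max_lt h2 hs.2)
  obtain ⟨a3, a4⟩ := max_lt_iff.1 a1
  obtain ⟨b3, b4⟩ := max_lt_iff.1 b1
  have p1 : 0 < c₁ := (abs_nonneg _).trans_lt b4
  have p2 : 0 < c₂ := (abs_nonneg _).trans_lt a4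
  obtain ⟨ψ, k, H, h0⟩ := plug_par hD h p1 p2 b2 a2
  obtain ⟨ψ', hc, he⟩ := H.ext
  obtain ⟨hm, hbij, hbd⟩ := H.bij hc he
  have hbox : ∀ u : ℂ, I * p (conj u) ∈ rect c₁ c₂ → p (conj u) ∈ box d₁ d₂ := fun u hu => by
    obtain ⟨e1, e2⟩ := hu
    simp only [mul_re, mul_im, I_re, I_im, zero_mul, one_mul, zero_sub, zero_add, abs_neg] at e1 e2
    exact ⟨e2.trans_lt a2, e1.trans_lt b2⟩
  have hψ : HC ψ' := ⟨H.dψ.congr he, by rwa [closure_ball _ one_ne_zero]⟩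
  have hg : HC fun w => gr p (ψ' w) :=
    ⟨(plug_hol hD h).comp hψ.1 fun w hw => hbox _ (hm (ball_subset_closedBall hw)),
      h.mono.lip_gr.continuous.comp_continuousOn hψ.2⟩
  have him : ∀ w, (⟨(lam (ψ' w, gr p (ψ' w))).1.im, (lam (ψ' w, gr p (ψ' w))).2.im⟩ : ℂ) =
      I * p (conj (ψ' w)) := fun w => by rw [lam_im, mem_half]
  have hd : Disc c₁ c₂ (fun w => (lam (ψ' w, gr p (ψ' w))).1)
      fun w => (lam (ψ' w, gr p (ψ' w))).2 := by
    have e0 := him 0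
    rw [he (mem_ball_self one_pos), h0, mul_zero, ← he (mem_ball_self one_pos)] at e0
    refine ⟨p1, p2, ?_, ?_, by simpa only [him] using hbij, fun w hw => ?_, congrArg re e0,
      congrArg im e0⟩
    · convert HC.cmul (hψ.add hg) (1 / 2) using 1
      funext w
      simp only [lam, Pi.add_apply]
      ring
    · convert HC.cmul (hψ.sub hg) (I / 2) using 1
      funext w
      simp only [lam, Pi.sub_apply]
      ring
    · have e1 := hbij.1 (mem_closedBall_zero_iff.2 hw)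
      rw [hbd w hw]
      simp only [← him, rect, orect, mem_ofPred_eq] at e1 ⊢
      rw [not_and_or, not_lt, not_lt]
      exact or_congr ⟨e1.1.antisymm, Eq.ge⟩ ⟨e1.2.antisymm, Eq.ge⟩
  have hs' : I * p (conj s) ∈ orect c₁ c₂ := ⟨by simpa using b4, by simpa using a4⟩
  have hw := H.km hs'
  have e : ψ' (k (I * p (conj s))) = s := by
    rw [he hw]
    exact H.hi (H.mψ hw) ⟨hs'.1.le, hs'.2.le⟩ (H.kr _ hs')
  have hl : Continuous lam := by unfold lam; fun_prop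
  refine key hd isClosed_closure hD.hA.cv.closure (fun u hu => ?_) (hK.image hl) ?_ ?_ b3 a3
    (mem_ball_zero_iff.1 hw).le ?_
  · rw [lam_re]
    convert h.mem_closure hD (hbox _ (hm (mem_closedBall_zero_iff.2 hu))) using 1
    simp only [gr]
    ring
  · rintro _ ⟨z, hz, rfl⟩
    rw [lam_re]
    exact hA z hz
  · rintro _ ⟨z, hz, rfl⟩
    have e1 := congrArg re (lam_im z)
    have e2 := congrArg im (lam_im z)
    simp only [mul_re, mul_im, I_re, I_im, zero_mul, one_mul, zero_sub, zero_add] at e1 e2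
    exact ⟨by rw [e1, abs_neg]; exact (hB z hz).2, by rw [e2]; exact (hB z hz).1⟩
  · simp only [e]
    exact PH_map hx lam_poly.1 lam_poly.2

section W

variable {J : Type} [Fintype J] {b : J → ℂ} {c : J → ℝ} {R : ℝ}

omit [Fintype J] in
theorem convex_WW (b : J → ℂ) (c : J → ℝ) (R : ℝ) : Convex ℝ (WW b c R) := by
  intro x hx y hy s t hs ht hst
  refine ⟨?_, ?_, fun j => ?_⟩
  · exact mem_ball_zero_iff.1 (convex_ball (0 : ℂ) R (mem_ball_zero_iff.2 hx.1)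
      (mem_ball_zero_iff.2 hy.1) hs ht hst)
  · exact mem_ball_zero_iff.1 (convex_ball (0 : ℂ) R (mem_ball_zero_iff.2 hx.2.1)
      (mem_ball_zero_iff.2 hy.2.1) hs ht hst)
  · have e : (lf (b j) (s • x + t • y).1 (s • x + t • y).2).re =
        s • (lf (b j) x.1 x.2).re + t • (lf (b j) y.1 y.2).re := by
      simp [lf]
      ring
    rw [e]
    exact abs_lt.2 (convex_Ioo (-c j) (c j) (abs_lt.1 (hx.2.2 j)) (abs_lt.1 (hy.2.2 j)) hs ht hst)

omit [Fintype J] in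
theorem PH_subset_WW (hK : IsCompact K) (h : K ⊆ WW b c R) : PH K ⊆ WW b c R := by
  intro x hx
  have hne : K.Nonempty := by
    rcases K.eq_empty_or_nonempty with rfl | hne
    · exact absurd (hx _ Poly.zero_mem (-1) fun s hs => hs.elim) (by simp)
    · exact hne
  have hn : ∀ P ∈ Poly, (∀ z ∈ K, ‖P z‖ < R) → ‖P x‖ < R := fun P hP hR => by
    obtain ⟨z, hz, hm⟩ := hK.exists_isMaxOn hne
      (Poly.differentiable hP).continuous.norm.continuousOn
    exact (hx P hP _ fun s hs => hm hs).trans_lt (hR z hz)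
  have hl : ∀ (u v : ℂ) (m : ℝ), (∀ z ∈ K, (u * z.1 + v * z.2).re < m) →
      (u * x.1 + v * x.2).re < m := fun u v m hR => by
    obtain ⟨z, hz, hm⟩ := hK.exists_isMaxOn (f := fun z => (u * z.1 + v * z.2).re) hne
      (by fun_prop)
    exact (re_le_of_PH hK hx u v fun s hs => hm hs).trans_lt (hR z hz)
  refine ⟨hn _ fst_mem_Poly fun z hz => (h hz).1, hn _ snd_mem_Poly fun z hz => (h hz).2.1,
    fun j => abs_lt.2 ⟨?_, ?_⟩⟩
  · have e : ∀ z : ℂ × ℂ, (conj (b j) * z.1 + -b j * z.2).re = -(lf (b j) z.1 z.2).re :=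
      fun z => by rw [← neg_re, lf]; congr 1; ring
    have := hl (conj (b j)) (-b j) (c j) fun z hz => by
      rw [e]; linarith [(abs_lt.1 ((h hz).2.2 j)).1]
    rw [e] at this
    linarith
  · have e : ∀ z : ℂ × ℂ, (-conj (b j) * z.1 + b j * z.2).re = (lf (b j) z.1 z.2).re :=
      fun z => by rw [lf]; congr 1; ring
    have := hl (-conj (b j)) (b j) (c j) fun z hz => by
      rw [e]; exact (abs_lt.1 ((h hz).2.2 j)).2
    rwa [e] at this

end W

/-- neither sheet meets the hull of `∂Ω + i Q` -/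
theorem sheets_not_hull {Ω : Set ℂ} {c₁ c₂ R : ℝ} (hD : Dat A (box d₁ d₂) 0 0)
    (h : MD A (box d₁ d₂) 0 0 p π) (hΩ : Body Ω) (hA : closure A ⊆ Ω) (p1 : 0 < r₁) (p2 : 0 < r₂)
    (h1 : r₁ < d₁) (h2 : r₂ < d₂) (c1 : c₁ ≤ d₁) (c2 : c₂ ≤ d₂)
    (hW : KK Ω (box r₁ r₂) ⊆ WW bb (cc c₁ c₂) R) {x : ℂ × ℂ} (hx : x ∈ PH (KK Ω (box r₁ r₂))) :
    x.2 ≠ gr p x.1 ∧ x.1 ≠ sharp (gr p) x.2 := by
  have hK := isCompact_KK hΩ (body_box p1 p2)
  have key : ∀ y ∈ PH (KK Ω (box r₁ r₂)), y.2 ≠ gr p y.1 := fun y hy e => by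
    have a1 := (abs_lf_bb_lt _ _ _ _).1 (PH_subset_WW hK hW hy).2.2
    rw [e, mem_half] at a1
    refine graph_not_hull hD h hK (fun z hz hz' => ?_) (fun z hz => ?_) h1 h2 (s := y.1)
      ⟨a1.1.trans_le c1, a1.2.trans_le c2⟩ (by rwa [← e])
    · have := hz.1
      rw [hΩ.op.frontier_eq] at this
      exact this.2 (hA hz')
    · have := hz.2
      rwa [closure_box p1 p2] at this
  refine ⟨key x hx, fun e => ?_⟩
  have a1 := PH_map (Λ := Prod.swap) (PH_conj hx) snd_mem_Poly fst_mem_Poly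
  refine key _ (PH_mono ?_ a1) ?_
  · rintro _ ⟨_, ⟨z, hz, rfl⟩, rfl⟩
    refine ⟨by simpa [add_comm] using hz.1, ?_⟩
    have := hz.2
    rw [closure_box p1 p2] at this ⊢
    have e : (conj (Prod.swap (conj z.1, conj z.2)).1 - (Prod.swap (conj z.1, conj z.2)).2) / 2 =
        -((conj z.1 - z.2) / 2) := by
      simp only [Prod.swap, conj_conj]
      ring
    rw [e]
    simpa only [mem_ofPred_eq, neg_re, neg_im, abs_neg] using this
  · simp only [Prod.swap]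
    rw [e, sharp, conj_conj]

end Pool.Agent.NapKL
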