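import Pool.Agent.Lib.MP_b71113_an.KL.Base

/-! The series of images: convergence. -/

namespace Pool.Agent.NapKL

open Set Metric Complex ComplexConjugate

variable {φ ψ : ℂ → ℂ} {q M : ℝ} {w : ℂ}

theorem HC.cont (h : HC φ) : ContinuousOn φ (closedBall 0 1) := h.continuousOn_ball

theorem HC.bound (h : HC φ) : ∃ M, 0 ≤ M ∧ ∀ w, ‖w‖ ≤ 1 → ‖φ w‖ ≤ M := by
  obtain ⟨C, hC⟩ := (isCompact_closedBall (0 : ℂ) 1).exists_bound_of_continuousOn h.cont
  refine ⟨max C 0, le_max_right _ _, fun w hw => ?_⟩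
  exact (hC w (by simpa using hw)).trans (le_max_left _ _)

theorem HC.rot (h : HC φ) {u : ℂ} (hu : ‖u‖ = 1) : HC fun v => φ (u * v) := by
  refine DiffContOnCl.mk_ball ?_ ?_
  · refine h.differentiableOn.comp (by fun_prop) fun v hv => ?_
    simpa [hu] using hv
  · refine h.cont.comp (by fun_prop) fun v hv => ?_
    simpa [hu] using hv

theorem HC.sharp (h : HC φ) : HC fun v => conj (φ (conj v)) := by
  refine DiffContOnCl.mk_ball ?_ ?_
  · intro v hv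
    have h1 : conj v ∈ ball (0 : ℂ) 1 := by simpa using hv
    have h2 := (h.differentiableOn.differentiableAt (isOpen_ball.mem_nhds h1)).conj_conj
    rw [conj_conj] at h2
    exact h2.differentiableWithinAt
  · refine continuous_conj.comp_continuousOn
      (h.cont.comp continuous_conj.continuousOn fun v hv => ?_)
    simpa using hv

theorem HC.cmul (h : HC φ) (t : ℂ) : HC fun v => t * φ v := by
  exact DiffContOnCl.mk_ball (h.differentiableOn.const_mul t) (continuousOn_const.mul h.cont)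

/-- Schwarz lemma; the boundary case by continuity -/
theorem HC.schwarz (h : HC φ) (hM : ∀ w, ‖w‖ ≤ 1 → ‖φ w‖ ≤ M) (hw : ‖w‖ ≤ 1) :
    ‖φ w - φ 0‖ ≤ 2 * M * ‖w‖ := by
  have key : ∀ z ∈ ball (0 : ℂ) 1, ‖φ z - φ 0‖ ≤ 2 * M * ‖z‖ := by
    intro z hz
    have hm : MapsTo φ (ball 0 1) (closedBall (φ 0) (2 * M)) := by
      intro v hv
      have h1 := hM v (mem_ball_zero_iff.1 hv).le
      have h2 := hM 0 (by simp)
      rw [mem_closedBall, dist_eq_norm]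
      have := norm_sub_le (φ v) (φ 0)
      linarith
    have := Complex.dist_le_div_mul_dist_of_mapsTo_ball h.differentiableOn hm hz
    simpa [dist_eq_norm] using this
  have hcl : closure (ball (0 : ℂ) 1) = closedBall 0 1 := closure_ball _ one_ne_zero
  have hw' : w ∈ closure (ball (0 : ℂ) 1) := by
    rw [hcl]
    simpa using hw
  refine ContinuousWithinAt.closure_le hw' ?_ ?_ key
  · have := h.cont w (by simpa using hw)
    exact ((this.mono ball_subset_closedBall).sub continuousWithinAt_const).norm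
  · exact (by fun_prop : Continuous fun z : ℂ => 2 * M * ‖z‖).continuousWithinAt

theorem ser0_norm1 (hq : q ∈ Ioo (0 : ℝ) 1) (w : ℂ) (n : ℕ) :
    ‖(-(q : ℂ)) ^ (n + 1) * w‖ = q ^ (n + 1) * ‖w‖ := by
  rw [norm_mul, norm_pow, norm_neg, Complex.norm_real, Real.norm_of_nonneg hq.1.le]

theorem ser0_norm2 (hq : q ∈ Ioo (0 : ℝ) 1) (w : ℂ) (n : ℕ) :
    ‖(-(q : ℂ)) ^ (n + 1) / conj w‖ = q ^ (n + 1) * ‖w‖⁻¹ := by
  rw [norm_div, norm_pow, norm_neg, Complex.norm_real, Real.norm_of_nonneg hq.1.le,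
    Complex.norm_conj, div_eq_mul_inv]

theorem ser0_arg1 (hq : q ∈ Ioo (0 : ℝ) 1) (hw : w ∈ ring q q⁻¹) (n : ℕ) :
    ‖(-(q : ℂ)) ^ (n + 1) * w‖ ≤ 1 := by
  rw [ser0_norm1 hq]
  have h1 : q ^ n ≤ 1 := pow_le_one₀ hq.1.le hq.2.le
  have h2 : q * ‖w‖ ≤ 1 := by
    have := mul_le_mul_of_nonneg_left hw.2 hq.1.le
    rwa [mul_inv_cancel₀ hq.1.ne'] at this
  have h3 : 0 ≤ q * ‖w‖ := mul_nonneg hq.1.le (norm_nonneg _)
  calc q ^ (n + 1) * ‖w‖ = q ^ n * (q * ‖w‖) := by ring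
    _ ≤ 1 * 1 := by gcongr
    _ = 1 := by ring

theorem ser0_arg2 (hq : q ∈ Ioo (0 : ℝ) 1) (hw : w ∈ ring q q⁻¹) (n : ℕ) :
    ‖(-(q : ℂ)) ^ (n + 1) / conj w‖ ≤ 1 := by
  rw [ser0_norm2 hq]
  have h1 : q ^ n ≤ 1 := pow_le_one₀ hq.1.le hq.2.le
  have h0 : 0 < ‖w‖ := hq.1.trans_le hw.1
  have h2 : q * ‖w‖⁻¹ ≤ 1 := by
    rw [← div_eq_mul_inv, div_le_one h0]
    exact hw.1
  have h3 : 0 ≤ q * ‖w‖⁻¹ := mul_nonneg hq.1.le (inv_nonneg.2 h0.le)
  calc q ^ (n + 1) * ‖w‖⁻¹ = q ^ n * (q * ‖w‖⁻¹) := by ring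
    _ ≤ 1 * 1 := by gcongr
    _ = 1 := by ring

theorem ser0_geom {r : ℝ} (h0 : 0 ≤ r) (h1 : r < 1) (C : ℝ) :
    Summable fun n : ℕ => C * r ^ (n + 1) := by
  have := (summable_geometric_of_lt_one h0 h1).mul_left (C * r)
  refine this.congr fun n => ?_
  ring

theorem norm_tm_le (h : HC φ) (hM : ∀ w, ‖w‖ ≤ 1 → ‖φ w‖ ≤ M) (hq : q ∈ Ioo (0 : ℝ) 1)
    (hw : w ∈ ring q q⁻¹) (n : ℕ) : ‖tm q φ w n‖ ≤ 2 * M * (‖w‖ + ‖w‖⁻¹) * q ^ (n + 1) := by
  have h1 := h.schwarz hM (ser0_arg1 hq hw n)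
  have h2 := h.schwarz hM (ser0_arg2 hq hw n)
  rw [ser0_norm1 hq] at h1
  rw [ser0_norm2 hq] at h2
  unfold tm
  rw [norm_mul, norm_pow, norm_neg, norm_one, one_pow, one_mul]
  refine (norm_sub_le _ _).trans ?_
  rw [Complex.norm_conj]
  calc _ ≤ 2 * M * (q ^ (n + 1) * ‖w‖) + 2 * M * (q ^ (n + 1) * ‖w‖⁻¹) := add_le_add h1 h2
    _ = _ := by ring

theorem ser0_le {q₀ q₁ : ℝ} (h : HC φ) (hM : ∀ w, ‖w‖ ≤ 1 → ‖φ w‖ ≤ M)
    (hq : q ∈ Ioo (0 : ℝ) 1) (hw : w ∈ ring q q⁻¹) (h0 : 0 < q₀) (h1 : q₀ ≤ q) (h2 : q ≤ q₁)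
    (n : ℕ) : ‖tm q φ w n‖ ≤ 2 * M * (q₀⁻¹ + q₀⁻¹) * q₁ ^ (n + 1) := by
  have hM0 : 0 ≤ M := (norm_nonneg _).trans (hM 0 (by simp))
  have h3 : q⁻¹ ≤ q₀⁻¹ := inv_anti₀ h0 h1
  have h4 : ‖w‖ ≤ q₀⁻¹ := hw.2.trans h3
  have h5 : ‖w‖⁻¹ ≤ q₀⁻¹ := inv_anti₀ h0 (h1.trans hw.1)
  have h6 := hq.1.le
  refine (norm_tm_le h hM hq hw n).trans ?_
  gcongr

theorem summable_tm (h : HC φ) (hq : q ∈ Ioo (0 : ℝ) 1) (hw : w ∈ ring q q⁻¹) :
    Summable (tm q φ w) := by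
  obtain ⟨M, -, hM⟩ := h.bound
  exact Summable.of_norm_bounded (ser0_geom hq.1.le hq.2 _) (norm_tm_le h hM hq hw)

/-- `differentiableOn_tsum_of_summable_norm`; `conj (φ (c / conj w))` is the composition of
`HC.sharp` with `w ↦ c / w` for real `c` -/
theorem GG_diff (h : HC φ) (hq : q ∈ Ioo (0 : ℝ) 1) :
    DifferentiableOn ℂ (GG q φ) (oring q q⁻¹) := by
  obtain ⟨M, hM0, hM⟩ := h.bound
  have hO : IsOpen (oring q q⁻¹) :=
    (isOpen_lt continuous_const continuous_norm).inter (isOpen_lt continuous_norm continuous_const)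
  refine (differentiableOn_const _).add ?_
  refine differentiableOn_tsum_of_summable_norm (F := fun n w => tm q φ w n)
    (ser0_geom hq.1.le hq.2 (2 * M * (q⁻¹ + q⁻¹))) (fun n => ?_) hO (fun n w hw => ?_)
  · have e : (fun w => tm q φ w n) = fun w => (-1) ^ (n + 1) *
        ((φ ((-(q : ℂ)) ^ (n + 1) * w) - φ 0) -
          (conj (φ (conj ((-(q : ℂ)) ^ (n + 1) / w))) - conj (φ 0))) := by
      funext w
      simp [tm]
    rw [e]
    refine DifferentiableOn.const_mul (DifferentiableOn.sub (DifferentiableOn.sub_const ?_ _)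
      (DifferentiableOn.sub_const ?_ _)) _
    · refine h.differentiableOn.comp (by fun_prop) fun w hw => ?_
      rw [mem_ball_zero_iff, ser0_norm1 hq]
      have h1 : q ^ n ≤ 1 := pow_le_one₀ hq.1.le hq.2.le
      have h2 : q * ‖w‖ < 1 := by
        have := mul_lt_mul_of_pos_left hw.2 hq.1
        rwa [mul_inv_cancel₀ hq.1.ne'] at this
      have h3 : 0 ≤ q * ‖w‖ := mul_nonneg hq.1.le (norm_nonneg _)
      calc q ^ (n + 1) * ‖w‖ = q ^ n * (q * ‖w‖) := by ring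
        _ ≤ 1 * (q * ‖w‖) := by gcongr
        _ < 1 := by linarith
    · refine h.sharp.differentiableOn.comp (f := fun w : ℂ => (-(q : ℂ)) ^ (n + 1) / w) ?_
        fun w hw => ?_
      · refine (differentiableOn_const _).div differentiableOn_id fun w hw => ?_
        exact norm_pos_iff.1 (hq.1.trans hw.1)
      · rw [mem_ball_zero_iff, ← Complex.norm_conj, map_div₀, map_pow, map_neg, conj_ofReal,
          ser0_norm2 hq]
        have h1 : q ^ n ≤ 1 := pow_le_one₀ hq.1.le hq.2.le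
        have h0 : 0 < ‖w‖ := hq.1.trans hw.1
        have h2 : q * ‖w‖⁻¹ < 1 := by
          rw [← div_eq_mul_inv, div_lt_one h0]
          exact hw.1
        have h3 : 0 ≤ q * ‖w‖⁻¹ := mul_nonneg hq.1.le (inv_nonneg.2 h0.le)
        calc q ^ (n + 1) * ‖w‖⁻¹ = q ^ n * (q * ‖w‖⁻¹) := by ring
          _ ≤ 1 * (q * ‖w‖⁻¹) := by gcongr
          _ < 1 := by linarith
  · have hw' : w ∈ ring q q⁻¹ := ⟨hw.1.le, hw.2.le⟩
    exact ser0_le h hM hq hw' hq.1 le_rfl le_rfl n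

/-- `continuousOn_tsum` -/
theorem GG_param {X : Type} [TopologicalSpace X] {P : Set X} {Φ : X → ℂ → ℂ} {Q : X → ℝ}
    {W : X → ℂ} {q₀ q₁ : ℝ} (h0 : 0 < q₀) (h1 : q₁ < 1)
    (hΦ : ContinuousOn (fun p : X × ℂ => Φ p.1 p.2) (P ×ˢ closedBall 0 1))
    (hc : ∀ x ∈ P, HC (Φ x)) (hM : ∀ x ∈ P, ∀ w, ‖w‖ ≤ 1 → ‖Φ x w‖ ≤ M)
    (hQ : ContinuousOn Q P) (hq : ∀ x ∈ P, Q x ∈ Icc q₀ q₁) (hW : ContinuousOn W P)
    (hw : ∀ x ∈ P, W x ∈ ring (Q x) (Q x)⁻¹) :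
    ContinuousOn (fun x => GG (Q x) (Φ x) (W x)) P := by
  rcases P.eq_empty_or_nonempty with rfl | ⟨x₀, hx₀⟩
  · exact continuousOn_empty _
  have hq1 : 0 ≤ q₁ := (h0.le.trans (hq x₀ hx₀).1).trans (hq x₀ hx₀).2
  have hI : ∀ x ∈ P, Q x ∈ Ioo (0 : ℝ) 1 := fun x hx =>
    ⟨h0.trans_le (hq x hx).1, (hq x hx).2.trans_lt h1⟩
  have hA : ∀ {A : X → ℂ}, ContinuousOn A P → (∀ x ∈ P, ‖A x‖ ≤ 1) →
      ContinuousOn (fun x => Φ x (A x)) P := by
    intro A hA hA1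
    refine hΦ.comp (f := fun x => (x, A x)) (continuousOn_id.prodMk hA) fun x hx => ⟨hx, ?_⟩
    simpa using hA1 x hx
  have hZ : ContinuousOn (fun x => Φ x 0) P := hA continuousOn_const fun _ _ => by simp
  have hQ' : ContinuousOn (fun x => (Q x : ℂ)) P := continuous_ofReal.comp_continuousOn hQ
  refine ContinuousOn.add (continuousOn_const.mul
    (continuous_ofReal.comp_continuousOn (continuous_im.comp_continuousOn hZ))) ?_
  refine continuousOn_tsum (f := fun n x => tm (Q x) (Φ x) (W x) n) (fun n => ?_)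
    (ser0_geom hq1 h1 (2 * M * (q₀⁻¹ + q₀⁻¹))) fun n x hx => ?_
  · refine continuousOn_const.mul (ContinuousOn.sub (ContinuousOn.sub ?_ hZ)
      (continuous_conj.comp_continuousOn (ContinuousOn.sub ?_ hZ)))
    · exact hA ((hQ'.neg.pow _).mul hW) fun x hx => ser0_arg1 (hI x hx) (hw x hx) n
    · refine hA ((hQ'.neg.pow _).div (continuous_conj.comp_continuousOn hW) fun x hx => ?_)
        fun x hx => ser0_arg2 (hI x hx) (hw x hx) n
      have : 0 < ‖W x‖ := (hI x hx).1.trans_le (hw x hx).1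
      simpa using norm_pos_iff.1 this
  · exact ser0_le (hc x hx) (hM x hx) (hI x hx) (hw x hx) h0 (hq x hx).1 (hq x hx).2 n

theorem GG_cont (h : HC φ) (hq : q ∈ Ioo (0 : ℝ) 1) : ContinuousOn (GG q φ) (ring q q⁻¹) := by
  obtain ⟨M, -, hM⟩ := h.bound
  refine GG_param (X := ℂ) (P := ring q q⁻¹) (Φ := fun _ => φ) (Q := fun _ => q) (W := fun w => w)
    (q₀ := q) (q₁ := q) (M := M) hq.1 hq.2 ?_ (fun _ _ => h) (fun _ _ => hM) continuousOn_const
    (fun _ _ => ⟨le_rfl, le_rfl⟩) continuousOn_id fun _ hx => hx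
  exact h.cont.comp continuousOn_snd fun p hp => hp.2

end Pool.Agent.NapKL
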