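import Pool.Agent.Lib.MP_b71113_an.KL.Ser0

/-! The series of images: formal properties. -/

namespace Pool.Agent.NapKL

open Set Metric Complex ComplexConjugate

variable {φ ψ : ℂ → ℂ} {q M : ℝ} {w : ℂ}

theorem GG_inv (q : ℝ) (φ : ℂ → ℂ) (w : ℂ) : GG q φ (conj w)⁻¹ = -conj (GG q φ w) := by
  have e : ∀ n, tm q φ (conj w)⁻¹ n = -conj (tm q φ w n) := fun n => by
    simp only [tm, map_inv₀, conj_conj, div_inv_eq_mul, ← div_eq_mul_inv, map_mul, map_pow,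
      map_neg, map_one, map_sub]
    ring
  simp only [GG, e, tsum_neg, map_add, conj_tsum, map_mul, map_neg, conj_I, conj_ofReal]
  ring

theorem ser1_lim (h : HC φ) (hq : q ∈ Ioo (0 : ℝ) 1) (z : ℂ) :
    Filter.Tendsto (fun n : ℕ => (-1 : ℂ) ^ n * (φ ((-(q : ℂ)) ^ n * z) - φ 0)) Filter.atTop
      (nhds 0) := by
  have h1 : Filter.Tendsto (fun n : ℕ => (-(q : ℂ)) ^ n * z) Filter.atTop (nhds 0) := by
    simpa using (tendsto_pow_atTop_nhds_zero_of_norm_lt_one (x := -(q : ℂ))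
      (by simpa [abs_of_pos hq.1] using hq.2)).mul_const z
  have h2 := ((h.differentiableAt isOpen_ball (mem_ball_self one_pos)).continuousAt.tendsto.comp
    h1).sub_const (φ 0)
  rw [sub_self, tendsto_zero_iff_norm_tendsto_zero] at h2
  rw [tendsto_zero_iff_norm_tendsto_zero]
  simpa using h2

/-- telescoping -/
theorem ann_sym (h : HC φ) (hq : q ∈ Ioo (0 : ℝ) 1) (hw : w ∈ ring q 1) :
    ann q φ (-(q : ℂ) / conj w) = conj (ann q φ w) := by
  have h1 : (1 : ℝ) ≤ q⁻¹ := (one_le_inv₀ hq.1).2 hq.2.le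
  have h2 : 0 < ‖w‖ := hq.1.trans_le hw.1
  have h3 : -(q : ℂ) / conj w ∈ ring q q⁻¹ := by
    have e : ‖-(q : ℂ) / conj w‖ = q / ‖w‖ := by simp [abs_of_pos hq.1]
    rw [ring, mem_ofPred_eq, e]
    exact ⟨le_div_self hq.1.le h2 hw.2, ((div_le_one h2).2 hw.1).trans h1⟩
  have hq0 : (q : ℂ) ≠ 0 := ofReal_ne_zero.2 hq.1.ne'
  let c : ℕ → ℂ := fun n => conj ((-1 : ℂ) ^ n * (φ ((-(q : ℂ)) ^ n * w) - φ 0)) -
    (-1 : ℂ) ^ n * (φ ((-(q : ℂ)) ^ n * (-(q : ℂ) / conj w)) - φ 0)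
  have h4 : Filter.Tendsto c Filter.atTop (nhds 0) := by
    have := ((continuous_conj.tendsto 0).comp (ser1_lim h hq w)).sub
      (ser1_lim h hq (-(q : ℂ) / conj w))
    rwa [map_zero, sub_zero] at this
  have h5 : ∀ n, tm q φ (-(q : ℂ) / conj w) n - conj (tm q φ w n) = c n - c (n + 1) := fun n => by
    have e1 : (-(q : ℂ)) ^ (n + 1) / conj (-(q : ℂ) / conj w) = (-(q : ℂ)) ^ n * w := by
      rw [map_div₀, map_neg, conj_ofReal, conj_conj, div_div_eq_mul_div, pow_succ]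
      field_simp
    have e2 : (-(q : ℂ)) ^ (n + 1) / conj w = (-(q : ℂ)) ^ n * (-(q : ℂ) / conj w) := by ring
    simp only [tm, c]
    rw [e1, e2]
    simp only [map_mul, map_pow, map_neg, map_one, map_sub, conj_conj]
    ring
  have h6 := ((summable_tm h hq h3).hasSum.sub (hasSum_conj'.2
    (summable_tm h hq ⟨hw.1, hw.2.trans h1⟩).hasSum)).tendsto_sum_nat
  simp only [h5, Finset.sum_range_sub'] at h6
  have h7 := tendsto_nhds_unique h6 (h4.const_sub (c 0))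
  simp only [c, pow_zero, one_mul, sub_zero, map_sub] at h7
  simp only [ann, GG, map_add, map_mul, map_neg, conj_I, conj_ofReal]
  have h8 := sub_conj (φ 0)
  push_cast at h8
  linear_combination h7 + h8

theorem GG_add (h : HC φ) (h' : HC ψ) (hq : q ∈ Ioo (0 : ℝ) 1) (hw : w ∈ ring q q⁻¹) :
    GG q (fun u => φ u + ψ u) w = GG q φ w + GG q ψ w := by
  have e : ∀ n, tm q (fun u => φ u + ψ u) w n = tm q φ w n + tm q ψ w n := fun n => by
    simp only [tm, map_add, map_sub]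
    ring
  simp only [GG, e, (summable_tm h hq hw).tsum_add (summable_tm h' hq hw), add_im, ofReal_add]
  ring

theorem GG_smul (q t : ℝ) (φ : ℂ → ℂ) (w : ℂ) :
    GG q (fun u => (t : ℂ) * φ u) w = t * GG q φ w := by
  have e : ∀ n, tm q (fun u => (t : ℂ) * φ u) w n = t * tm q φ w n := fun n => by
    simp only [tm, map_mul, map_sub, conj_ofReal]
    ring
  simp only [GG, e, tsum_mul_left, im_ofReal_mul, ofReal_mul]
  ring

theorem GG_neg (q : ℝ) (φ : ℂ → ℂ) (w : ℂ) : GG q (fun u => -φ u) w = -GG q φ w := by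
  simpa using GG_smul q (-1) φ w

theorem GG_sub (h : HC φ) (h' : HC ψ) (hq : q ∈ Ioo (0 : ℝ) 1) (hw : w ∈ ring q q⁻¹) :
    GG q (fun u => φ u - ψ u) w = GG q φ w - GG q ψ w := by
  simp only [sub_eq_add_neg]
  rw [GG_add h (ψ := fun u => -ψ u) h'.neg hq hw, GG_neg]

theorem GG_rot (q : ℝ) (φ : ℂ → ℂ) {u : ℂ} (hu : ‖u‖ = 1) (w : ℂ) :
    GG q (fun v => φ (u * v)) w = GG q φ (u * w) := by
  have e : ∀ n, tm q (fun v => φ (u * v)) w n = tm q φ (u * w) n := fun n => by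
    have e1 : u * ((-(q : ℂ)) ^ (n + 1) / conj w) = (-(q : ℂ)) ^ (n + 1) / conj (u * w) := by
      rw [map_mul, ← inv_eq_conj hu, ← div_div, div_inv_eq_mul]
      ring
    simp only [tm, mul_zero, e1, mul_left_comm u]
  simp only [GG, e, mul_zero]

theorem GG_sharp (q : ℝ) (φ : ℂ → ℂ) (w : ℂ) :
    GG q (fun v => conj (φ (conj v))) w = conj (GG q φ (conj w)) := by
  have e : ∀ n, tm q (fun v => conj (φ (conj v))) w n = conj (tm q φ (conj w) n) := fun n => by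
    simp only [tm, map_mul, map_pow, map_neg, map_one, map_sub, map_div₀, conj_ofReal, map_zero]
  simp only [GG, e, map_add, conj_tsum, map_mul, map_neg, conj_I, conj_ofReal, map_zero, conj_im,
    ofReal_neg]
  ring

theorem GG_small (h : HC φ) (hM : ∀ w, ‖w‖ ≤ 1 → ‖φ w‖ ≤ M) (h0 : 0 < q) (h1 : q ≤ 1 / 2)
    (hw : w ∈ ring q q⁻¹) : ‖GG q φ w + I * ((φ 0).im : ℂ)‖ ≤ 4 * M * q * (‖w‖ + ‖w‖⁻¹) := by
  have h2 : q < 1 := by linarith
  have h3 : 0 ≤ M := (norm_nonneg _).trans (hM 0 (by simp))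
  have h4 := tsum_of_norm_bounded ((hasSum_geometric_of_lt_one h0.le h2).mul_left
    (2 * M * (‖w‖ + ‖w‖⁻¹) * q)) fun n => (norm_tm_le h hM ⟨h0, h2⟩ hw n).trans_eq (by ring)
  have h5 : (1 - q)⁻¹ ≤ 2 := (inv_le_comm₀ (by linarith) two_pos).2 (by linarith)
  rw [GG, neg_mul, add_comm, add_neg_cancel_left]
  refine h4.trans ((mul_le_mul_of_nonneg_left h5 (by positivity)).trans_eq (by ring))

theorem re_GG_circle (q : ℝ) (φ : ℂ → ℂ) (hw : ‖w‖ = 1) : (GG q φ w).re = 0 := by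
  have h := congrArg re (GG_inv q φ w)
  rw [← inv_eq_conj hw, inv_inv, neg_re, conj_re] at h
  linarith

theorem hasSum_DD (h : HC φ) (hq : q ∈ Ioo (0 : ℝ) 1) (hw : w ∈ ring q q⁻¹) :
    HasSum (fun n : ℕ => (-1 : ℝ) ^ (n + 1) * (((φ ((-(q : ℂ)) ^ (n + 1) * w)).im - (φ 0).im) +
      ((φ ((-(q : ℂ)) ^ (n + 1) / conj w)).im - (φ 0).im))) (DD q φ w + (φ 0).im) := by
  convert hasSum_im (summable_tm h hq hw).hasSum using 1
  · funext n
    have e : (-1 : ℂ) ^ (n + 1) = (((-1 : ℝ) ^ (n + 1) : ℝ) : ℂ) := by simp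
    rw [tm, e, im_ofReal_mul, sub_im, conj_im, sub_im, sub_im, sub_neg_eq_add]
  · simp [DD, GG]

theorem DD_congr (h : HC φ) (h' : HC ψ) (hq : q ∈ Ioo (0 : ℝ) 1) (hw : w ∈ ring q q⁻¹)
    (he : ∀ u, ‖u‖ ≤ 1 → (φ u).im = (ψ u).im) : DD q φ w = DD q ψ w := by
  have h1 := hasSum_DD h hq hw
  have h2 : ∀ n : ℕ, ‖(-(q : ℂ)) ^ (n + 1)‖ ≤ q := fun n => by
    rw [norm_pow, norm_neg, norm_real, Real.norm_of_nonneg hq.1.le]
    exact pow_le_of_le_one hq.1.le hq.2.le n.succ_ne_zero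
  have h3 : ∀ n : ℕ, (φ ((-(q : ℂ)) ^ (n + 1) * w)).im = (ψ ((-(q : ℂ)) ^ (n + 1) * w)).im :=
    fun n => he _ (by
      rw [norm_mul]
      exact (mul_le_mul (h2 n) hw.2 (norm_nonneg _) hq.1.le).trans_eq (mul_inv_cancel₀ hq.1.ne'))
  have h4 : ∀ n : ℕ, (φ ((-(q : ℂ)) ^ (n + 1) / conj w)).im =
      (ψ ((-(q : ℂ)) ^ (n + 1) / conj w)).im := fun n => he _ (by
    rw [norm_div, norm_conj]
    exact div_le_one_of_le₀ ((h2 n).trans hw.1) (norm_nonneg _))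
  simp only [h3, h4, he 0 (by simp)] at h1
  exact add_right_cancel (h1.unique (hasSum_DD h' hq hw))

end Pool.Agent.NapKL
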