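import Pool.Agent.Lib.MP_b71113_an.KL.Max

/-! Signs of the correction. -/

namespace Pool.Agent.NapKL

open Set Metric Complex ComplexConjugate

variable {φ φ₁ φ₂ : ℂ → ℂ} {q m k : ℝ} {w : ℂ}

theorem ser2_neg (h : HC φ) : HC fun v => φ (-v) := by
  simpa only [neg_one_mul] using h.rot (u := -1) (by simp)

theorem ser2_refl (h : HC φ) : HC fun v => conj (φ (-conj v)) := (ser2_neg h).sharp

theorem ser2_GG (q : ℝ) (φ : ℂ → ℂ) (w : ℂ) : GG q (fun v => φ (-v)) w = GG q φ (-w) := by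
  simpa only [neg_one_mul] using GG_rot q φ (u := -1) (by simp) w

theorem ser2_eq (h1 : HC φ₁) (h2 : HC φ₂) (he : ∀ u, ‖u‖ = 1 → (φ₁ u).im = (φ₂ u).im)
    (hw : ‖w‖ ≤ 1) : (φ₁ w).im = (φ₂ w).im := by
  have h : HC fun v => φ₁ v - φ₂ v := h1.sub h2
  have a := h.im_le (m := 0) (fun u hu => by rw [sub_im, he u hu, sub_self]) hw
  have b := h.le_im (m := 0) (fun u hu => by rw [sub_im, he u hu, sub_self]) hw
  rw [sub_im] at a b
  linarith

theorem ser2_ring (hq : q ∈ Ioo (0 : ℝ) 1) (hw : ‖w‖ = 1) : w ∈ ring q q⁻¹ :=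
  ⟨hw ▸ hq.2.le, hw ▸ (one_le_inv₀ hq.1).2 hq.2.le⟩

theorem ser2_half (h : HC φ) (h0 : ∀ u, ‖u‖ ≤ 1 → u.re = 0 → 0 ≤ (φ u).im)
    (hp : ∀ u, ‖u‖ = 1 → 0 ≤ u.re → 0 ≤ (φ u).im) (hw : ‖w‖ ≤ 1) (hr : 0 ≤ w.re) :
    0 ≤ (φ w).im := by
  rcases hw.eq_or_lt with h1 | h1
  · exact hp w h1 hr
  rcases hr.eq_or_lt with h2 | h2
  · exact h0 w hw h2.symm
  have e : ∀ z : ℂ, ‖exp (I * z)‖ ≤ 1 ↔ 0 ≤ z.im := fun z => by
    rw [norm_exp, Real.exp_le_one_iff]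
    simp
  have hd : DiffContOnCl ℂ (fun v => exp (I * φ v)) (ball 0 1 ∩ {z : ℂ | 0 < z.re}) :=
    differentiable_exp.comp_diffContOnCl ((h.cmul I).mono inter_subset_left)
  refine (e _).1 (norm_le_of_forall_mem_frontier_norm_le (isBounded_ball.subset inter_subset_left)
    hd (fun z hz => (e _).2 ?_) (subset_closure ⟨mem_ball_zero_iff.2 h1, h2⟩))
  rcases frontier_inter_subset _ _ hz with ⟨a, b⟩ | ⟨a, b⟩
  · rw [frontier_ball _ one_ne_zero] at a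
    rw [closure_setOfPred_lt_re] at b
    exact hp z (mem_sphere_zero_iff_norm.1 a) b
  · rw [closure_ball _ one_ne_zero] at a
    rw [frontier_setOfPred_lt_re] at b
    exact h0 z (mem_closedBall_zero_iff.1 a) b

/-- The imaginary part is odd in the whole disc, vanishes on the imaginary diameter, is
nonnegative in the right half disc; every term in `hasSum_DD` is nonnegative. -/
theorem DD_odd (h : HC φ) (hq : q ∈ Ioo (0 : ℝ) 1)
    (ho : ∀ u, ‖u‖ = 1 → (φ (-conj u)).im = -(φ u).im)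
    (hp : ∀ u, ‖u‖ = 1 → 0 ≤ u.re → 0 ≤ (φ u).im) (hw : ‖w‖ = 1) (hr : 0 ≤ w.re) :
    0 ≤ DD q φ w := by
  have h1 : ∀ u, ‖u‖ ≤ 1 → (φ u).im = -(φ (-conj u)).im := fun u hu =>
    ser2_eq h (ser2_refl h) (fun v hv => by rw [conj_im, ho v hv, neg_neg]) hu
  have h2 : ∀ u, ‖u‖ ≤ 1 → u.re = 0 → (φ u).im = 0 := fun u hu h0 => by
    have a := h1 u hu
    rw [show -conj u = u from Complex.ext (by simp [h0]) (by simp)] at a
    linarith
  have h3 : ∀ u, ‖u‖ ≤ 1 → 0 ≤ u.re → 0 ≤ (φ u).im := fun u hu =>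
    ser2_half h (fun v hv h0 => (h2 v hv h0).ge) hp hu
  have h4 := hasSum_DD h hq (ser2_ring hq hw)
  rw [h2 0 (by simp) rfl, add_zero] at h4
  refine h4.nonneg fun n => ?_
  have h5 : (conj w)⁻¹ = w := by rw [← map_inv₀, inv_eq_conj hw, conj_conj]
  have h6 : 0 ≤ q ^ (n + 1) := pow_nonneg hq.1.le _
  have h7 : ‖(q : ℂ) ^ (n + 1) * w‖ ≤ 1 := by
    rw [norm_mul, hw, mul_one, norm_pow, norm_real, Real.norm_of_nonneg hq.1.le]
    exact pow_le_one₀ hq.1.le hq.2.le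
  have h8 : 0 ≤ ((q : ℂ) ^ (n + 1) * w).re := by
    rw [← ofReal_pow, re_ofReal_mul]
    exact mul_nonneg h6 hr
  rw [div_eq_mul_inv, h5, sub_zero]
  rcases Nat.even_or_odd (n + 1) with hn | hn
  · rw [hn.neg_pow, hn.neg_pow, one_pow, one_mul]
    exact add_nonneg (h3 _ h7 h8) (h3 _ h7 h8)
  · have h9 := h3 (conj ((q : ℂ) ^ (n + 1) * w)) (by rwa [norm_conj]) (by rwa [conj_re])
    rw [hn.neg_pow, hn.neg_pow, one_pow, neg_mul ((q : ℂ) ^ (n + 1)), h1 _ (by rwa [norm_neg]),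
      map_neg, neg_neg]
    linarith

/-- The imaginary part is even in the disc, so `DD` is even (`GG_rot`, `DD_congr`); for
`‖u‖ = √q`, `ann_sym` gives `DD u = -(φ u).im`; `GG_inv`; `re_le_of_ring` on
`ring √q (√q)⁻¹`. -/
theorem DD_even (h : HC φ) (hq : q ∈ Ioo (0 : ℝ) 1)
    (he : ∀ u, ‖u‖ = 1 → (φ (-u)).im = (φ u).im) (hk : ∀ u, ‖u‖ = 1 → -k ≤ (φ u).im)
    (hw : ‖w‖ = 1) : DD q φ w ≤ k := by
  have h1 : ∀ u, ‖u‖ ≤ 1 → (φ (-u)).im = (φ u).im := fun u hu => ser2_eq (ser2_neg h) h he hu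
  have s0 : 0 < √q := Real.sqrt_pos.2 hq.1
  have s1 : √q < 1 := (Real.sqrt_lt' one_pos).2 (by rw [one_pow]; exact hq.2)
  have s2 : q < √q := by nlinarith [Real.mul_self_sqrt hq.1.le]
  have s3 : (√q)⁻¹ < q⁻¹ := inv_strictAnti₀ hq.1 s2
  have s4 : 1 ≤ (√q)⁻¹ := (one_le_inv₀ s0).2 s1.le
  have h2 : ∀ u, ‖u‖ = √q → DD q φ u ≤ k := by
    intro u hu
    have a1 : DD q φ (-u) = DD q φ u := by
      rw [← DD_congr (w := u) (ser2_neg h) h hq
        ⟨hu ▸ s2.le, hu ▸ (s1.le.trans (s4.trans s3.le))⟩ h1, DD, DD, ser2_GG]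
    have a2 : -(q : ℂ) / conj u = -u := by
      have a3 : u ≠ 0 := norm_pos_iff.1 (hu ▸ s0)
      rw [div_eq_iff ((map_ne_zero _).2 a3), neg_mul, mul_conj', hu, ← ofReal_pow,
        Real.sq_sqrt hq.1.le]
    have a4 := congrArg im (ann_sym h hq (w := u) ⟨hu ▸ s2.le, hu ▸ s1.le⟩)
    have a5 := h.le_im hk (w := u) (hu ▸ s1.le)
    rw [a2, ann, ann, conj_im, add_im, add_im, h1 u (hu ▸ s1.le)] at a4
    unfold DD at a1 ⊢
    linarith
  have e : ∀ u, (-I * GG q φ u).re = DD q φ u := fun u => by simp [DD]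
  rw [← e]
  refine re_le_of_ring (f := fun u => -I * GG q φ u) (a := √q) (b := (√q)⁻¹)
    (((GG_diff h hq).mono fun u hu => ⟨s2.trans hu.1, hu.2.trans s3⟩).const_mul _)
    (continuousOn_const.mul ((GG_cont h hq).mono fun u hu => ⟨s2.le.trans hu.1, hu.2.trans s3.le⟩))
    (fun u _ hu => ?_) ⟨hw ▸ s1.le, hw ▸ s4⟩
  rw [e]
  rcases hu with hu | hu
  · exact h2 u hu
  · have a1 := congrArg im (GG_inv q φ (conj u)⁻¹)
    rw [map_inv₀, conj_conj, inv_inv, neg_im, conj_im, neg_neg] at a1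
    exact (le_of_eq a1).trans (h2 _ (by rw [norm_inv, norm_conj, hu, inv_inv]))

/-- `DD_odd` for `v ↦ φ v + conj (φ (-conj v))` -/
theorem DD_refl (h : HC φ) (hq : q ∈ Ioo (0 : ℝ) 1)
    (hp : ∀ u, ‖u‖ = 1 → 0 ≤ u.re → (φ (-conj u)).im ≤ (φ u).im) (hw : ‖w‖ = 1)
    (hr : 0 ≤ w.re) : DD q φ (-conj w) ≤ DD q φ w := by
  have h1 := DD_odd (φ := fun v => φ v + conj (φ (-conj v))) (h.add (ser2_refl h)) hq
    (fun u _ => by simp) (fun u hu h0 => by simpa using hp u hu h0) hw hr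
  rw [DD, GG_add h (ser2_refl h) hq (ser2_ring hq hw), GG_sharp q (fun v => φ (-v)), ser2_GG,
    add_im, conj_im] at h1
  unfold DD
  linarith

/-- `s v = φ v - conj (φ (conj v))`; `DD_refl` for `-s` and `DD_even` for `s v + s (-v)` -/
theorem DD_pair (h : HC φ) (hq : q ∈ Ioo (0 : ℝ) 1)
    (ho : ∀ u, ‖u‖ = 1 → 0 ≤ u.re →
      (φ u).im + (φ (conj u)).im ≤ (φ (-u)).im + (φ (-conj u)).im)
    (he : ∀ u, ‖u‖ = 1 →
      -(2 * k) ≤ (φ u).im + (φ (conj u)).im + (φ (-u)).im + (φ (-conj u)).im)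
    (hw : ‖w‖ = 1) (hr : 0 ≤ w.re) : DD q φ w + DD q φ (conj w) ≤ k := by
  have hs : HC fun v => φ v - conj (φ (conj v)) := h.sub h.sharp
  have h1 : ∀ u, ‖u‖ = 1 → DD q (fun v => φ v - conj (φ (conj v))) u =
      DD q φ u + DD q φ (conj u) := fun u hu => by
    rw [DD, GG_sub h h.sharp hq (ser2_ring hq hu), GG_sharp, sub_im, conj_im, sub_neg_eq_add, DD, DD]
  have h2 := DD_refl (φ := fun v => -(φ v - conj (φ (conj v)))) hs.neg hq
    (fun u hu h0 => by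
      have := ho u hu h0
      simp only [neg_im, sub_im, conj_im, map_neg, conj_conj]
      linarith) hw hr
  have h3 := DD_even (k := 2 * k)
    (φ := fun v => (φ v - conj (φ (conj v))) + (φ (-v) - conj (φ (conj (-v)))))
    (hs.add (ser2_neg hs)) hq (fun u _ => by rw [neg_neg, add_comm]) (fun u hu => by
      have := he u hu
      simp only [add_im, sub_im, conj_im, map_neg]
      linarith) hw
  have h4 := h1 w hw
  have h5 := h1 (-w) (by rwa [norm_neg])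
  have h6 := h1 (-conj w) (by rwa [norm_neg, norm_conj])
  rw [DD, DD, GG_neg, GG_neg, neg_im, neg_im] at h2
  rw [DD, GG_add hs (ser2_neg hs) hq (ser2_ring hq hw),
    ser2_GG q fun v => φ v - conj (φ (conj v)), add_im] at h3
  rw [map_neg] at h5
  rw [map_neg, conj_conj] at h6
  unfold DD at h4 h5 h6 ⊢
  linarith

end Pool.Agent.NapKL
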