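import Pool.Agent.Lib.MP_b71113_an.KL.Alt

/-! The sign condition in normalised position. -/

namespace Pool.Agent.NapKL

open Set Metric Complex ComplexConjugate

variable {ψ : ℂ → ℂ} {c q δ : ℝ}

theorem side1_arc {S : Set ℂ} (hS : IsPreconnected S) (h1 : ∀ w ∈ S, ‖w‖ = 1) {a s b d : ℝ}
    (h12 : a ≤ s) (h23 : s ≤ b) (h34 : b < d) (h41 : d < a + 2 * Real.pi)
    (m1 : ee a ∈ S) (m3 : ee b ∈ S) (m4 : ee d ∉ S) : ee s ∈ S := by
  rcases h12.eq_or_lt with rfl | h12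
  · exact m1
  rcases h23.eq_or_lt with rfl | h23
  · exact m3
  exact (alt hS h1 h12 h23 h34 h41 m1 m3).resolve_right m4

theorem side1_pi (t : ℝ) : ee (Real.pi + t) = -ee t := by
  rw [ee_add, ee_pi, neg_one_mul]

theorem side1_lt {A : ℂ} (hA : ‖A‖ = 1) (h : 0 < A.re) :
    ∃ l, -(Real.pi / 2) < l ∧ l < Real.pi / 2 ∧ A = ee l :=
  have h1 := abs_lt.1 (abs_arg_lt_pi_div_two_iff.2 (Or.inl h))
  ⟨_, h1.1, h1.2, (ee_arg hA).symm⟩

theorem side1_odd (h : Uni c ψ) {l σ t : ℝ} (l0 : 0 < l) (l1 : l < Real.pi / 2)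
    (σ0 : -(Real.pi / 2) < σ) (σ1 : σ < Real.pi / 2) (ht : (ψ (ee l)).im = c)
    (hb : (ψ (ee (-l))).im = -c) (hω : (ψ (-ee σ)).im = c)
    (hcap : ∀ u, ‖u‖ = 1 → u.re ≤ 0 → c - δ ≤ (ψ u).im) (h1 : (ψ 1).im ≤ c - 2 * δ)
    (h2 : (ψ (ee σ)).im ≤ c - 2 * δ) (hδ : 0 < δ) (hδc : δ ≤ c) (t0 : 0 ≤ t)
    (t1 : t ≤ Real.pi / 2) :
    (ψ (ee t)).im + (ψ (ee (-t))).im ≤ (ψ (-ee t)).im + (ψ (-ee (-t))).im := by
  have hπ := Real.pi_pos
  have hc := h.pos
  have le := fun s => abs_le.1 (h.le _ (norm_ee s))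
  have up : ∀ s, l ≤ s → s ≤ Real.pi + σ → c ≤ (ψ (ee s)).im := fun s a b => by
    refine (side1_arc (h.up c) (fun _ hw => hw.1) a b (d := Real.pi + (Real.pi + -l))
      (by linarith) (by linarith) ⟨norm_ee _, ht.ge⟩ ⟨norm_ee _, ?_⟩ fun hw => ?_).2
    · rw [side1_pi, hω]
    · have := hw.2
      rw [side1_pi, side1_pi, neg_neg, hb] at this
      linarith
  have hI := up (Real.pi / 2) l1.le (by linarith)
  have lo : ∀ m a s b, a ≤ s → s ≤ b → b < Real.pi / 2 → -Real.pi ≤ a → m < c →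
      (ψ (ee a)).im ≤ m → (ψ (ee b)).im ≤ m → (ψ (ee s)).im ≤ m :=
    fun m a s b k1 k2 k3 k4 k5 k6 k7 => (side1_arc (h.lo m) (fun _ hw => hw.1) k1 k2 k3
      (by linarith) ⟨norm_ee _, k6⟩ ⟨norm_ee _, k7⟩ fun hw => (k5.trans_le hI).not_ge hw.2).2
  have hre : 0 ≤ Real.cos t := Real.cos_nonneg_of_neg_pi_div_two_le_of_le (by linarith) t1
  have c1 := hcap (-ee t) (by rw [norm_neg, norm_ee]) (by rw [neg_re, ee_re]; linarith)
  have c2 := hcap (-ee (-t)) (by rw [norm_neg, norm_ee])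
    (by rw [neg_re, ee_re, Real.cos_neg]; linarith)
  have c3 := (le t).2
  rw [← ee_zero] at h1
  rcases le_or_gt t l with k | k
  · linarith [lo (c - 2 * δ) (-l) (-t) 0 (by linarith) (by linarith) (by linarith) (by linarith)
      (by linarith) (by linarith) h1]
  rcases le_or_gt σ (-t) with k' | k'
  · linarith [lo (c - 2 * δ) σ (-t) 0 k' (by linarith) (by linarith) (by linarith) (by linarith)
      h2 h1]
  have c4 := up (Real.pi + -t) (by linarith) (by linarith)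
  rw [side1_pi] at c4
  have e : ee (t - Real.pi) = -ee t := by
    rw [← neg_neg (ee (t - Real.pi)), ← side1_pi, add_sub_cancel]
  rcases le_or_gt c (ψ (-ee t)).im with k'' | k''
  · linarith [(le (-t)).2]
  · have c5 := (le (t - Real.pi)).1
    rw [e] at c5
    linarith [lo _ (t - Real.pi) (-t) (-l) (by linarith) (by linarith) (by linarith) (by linarith)
      k'' (by rw [e]) (by linarith)]

/-- Write `y = Im ψ`, `A = ee l` with `0 < l < π / 2`, `o = ee σ` with `|σ| < π / 2`,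
`u = ee t`, by symmetry `0 ≤ t ≤ π / 2`. The set `{c ≤ y}` contains `ee l`, `ee (π + σ)`, not
`ee (-l)`, so it contains `ee s` for `l ≤ s ≤ π + σ` (`alt`), in particular `I`. The set
`{y ≤ c - 2 δ}` contains `ee (-l)`, `1`, `ee σ`, not `I`, so it contains `ee (-t)` if `t ≤ l` or
`σ ≤ -t`; then use `hcap` at `-u`, `-conj u`. Otherwise `y (-conj u) = c` and
`y (conj u) ≤ y (-u)` by `alt` for `{y ≤ y (-u)}` with `t - π < -t < -l < π / 2`. -/
theorem side_odd (h : Uni c ψ) {A o : ℂ} (hA : ‖A‖ = 1) (hA1 : 0 < A.re) (hA2 : 0 < A.im)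
    (ho : ‖o‖ = 1) (ho1 : 0 < o.re) (ht : (ψ A).im = c) (hb : (ψ (conj A)).im = -c)
    (hω : (ψ (-o)).im = c) (hcap : ∀ u, ‖u‖ = 1 → u.re ≤ 0 → c - δ ≤ (ψ u).im)
    (h1 : (ψ 1).im ≤ c - 2 * δ) (h2 : (ψ o).im ≤ c - 2 * δ) (hδ : 0 < δ) (hδc : δ ≤ c)
    {u : ℂ} (hu : ‖u‖ = 1) (hr : 0 ≤ u.re) :
    (ψ u).im + (ψ (conj u)).im ≤ (ψ (-u)).im + (ψ (-conj u)).im := by
  obtain ⟨σ, σ0, σ1, rfl⟩ := side1_lt ho ho1
  have l1 := (abs_lt.1 (abs_arg_lt_pi_div_two_iff.2 (Or.inl hA1))).2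
  have l0 : 0 < arg A :=
    (arg_nonneg_iff.2 hA2.le).lt_of_ne' fun e => hA2.ne' (arg_eq_zero_iff.1 e).2
  rw [← ee_arg hA] at ht hb
  rw [conj_ee] at hb
  have t1 := abs_le.1 (abs_arg_le_pi_div_two_iff.2 hr)
  rw [← ee_arg hu, conj_ee]
  rcases le_total 0 (arg u) with t0 | t0
  · exact side1_odd h l0 l1 σ0 σ1 ht hb hω hcap h1 h2 hδ hδc t0 t1.2
  · have := side1_odd h l0 l1 σ0 σ1 ht hb hω hcap h1 h2 hδ hδc (neg_nonneg.2 t0)
      (neg_le.1 t1.1)
    rw [neg_neg] at this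
    linarith

/-- `DD_pair`; if `A.im < 0` apply `side_odd` to `Uni.flip`; `A.im = 0` is impossible -/
theorem side_geo (h : Uni c ψ) (hq : q ∈ Ioo (0 : ℝ) 1) {A o : ℂ} (hA : ‖A‖ = 1)
    (hA1 : 0 < A.re) (ho : ‖o‖ = 1) (ho1 : 0 < o.re) (ht : (ψ A).im = c)
    (hb : (ψ (conj A)).im = -c) (hω : (ψ (-o)).im = c)
    (hcap : ∀ u, ‖u‖ = 1 → u.re ≤ 0 → c - δ ≤ (ψ u).im) (h1 : (ψ 1).im ≤ c - 2 * δ)
    (h2 : (ψ o).im ≤ c - 2 * δ) (hδ : 0 < δ) (hδc : δ ≤ c) :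
    DD q ψ A + DD q ψ (conj A) ≤ δ := by
  refine DD_pair h.hc hq (fun u hu hr => ?_) (fun u hu => ?_) hA hA1.le
  · rcases lt_trichotomy A.im 0 with k | k | k
    · have := side_odd h.flip (A := conj A) (o := conj o) (δ := δ) (by simpa using hA) hA1
        (by simpa using k) (by simpa using ho) ho1 (by simpa using ht) (by simpa using hb)
        (by simpa using hω) (fun v hv hv' => by simpa using hcap (conj v) (by simpa using hv) hv')
        (by simpa using h1) (by simpa using h2) hδ hδc hu hr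
      simp only [neg_im, conj_im, neg_neg, conj_conj, map_neg] at this
      linarith
    · rw [conj_eq_iff_im.2 k] at hb
      linarith [h.pos]
    · exact side_odd h hA hA1 k ho ho1 ht hb hω hcap h1 h2 hδ hδc hu hr
  · have n1 : ‖conj u‖ = 1 := by simpa using hu
    have n2 : ‖-u‖ = 1 := by simpa using hu
    have n3 : ‖-conj u‖ = 1 := by simpa using hu
    rcases le_total u.re 0 with k | k
    · linarith [hcap _ hu k, hcap _ n1 k, (abs_le.1 (h.le _ n2)).1, (abs_le.1 (h.le _ n3)).1]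
    · linarith [hcap _ n2 (neg_nonpos.2 k), hcap _ n3 (neg_nonpos.2 k), (abs_le.1 (h.le _ hu)).1,
        (abs_le.1 (h.le _ n1)).1]

/-- the midpoint lies on every connected set that joins `A` to `conj A` and misses `-o` -/
theorem one_mem_of_conn {S : Set ℂ} (hS : IsPreconnected S) (h1 : ∀ w ∈ S, ‖w‖ = 1) {A o : ℂ}
    (hA1 : 0 < A.re) (ho : ‖o‖ = 1) (ho1 : 0 < o.re) (m1 : A ∈ S) (m2 : conj A ∈ S)
    (m3 : -o ∉ S) : (1 : ℂ) ∈ S := by
  obtain ⟨σ, σ0, σ1, rfl⟩ := side1_lt ho ho1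
  obtain ⟨l, l0, l1, rfl⟩ := side1_lt (h1 A m1) hA1
  rw [conj_ee] at m2
  rw [← side1_pi] at m3
  rw [← ee_zero]
  rcases le_total 0 l with k | k
  · exact side1_arc hS h1 (neg_nonpos.2 k) k (by linarith) (by linarith) m2 m1 m3
  · exact side1_arc hS h1 k (neg_nonneg.2 k) (by linarith) (by linarith) m1 m2 m3

/-- two points of the circle near `-ω` are rotated into conjugate position by their midpoint -/
theorem exists_mid {A B ω : ℂ} (hA : ‖A‖ = 1) (hB : ‖B‖ = 1) (hω : ‖ω‖ = 1)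
    (h1 : ‖A + ω‖ < 1 / 4) (h2 : ‖B + ω‖ < 1 / 4) : ∃ u : ℂ, ‖u‖ = 1 ∧
      conj u * B = conj (conj u * A) ∧ 0 < (conj u * A).re ∧ 0 < (-(conj u * ω)).re ∧
      ∀ v : ℂ, ‖v‖ = 1 → v.re ≤ 0 → 1 / 4 ≤ ‖u * v + ω‖ := by
  have one : ∀ {z : ℂ}, ‖z‖ = 1 → conj z * z = 1 := fun hz => by rw [conj_mul', hz]; simp
  have hN : ‖A + B‖ ≤ 2 := by linarith [norm_add_le A B]
  have k1 : 3 / 2 ≤ -(conj (A + B) * ω).re := by
    have e : conj (A + B) * ω = conj (A + ω + (B + ω)) * ω - 2 := by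
      simp only [map_add]
      linear_combination (-2) * one hω
    have := re_le_norm (conj (A + ω + (B + ω)) * ω)
    rw [norm_mul, hω, mul_one, norm_conj] at this
    rw [e, sub_re, re_ofNat]
    linarith [norm_add_le (A + ω) (B + ω)]
  have k2 : 0 < (conj (A + B) * A).re := by
    have := (abs_le.1 (abs_re_le_norm (conj (A + B) * (A + ω)))).1
    rw [norm_mul, norm_conj, mul_add, add_re] at this
    nlinarith [norm_nonneg (A + ω), norm_nonneg (A + B)]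
  have h0 : 0 < ‖A + B‖ := norm_pos_iff.2 fun e => by simp [e] at k2
  have hu : ‖(A + B) / (‖A + B‖ : ℂ)‖ = 1 := by
    rw [norm_div, norm_real, norm_norm, div_self h0.ne']
  have e : ∀ z, conj ((A + B) / (‖A + B‖ : ℂ)) * z = conj (A + B) * z / (‖A + B‖ : ℂ) := fun z => by
    rw [map_div₀, conj_ofReal, div_mul_eq_mul_div]
  have k3 : 1 / 4 ≤ (-(conj ((A + B) / (‖A + B‖ : ℂ)) * ω)).re := by
    rw [e, neg_re, div_ofReal_re, ← neg_div, le_div_iff₀ h0]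
    linarith
  refine ⟨_, hu, ?_, ?_, by linarith, fun v _ hv => ?_⟩
  · rw [e, e, map_div₀, conj_ofReal]
    congr 1
    simp only [map_add, map_mul, conj_conj]
    linear_combination one hB - one hA
  · rw [e, div_ofReal_re]
    exact div_pos k2 h0
  · generalize (A + B) / (‖A + B‖ : ℂ) = u at hu k3
    have := (abs_le.1 (abs_re_le_norm (conj u * (u * v + ω)))).1
    rw [norm_mul, norm_conj, hu, one_mul, mul_add, ← mul_assoc, one hu, one_mul, add_re] at this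
    rw [neg_re] at k3
    linarith

end Pool.Agent.NapKL
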