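import Pool.Agent.Lib.MP_b71113_an.KL.Side1

/-! The sign condition for centres near the top side, for all moduli. -/

namespace Pool.Agent.NapKL

open Set Metric Complex ComplexConjugate

variable {φ : ℂ → ℂ} {c : ℝ}

theorem side2_cont (h : HC φ) : ContinuousOn (fun w => (φ w).im) (closedBall 0 1) :=
  continuous_im.comp_continuousOn h.cont

/-- a modulus of continuity -/
theorem side2_mod (h : HC φ) {δ : ℝ} (hδ : 0 < δ) : ∃ η > 0, ∀ u v : ℂ, ‖u‖ = 1 → ‖v‖ = 1 →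
    ‖u - v‖ ≤ η → (φ u).im - (φ v).im ≤ δ := by
  obtain ⟨η, hη, H⟩ := Metric.uniformContinuousOn_iff_le.1
    ((isCompact_closedBall (0 : ℂ) 1).uniformContinuousOn_of_continuous (side2_cont h)) δ hδ
  refine ⟨η, hη, fun u v hu hv huv => ?_⟩
  have := H u (mem_closedBall_zero_iff.2 hu.le) v (mem_closedBall_zero_iff.2 hv.le)
    (by rwa [dist_eq_norm])
  exact (le_abs_self _).trans (by rwa [Real.dist_eq] at this)

/-- a closed part of the circle that misses the top side stays below it -/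
theorem side2_gap (h : Uni c φ) {K : Set ℂ} (hK : IsClosed K) (h1 : ∀ w ∈ K, ‖w‖ = 1)
    (h2 : ∀ w ∈ K, (φ w).im ≠ c) : ∃ t > 0, ∀ w ∈ K, (φ w).im ≤ c - t := by
  have hs : K ⊆ closedBall 0 1 := fun w hw => mem_closedBall_zero_iff.2 (h1 w hw).le
  obtain ⟨t, ht, H⟩ := ((isCompact_closedBall (0 : ℂ) 1).of_isClosed_subset hK hs).exists_forall_le'
    (f := fun w => c - (φ w).im) (continuousOn_const.sub ((side2_cont h.hc).mono hs)) (a := 0)
    fun w hw => sub_pos.2 (lt_of_le_of_ne (abs_le.1 (h.le w (h1 w hw))).2 (h2 w hw))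
  exact ⟨t, ht, fun w hw => by linarith [H w hw]⟩

theorem side2_anti (h : Uni c φ) (h0 : (φ 0).im = 0) :
    ∃ t > 0, ∀ ω : ℂ, ‖ω‖ = 1 → (φ ω).im = c → (φ (-ω)).im ≤ c - t := by
  have hc : ContinuousOn (fun w : ℂ => (φ (-w)).im) (sphere 0 1) :=
    (side2_cont h.hc).comp continuous_neg.continuousOn fun w hw =>
      mem_closedBall_zero_iff.2 (by rw [norm_neg, mem_sphere_zero_iff_norm.1 hw])
  obtain ⟨t, ht, H⟩ := side2_gap h (hc.preimage_isClosed_of_isClosed isClosed_sphere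
    (isClosed_singleton (x := c))) (fun w hw => mem_sphere_zero_iff_norm.1 hw.1) fun w hw => by
      have := h.not_antipodal h0 (s := -w) (by rw [norm_neg, mem_sphere_zero_iff_norm.1 hw.1]) hw.2
      rwa [neg_neg] at this
  refine ⟨t, ht, fun ω hω hc => H _ ⟨mem_sphere_zero_iff_norm.2 (by rwa [norm_neg]), ?_⟩⟩
  simpa only [mem_preimage, neg_neg, mem_singleton_iff] using hc

/-- One end point. Constants: `κ₂ > 0` below the distance of top and bottom side, `κ' = min κ κ₂`,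
`y ≤ c - h₀` on `S ∩ {κ' κ₂ / 8 ≤ ‖ξ - a‖}` (compact, misses the top side), `y (-ω) ≤ c - h₁` for
top points `ω` (`Uni.not_antipodal`, compactness), `δ = min d c (h₀ / 2) (h₁ / 2)`, `η < κ'` a
modulus of continuity for `δ`, `16 (1 - r₀) ≤ η`. With `M = mob (r ω)`, `A = mob (-(r ω)) a`:
`mob_cap` puts `A` and `b` in the cap `‖· + ω‖ < 1 / 4`; `exists_mid`; `side_geo` for
`ψ v = φ (M (u v))`, `o = -(conj u ω)`; `mob_fix`; `one_mem_of_conn` for the image of `S` under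
`v ↦ conj u * mob (-(r ω)) v`; `mob_mid` with `mob_rot`; `GG_rot`. -/
theorem side_end (h : Uni c φ) (h0 : (φ 0).im = 0) {a : ℂ} {S : Set ℂ} (ha : Arc c φ a S)
    {κ d : ℝ} (hκ : 0 < κ) (hd : 0 < d) : ∃ r₀ ∈ Ioo (0 : ℝ) 1, ∀ r ∈ Ico r₀ 1, ∀ ω : ℂ,
      ‖ω‖ = 1 → (φ ω).im = c → κ ≤ ‖ω - a‖ → ∀ q ∈ Ioo (0 : ℝ) 1, ∀ b : ℂ, ‖b‖ = 1 →
        (φ (mob (r * ω) b)).im = -c →
          DD q (fun v => φ (mob (r * ω) v)) (mob (-(r * ω)) a) +
            DD q (fun v => φ (mob (r * ω) v)) b ≤ d := by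
  obtain ⟨κ₂, hκ₂, H₂⟩ := side2_mod h.hc h.pos
  have far : ∀ s s' : ℂ, ‖s‖ = 1 → ‖s'‖ = 1 → (φ s).im = c → (φ s').im = -c → κ₂ ≤ ‖s - s'‖ := by
    intro s s' hs hs' e e'
    by_contra hlt
    have := H₂ s s' hs hs' (not_le.1 hlt).le
    linarith [h.pos]
  have hκ' : 0 < min κ κ₂ := lt_min hκ hκ₂
  have ta : (φ a).im = c := (ha.top a ha.mem).2 rfl
  have na : ‖a‖ = 1 := ha.sub a ha.mem
  obtain ⟨h₀, hh₀, H₀⟩ := side2_gap h (K := S ∩ {ξ | min κ κ₂ * κ₂ / 8 ≤ ‖ξ - a‖})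
    (ha.cl.inter (isClosed_le continuous_const (continuous_id.sub continuous_const).norm))
    (fun w hw => ha.sub w hw.1) fun w hw e => by
      have h2 : min κ κ₂ * κ₂ / 8 ≤ ‖w - a‖ := hw.2
      rw [(ha.top w hw.1).1 e, sub_self, norm_zero] at h2
      have : 0 < min κ κ₂ * κ₂ / 8 := by positivity
      linarith
  obtain ⟨h₁, hh₁, H₁⟩ := side2_anti h h0
  obtain ⟨δ, hδ, δd, δc, δ0, δ1⟩ : ∃ δ > 0, δ ≤ d ∧ δ ≤ c ∧ 2 * δ ≤ h₀ ∧ 2 * δ ≤ h₁ := by
    refine ⟨min (min d c) (min (h₀ / 2) (h₁ / 2)),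
      lt_min (lt_min hd h.pos) (lt_min (half_pos hh₀) (half_pos hh₁)),
      (min_le_left _ _).trans (min_le_left _ _), (min_le_left _ _).trans (min_le_right _ _), ?_, ?_⟩
    · linarith [(min_le_right (min d c) _).trans (min_le_left (h₀ / 2) (h₁ / 2))]
    · linarith [(min_le_right (min d c) _).trans (min_le_right (h₀ / 2) (h₁ / 2))]
  obtain ⟨η₁, hη₁, Hη⟩ := side2_mod h.hc hδ
  obtain ⟨η, hη, η1, η2, η3⟩ : ∃ η > 0, η ≤ η₁ ∧ η < min κ κ₂ ∧ η ≤ 1 := by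
    refine ⟨min (min η₁ (min κ κ₂ / 2)) 1, lt_min (lt_min hη₁ (half_pos hκ')) one_pos,
      (min_le_left _ _).trans (min_le_left _ _), ?_, min_le_right _ _⟩
    exact ((min_le_left _ _).trans (min_le_right _ _)).trans_lt (half_lt_self hκ')
  refine ⟨1 - η / 16, ⟨by linarith, by linarith⟩, fun r hr ω hω tω aω q hq b nb tb => ?_⟩
  have r0 : 0 ≤ r := by linarith [hr.1]
  have nM : ‖(r : ℂ) * ω‖ < 1 := by
    rw [norm_mul, hω, mul_one, norm_real, Real.norm_of_nonneg r0]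
    exact hr.2
  have nN : ‖-((r : ℂ) * ω)‖ < 1 := by rwa [norm_neg]
  have cap : ∀ w : ℂ, ‖w‖ = 1 → 1 / 4 ≤ ‖w + ω‖ → ‖mob (r * ω) w - ω‖ ≤ η := fun w hw h4 => by
    have := mob_cap hω r0 hr.2 hw.le (by norm_num : (0 : ℝ) < 1 / 4) h4
    linarith [hr.1]
  set A := mob (-(r * ω)) a with hA
  have nA : ‖A‖ = 1 := (norm_mob_eq nN na.le).2 na
  have MA : mob (r * ω) A = a := mob_mob_neg nM na.le
  have nb' : ‖mob (r * ω) b‖ = 1 := (norm_mob_eq nM nb.le).2 nb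
  have fa : min κ κ₂ ≤ ‖a - ω‖ := by
    rw [norm_sub_rev]
    exact (min_le_left _ _).trans aω
  have fb : min κ κ₂ ≤ ‖mob (r * ω) b - ω‖ := by
    rw [norm_sub_rev]
    exact (min_le_right _ _).trans (far _ _ hω nb' tω tb)
  obtain ⟨u, nu, e1, p1, p2, hv⟩ := exists_mid nA nb hω
    (not_le.1 fun h4 => by linarith [MA ▸ cap A nA h4]) (not_le.1 fun h4 => by linarith [cap b nb h4])
  have uu : ∀ w : ℂ, u * (conj u * w) = w := fun w => by
    rw [← mul_assoc, mul_conj, normSq_eq_norm_sq, nu]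
    simp
  have nc : ∀ w : ℂ, ‖conj u * w‖ = ‖w‖ := fun w => by rw [norm_mul, norm_conj, nu, one_mul]
  have nm : ∀ w : ℂ, ‖u * w‖ = ‖w‖ := fun w => by rw [norm_mul, nu, one_mul]
  have fix := mob_fix hω r0 hr.2
  have hS : mob (r * ω) u ∈ S := by
    obtain ⟨s, hs, e⟩ := one_mem_of_conn (S := (fun v => conj u * mob (-(r * ω)) v) '' S)
      (ha.cn.image _ (continuousOn_const.mul ((mob_contOn nN).mono fun w hw =>
        mem_closedBall_zero_iff.2 (ha.sub w hw).le)))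
      (by
        rintro _ ⟨w, hw, rfl⟩
        rw [nc]
        exact (norm_mob_eq nN (ha.sub w hw).le).2 (ha.sub w hw))
      p1 (by rw [norm_neg, nc, hω]) p2 ⟨a, ha.mem, rfl⟩
      ⟨_, ha.bot _ nb' tb, by simp only [mob_neg_mob nM nb.le, e1]⟩ (by
        rintro ⟨s, hs, e⟩
        have e2 := congrArg (fun w => mob (r * ω) (u * w)) e
        simp only [neg_neg, uu, mob_mob_neg nM (ha.sub s hs).le, fix.1] at e2
        rw [(ha.top ω (e2 ▸ hs)).1 tω, sub_self, norm_zero] at aω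
        linarith)
    have e2 := congrArg (fun w => mob (r * ω) (u * w)) e
    simp only [uu, mob_mob_neg nM (ha.sub s hs).le, mul_one] at e2
    exact e2 ▸ hs
  have rot : ∀ v : ℂ, u * mob (r * (conj u * ω)) v = mob (r * ω) (u * v) := fun v => by
    rw [mob_rot _ v nu, mul_left_comm (conj u)]
  have hmid : min κ κ₂ * κ₂ / 8 ≤ ‖mob (r * ω) u - a‖ := by
    have := mob_mid (ω := conj u * ω) (r := r) (by rw [nc, hω])
      (by rw [neg_re] at p2; linarith) r0 hr.2 ((nc A).trans nA) hκ'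
      (by rw [← nm, mul_sub, rot, uu, uu, MA]; exact fa)
      (by rw [← nm, mul_sub, rot, ← e1, uu, uu]; exact fb)
    rw [← nm (_ - _), ← nm (mob _ 1 - _), mul_sub, mul_sub, rot, rot, rot, ← e1, uu, uu, MA,
      mul_one] at this
    have h3 := mul_le_mul_of_nonneg_left (far _ _ na nb' ta tb) hκ'.le
    linarith
  have key := side_geo (δ := δ) ((h.mob nM).rot nu) hq (A := conj u * A) (o := -(conj u * ω))
    ((nc A).trans nA) p1 (by rw [norm_neg, nc, hω]) p2 (by rw [uu, MA, ta])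
    (by rw [← e1, uu, tb]) (by rw [neg_neg, uu, fix.1, tω])
    (fun v nv hr' => by
      have n1 : ‖u * v‖ = 1 := (nm v).trans nv
      have := Hη ω _ hω ((norm_mob_eq nM n1.le).2 n1)
        (by rw [norm_sub_rev]; exact (cap _ n1 (hv v nv hr')).trans η1)
      linarith)
    (by rw [mul_one]; linarith [H₀ _ ⟨hS, hmid⟩])
    (by rw [mul_neg, uu, fix.2]; linarith [H₁ ω hω tω]) hδ δc
  have g : ∀ w, DD q (fun v => φ (mob (r * ω) (u * v))) w =
      DD q (fun v => φ (mob (r * ω) v)) (u * w) := fun w =>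
    congrArg im (GG_rot q (fun v => φ (mob (r * ω) v)) nu w)
  rw [g, g, ← e1, uu, uu] at key
  exact key.trans δd

/-- `side_end` for the end point that is far from `ω`, then `Uni.order` -/
theorem side (h : Uni c φ) (h0 : (φ 0).im = 0) {a e : ℂ} {S S' : Set ℂ} (ha : Arc c φ a S)
    (he : Arc c φ e S') (hne : a ≠ e) {d : ℝ} (hd : 0 < d) : ∃ r₀ ∈ Ioo (0 : ℝ) 1,
      ∀ r ∈ Ico r₀ 1, ∀ ω : ℂ, ‖ω‖ = 1 → (φ ω).im = c → ∀ q ∈ Ioo (0 : ℝ) 1, ∀ b : ℂ,
        ‖b‖ = 1 → (φ (mob (r * ω) b)).im = -c → DD q (fun v => φ (mob (r * ω) v)) b ≤ d := by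
  have hκ : 0 < ‖a - e‖ / 2 := half_pos (norm_pos_iff.2 (sub_ne_zero.2 hne))
  obtain ⟨r₁, hr₁, H₁⟩ := side_end h h0 ha hκ hd
  obtain ⟨r₂, hr₂, H₂⟩ := side_end h h0 he hκ hd
  refine ⟨max r₁ r₂, ⟨lt_max_of_lt_left hr₁.1, max_lt hr₁.2 hr₂.2⟩,
    fun r hr ω hω tω q hq b nb tb => ?_⟩
  have r0 : 0 ≤ r := hr₁.1.le.trans ((le_max_left _ _).trans hr.1)
  have nM : ‖(r : ℂ) * ω‖ < 1 := by
    rw [norm_mul, hω, mul_one, norm_real, Real.norm_of_nonneg r0]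
    exact hr.2
  have ord : ∀ {x : ℂ} {T : Set ℂ}, Arc c φ x T → DD q (fun v => φ (mob (r * ω) v)) b ≤
      DD q (fun v => φ (mob (r * ω) v)) (mob (-(r * ω)) x) := fun {x T} hx =>
    have nx := hx.sub x hx.mem
    (h.mob nM).order hq ((norm_mob_eq (by rwa [norm_neg]) nx.le).2 nx) nb
      (by rw [mob_mob_neg nM nx.le]; exact (hx.top x hx.mem).2 rfl) tb
  by_cases hf : ‖a - e‖ / 2 ≤ ‖ω - a‖
  · linarith [H₁ r ⟨(le_max_left _ _).trans hr.1, hr.2⟩ ω hω tω hf q hq b nb tb, ord ha]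
  · have hf' : ‖a - e‖ / 2 ≤ ‖ω - e‖ := by
      have := norm_sub_le_norm_sub_add_norm_sub a ω e
      rw [norm_sub_rev a ω] at this
      linarith [not_le.1 hf]
    linarith [H₂ r ⟨(le_max_right _ _).trans hr.1, hr.2⟩ ω hω tω hf' q hq b nb tb, ord he]

end Pool.Agent.NapKL
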